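import Pool.Agent.H10.S6U.Pt
import Pool.Agent.H83.OCG.Time2

/-!
# Flat contexts in dimension two: the statement at one context

`S` is the own slope relative to the frame of the context, `G` the variable which determines it,
`Pt` the exact point with the labels of the boxes above it (`(Pt, b)` determines the time, `G`, the
position and the own velocity across the own frame).
-/

set_option autoImplicit false

namespace Pool.KG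

open Finset Real
open Pool.Agent.H49.Ent Pool.Agent.H32.Dense Pool.STK Pool.KA Pool.KSAT Pool.K2S
open Pool.S6U Pool.OCG

/-- The data at a flat context. -/
structure FltDat {J : ℕ} (F : Fam 2 J) (p : F.Ω → ℝ) (w : ℕ) (c : Fin 2 → ℕ)
    (M : F.Ω → Fin 2 → Fin 2 → ℝ) (S : F.Ω → ℝ) {Γ P : Type} (G : F.Ω → Γ) (Pt : F.Ω → P)
    (X : ℕ) (K : ℝ) : Prop where
  law : IsLaw p
  dM : Det p (slam F w) M
  dS : Det p (fun ω => (F.blb w c M ω, G ω)) S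
  hS : ∀ ω, 0 < p ω → |S ω| ≤ 4
  dP : Det p (fun ω => (Pt ω, F.blb w c M ω)) (fun ω => (G ω, F.T ω))
  str : ∃ u v W : F.Ω → ℝ, Det p (fun ω => (Pt ω, F.blb w c M ω)) (fun ω => (u ω, (v ω, W ω))) ∧
    ∀ ω, 0 < p ω → |F.mx w c M ω 0 - u ω| * 2 ^ X ≤ K ∧ |F.mx w c M ω 1 - v ω| * 2 ^ X ≤ K ∧
      |F.md c M ω 1 - S ω * F.md c M ω 0 - W ω| * 2 ^ X ≤ K

/-- The hypotheses at a flat context. -/
structure FltHyp {J : ℕ} (F : Fam 2 J) (p : F.Ω → ℝ) (w : ℕ) (c : Fin 2 → ℕ)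
    (M : F.Ω → Fin 2 → Fin 2 → ℝ) (S : F.Ω → ℝ) {Γ P : Type} (G : F.Ω → Γ) (Pt : F.Ω → P)
    (X k' : ℕ) (x₁ κ ϖ ι ε₂ ca η : ℝ) : Prop where
  /-- the times of two samples of one line, the own slope of the second one, and the line -/
  tm : dp (dbl p (slam F w)) (fun x => (F.T x.1, (G x.2, F.T x.2))) (fun x => F.lbr w c M X x.1)
    (fun x => F.blb w c M x.1) ≤ ι * X
  /-- the velocity and the position -/
  b0 : dp p (fun ω => (Uni.dg X (fun ω => F.md c M ω 0) ω, Uni.dg X (fun ω => F.md c M ω 1) ω))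
    (fun ω => (Uni.dg X (fun ω => F.mx w c M ω 0) ω, Uni.dg X (fun ω => F.mx w c M ω 1) ω))
    (fun ω => (F.blb w c M ω, F.T ω)) ≤ ι * X
  tim : ∑ i ∈ Finset.range X, nr p (slam F w) (F.wt w) k' i ≤ η * X
  act : ∀ E : F.Ω → Prop, ϖ ≤ Pe p E → ca * ⌊κ * X⌋₊ * Real.log 2 ≤
    CH (Pool.Agent.H49.Ent.cond p E True) (Uni.dg ⌊κ * X⌋₊ (fun ω => F.md c M ω 0))
      (fun ω => (Pt ω, F.blb w c M ω))
  th : Pool.KAF.Pr (dbl p (slam F w)) {v | |S v.2 - S v.1| < (2 : ℝ) ^ (-(x₁ * X))} ≤ ε₂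

/-- The conclusion at a flat context (the form of `Pool.UEG.Cc2`). -/
structure FltCc {J : ℕ} (F : Fam 2 J) (p : F.Ω → ℝ) (w : ℕ) (c : Fin 2 → ℕ)
    (M : F.Ω → Fin 2 → Fin 2 → ℝ) (S : F.Ω → ℝ) {Γ : Type} (G : F.Ω → Γ) (X : ℕ) (ε : ℝ) :
    Prop where
  po : (2 - ε) * X * Real.log 2 ≤
    CH p (fun ω => (Uni.dg X (fun ω => F.mx w c M ω 0) ω, Uni.dg X (fun ω => F.mx w c M ω 1) ω))
      (fun ω => (F.blb w c M ω, F.T ω))
  nu : (1 - ε) * X * Real.log 2 ≤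
    CH p (Uni.dg X (tnu F w c M 0 1 S)) (fun ω => (vd F 0 1 w c M X ω, cdn F w c M G ω))
  pr : (2 - ε) * X * Real.log 2 ≤
    CH p (fun ω => (Uni.dg X (tnu F w c M 0 1 S) ω, Uni.dg X (fun ω => F.mx w c M ω 0) ω))
      (cdn F w c M G)

/-- **The flat step at one context.** -/
def FltStmt : Prop :=
  ∀ ε ca κ K : ℝ, 0 < ε → 0 < ca → 0 < κ → κ ≤ 1 → 0 ≤ K → ∃ x₁ ϖ ε₂ : ℝ, 0 < x₁ ∧ 0 < ϖ ∧
    0 < ε₂ ∧ ∀ k' : ℕ, ∃ (ι : ℝ) (X₀ : ℕ), 0 < ι ∧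
    ∀ (J : ℕ) (F : Fam 2 J) (p : F.Ω → ℝ) (w : ℕ) (c : Fin 2 → ℕ)
      (M : F.Ω → Fin 2 → Fin 2 → ℝ) (S : F.Ω → ℝ) (Γ P : Type) (G : F.Ω → Γ) (Pt : F.Ω → P)
      (X : ℕ) (η : ℝ), X₀ ≤ X → FltDat F p w c M S G Pt X K →
      FltHyp F p w c M S G Pt X k' x₁ κ ϖ ι ε₂ ca η →
      FltCc F p w c M S G X (ε + 2 * κ + 6 * η)

end Pool.KG
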