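import Pool.Agent.H68.KG.FltA
import Pool.Agent.H68.KG.FltS

/-!
# Flat contexts in dimension two: proof of the flat step at one context
-/

set_option autoImplicit false

namespace Pool.KG

open Finset Real
open Pool.Agent.H49.Ent Pool.Agent.H32.Dense Pool.STK Pool.KA Pool.KSAT Pool.K2S
open Pool.S6U Pool.OCG Pool.PLV

section near

variable {Ω T : Type} [Fintype Ω] {p : Ω → ℝ}

/-- Digits of numbers which are near. -/
theorem CH_near (hp : IsLaw p) {X : ℕ} {x : Ω → ℝ} {W : Ω → T} {C : ℝ}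
    (h : ∀ ω ω', 0 < p ω → 0 < p ω' → W ω = W ω' →
      |(2 : ℝ) ^ X * x ω - (2 : ℝ) ^ X * x ω'| ≤ C) :
    CH p (Uni.dg X x) W ≤ Real.log (2 * C + 3) := by
  have key := CH_int hp (Uni.dg X x) W (c := C + 1) (by
    intro ω ω' hω hω' e
    exact Plk.floor_sub_lt (h ω ω' hω hω' e))
  refine key.trans (le_of_eq ?_)
  congr 1
  ring

/-- Two variables with the same digits. -/
theorem dg_near {X : ℕ} {x : Ω → ℝ} {ω ω' : Ω} (h : Uni.dg X x ω = Uni.dg X x ω') :
    |(2 : ℝ) ^ X * x ω - (2 : ℝ) ^ X * x ω'| ≤ 1 :=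
  Plk.abs_sub_lt_of_floor h

end near

section main

variable {J : ℕ} {F : Fam 2 J} {p : F.Ω → ℝ} {w : ℕ} {c : Fin 2 → ℕ}
  {M : F.Ω → Fin 2 → Fin 2 → ℝ} {S : F.Ω → ℝ} {Γ P : Type} {G : F.Ω → Γ} {Pt : F.Ω → P}
  {X : ℕ} {K : ℝ}

/-- The position of the rounded line. -/
noncomputable def ry (F : Fam 2 J) (w : ℕ) (c : Fin 2 → ℕ) (M : F.Ω → Fin 2 → Fin 2 → ℝ) (X : ℕ)
    (i : Fin 2) (ω : F.Ω) : ℝ := rmu F w c M X 0 i ω + F.wt w ω * rmd F c M X 0 i ω

theorem rmu_near (i : Fin 2) (ω : F.Ω) :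
    |rmu F w c M X 0 i ω - F.mu w (fun i => c i + w) M ω i| ≤ 1 / 2 ^ X := by
  have h := rd_near (X := X) (r := 0) (Nat.zero_le _) (F.mu w (fun i => c i + w) M ω i)
  have h1 := Box.mu_mem F w (fun i => c i + w) M ω i
  rw [pow_zero, one_mul, Nat.sub_zero, Int.fract_eq_self.2 h1] at h
  exact h

theorem rmd_near (i : Fin 2) (ω : F.Ω) :
    |rmd F c M X 0 i ω - F.md c M ω i| ≤ 1 / 2 ^ X := by
  have h := rd_near (X := X) (r := 0) (Nat.zero_le _) (F.md c M ω i)
  have h1 := Box.md_mem F c M ω i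
  rw [pow_zero, one_mul, Nat.sub_zero, Int.fract_eq_self.2 h1] at h
  exact h

theorem ry_near (i : Fin 2) (ω : F.Ω) :
    |ry F w c M X i ω - F.mx w c M ω i| ≤ 2 / 2 ^ X := by
  have h1 := rmu_near (F := F) (w := w) (c := c) (M := M) (X := X) i ω
  have h2 := rmd_near (F := F) (c := c) (M := M) (X := X) i ω
  have t0 := Lab.wt_mem F w ω
  have e : ry F w c M X i ω - F.mx w c M ω i =
      (rmu F w c M X 0 i ω - F.mu w (fun i => c i + w) M ω i) +
      F.wt w ω * (rmd F c M X 0 i ω - F.md c M ω i) := by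
    unfold ry Fam.mx
    ring
  have h3 : |F.wt w ω * (rmd F c M X 0 i ω - F.md c M ω i)| ≤ 1 / 2 ^ X := by
    rw [abs_mul, abs_of_nonneg t0.1]
    have := mul_le_mul t0.2.le h2 (abs_nonneg _) zero_le_one
    linarith only [this]
  rw [e]
  refine (abs_add_le _ _).trans ?_
  have e2 : (2 : ℝ) / 2 ^ X = 1 / 2 ^ X + 1 / 2 ^ X := by ring
  rw [e2]
  exact add_le_add h1 h3

theorem ry_near' (i : Fin 2) (ω : F.Ω) :
    |(2 : ℝ) ^ X * ry F w c M X i ω - 2 ^ X * F.mx w c M ω i| ≤ 2 := by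
  have h := ry_near (F := F) (w := w) (c := c) (M := M) (X := X) i ω
  rw [← mul_sub, abs_mul, abs_of_pos (by positivity : (0 : ℝ) < 2 ^ X)]
  calc (2 : ℝ) ^ X * |ry F w c M X i ω - F.mx w c M ω i| ≤ 2 ^ X * (2 / 2 ^ X) :=
        mul_le_mul_of_nonneg_left h (by positivity)
    _ = 2 := by field_simp

/-- The rounded position from the position. -/
theorem CH_ry {T : Type} (hp : IsLaw p) (i : Fin 2) (Z : F.Ω → T) :
    CH p (Uni.dg X (ry F w c M X i)) (fun ω => (Uni.dg X (fun ω => F.mx w c M ω i) ω, Z ω)) ≤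
      Real.log 13 := by
  have key := CH_near hp (X := X) (x := ry F w c M X i)
    (W := fun ω => (Uni.dg X (fun ω => F.mx w c M ω i) ω, Z ω)) (C := 5) (by
      intro ω ω' _ _ e
      have e1 := dg_near (X := X) (x := fun ω => F.mx w c M ω i) (ω := ω) (ω' := ω')
        (Prod.ext_iff.mp e).1
      have a1 := ry_near' (F := F) (w := w) (c := c) (M := M) (X := X) i ω
      have a2 := ry_near' (F := F) (w := w) (c := c) (M := M) (X := X) i ω'
      rw [abs_le] at e1 a1 a2 ⊢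
      constructor <;> linarith only [e1, a1, a2, e1.1, e1.2, a1.1, a1.2, a2.1, a2.2])
  refine key.trans (le_of_eq ?_)
  norm_num

/-- The position from the rounded position. -/
theorem CH_ry' {T : Type} (hp : IsLaw p) (i : Fin 2) (Z : F.Ω → T) :
    CH p (Uni.dg X (fun ω => F.mx w c M ω i)) (fun ω => (Uni.dg X (ry F w c M X i) ω, Z ω)) ≤
      Real.log 13 := by
  have key := CH_near hp (X := X) (x := fun ω => F.mx w c M ω i)
    (W := fun ω => (Uni.dg X (ry F w c M X i) ω, Z ω)) (C := 5) (by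
      intro ω ω' _ _ e
      have e1 := dg_near (Prod.ext_iff.mp e).1
      have a1 := ry_near' (F := F) (w := w) (c := c) (M := M) (X := X) i ω
      have a2 := ry_near' (F := F) (w := w) (c := c) (M := M) (X := X) i ω'
      rw [abs_le] at e1 a1 a2 ⊢
      constructor <;> linarith only [e1, a1, a2, e1.1, e1.2, a1.1, a1.2, a2.1, a2.2])
  refine key.trans (le_of_eq ?_)
  norm_num

/-- The second coordinate from the row and the first coordinate. -/
theorem CH_row {T : Type} (hp : IsLaw p) (hS4 : ∀ ω, 0 < p ω → |S ω| ≤ 4) {Z : F.Ω → T}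
    (hS : Det p Z S) :
    CH p (Uni.dg X (fun ω => F.mx w c M ω 1))
      (fun ω => ((Uni.dg X (tnu F w c M 0 1 S) ω, Uni.dg X (fun ω => F.mx w c M ω 0) ω), Z ω)) ≤
      Real.log 13 := by
  have key := CH_near hp (X := X) (x := fun ω => F.mx w c M ω 1)
    (W := fun ω => ((Uni.dg X (tnu F w c M 0 1 S) ω, Uni.dg X (fun ω => F.mx w c M ω 0) ω), Z ω))
    (C := 5) (by
      intro ω ω' hω hω' e
      have e0 := Prod.ext_iff.mp e
      have e1 := dg_near (Prod.ext_iff.mp e0.1).1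
      have e2 := dg_near (X := X) (x := fun ω => F.mx w c M ω 0) (ω := ω) (ω' := ω')
        (Prod.ext_iff.mp e0.1).2
      have e3 : S ω = S ω' := hS ω ω' hω hω' e0.2
      have k4 := hS4 ω hω
      have e : (2 : ℝ) ^ X * F.mx w c M ω 1 - 2 ^ X * F.mx w c M ω' 1 =
          (2 ^ X * tnu F w c M 0 1 S ω - 2 ^ X * tnu F w c M 0 1 S ω') +
          S ω * (2 ^ X * F.mx w c M ω 0 - 2 ^ X * F.mx w c M ω' 0) := by
        unfold tnu
        rw [← e3]
        ring
      show |(2 : ℝ) ^ X * F.mx w c M ω 1 - 2 ^ X * F.mx w c M ω' 1| ≤ 5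
      rw [e]
      have k5 : |S ω * (2 ^ X * F.mx w c M ω 0 - 2 ^ X * F.mx w c M ω' 0)| ≤ 4 * 1 := by
        rw [abs_mul]
        exact mul_le_mul k4 e2 (abs_nonneg _) (by norm_num)
      refine (abs_add_le _ _).trans ?_
      linarith only [e1, k5])
  refine key.trans (le_of_eq ?_)
  norm_num

/-- The second coordinate from the row and the line data. -/
theorem CH_row' {T : Type} (hp : IsLaw p) (hS4 : ∀ ω, 0 < p ω → |S ω| ≤ 4) {Z : F.Ω → T}
    (hS : Det p Z S) (hT : Det p Z F.T) :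
    CH p (Uni.dg X (fun ω => F.mx w c M ω 1))
      (fun ω => (Uni.dg X (tnu F w c M 0 1 S) ω, (vd F 0 1 w c M X ω, Z ω))) ≤
      Real.log 21 := by
  have key := CH_near hp (X := X) (x := fun ω => F.mx w c M ω 1)
    (W := fun ω => (Uni.dg X (tnu F w c M 0 1 S) ω, (vd F 0 1 w c M X ω, Z ω)))
    (C := 9) (by
      intro ω ω' hω hω' e
      have e0 := Prod.ext_iff.mp e
      have e1 := dg_near e0.1
      have e00 := Prod.ext_iff.mp e0.2
      have e01 := Prod.ext_iff.mp e00.1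
      have e2 := dg_near (X := X) (x := fun ω => F.mu w (fun i => c i + w) M ω 0) (ω := ω)
        (ω' := ω') e01.1
      have e4 := dg_near (X := X) (x := fun ω => F.md c M ω 0) (ω := ω) (ω' := ω')
        (Prod.ext_iff.mp e01.2).1
      have e3 : S ω = S ω' := hS ω ω' hω hω' e00.2
      have e5 : F.wt w ω = F.wt w ω' := wt_det (hT ω ω' hω hω' e00.2)
      have k4 := hS4 ω hω
      have t0 := Lab.wt_mem F w ω
      have e : (2 : ℝ) ^ X * F.mx w c M ω 1 - 2 ^ X * F.mx w c M ω' 1 =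
          (2 ^ X * tnu F w c M 0 1 S ω - 2 ^ X * tnu F w c M 0 1 S ω') +
          S ω * ((2 ^ X * F.mu w (fun i => c i + w) M ω 0 -
            2 ^ X * F.mu w (fun i => c i + w) M ω' 0) +
            F.wt w ω * (2 ^ X * F.md c M ω 0 - 2 ^ X * F.md c M ω' 0)) := by
        unfold tnu
        rw [← e3]
        unfold Fam.mx
        rw [← e5]
        ring
      show |(2 : ℝ) ^ X * F.mx w c M ω 1 - 2 ^ X * F.mx w c M ω' 1| ≤ 9
      rw [e]
      have k6 : |F.wt w ω * (2 ^ X * F.md c M ω 0 - 2 ^ X * F.md c M ω' 0)| ≤ 1 * 1 := by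
        rw [abs_mul, abs_of_nonneg t0.1]
        exact mul_le_mul t0.2.le e4 (abs_nonneg _) (by norm_num)
      have k5 : |S ω * ((2 ^ X * F.mu w (fun i => c i + w) M ω 0 -
            2 ^ X * F.mu w (fun i => c i + w) M ω' 0) +
            F.wt w ω * (2 ^ X * F.md c M ω 0 - 2 ^ X * F.md c M ω' 0))| ≤ 4 * 2 := by
        rw [abs_mul]
        refine mul_le_mul k4 ?_ (abs_nonneg _) (by norm_num)
        refine (abs_add_le _ _).trans ?_
        linarith only [e2, k6]
      refine (abs_add_le _ _).trans ?_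
      linarith only [e1, k5])
  refine key.trans (le_of_eq ?_)
  norm_num

/-- The position at the beginning from the position at the time and the velocity. -/
theorem CH_mu {T : Type} (hp : IsLaw p) (i : Fin 2) {Z : F.Ω → T} (hT : Det p Z F.T) :
    CH p (Uni.dg X (fun ω => F.mu w (fun i => c i + w) M ω i))
      (fun ω => (Uni.dg X (fun ω => F.mx w c M ω i) ω, (Uni.dg X (fun ω => F.md c M ω i) ω,
        Z ω))) ≤ Real.log 7 := by
  have key := CH_near hp (X := X) (x := fun ω => F.mu w (fun i => c i + w) M ω i)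
    (W := fun ω => (Uni.dg X (fun ω => F.mx w c M ω i) ω, (Uni.dg X (fun ω => F.md c M ω i) ω,
        Z ω))) (C := 2) (by
      intro ω ω' hω hω' e
      have e0 := Prod.ext_iff.mp e
      have e1 := dg_near (X := X) (x := fun ω => F.mx w c M ω i) (ω := ω) (ω' := ω') e0.1
      have e00 := Prod.ext_iff.mp e0.2
      have e4 := dg_near (X := X) (x := fun ω => F.md c M ω i) (ω := ω) (ω' := ω') e00.1
      have e5 : F.wt w ω = F.wt w ω' := wt_det (hT ω ω' hω hω' e00.2)
      have t0 := Lab.wt_mem F w ω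
      have e : (2 : ℝ) ^ X * F.mu w (fun i => c i + w) M ω i -
          2 ^ X * F.mu w (fun i => c i + w) M ω' i =
          (2 ^ X * F.mx w c M ω i - 2 ^ X * F.mx w c M ω' i) +
          -(F.wt w ω * (2 ^ X * F.md c M ω i - 2 ^ X * F.md c M ω' i)) := by
        unfold Fam.mx
        rw [← e5]
        ring
      show |(2 : ℝ) ^ X * F.mu w (fun i => c i + w) M ω i -
          2 ^ X * F.mu w (fun i => c i + w) M ω' i| ≤ 2
      rw [e]
      have k6 : |-(F.wt w ω * (2 ^ X * F.md c M ω i - 2 ^ X * F.md c M ω' i))| ≤ 1 * 1 := by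
        rw [abs_neg, abs_mul, abs_of_nonneg t0.1]
        exact mul_le_mul t0.2.le e4 (abs_nonneg _) (by norm_num)
      refine (abs_add_le _ _).trans ?_
      linarith only [e1, k6])
  refine key.trans (le_of_eq ?_)
  norm_num

/-- The digits of the position. -/
theorem CH_mx_le {T : Type} (hp : IsLaw p) (i : Fin 2) (Z : F.Ω → T) :
    CH p (Uni.dg X (fun ω => F.mx w c M ω i)) Z ≤ X * Real.log 2 + Real.log 7 := by
  have h3 : (1 : ℝ) ≤ 2 ^ X := one_le_pow₀ (by norm_num)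
  have key := CH_near hp (X := X) (x := fun ω => F.mx w c M ω i) (W := Z) (C := 2 * 2 ^ X) (by
      intro ω ω' _ _ _
      have a : ∀ ω, 0 ≤ F.mx w c M ω i ∧ F.mx w c M ω i ≤ 2 := by
        intro ω
        have a1 := Box.mu_mem F w (fun i => c i + w) M ω i
        have a2 := Box.md_mem F c M ω i
        have t0 := Lab.wt_mem F w ω
        unfold Fam.mx
        have k1 : 0 ≤ F.wt w ω * F.md c M ω i ∧ F.wt w ω * F.md c M ω i ≤ 1 :=
          ⟨mul_nonneg t0.1 a2.1, mul_le_one₀ t0.2.le a2.1 a2.2.le⟩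
        constructor <;> linarith only [a1, k1, a1.1, a1.2, k1.1, k1.2]
      have a1 := a ω
      have a2 := a ω'
      show |(2 : ℝ) ^ X * F.mx w c M ω i - 2 ^ X * F.mx w c M ω' i| ≤ 2 * 2 ^ X
      rw [← mul_sub, abs_mul, abs_of_pos (by positivity : (0 : ℝ) < 2 ^ X), mul_comm]
      refine mul_le_mul_of_nonneg_right ?_ (by positivity)
      rw [abs_le]
      constructor <;> linarith only [a1, a2, a1.1, a1.2, a2.1, a2.2])
  refine key.trans ?_
  have h4 : Real.log (2 * (2 * 2 ^ X) + 3) ≤ Real.log (2 ^ X * 7) :=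
    Real.log_le_log (by positivity) (by linarith only [h3])
  rw [Real.log_mul (by positivity) (by positivity), Real.log_pow] at h4
  exact h4

/-- The block of the position of the rounded line. -/
noncomputable def rb (F : Fam 2 J) (w : ℕ) (c : Fin 2 → ℕ) (M : F.Ω → Fin 2 → Fin 2 → ℝ) (X : ℕ) :
    F.Ω → ℤ × (Fin 1 → ℤ) := blk X (ry F w c M X 0) (fun ω (_ : Fin 1) => ry F w c M X 1 ω)

/-- The block of the position. -/
noncomputable def mb (F : Fam 2 J) (w : ℕ) (c : Fin 2 → ℕ) (M : F.Ω → Fin 2 → Fin 2 → ℝ) (X : ℕ)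
    (ω : F.Ω) : ℤ × ℤ := (Uni.dg X (fun ω => F.mx w c M ω 0) ω, Uni.dg X (fun ω => F.mx w c M ω 1) ω)

/-- The block of the velocity. -/
noncomputable def vb (F : Fam 2 J) (c : Fin 2 → ℕ) (M : F.Ω → Fin 2 → Fin 2 → ℝ) (X : ℕ)
    (ω : F.Ω) : ℤ × ℤ := (Uni.dg X (fun ω => F.md c M ω 0) ω, Uni.dg X (fun ω => F.md c M ω 1) ω)

theorem rb_ext {ω ω' : F.Ω} : rb F w c M X ω = rb F w c M X ω' ↔
    Uni.dg X (ry F w c M X 0) ω = Uni.dg X (ry F w c M X 0) ω' ∧
    Uni.dg X (ry F w c M X 1) ω = Uni.dg X (ry F w c M X 1) ω' := by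
  unfold rb blk dgv Uni.dg
  constructor
  · intro h
    exact ⟨(Prod.ext_iff.mp h).1, congrFun (Prod.ext_iff.mp h).2 0⟩
  · rintro ⟨h1, h2⟩
    exact Prod.ext h1 (funext fun _ => h2)

/-- Two variables, one after the other. -/
theorem CH_two {Ω S₁ S₂ T : Type} [Fintype Ω] {p : Ω → ℝ} (hp : ∀ ω, 0 ≤ p ω) (A : Ω → S₁)
    (B : Ω → S₂) (Z : Ω → T) {a b : ℝ} (h1 : CH p A Z ≤ a) (h2 : CH p B Z ≤ b) :
    CH p (fun ω => (A ω, B ω)) Z ≤ a + b := by
  have e1 := CH_chain hp A B Z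
  have e2 : CH p A (fun ω => (B ω, Z ω)) ≤ CH p A Z :=
    CH_mono_cond hp (fun _ _ _ _ h => (Prod.ext_iff.mp h).2)
  linarith only [h1, h2, e1, e2]

/-- The block of the rounded line from the block. -/
theorem CH_rb {T : Type} (hp : IsLaw p) (Z : F.Ω → T) :
    CH p (rb F w c M X) (fun ω => (mb F w c M X ω, Z ω)) ≤ 2 * Real.log 13 := by
  have h0 := hp.nonneg
  have k0 := CH_ry (w := w) (c := c) (M := M) (X := X) hp 0 (fun ω => (mb F w c M X ω, Z ω))
  have k1 := CH_ry (w := w) (c := c) (M := M) (X := X) hp 1 (fun ω => (mb F w c M X ω, Z ω))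
  have g0 : CH p (Uni.dg X (ry F w c M X 0)) (fun ω => (mb F w c M X ω, Z ω)) ≤ Real.log 13 := by
    refine le_trans (CH_mono_cond h0 ?_) k0
    intro ω ω' _ _ e
    exact Prod.ext (Prod.ext_iff.mp (Prod.ext_iff.mp e).1).1 e
  have g1 : CH p (Uni.dg X (ry F w c M X 1)) (fun ω => (mb F w c M X ω, Z ω)) ≤ Real.log 13 := by
    refine le_trans (CH_mono_cond h0 ?_) k1
    intro ω ω' _ _ e
    exact Prod.ext (Prod.ext_iff.mp (Prod.ext_iff.mp e).1).2 e
  have g2 := CH_two h0 _ _ _ g0 g1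
  have g3 : CH p (rb F w c M X) (fun ω => (mb F w c M X ω, Z ω)) ≤
      CH p (fun ω => (Uni.dg X (ry F w c M X 0) ω, Uni.dg X (ry F w c M X 1) ω))
        (fun ω => (mb F w c M X ω, Z ω)) := by
    refine CH_mono_left h0 ?_
    intro ω ω' _ _ e
    have e1 := Prod.ext_iff.mp (Prod.ext_iff.mp e).1
    exact rb_ext.2 e1
  linarith only [g2, g3]

/-- The block from the block of the rounded line. -/
theorem CH_mb {T : Type} (hp : IsLaw p) (Z : F.Ω → T) :
    CH p (mb F w c M X) (fun ω => (rb F w c M X ω, Z ω)) ≤ 2 * Real.log 13 := by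
  have h0 := hp.nonneg
  have k0 := CH_ry' (w := w) (c := c) (M := M) (X := X) hp 0 (fun ω => (rb F w c M X ω, Z ω))
  have k1 := CH_ry' (w := w) (c := c) (M := M) (X := X) hp 1 (fun ω => (rb F w c M X ω, Z ω))
  have g0 : CH p (Uni.dg X (fun ω => F.mx w c M ω 0)) (fun ω => (rb F w c M X ω, Z ω)) ≤
      Real.log 13 := by
    refine le_trans (CH_mono_cond h0 ?_) k0
    intro ω ω' _ _ e
    exact Prod.ext (rb_ext.1 (Prod.ext_iff.mp e).1).1 e
  have g1 : CH p (Uni.dg X (fun ω => F.mx w c M ω 1)) (fun ω => (rb F w c M X ω, Z ω)) ≤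
      Real.log 13 := by
    refine le_trans (CH_mono_cond h0 ?_) k1
    intro ω ω' _ _ e
    exact Prod.ext (rb_ext.1 (Prod.ext_iff.mp e).1).2 e
  have g2 := CH_two h0 _ _ _ g0 g1
  linarith only [g2, show CH p (mb F w c M X) (fun ω => (rb F w c M X ω, Z ω)) =
    CH p (fun ω => (Uni.dg X (fun ω => F.mx w c M ω 0) ω, Uni.dg X (fun ω => F.mx w c M ω 1) ω))
      (fun ω => (rb F w c M X ω, Z ω)) from rfl]

/-- The block from the line. -/
theorem CH_mbL {T : Type} (hp : IsLaw p) {Z : F.Ω → T} (hT : Det p Z F.T) :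
    CH p (mb F w c M X) (fun ω => (F.lbr w c M X ω, Z ω)) ≤ 2 * Real.log 7 := by
  have h0 := hp.nonneg
  have g : ∀ i : Fin 2, CH p (Uni.dg X (fun ω => F.mx w c M ω i))
      (fun ω => (F.lbr w c M X ω, Z ω)) ≤ Real.log 7 := by
    intro i
    refine le_trans (CH_mono_cond h0 ?_) (CH_mx (w := w) (c := c) (M := M) hp i hT X)
    intro ω ω' _ _ e
    have e1 := lbr_dig le_rfl (Prod.ext_iff.mp e).1 i
    exact Prod.ext (Prod.ext e1.1 e1.2) (Prod.ext_iff.mp e).2
  have g2 := CH_two h0 _ _ _ (g 0) (g 1)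
  linarith only [g2, show CH p (mb F w c M X) (fun ω => (F.lbr w c M X ω, Z ω)) =
    CH p (fun ω => (Uni.dg X (fun ω => F.mx w c M ω 0) ω, Uni.dg X (fun ω => F.mx w c M ω 1) ω))
      (fun ω => (F.lbr w c M X ω, Z ω)) from rfl]

theorem vb_det : Det p (fun ω => F.lbr w c M X ω) (vb F c M X) := by
  intro ω ω' _ _ e
  have e0 := lbr_dig le_rfl e 0
  have e1 := lbr_dig le_rfl e 1
  exact Prod.ext e0.2 e1.2

/-- Lines in the same window. -/
theorem slam_eq (hd : FltDat F p w c M S G Pt X K) {ω ω' : F.Ω} (h1 : 0 < p ω) (h2 : 0 < p ω')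
    (e : slam F w ω = slam F w ω') : F.blb w c M ω = F.blb w c M ω' ∧
      F.lbr w c M X ω = F.lbr w c M X ω' ∧
      (∀ i, rmu F w c M X 0 i ω = rmu F w c M X 0 i ω') ∧
      (∀ i, rmd F c M X 0 i ω = rmd F c M X 0 i ω') := by
  have hM : M ω = M ω' := hd.dM ω ω' h1 h2 e
  have hl : F.l ω = F.l ω' := (Prod.ext_iff.mp e).1
  have h3 := Prod.ext_iff.mp (Prod.ext_iff.mp e).2
  have hZ : F.Z ω = F.Z ω' := h3.1
  have hT : F.T1 w ω = F.T1 w ω' := h3.2
  have k := Box.label_det F (g := w) (k := fun i => c i + w) (c := c) hl hT hM hZ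
  have k' := Box.label_det F (g := w) (k := fun i => c i + X + w) (c := fun i => c i + X) hl hT
    hM hZ
  refine ⟨k.1, k'.1, fun i => ?_, fun i => ?_⟩
  · unfold rmu
    rw [k.2.1]
  · unfold rmd
    rw [k.2.2]

/-- The data of a sample and a reference. -/
theorem toPVDf (hd : FltDat F p w c M S G Pt X K) (hK : 0 ≤ K) :
    PVData 1 (K + 6) (dbl p (slam F w)) (fun x => F.blb w c M x.1) (fun _ => ())
      (fun x => F.lbr w c M X x.1) (fun x => F.T x.1) (fun x => (G x.2, F.T x.2))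
      (fun x => Pt x.2) (fun x => rmu F w c M X 0 0 x.1) (fun x => rmd F c M X 0 0 x.1)
      (fun x _ => rmu F w c M X 0 1 x.1) (fun x _ => rmd F c M X 0 1 x.1)
      (fun x => F.wt w x.1) (fun x => F.wt w x.2) (fun x _ => S x.2)
      (fun x => ry F w c M X 0 x.1) (fun x _ => ry F w c M X 1 x.1) X := by
  have hp := hd.law.nonneg
  have hq := dbl_nonneg (b := slam F w) hp
  have P1 : ∀ {x}, 0 < dbl p (slam F w) x → 0 < p x.1 := fun h => (dbl_fst hp).pos hq h
  have P2 : ∀ {x}, 0 < dbl p (slam F w) x → 0 < p x.2 := fun h => (dbl_snd hp).pos hq h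
  have hlaw : IsLaw (dbl p (slam F w)) := ⟨hq, by rw [(dbl_fst hp).sum]; exact hd.law.sum_one⟩
  have dmu : ∀ i, Det p (F.lbr w c M X) (rmu F w c M X 0 i) := fun i ω ω' _ _ e => by
    have h := (lbr_dig le_rfl e i).1
    unfold rmu S6U.rd
    rw [h]
  have dmd : ∀ i, Det p (F.lbr w c M X) (rmd F c M X 0 i) := fun i ω ω' _ _ e => by
    have h := (lbr_dig le_rfl e i).2
    unfold rmd S6U.rd
    rw [h]
  have L1 : ∀ {α : Type} {f : F.Ω → α}, Det p (F.lbr w c M X) f →
      Det (dbl p (slam F w)) (fun x => ((F.blb w c M x.1, ()), F.lbr w c M X x.1))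
        (fun x => f x.1) := by
    intro α f h x x' a a' e
    exact h _ _ (P1 a) (P1 a') (Prod.ext_iff.mp e).2
  have R2 : ∀ {α : Type} {f : F.Ω → α}, Det p (fun ω => (F.blb w c M ω, (G ω, F.T ω))) f →
      Det (dbl p (slam F w)) (fun x => ((F.blb w c M x.1, ()), (G x.2, F.T x.2)))
        (fun x => f x.2) := by
    intro α f h x x' a a' e
    have e1 := (slam_eq hd (P1 a) (P2 a) (dbl_eq hp a)).1
    have e2 := (slam_eq hd (P1 a') (P2 a') (dbl_eq hp a')).1
    have e3 := Prod.ext_iff.mp e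
    have e4 : F.blb w c M x.1 = F.blb w c M x'.1 := (Prod.ext_iff.mp e3.1).1
    refine h _ _ (P2 a) (P2 a') (Prod.ext ?_ e3.2)
    show F.blb w c M x.2 = F.blb w c M x'.2
    rw [← e1, ← e2, e4]
  obtain ⟨u, v, W, hu, eu⟩ := hd.str
  exact by
   refine ⟨hlaw, L1 (dmu 0), L1 (dmd 0), ?_, ?_, ?_, ?_, ?_, fun x _ => rd_mem _ _ _,
     fun x _ => Lab.wt_mem F w x.1, ?_, ?_, ?_, ⟨fun _ => 0, ?_, ?_⟩, ⟨fun _ _ => 0, ?_, ?_⟩,
     fun x => u x.2, fun x _ => v x.2, fun x _ => W x.2, ?_, ?_⟩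
   · intro x x' a a' e
     funext i
     exact L1 (dmu 1) x x' a a' e
   · intro x x' a a' e
     funext i
     exact L1 (dmd 1) x x' a a' e
   · intro x x' _ _ e
     exact wt_det (Prod.ext_iff.mp e).2
   · intro x x' _ _ e
     exact wt_det (Prod.ext_iff.mp (Prod.ext_iff.mp e).2).2
   · intro x x' a a' e
     funext i
     exact R2 (f := S) (fun ω ω' h1 h2 e => hd.dS ω ω' h1 h2
       (Prod.ext (Prod.ext_iff.mp e).1 (Prod.ext_iff.mp (Prod.ext_iff.mp e).2).1)) x x' a a' e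
   · intro x _
     have := Lab.wt_mem F w x.2
     rw [abs_of_nonneg this.1]
     exact this.2.le
   · intro x h i
     have := hd.hS _ (P2 h)
     linarith only [hK, this]
   · intro x _
     have a1 : 0 ≤ rmu F w c M X 0 0 x.1 ∧ rmu F w c M X 0 0 x.1 < 1 := rd_mem _ _ _
     have a2 : 0 ≤ rmd F c M X 0 0 x.1 ∧ rmd F c M X 0 0 x.1 < 1 := rd_mem _ _ _
     have t0 := Lab.wt_mem F w x.1
     show |ry F w c M X 0 x.1| ≤ K + 6
     unfold ry
     have k1 : 0 ≤ F.wt w x.1 * rmd F c M X 0 0 x.1 ∧ F.wt w x.1 * rmd F c M X 0 0 x.1 ≤ 1 :=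
       ⟨mul_nonneg t0.1 a2.1, mul_le_one₀ t0.2.le a2.1 a2.2.le⟩
     rw [abs_le]
     constructor <;> linarith only [hK, a1, k1, a1.1, a1.2, k1.1, k1.2]
   · intro _ _ _ _ _
     rfl
   · intro x _
     simp only [ry, add_zero]
   · intro _ _ _ _ _
     rfl
   · intro x _ i
     simp only [ry, add_zero]
   · intro x x' a a' e
     have e1 := (slam_eq hd (P1 a) (P2 a) (dbl_eq hp a)).1
     have e2 := (slam_eq hd (P1 a') (P2 a') (dbl_eq hp a')).1
     have e3 := Prod.ext_iff.mp e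
     have e4 : F.blb w c M x.1 = F.blb w c M x'.1 :=
       (Prod.ext_iff.mp (Prod.ext_iff.mp e3.2).2).1
     have e5 := hu x.2 x'.2 (P2 a) (P2 a') (Prod.ext e3.1 (by
       show F.blb w c M x.2 = F.blb w c M x'.2
       rw [← e1, ← e2, e4]))
     have e6 := Prod.ext_iff.mp e5
     have e7 := Prod.ext_iff.mp e6.2
     exact Prod.ext e6.1 (Prod.ext (funext fun _ => e7.1) (funext fun _ => e7.2))
   · intro x h
     obtain ⟨_, _, e1, e2⟩ := slam_eq hd (P1 h) (P2 h) (dbl_eq hp h)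
     have hu := eu x.2 (P2 h)
     have h2 : (0 : ℝ) < 2 ^ X := by positivity
     have key : ∀ i (t : ℝ), |F.mx w c M x.2 i - t| * 2 ^ X ≤ K →
         |rmu F w c M X 0 i x.1 + F.wt w x.2 * rmd F c M X 0 i x.1 - t| * 2 ^ X ≤ K + 6 := by
       intro i t ht
       rw [e1 i, e2 i]
       have k1 := ry_near (F := F) (w := w) (c := c) (M := M) (X := X) i x.2
       have k2 : |ry F w c M X i x.2 - F.mx w c M x.2 i| * 2 ^ X ≤ 2 := by
         rw [← le_div_iff₀ h2]
         exact k1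
       have k3 : |ry F w c M X i x.2 - t| ≤ |ry F w c M X i x.2 - F.mx w c M x.2 i| +
           |F.mx w c M x.2 i - t| := by
         have := abs_add_le (ry F w c M X i x.2 - F.mx w c M x.2 i) (F.mx w c M x.2 i - t)
         rwa [sub_add_sub_cancel] at this
       have k4 := mul_le_mul_of_nonneg_right k3 h2.le
       rw [add_mul] at k4
       have k5 : |rmu F w c M X 0 i x.2 + F.wt w x.2 * rmd F c M X 0 i x.2 - t| =
         |ry F w c M X i x.2 - t| := rfl
       rw [k5]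
       linarith only [ht, k2, k4]
     refine ⟨key 0 _ hu.1, fun _ => key 1 _ hu.2.1, fun _ => ?_⟩
     show |rmd F c M X 0 1 x.1 - S x.2 * rmd F c M X 0 0 x.1 - W x.2| * 2 ^ X ≤ K + 6
     rw [e2 0, e2 1]
     have k1 := rmd_near (F := F) (c := c) (M := M) (X := X) 0 x.2
     have k2 := rmd_near (F := F) (c := c) (M := M) (X := X) 1 x.2
     have k0 := hd.hS _ (P2 h)
     have e : rmd F c M X 0 1 x.2 - S x.2 * rmd F c M X 0 0 x.2 - W x.2 =
         (rmd F c M X 0 1 x.2 - F.md c M x.2 1) +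
         -(S x.2 * (rmd F c M X 0 0 x.2 - F.md c M x.2 0)) +
         (F.md c M x.2 1 - S x.2 * F.md c M x.2 0 - W x.2) := by ring
     have k3 : |-(S x.2 * (rmd F c M X 0 0 x.2 - F.md c M x.2 0))| ≤ 4 * (1 / 2 ^ X) := by
       rw [abs_neg, abs_mul]
       exact mul_le_mul k0 k1 (abs_nonneg _) (by norm_num)
     have k4 : |rmd F c M X 0 1 x.2 - S x.2 * rmd F c M X 0 0 x.2 - W x.2| ≤
         1 / 2 ^ X + 4 * (1 / 2 ^ X) + |F.md c M x.2 1 - S x.2 * F.md c M x.2 0 - W x.2| := by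
       rw [e]
       refine (abs_add_le _ _).trans ?_
       have := abs_add_le (rmd F c M X 0 1 x.2 - F.md c M x.2 1)
         (-(S x.2 * (rmd F c M X 0 0 x.2 - F.md c M x.2 0)))
       linarith only [k2, k3, this]
     have k5 := mul_le_mul_of_nonneg_right k4 h2.le
     have k6 : (1 / 2 ^ X + 4 * (1 / 2 ^ X) +
         |F.md c M x.2 1 - S x.2 * F.md c M x.2 0 - W x.2|) * 2 ^ X =
         5 + |F.md c M x.2 1 - S x.2 * F.md c M x.2 0 - W x.2| * 2 ^ X := by
       field_simp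
       ring
     rw [k6] at k5
     have := hu.2.2
     linarith only [hu, k5]

/-- Functions of the first copy. -/
theorem dp_fst {Λ S₁ S₂ T : Type} (hp : ∀ ω, 0 ≤ p ω) (sl : F.Ω → Λ) (f : F.Ω → S₁)
    (g : F.Ω → S₂) (h : F.Ω → T) :
    dp (dbl p sl) (fun x => f x.1) (fun x => g x.1) (fun x => h x.1) = dp p f g h := by
  unfold dp
  have e1 := (dbl_fst (b := sl) hp).CH f h
  have e2 := (dbl_fst (b := sl) hp).CH f (fun ω => (g ω, h ω))
  rw [e1, e2]

/-- Functions of the second copy. -/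
theorem dp_snd {Λ S₁ S₂ T : Type} (hp : ∀ ω, 0 ≤ p ω) (sl : F.Ω → Λ) (f : F.Ω → S₁)
    (g : F.Ω → S₂) (h : F.Ω → T) :
    dp (dbl p sl) (fun x => f x.2) (fun x => g x.2) (fun x => h x.2) = dp p f g h := by
  unfold dp
  have e1 := (dbl_snd (b := sl) hp).CH f h
  have e2 := (dbl_snd (b := sl) hp).CH f (fun ω => (g ω, h ω))
  rw [e1, e2]

section tm

variable {k' : ℕ} {x₁ κ ϖ ι ε₂ ca η : ℝ}

/-- The time of the sample. -/
theorem tm_T (hd : FltDat F p w c M S G Pt X K)
    (hh : FltHyp F p w c M S G Pt X k' x₁ κ ϖ ι ε₂ ca η) :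
    dp (dbl p (slam F w)) (fun x => F.T x.1) (fun x => F.lbr w c M X x.1)
      (fun x => ((G x.2, F.T x.2), F.blb w c M x.1)) ≤ ι * X := by
  have hq := dbl_nonneg (b := slam F w) hd.law.nonneg
  have h1 := dp_add hq (fun x => F.T x.1) (fun x => (G x.2, F.T x.2))
    (fun x => F.lbr w c M X x.1) (fun x => F.blb w c M x.1)
  have h2 := dp_nonneg hq (fun x => (G x.2, F.T x.2)) (fun x => F.lbr w c M X x.1)
    (fun x => F.blb w c M x.1)
  have := hh.tm
  linarith only [h1, h2, this]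

/-- The reference. -/
theorem tm_R (hd : FltDat F p w c M S G Pt X K)
    (hh : FltHyp F p w c M S G Pt X k' x₁ κ ϖ ι ε₂ ca η) :
    dp (dbl p (slam F w)) (fun x => (G x.2, F.T x.2)) (fun x => F.lbr w c M X x.1)
      (fun x => (F.T x.1, F.blb w c M x.1)) ≤ ι * X := by
  have hq := dbl_nonneg (b := slam F w) hd.law.nonneg
  have h1 := dp_add hq (fun x => (G x.2, F.T x.2)) (fun x => F.T x.1)
    (fun x => F.lbr w c M X x.1) (fun x => F.blb w c M x.1)
  have h2 := dp_nonneg hq (fun x => F.T x.1) (fun x => F.lbr w c M X x.1)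
    (fun x => F.blb w c M x.1)
  have h3 : dp (dbl p (slam F w)) (fun x => ((G x.2, F.T x.2), F.T x.1))
      (fun x => F.lbr w c M X x.1) (fun x => F.blb w c M x.1) ≤
      dp (dbl p (slam F w)) (fun x => (F.T x.1, (G x.2, F.T x.2)))
      (fun x => F.lbr w c M X x.1) (fun x => F.blb w c M x.1) := by
    refine dp_mono hq ?_ (fun _ _ _ _ e => (Prod.ext_iff.mp e).1)
    intro x x' _ _ e
    have e1 := Prod.ext_iff.mp (Prod.ext_iff.mp e).1
    exact Prod.ext e1.2 e1.1
  have := hh.tm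
  linarith only [h1, h2, h3, this]

/-- The own slope. -/
theorem tm_G (hd : FltDat F p w c M S G Pt X K)
    (hh : FltHyp F p w c M S G Pt X k' x₁ κ ϖ ι ε₂ ca η) :
    dp p (F.lbr w c M X) G (fun ω => (F.blb w c M ω, F.T ω)) ≤ ι * X := by
  have hp := hd.law.nonneg
  have hq := dbl_nonneg (b := slam F w) hp
  have P1 : ∀ {x}, 0 < dbl p (slam F w) x → 0 < p x.1 := fun h => (dbl_fst hp).pos hq h
  have P2 : ∀ {x}, 0 < dbl p (slam F w) x → 0 < p x.2 := fun h => (dbl_snd hp).pos hq h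
  have h1 := dp_add hq (fun x => F.T x.1) (fun x => (G x.2, F.T x.2))
    (fun x => F.lbr w c M X x.1) (fun x => F.blb w c M x.1)
  have h2 := dp_nonneg hq (fun x => F.T x.1) (fun x => F.lbr w c M X x.1)
    (fun x => ((G x.2, F.T x.2), F.blb w c M x.1))
  have h3 := hh.tm
  have h4 : dp (dbl p (slam F w)) (fun x => (G x.2, F.T x.2)) (fun x => F.lbr w c M X x.1)
      (fun x => F.blb w c M x.1) = dp (dbl p (slam F w)) (fun x => (G x.2, F.T x.2))
      (fun x => F.lbr w c M X x.2) (fun x => F.blb w c M x.2) := by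
    have e : ∀ x, 0 < dbl p (slam F w) x → F.blb w c M x.1 = F.blb w c M x.2 ∧
        F.lbr w c M X x.1 = F.lbr w c M X x.2 := fun x h => by
      have := slam_eq hd (P1 h) (P2 h) (dbl_eq hp h)
      exact ⟨this.1, this.2.1⟩
    refine le_antisymm ?_ ?_
    · rw [dp_congr_cond hq (b := fun x : F.Ω × F.Ω => F.blb w c M x.1)
        (b' := fun x : F.Ω × F.Ω => F.blb w c M x.2)]
      · refine dp_mono hq (fun _ _ _ _ e => (Prod.ext_iff.mp e).1) ?_
        intro x x' a a' h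
        have h1 : F.lbr w c M X x.2 = F.lbr w c M X x'.2 := (Prod.ext_iff.mp h).1
        show F.lbr w c M X x.1 = F.lbr w c M X x'.1
        rw [(e x a).2, (e x' a').2, h1]
      · intro x x' a a' h
        have h1 : F.blb w c M x.1 = F.blb w c M x'.1 := h
        show F.blb w c M x.2 = F.blb w c M x'.2
        rw [← (e x a).1, ← (e x' a').1, h1]
      · intro x x' a a' h
        have h1 : F.blb w c M x.2 = F.blb w c M x'.2 := h
        show F.blb w c M x.1 = F.blb w c M x'.1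
        rw [(e x a).1, (e x' a').1, h1]
    · rw [dp_congr_cond hq (b := fun x : F.Ω × F.Ω => F.blb w c M x.2)
        (b' := fun x : F.Ω × F.Ω => F.blb w c M x.1)]
      · refine dp_mono hq (fun _ _ _ _ e => (Prod.ext_iff.mp e).1) ?_
        intro x x' a a' h
        have h1 : F.lbr w c M X x.1 = F.lbr w c M X x'.1 := (Prod.ext_iff.mp h).1
        show F.lbr w c M X x.2 = F.lbr w c M X x'.2
        rw [← (e x a).2, ← (e x' a').2, h1]
      · intro x x' a a' h
        have h1 : F.blb w c M x.2 = F.blb w c M x'.2 := h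
        show F.blb w c M x.1 = F.blb w c M x'.1
        rw [(e x a).1, (e x' a').1, h1]
      · intro x x' a a' h
        have h1 : F.blb w c M x.1 = F.blb w c M x'.1 := h
        show F.blb w c M x.2 = F.blb w c M x'.2
        rw [← (e x a).1, ← (e x' a').1, h1]
  have h5 := dp_snd hp (slam F w) (fun ω => (G ω, F.T ω)) (F.lbr w c M X) (F.blb w c M)
  have h6 := dp_add hp G F.T (F.lbr w c M X) (F.blb w c M)
  have h7 := dp_nonneg hp F.T (F.lbr w c M X) (F.blb w c M)
  have h8 := dp_congr_cond hp (N := F.lbr w c M X) (V := G)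
    (b := fun ω => (F.blb w c M ω, F.T ω)) (b' := fun ω => (F.T ω, F.blb w c M ω))
    (fun _ _ _ _ e => Prod.ext (Prod.ext_iff.mp e).2 (Prod.ext_iff.mp e).1)
    (fun _ _ _ _ e => Prod.ext (Prod.ext_iff.mp e).2 (Prod.ext_iff.mp e).1)
  rw [h8, dp_symm hp]
  rw [h4, h5] at h1
  linarith only [h1, h2, h3, h6, h7]

/-- The position and the velocity. -/
theorem tm_b0 (hd : FltDat F p w c M S G Pt X K)
    (hh : FltHyp F p w c M S G Pt X k' x₁ κ ϖ ι ε₂ ca η) :
    dp p (mb F w c M X) (vb F c M X) (fun ω => (F.blb w c M ω, F.T ω)) ≤ ι * X := by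
  rw [dp_symm hd.law.nonneg]
  exact hh.b0

end tm

/-- The line and the reference given the block. -/
theorem dp_rbR (hd : FltDat F p w c M S G Pt X K) {k' : ℕ} {x₁ κ ϖ ι ε₂ ca η : ℝ}
    (hh : FltHyp F p w c M S G Pt X k' x₁ κ ϖ ι ε₂ ca η) :
    dp (dbl p (slam F w)) (fun x => rb F w c M X x.1)
      (fun x => ((Uni.dg X (rmd F c M X 0 0) x.1, Uni.dg X (rmd F c M X 0 1) x.1),
        (G x.2, F.T x.2))) (fun x => (F.blb w c M x.1, F.T x.1)) ≤
      2 * (ι * X) + 2 * Real.log 13 := by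
  have hp := hd.law.nonneg
  have hq := dbl_nonneg (b := slam F w) hp
  obtain ⟨N, hN⟩ : ∃ N : F.Ω × F.Ω → ℤ × (Fin 1 → ℤ), N = fun x => rb F w c M X x.1 := ⟨_, rfl⟩
  obtain ⟨V, hV⟩ : ∃ V : F.Ω × F.Ω → ℤ × ℤ, V = fun x =>
    (Uni.dg X (rmd F c M X 0 0) x.1, Uni.dg X (rmd F c M X 0 1) x.1) := ⟨_, rfl⟩
  obtain ⟨R, hR⟩ : ∃ R : F.Ω × F.Ω → Γ × ℕ, R = fun x => (G x.2, F.T x.2) := ⟨_, rfl⟩
  obtain ⟨b, hb⟩ : ∃ b, b = fun x : F.Ω × F.Ω => (F.blb w c M x.1, F.T x.1) := ⟨_, rfl⟩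
  have e0 : (fun x : F.Ω × F.Ω => ((Uni.dg X (rmd F c M X 0 0) x.1,
      Uni.dg X (rmd F c M X 0 1) x.1), (G x.2, F.T x.2))) = fun x => (V x, R x) := by
    rw [hV, hR]
  rw [← hN, e0, ← hb]
  -- the velocity in the condition
  have h1 : dp (dbl p (slam F w)) N (fun x => (V x, R x)) b ≤
      dp (dbl p (slam F w)) N (fun x => (R x, V x)) b := by
    refine dp_mono hq (fun _ _ _ _ e => (Prod.ext_iff.mp e).1) ?_
    intro x x' _ _ e
    have e1 := Prod.ext_iff.mp (Prod.ext_iff.mp e).1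
    exact Prod.ext e1.2 e1.1
  have h2 := dp_add_right hq N R V b
  -- the velocity
  have h3 : dp (dbl p (slam F w)) N V b ≤ ι * X + 2 * Real.log 13 := by
    have g1 : dp (dbl p (slam F w)) N V b = dp p (rb F w c M X)
        (fun ω => (Uni.dg X (rmd F c M X 0 0) ω, Uni.dg X (rmd F c M X 0 1) ω))
        (fun ω => (F.blb w c M ω, F.T ω)) := by
      rw [hN, hV, hb]
      exact dp_fst hp (slam F w) (rb F w c M X)
        (fun ω => (Uni.dg X (rmd F c M X 0 0) ω, Uni.dg X (rmd F c M X 0 1) ω))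
        (fun ω => (F.blb w c M ω, F.T ω))
    have g2 : (fun ω => (Uni.dg X (rmd F c M X 0 0) ω, Uni.dg X (rmd F c M X 0 1) ω)) =
        vb F c M X := by
      rw [dg_rmd (by omega), dg_rmd (by omega)]
      rfl
    rw [g1, g2]
    have g3 := dp_le_add hp (V := vb F c M X) (CH_rb (w := w) (c := c) (M := M) (X := X) hd.law
      (fun ω => (F.blb w c M ω, F.T ω)))
    have g4 := tm_b0 hd hh
    linarith only [g3, g4]
  -- the reference
  exact by
   have h4 : dp (dbl p (slam F w)) N R (fun x => (V x, b x)) ≤ ι * X := by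
     have g1 := dp_add hq N V R b
     have g2 := dp_nonneg hq V R b
     have g3 : dp (dbl p (slam F w)) (fun x => (N x, V x)) R b ≤
         dp (dbl p (slam F w)) (fun x => F.lbr w c M X x.1) R b := by
       refine dp_mono hq ?_ (fun _ _ _ _ e => (Prod.ext_iff.mp e).1)
       intro x x' _ _ e
       have e1 : F.lbr w c M X x.1 = F.lbr w c M X x'.1 := (Prod.ext_iff.mp e).1
       have e2 : b x = b x' := (Prod.ext_iff.mp e).2
       rw [hb] at e2
       have e3 : F.T x.1 = F.T x'.1 := (Prod.ext_iff.mp e2).2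
       have e4 : F.wt w x.1 = F.wt w x'.1 := wt_det e3
       have d0 := lbr_dig le_rfl e1 0
       have d1 := lbr_dig le_rfl e1 1
       have m0 : ∀ i, rmu F w c M X 0 i x.1 = rmu F w c M X 0 i x'.1 := by
         intro i
         have := (lbr_dig le_rfl e1 i).1
         unfold rmu S6U.rd
         rw [this]
       have m1 : ∀ i, rmd F c M X 0 i x.1 = rmd F c M X 0 i x'.1 := by
         intro i
         have := (lbr_dig le_rfl e1 i).2
         unfold rmd S6U.rd
         rw [this]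
       have m2 : ∀ i, Uni.dg X (ry F w c M X i) x.1 = Uni.dg X (ry F w c M X i) x'.1 := by
         intro i
         unfold Uni.dg ry
         rw [m0, m1, e4]
       have m3 : ∀ i, Uni.dg X (rmd F c M X 0 i) x.1 = Uni.dg X (rmd F c M X 0 i) x'.1 := by
         intro i
         unfold Uni.dg
         rw [m1]
       rw [hN, hV]
       exact Prod.ext (rb_ext.2 ⟨m2 0, m2 1⟩) (Prod.ext (m3 0) (m3 1))
     have g4 : dp (dbl p (slam F w)) (fun x => F.lbr w c M X x.1) R b =
         dp (dbl p (slam F w)) R (fun x => F.lbr w c M X x.1)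
           (fun x => (F.T x.1, F.blb w c M x.1)) := by
       rw [dp_symm hq, hb]
       exact dp_congr_cond hq
         (fun _ _ _ _ e => Prod.ext (Prod.ext_iff.mp e).2 (Prod.ext_iff.mp e).1)
         (fun _ _ _ _ e => Prod.ext (Prod.ext_iff.mp e).2 (Prod.ext_iff.mp e).1)
     have g5 := tm_R hd hh
     rw [← hR] at g5
     linarith only [g1, g2, g3, g4, g5]
   linarith

/-- The hypotheses for a sample and a reference. -/
theorem toPKHf (hd : FltDat F p w c M S G Pt X K) {k' : ℕ} {x₁ κ ϖ ι ε₂ ca η : ℝ}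
    (hh : FltHyp F p w c M S G Pt X k' x₁ κ ϖ ι ε₂ ca η) {ϖ' ι' x₀ ε₁ : ℝ} (hca : 0 < ca)
    (hϖ' : 0 < ϖ')
    (hL : ∀ (Ω S T : Type) [Fintype Ω] (p q : Ω → ℝ) (x : Ω → S) (v : Ω → T) (h : ℝ), IsLaw p →
      IsLaw q → (∀ ω, q ω ≤ 1 / ϖ' * p ω) → 0 ≤ h →
      (∀ A : Ω → Prop, ϖ ≤ Pe p A → h ≤ CH (Pool.Agent.H49.Ent.cond p A True) x v) →
      (1 - 1 / 2) * h ≤ CH q x v)
    (hκ1 : κ ≤ 1) (hι : 0 ≤ ι) (hι' : 2 * (ι * X) + 2 * Real.log 13 ≤ ι' * X) (hε₁ : 0 < ε₁)
    (hε : ε₂ ≤ ε₁ ^ 3) (hx : 2 * ((2 * 4 + 2) * (2 : ℝ) ^ (-(x₀ * X))) ≤ 2 ^ (-(x₁ * X)))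
    (hx' : (2 : ℝ) ^ (-(x₀ * X)) ≤ 1 / 2) :
    PKHyp 1 (dbl p (slam F w)) (fun x => F.blb w c M x.1) (fun _ => ())
      (fun x => F.lbr w c M X x.1) (fun x => F.T x.1) (fun x => (G x.2, F.T x.2))
      (fun x => Pt x.2) (fun x => rmd F c M X 0 0 x.1) (fun x _ => rmd F c M X 0 1 x.1)
      (fun x => F.wt w x.1) (fun x _ => S x.2) (fun x => ry F w c M X 0 x.1)
      (fun x _ => ry F w c M X 1 x.1) X k' x₀ κ ϖ' ι' ε₁ (ca / 2) (3 * η) := by
  classical
  have hp := hd.law.nonneg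
  have hq := dbl_nonneg (b := slam F w) hp
  have hlaw : IsLaw (dbl p (slam F w)) := ⟨hq, by rw [(dbl_fst hp).sum]; exact hd.law.sum_one⟩
  have P1 : ∀ {x}, 0 < dbl p (slam F w) x → 0 < p x.1 := fun h => (dbl_fst hp).pos hq h
  have P2 : ∀ {x}, 0 < dbl p (slam F w) x → 0 < p x.2 := fun h => (dbl_snd hp).pos hq h
  have hX0 : (0 : ℝ) ≤ X := Nat.cast_nonneg X
  have hιX : 0 ≤ ι * X := mul_nonneg hι hX0
  have l13 : 0 ≤ Real.log 13 := Real.log_nonneg (by norm_num)
  refine ⟨?_, ?_, ?_, ?_, ?_, ?_⟩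
  · -- the time
    rw [MI_eq_dp hq]
    have h1 := tm_T hd hh
    have h2 := dp_congr_cond hq (N := fun x : F.Ω × F.Ω => F.T x.1)
      (V := fun x : F.Ω × F.Ω => F.lbr w c M X x.1)
      (b := fun x => ((G x.2, F.T x.2), F.blb w c M x.1))
      (b' := fun x => ((G x.2, F.T x.2), (F.blb w c M x.1, ())))
      (fun _ _ _ _ e => Prod.ext (Prod.ext_iff.mp e).1 (Prod.ext (Prod.ext_iff.mp e).2 rfl))
      (fun _ _ _ _ e => Prod.ext (Prod.ext_iff.mp e).1
        (Prod.ext_iff.mp (Prod.ext_iff.mp e).2).1)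
    rw [← h2]
    linarith only [hι', hιX, l13, h1]
  · -- near samples
    have h1 : ∀ i ∈ range X, OCG.nr (dbl p (slam F w)) (fun x => (F.lbr w c M X x.1,
        ((G x.2, F.T x.2), (F.blb w c M x.1, ())))) (fun x => F.wt w x.1) k' i ≤
        3 * OCG.nr p (slam F w) (F.wt w) k' i := by
      intro i _
      rw [← nr_pair hp (slam F w) (F.wt w) k' i]
      refine nr_coarse hlaw ?_ _ _ _
      intro x x' a a' e
      have e1 := Prod.ext_iff.mp e
      have e2 := slam_eq hd (P1 a) (P1 a') e1.1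
      have e3 : x.2 = x'.2 := e1.2
      show (F.lbr w c M X x.1, ((G x.2, F.T x.2), (F.blb w c M x.1, ()))) =
        (F.lbr w c M X x'.1, ((G x'.2, F.T x'.2), (F.blb w c M x'.1, ())))
      rw [e2.1, e2.2.1, e3]
    refine (Finset.sum_le_sum h1).trans ?_
    rw [← Finset.mul_sum]
    have := hh.tim
    linarith only [this]
  · -- the velocity and the reference
    rw [MI_eq_dp hq]
    have h1 := dp_rbR hd hh
    refine le_trans (le_of_eq ?_) (h1.trans hι')
    have h2 : dp (dbl p (slam F w)) (fun x => rb F w c M X x.1)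
        (fun x => ((Uni.dg X (rmd F c M X 0 0) x.1, Uni.dg X (rmd F c M X 0 1) x.1),
          (G x.2, F.T x.2))) (fun x => (F.blb w c M x.1, F.T x.1)) =
        dp (dbl p (slam F w)) (fun x => rb F w c M X x.1)
        (fun x => ((Uni.dg X (rmd F c M X 0 0) x.1, Uni.dg X (rmd F c M X 0 1) x.1),
          (G x.2, F.T x.2))) (fun x => ((F.blb w c M x.1, ()), F.T x.1)) := by
      refine dp_congr_cond hq ?_ ?_
      · intro x x' _ _ e
        exact Prod.ext (Prod.ext (Prod.ext_iff.mp e).1 rfl) (Prod.ext_iff.mp e).2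
      · intro x x' _ _ e
        exact Prod.ext (Prod.ext_iff.mp (Prod.ext_iff.mp e).1).1 (Prod.ext_iff.mp e).2
    rw [h2]
    refine le_antisymm ?_ ?_
    · refine dp_mono hq (fun _ _ _ _ e => (Prod.ext_iff.mp e).1) ?_
      intro x x' _ _ e
      have e1 := Prod.ext_iff.mp (Prod.ext_iff.mp e).1
      have e2 := Prod.ext_iff.mp e1.1
      have g0 : Uni.dg X (rmd F c M X 0 0) x.1 = Uni.dg X (rmd F c M X 0 0) x'.1 := e2.1
      have g1 : Uni.dg X (rmd F c M X 0 1) x.1 = Uni.dg X (rmd F c M X 0 1) x'.1 := e2.2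
      exact Prod.ext (Prod.ext g0 (funext fun _ => g1)) e1.2
    · refine dp_mono hq (fun _ _ _ _ e => (Prod.ext_iff.mp e).1) ?_
      intro x x' _ _ e
      have e1 := Prod.ext_iff.mp (Prod.ext_iff.mp e).1
      have e2 := Prod.ext_iff.mp e1.1
      have g0 : Uni.dg X (rmd F c M X 0 0) x.1 = Uni.dg X (rmd F c M X 0 0) x'.1 := e2.1
      have g1 : Uni.dg X (rmd F c M X 0 1) x.1 = Uni.dg X (rmd F c M X 0 1) x'.1 :=
        congrFun e2.2 0
      exact Prod.ext (Prod.ext g0 g1) e1.2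
  · -- the activity
    intro A hA
    have hA0 : 0 < Pe (dbl p (slam F w)) A := hϖ'.trans_le hA
    obtain ⟨q, hqe⟩ : ∃ q, q = Pool.Agent.H49.Ent.cond (dbl p (slam F w)) A True := ⟨_, rfl⟩
    rw [← hqe]
    have hql : IsLaw q := hqe ▸ isLaw_cond hlaw hA0
    have hqp : ∀ {x}, 0 < q x → 0 < dbl p (slam F w) x := by
      intro x hx
      rw [hqe] at hx
      exact ((cond_pos_iff hlaw.nonneg A True x).1 hx).1
    have SE : ∀ {x}, 0 < q x → F.blb w c M x.1 = F.blb w c M x.2 ∧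
        rmd F c M X 0 0 x.1 = rmd F c M X 0 0 x.2 := fun h => by
      have := slam_eq hd (P1 (hqp h)) (P2 (hqp h)) (dbl_eq hp (hqp h))
      exact ⟨this.1, this.2.2.2 0⟩
    obtain ⟨k, hk⟩ : ∃ k, k = ⌊κ * (X : ℝ)⌋₊ := ⟨_, rfl⟩
    rw [← hk]
    have hkX : k ≤ X := by
      rw [hk]
      refine Nat.floor_le_of_le ?_
      have := mul_le_mul_of_nonneg_right hκ1 hX0
      linarith only [this]
    · have ed : Uni.dg k (fun ω => F.md c M ω 0) = Uni.dg k (rmd F c M X 0 0) := by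
        rw [dg_rmd (by omega)]
        rfl
      have e1 : CH q (Uni.dg k (fun x => rmd F c M X 0 0 x.1))
          (fun x => (Pt x.2, ((G x.2, F.T x.2), (F.blb w c M x.1, ())))) =
          CH q (fun x => Uni.dg k (fun ω => F.md c M ω 0) x.2)
            (fun x => (Pt x.2, F.blb w c M x.2)) := by
        rw [ed]
        have D : ∀ {x}, 0 < q x → Uni.dg k (fun x : F.Ω × F.Ω => rmd F c M X 0 0 x.1) x =
            Uni.dg k (rmd F c M X 0 0) x.2 := by
          intro x hx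
          show ⌊(2 : ℝ) ^ k * rmd F c M X 0 0 x.1⌋ = ⌊(2 : ℝ) ^ k * rmd F c M X 0 0 x.2⌋
          rw [(SE hx).2]
        refine CH_congr hql.nonneg ?_ ?_ ?_ ?_
        · intro x x' a a' e
          have e1 := (Prod.ext_iff.mp e).1
          show Uni.dg k (rmd F c M X 0 0) x.2 = Uni.dg k (rmd F c M X 0 0) x'.2
          rw [← D a, ← D a']
          exact e1
        · intro x x' a a' e
          have e1 : Uni.dg k (rmd F c M X 0 0) x.2 = Uni.dg k (rmd F c M X 0 0) x'.2 :=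
            (Prod.ext_iff.mp e).1
          rw [D a, D a', e1]
        · intro x x' a a' e
          have e1 := Prod.ext_iff.mp e
          have e2 : F.blb w c M x.1 = F.blb w c M x'.1 :=
            (Prod.ext_iff.mp (Prod.ext_iff.mp e1.2).2).1
          refine Prod.ext e1.1 ?_
          show F.blb w c M x.2 = F.blb w c M x'.2
          rw [← (SE a).1, ← (SE a').1, e2]
        · intro x x' a a' e
          have e1 := Prod.ext_iff.mp e
          have e2 := hd.dP _ _ (P2 (hqp a)) (P2 (hqp a')) e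
          refine Prod.ext e1.1 (Prod.ext e2 (Prod.ext ?_ rfl))
          show F.blb w c M x.1 = F.blb w c M x'.1
          rw [(SE a).1, (SE a').1]
          exact e1.2
      rw [e1, (push_marg q Prod.snd).CH (Uni.dg k (fun ω => F.md c M ω 0))
        (fun ω => (Pt ω, F.blb w c M ω))]
      have h3 := hL F.Ω ℤ _ p (push q Prod.snd) (Uni.dg k (fun ω => F.md c M ω 0))
        (fun ω => (Pt ω, F.blb w c M ω)) (ca * k * Real.log 2) hd.law (push_law hql _)
        (fun ω => by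
          rw [hqe]
          exact push_le hlaw (dbl_snd hp) hϖ' hA ω)
        (mul_nonneg (mul_nonneg hca.le (Nat.cast_nonneg _)) (Real.log_nonneg (by norm_num)))
        (fun A' hA' => hk ▸ hh.act A' hA')
      linarith only [h3]
  · -- the references are spread
    have key := ref_spread hd.law (slam F w)
      (fun ω => ((F.blb w c M ω, F.T ω), rb F w c M X ω)) S (K := 4)
      (δ := (2 : ℝ) ^ (-(x₀ * X))) (Δ := (2 : ℝ) ^ (-(x₁ * X))) (by norm_num) hd.hS
      (by positivity) hx' hx hε₁ (ε₂ := ε₂) (by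
        have e : {x : F.Ω × F.Ω | |S x.1 - S x.2| < (2 : ℝ) ^ (-(x₁ * X))} =
            {v | |S v.2 - S v.1| < (2 : ℝ) ^ (-(x₁ * X))} := by
          ext v
          simp only [Set.mem_ofPred_eq]
          rw [abs_sub_comm]
        rw [e]
        exact hh.th) hε
    refine le_trans ?_ key
    refine OCG.Pr_mono' hq fun x _ hx => ?_
    obtain ⟨n, h1, h2, h3⟩ := hx
    refine ⟨n 0, n 1, ⟨h1 0, h1 1, ?_⟩, h3.trans_le (le_of_eq ?_)⟩
    · obtain ⟨i, hi⟩ := h2
      fin_cases i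
      · exact Or.inl hi
      · exact Or.inr hi
    · congr 1
      ext x'
      simp only [Set.mem_ofPred_eq, Finset.univ_unique, Fin.default_eq_zero, Fin.isValue,
        Finset.sum_singleton, Fin.succ_zero_eq_one]
  · -- nothing hidden
    refine (Pool.PRM.MI_le_CH hq _ _ _).trans ?_
    have h1 : CH (dbl p (slam F w)) (fun _ => ()) (fun x => (F.blb w c M x.1, F.T x.1)) ≤ 0 := by
      refine (CH_eq_zero hq ?_).le
      intro _ _ _ _ _
      rfl
    linarith only [hι', hιX, l13, h1]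

/-- The own slope and the block. -/
theorem dp_mbG (hd : FltDat F p w c M S G Pt X K) {k' : ℕ} {x₁ κ ϖ ι ε₂ ca η : ℝ}
    (hh : FltHyp F p w c M S G Pt X k' x₁ κ ϖ ι ε₂ ca η) :
    dp p (fun ω => (mb F w c M X ω, vb F c M X ω)) G (fun ω => (F.blb w c M ω, F.T ω)) ≤
      ι * X + 2 * Real.log 7 := by
  have hp := hd.law.nonneg
  have h1 : CH p (fun ω => (mb F w c M X ω, vb F c M X ω))
      (fun ω => (F.lbr w c M X ω, (F.blb w c M ω, F.T ω))) ≤ 2 * Real.log 7 + 0 := by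
    refine CH_two hp _ _ _ (CH_mbL hd.law (fun _ _ _ _ e => (Prod.ext_iff.mp e).2)) ?_
    refine (CH_eq_zero hp ?_).le
    intro ω ω' a a' e
    exact vb_det (p := p) ω ω' a a' (Prod.ext_iff.mp e).1
  have h2 := dp_le_add hp (V := G) h1
  have h3 := tm_G hd hh
  linarith only [h2, h3]

/-- The conclusion from the entropy of the block. -/
theorem toCc (hd : FltDat F p w c M S G Pt X K) {k' : ℕ} {x₁ κ ϖ ι ε₂ ca η : ℝ}
    (hh : FltHyp F p w c M S G Pt X k' x₁ κ ϖ ι ε₂ ca η) {a C ε : ℝ}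
    (hC : C = 2 * Real.log 13 + 3 * Real.log 7 + Real.log 21 + Real.log 7)
    (h : (2 - a) * X * Real.log 2 ≤ CH p (rb F w c M X) (fun ω => (F.blb w c M ω, F.T ω)))
    (hX : a * X * Real.log 2 + 2 * (ι * X) + 3 * C ≤ ε * X * Real.log 2) (hι : 0 ≤ ι) :
    FltCc F p w c M S G X ε := by
  have hl := hd.law
  have hp := hl.nonneg
  have hX0 : (0 : ℝ) ≤ X := Nat.cast_nonneg X
  have hιX : 0 ≤ ι * X := mul_nonneg hι hX0
  have l13 : 0 ≤ Real.log 13 := Real.log_nonneg (by norm_num)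
  have l7 : 0 ≤ Real.log 7 := Real.log_nonneg (by norm_num)
  have l21 : 0 ≤ Real.log 21 := Real.log_nonneg (by norm_num)
  obtain ⟨Z, hZ⟩ : ∃ Z, Z = fun ω => (F.blb w c M ω, F.T ω) := ⟨_, rfl⟩
  obtain ⟨mx0, hmx0⟩ : ∃ m, m = Uni.dg X (fun ω => F.mx w c M ω 0) := ⟨_, rfl⟩
  obtain ⟨mx1, hmx1⟩ : ∃ m, m = Uni.dg X (fun ω => F.mx w c M ω 1) := ⟨_, rfl⟩
  obtain ⟨tn, htn⟩ : ∃ m, m = Uni.dg X (tnu F w c M 0 1 S) := ⟨_, rfl⟩
  obtain ⟨C', hC'⟩ : ∃ C' : F.Ω → _, C' = cdn F w c M G := ⟨_, rfl⟩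
  have emb : mb F w c M X = fun ω => (mx0 ω, mx1 ω) := by
    rw [hmx0, hmx1]
    rfl
  have dS : Det p C' S := by
    rw [hC']
    intro ω ω' a a' e
    have e1 := Prod.ext_iff.mp e
    exact hd.dS ω ω' a a' (Prod.ext e1.1 (Prod.ext_iff.mp e1.2).1)
  have dT : Det p C' F.T := by
    rw [hC']
    intro ω ω' _ _ e
    exact (Prod.ext_iff.mp (Prod.ext_iff.mp e).2).2
  -- the block
  have b1 : (2 - a) * X * Real.log 2 - 2 * Real.log 13 ≤ CH p (mb F w c M X) Z := by
    have g1 := CH_le_add hp (rb F w c M X) (mb F w c M X) Z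
    have g2 := CH_rb (w := w) (c := c) (M := M) (X := X) hl Z
    rw [← hZ] at h
    linarith only [h, g1, g2]
  -- the own slope in the condition
  exact by
   have q0 := dp_mbG hd hh
   rw [← hZ] at q0
   have b2 : CH p (mb F w c M X) Z - (ι * X + 2 * Real.log 7) ≤ CH p (mb F w c M X) C' := by
     have g1 : dp p (mb F w c M X) G Z ≤
         dp p (fun ω => (mb F w c M X ω, vb F c M X ω)) G Z :=
       dp_mono hp (fun _ _ _ _ e => (Prod.ext_iff.mp (Prod.ext_iff.mp e).1).1)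
         (fun _ _ _ _ e => (Prod.ext_iff.mp e).1)
     have g2 : CH p (mb F w c M X) (fun ω => (G ω, Z ω)) = CH p (mb F w c M X) C' := by
       rw [hZ, hC']
       refine CH_congr hp (fun _ _ _ _ h => (Prod.ext_iff.mp h).1)
         (fun _ _ _ _ h => (Prod.ext_iff.mp h).1) ?_ ?_
       · intro ω ω' _ _ e
         have e1 := Prod.ext_iff.mp e
         have e2 := Prod.ext_iff.mp e1.2
         exact Prod.ext e2.1 (Prod.ext e1.1 e2.2)
       · intro ω ω' _ _ e
         have e1 := Prod.ext_iff.mp e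
         have e2 := Prod.ext_iff.mp e1.2
         exact Prod.ext e2.1 (Prod.ext e1.1 e2.2)
     have g3 : dp p (mb F w c M X) G Z =
       CH p (mb F w c M X) Z - CH p (mb F w c M X) (fun ω => (G ω, Z ω)) := rfl
     rw [g2] at g3
     linarith only [q0, g1, g3]
   -- the velocity and the own slope in the condition
   have b3 : CH p (mb F w c M X) Z - (2 * (ι * X) + 2 * Real.log 7) ≤
       CH p (mb F w c M X) (fun ω => (vb F c M X ω, C' ω)) := by
     have g1 := dp_add_right hp (mb F w c M X) G (vb F c M X) Z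
     have g2 := tm_b0 hd hh
     rw [← hZ] at g2
     have g3 := dp_add hp (mb F w c M X) (vb F c M X) G Z
     have g4 := dp_nonneg hp (vb F c M X) G Z
     have g5 : dp p (mb F w c M X) (fun ω => (G ω, vb F c M X ω)) Z =
       CH p (mb F w c M X) Z - CH p (mb F w c M X) (fun ω => ((G ω, vb F c M X ω), Z ω)) := rfl
     have g6 : CH p (mb F w c M X) (fun ω => ((G ω, vb F c M X ω), Z ω)) =
         CH p (mb F w c M X) (fun ω => (vb F c M X ω, C' ω)) := by
       rw [hZ, hC']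
       refine CH_congr hp (fun _ _ _ _ h => (Prod.ext_iff.mp h).1)
         (fun _ _ _ _ h => (Prod.ext_iff.mp h).1) ?_ ?_
       · intro ω ω' _ _ e
         have e1 := Prod.ext_iff.mp e
         have e2 := Prod.ext_iff.mp e1.1
         have e3 := Prod.ext_iff.mp e1.2
         exact Prod.ext e2.2 (Prod.ext e3.1 (Prod.ext e2.1 e3.2))
       · intro ω ω' _ _ e
         have e1 := Prod.ext_iff.mp e
         have e2 := Prod.ext_iff.mp e1.2
         have e3 := Prod.ext_iff.mp e2.2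
         exact Prod.ext (Prod.ext e3.1 e1.1) (Prod.ext e2.1 e3.2)
     rw [g6] at g5
     linarith only [q0, g1, g2, g3, g4, g5]
   exact by
    refine ⟨?_, ?_, ?_⟩
    · -- po
      have e : CH p (fun ω => (Uni.dg X (fun ω => F.mx w c M ω 0) ω,
          Uni.dg X (fun ω => F.mx w c M ω 1) ω)) (fun ω => (F.blb w c M ω, F.T ω)) =
          CH p (mb F w c M X) Z := by
        rw [hZ]
        rfl
      rw [e]
      have : (2 - ε) * X * Real.log 2 = (2 - a) * X * Real.log 2 + a * X * Real.log 2 -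
        ε * X * Real.log 2 := by ring
      linarith only [hC, hX, hιX, l13, l7, l21, b1]
    · -- nu
      rw [← htn, ← hC']
      obtain ⟨W, hW⟩ : ∃ W, W = fun ω => (mx0 ω, (vb F c M X ω, C' ω)) := ⟨_, rfl⟩
      obtain ⟨V, hV⟩ : ∃ V, V = fun ω => (vd F 0 1 w c M X ω, C' ω) := ⟨_, rfl⟩
      obtain ⟨m0, hm0⟩ : ∃ m, m = Uni.dg X (fun ω => F.mu w (fun i => c i + w) M ω 0) :=
        ⟨_, rfl⟩
      have n1 : CH p mx1 V ≤ CH p tn V + Real.log 21 := by
        have g1 := CH_le_add hp mx1 tn V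
        have g2 : CH p mx1 (fun ω => (tn ω, V ω)) ≤ Real.log 21 := by
          rw [hmx1, htn, hV]
          exact CH_row' hl hd.hS dS dT
        linarith only [g1, g2]
      have n2 : CH p mx1 (fun ω => (m0 ω, W ω)) ≤ CH p mx1 V := by
        refine CH_mono_cond hp ?_
        rw [hW, hV]
        intro ω ω' _ _ e
        have e1 := Prod.ext_iff.mp e
        have e2 := Prod.ext_iff.mp e1.2
        have e3 := Prod.ext_iff.mp e2.2
        have e4 : m0 ω = m0 ω' := e1.1
        rw [hm0] at e4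
        refine Prod.ext (Prod.ext e4 ?_) e3.2
        exact e3.1
      have n3 : CH p mx1 W ≤ CH p mx1 (fun ω => (m0 ω, W ω)) + Real.log 7 := by
        have g1 := CH_le_add hp mx1 m0 W
        have g2 : CH p m0 W ≤ Real.log 7 := by
          have g3 := CH_mu (w := w) (c := c) (M := M) (X := X) hl 0
            (Z := fun ω => (Uni.dg X (fun ω => F.md c M ω 1) ω, C' ω))
            (fun ω ω' a a' e => dT ω ω' a a' (Prod.ext_iff.mp e).2)
          rw [hm0]
          refine le_trans (CH_mono_cond hp ?_) g3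
          rw [hW, hmx0]
          intro ω ω' _ _ e
          have e1 := Prod.ext_iff.mp e
          have e2 := Prod.ext_iff.mp e1.2
          have e3 := Prod.ext_iff.mp e2.1
          exact Prod.ext e1.1 (Prod.ext e3.1 (Prod.ext e3.2 e2.2))
        linarith only [g1, g2]
      have n4 : CH p (mb F w c M X) (fun ω => (vb F c M X ω, C' ω)) ≤
          CH p mx1 W + (X * Real.log 2 + Real.log 7) := by
        have g1 := CH_le_add hp (mb F w c M X) mx0 (fun ω => (vb F c M X ω, C' ω))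
        have g2 : CH p mx0 (fun ω => (vb F c M X ω, C' ω)) ≤ X * Real.log 2 + Real.log 7 := by
          rw [hmx0]
          exact CH_mx_le hl 0 _
        have g3 : CH p (mb F w c M X) (fun ω => (mx0 ω, (vb F c M X ω, C' ω))) ≤ CH p mx1 W := by
          rw [hW, emb]
          refine CH_mono_left hp ?_
          intro ω ω' _ _ e
          have e1 := Prod.ext_iff.mp e
          have e2 := Prod.ext_iff.mp e1.2
          exact Prod.ext e2.1 e1.1
        linarith only [g1, g2, g3]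
      have n5 : CH p tn (fun ω => (vd F 0 1 w c M X ω, C' ω)) = CH p tn V := by rw [hV]
      rw [n5]
      have : (1 - ε) * X * Real.log 2 = (2 - a) * X * Real.log 2 + a * X * Real.log 2 -
        ε * X * Real.log 2 - X * Real.log 2 := by ring
      linarith only [hC, hX, l13, l7, l21, b1, b3, n1, n2, n3, n4]
    · -- pr
      rw [← htn, ← hmx0, ← hC']
      have g1 := CH_le_add hp (mb F w c M X) (fun ω => (tn ω, mx0 ω)) C'
      have g2 : CH p (mb F w c M X) (fun ω => ((tn ω, mx0 ω), C' ω)) ≤ 0 + Real.log 13 := by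
        rw [emb]
        refine CH_two hp _ _ _ ?_ ?_
        · refine (CH_eq_zero hp ?_).le
          intro ω ω' _ _ e
          exact (Prod.ext_iff.mp (Prod.ext_iff.mp e).1).2
        · rw [hmx1, htn, hmx0]
          exact CH_row hl hd.hS dS
      have : (2 - ε) * X * Real.log 2 = (2 - a) * X * Real.log 2 + a * X * Real.log 2 -
        ε * X * Real.log 2 := by ring
      linarith only [hC, hX, hιX, l13, l7, l21, b1, b2, g1, g2]

end main

/-- **The flat step at one context.** -/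
theorem flt_thm : FltStmt := by
  intro ε ca κ K hε hca hκ hκ1 hK
  have l2 : 0 < Real.log 2 := Real.log_pos (by norm_num)
  have l13 : 0 ≤ Real.log 13 := Real.log_nonneg (by norm_num)
  have l7 : 0 ≤ Real.log 7 := Real.log_nonneg (by norm_num)
  have l21 : 0 ≤ Real.log 21 := Real.log_nonneg (by norm_num)
  obtain ⟨x₀, ϖ', ε₁, hx₀, hϖ', hε₁, hpl⟩ := plvk 1 (ε / 8) (ca / 2) κ (K + 6) (by positivity)
    (by positivity) hκ hκ1 (by positivity)
  obtain ⟨ϖ, hϖ, hL⟩ := Pool.DPL.layl_thm (1 / ϖ') (1 / 2) (by positivity) (by norm_num)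
  refine ⟨x₀ / 2, ϖ, ε₁ ^ 3, by positivity, hϖ, by positivity, fun k' => ?_⟩
  obtain ⟨ι', n₀, hι', hpl⟩ := hpl k'
  obtain ⟨C, hC⟩ : ∃ C, C = 2 * Real.log 13 + 3 * Real.log 7 + Real.log 21 + Real.log 7 :=
    ⟨_, rfl⟩
  have hC0 : 0 ≤ C := by linarith only [l13, l7, l21, hC]
  obtain ⟨ι, hι⟩ : ∃ ι, ι = min (ι' / 4) (ε * Real.log 2 / 8) := ⟨_, rfl⟩
  have hι0 : 0 < ι := by
    rw [hι]
    exact lt_min (by positivity) (by positivity)
  have hι1 : ι ≤ ι' / 4 := by
    rw [hι]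
    exact min_le_left _ _
  have hι2 : ι ≤ ε * Real.log 2 / 8 := by
    rw [hι]
    exact min_le_right _ _
  obtain ⟨n₁, hn₁⟩ := exists_nat_ge (2 * C / ι')
  obtain ⟨n₂, hn₂⟩ := exists_nat_ge (6 * C / (ε * Real.log 2))
  obtain ⟨n₃, hn₃⟩ := exists_nat_ge (10 / x₀)
  refine ⟨ι, n₀ + n₁ + n₂ + n₃, hι0, ?_⟩
  intro J F p w c M S Γ P G Pt X η hX hd hh
  have hX0 : (0 : ℝ) ≤ X := Nat.cast_nonneg X
  have hX1 : (n₁ : ℝ) ≤ X := by exact_mod_cast (by omega : n₁ ≤ X)
  exact by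
   have hX2 : (n₂ : ℝ) ≤ X := by exact_mod_cast (by omega : n₂ ≤ X)
   have hX3 : (n₃ : ℝ) ≤ X := by exact_mod_cast (by omega : n₃ ≤ X)
   have k1 : 2 * C ≤ ι' * X := by
     have := (div_le_iff₀ hι').1 (hn₁.trans hX1)
     linarith only [this]
   have k2 : 6 * C ≤ ε * X * Real.log 2 := by
     have := (div_le_iff₀ (by positivity : (0 : ℝ) < ε * Real.log 2)).1 (hn₂.trans hX2)
     linarith only [this]
   have k3 : 10 ≤ x₀ * X := by
     have := (div_le_iff₀ hx₀).1 (hn₃.trans hX3)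
     linarith only [this]
   have hιX : 0 ≤ ι * X := mul_nonneg hι0.le hX0
   have k4 : 2 * (ι * X) + 2 * Real.log 13 ≤ ι' * X := by
     have := mul_le_mul_of_nonneg_right hι1 hX0
     linarith only [l7, l21, hC, k1, this]
   have k5 : 2 * ((2 * 4 + 2) * (2 : ℝ) ^ (-(x₀ * X))) ≤ 2 ^ (-(x₀ / 2 * X)) := by
     have e1 : (2 : ℝ) ^ (-(x₀ * X)) = 2 ^ (-(x₀ / 2 * X)) * 2 ^ (-(x₀ / 2 * X)) := by
       rw [← Real.rpow_add (by norm_num)]
       congr 1
       ring
     have e2 : (2 : ℝ) ^ (-(x₀ / 2 * X)) ≤ 1 / 32 := by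
       have : (2 : ℝ) ^ (-(x₀ / 2 * X)) ≤ 2 ^ (-(5 : ℝ)) :=
         Real.rpow_le_rpow_of_exponent_le (by norm_num) (by linarith only [k3])
       refine this.trans (le_of_eq ?_)
       rw [Real.rpow_neg (by norm_num)]
       norm_num
     have e3 : (0 : ℝ) < 2 ^ (-(x₀ / 2 * X)) := by positivity
     rw [e1]
     nlinarith only [e3, e2]
   have k6 : (2 : ℝ) ^ (-(x₀ * X)) ≤ 1 / 2 := by
     have : (2 : ℝ) ^ (-(x₀ * X)) ≤ 2 ^ (-(1 : ℝ)) :=
       Real.rpow_le_rpow_of_exponent_le (by norm_num) (by linarith only [k3])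
     refine this.trans (le_of_eq ?_)
     rw [Real.rpow_neg (by norm_num)]
     norm_num
   exact by
    have key := hpl (F.Ω × F.Ω) _ _ _ _ _ _ (dbl p (slam F w)) _ _ _ _ _ _ _ _ _ _ _ _ _ _ _ X
      (3 * η) (toPVDf hd hK) (by omega) (toPKHf hd hh hca hϖ' hL hκ1 hι0.le k4 hε₁ le_rfl k5 k6)
    have e1 : CH (dbl p (slam F w)) (blk X (fun x => ry F w c M X 0 x.1)
        (fun x (_ : Fin 1) => ry F w c M X 1 x.1)) (fun x => (F.blb w c M x.1, F.T x.1)) =
        CH p (rb F w c M X) (fun ω => (F.blb w c M ω, F.T ω)) :=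
      (dbl_fst (b := slam F w) hd.law.nonneg).CH (rb F w c M X)
        (fun ω => (F.blb w c M ω, F.T ω))
    rw [e1] at key
    refine toCc hd hh (a := ε / 4 + 2 * κ + 6 * η) hC ?_ ?_ hι0.le
    · refine le_trans (le_of_eq ?_) key
      push_cast
      ring
    · have h1 := mul_le_mul_of_nonneg_right hι2 hX0
      have h2 : (ε + 2 * κ + 6 * η) * X * Real.log 2 =
        (ε / 4 + 2 * κ + 6 * η) * X * Real.log 2 + 3 / 4 * (ε * X * Real.log 2) := by ring
      rw [h2]
      have h3 : ε * Real.log 2 / 8 * X = 1 / 8 * (ε * X * Real.log 2) := by ring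
      have h4 : 0 ≤ ε * X * Real.log 2 := by positivity
      linarith only [k2, h1]

end Pool.KG
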