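import Pool.Agent.H68.KG.Flt

/-!
# Flat contexts: the velocity and the position, for all windows at one precision

`b0_rect`: for one frame `M` and precisions `c q`, the dependence of the digits of the velocity on
the digits of the position at the exact time is small for all but a small proportion of the
contexts `(w, q)` of a rectangle.
-/

set_option autoImplicit false

namespace Pool.KG

open Finset Real
open Pool.Agent.H49.Ent Pool.Agent.H32.Dense Pool.STK Pool.KA Pool.KSAT Pool.K2S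
open Pool.S6U Pool.OCG Pool.PLV

section main

variable {J : ℕ} {F : Fam 2 J} {p : F.Ω → ℝ} {w w' : ℕ} {c : Fin 2 → ℕ}
  {M : F.Ω → Fin 2 → Fin 2 → ℝ} {X : ℕ}

/-- The constant of one step. -/
noncomputable def cb : ℝ := 2 * (2 * Real.log 11) + 2 * Real.log 7

theorem cb_nonneg : 0 ≤ cb := by
  unfold cb
  have h1 : 0 ≤ Real.log 11 := Real.log_nonneg (by norm_num)
  have h2 : 0 ≤ Real.log 7 := Real.log_nonneg (by norm_num)
  linarith

/-- **One step**: the position of the window `w` from the context of a later window. -/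
theorem b0_step (hp : IsLaw p) (hX : w + X ≤ w') (hJ : w' ≤ J) :
    CH p (fun ω => (mb F w c M X ω, (F.blb w c M ω, F.T ω)))
      (fun ω => (F.blb w' c M ω, F.T ω)) ≤ cb := by
  have h0 := hp.nonneg
  have hww : w ≤ w' := by omega
  have hwJ : w ≤ J := by omega
  obtain ⟨Z', hZ'⟩ : ∃ Z', Z' = fun ω => (F.blb w' c M ω, F.T ω) := ⟨_, rfl⟩
  obtain ⟨B, hB⟩ : ∃ B, B = F.blb w c M := ⟨_, rfl⟩
  rw [← hZ', ← hB]
  have zd : ∀ ω ω', Z' ω = Z' ω' → F.blb w' c M ω = F.blb w' c M ω' ∧ F.T ω = F.T ω' := by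
    intro ω ω' e
    rw [hZ'] at e
    exact ⟨(Prod.ext_iff.mp e).1, (Prod.ext_iff.mp e).2⟩
  have s2 : CH p B Z' ≤ 2 * (2 * Real.log 11) := by
    have k := Box.CH_mlb (F := F) (p := p) (g := w') (g' := w) (k := fun i => c i + w') (c := c)
      (k' := fun i => c i + w) (c' := c) (kk := fun i => c i + w) (M := M) (M' := M) (D := 1) hp
      hJ hwJ zero_le_one (fun i => by
        show c i + w ≤ c i + w'
        omega) (fun i => by
        show c i + w ≤ c i + min w' w
        rw [min_eq_right hww]) (fun ω _ => ⟨_, Box.cg_refl (M ω), fun i j => by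
          by_cases h : i = j
          · subst h
            simp
          · rw [if_neg h, abs_zero]
            positivity, fun i j => by
          by_cases h : i = j
          · subst h
            simp
          · rw [if_neg h, abs_zero]
            positivity⟩) Z' (fun ω ω' _ _ e => ⟨(zd ω ω' e).1, Lab.T1_of_T (zd ω ω' e).2,
          (Box.mlb_ext (zd ω ω' e).1).2.1⟩)
    rw [hB]
    refine k.trans (le_of_eq ?_)
    norm_num
  have s3 : ∀ i : Fin 2, CH p (Uni.dg X (fun ω => F.mx w c M ω i)) (fun ω => (B ω, Z' ω)) ≤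
      Real.log 7 := by
    intro i
    have k1 := CH_near hp (X := X) (x := fun ω => F.mx w c M ω i) (W := fun ω => (B ω, Z' ω))
      (C := 2) (by
      intro ω ω' _ _ e
      have e1 := Prod.ext_iff.mp e
      obtain ⟨g1, g3⟩ := zd ω ω' e1.2
      have eB : F.blb w c M ω = F.blb w c M ω' := by
        have := e1.1
        rw [hB] at this
        exact this
      have n1 := Box.mx_near hJ g1 g3 i
      have eM : M ω = M ω' := (Box.mlb_ext g1).2.1
      have p1 := Box.pos_eq F (w := w) hwJ c M ω i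
      have p2 := Box.pos_eq F (w := w) hwJ c M ω' i
      have m1 := congrFun (Box.mkn_det (F := F) eB g3) i
      rw [← eM] at p2
      have e4 : (2 : ℝ) ^ X * F.mx w c M ω i - 2 ^ X * F.mx w c M ω' i =
          2 ^ (X + (c i + w)) * (mco (M ω) (F.x ω) i - mco (M ω) (F.x ω') i) := by
        rw [pow_add]
        have : F.mx w c M ω i - F.mx w c M ω' i =
          2 ^ (c i + w) * (mco (M ω) (F.x ω) i - mco (M ω) (F.x ω') i) := by
          rw [m1] at p1
          rw [mul_sub, p1, p2]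
          ring
        rw [← mul_sub, this]
        ring
      show |(2 : ℝ) ^ X * F.mx w c M ω i - 2 ^ X * F.mx w c M ω' i| ≤ 2
      rw [e4, abs_mul, abs_of_pos (by positivity : (0 : ℝ) < 2 ^ (X + (c i + w)))]
      rw [← mul_sub, abs_mul, abs_of_pos (by positivity : (0 : ℝ) < 2 ^ (c i + w'))] at n1
      refine le_trans (mul_le_mul_of_nonneg_right ?_ (abs_nonneg _)) n1
      exact pow_le_pow_right₀ (by norm_num) (by omega))
    refine k1.trans (le_of_eq ?_)
    norm_num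
  have s4 := CH_two h0 _ _ _ (s3 0) (s3 1)
  have t2 := CH_le_add h0 (fun ω => (mb F w c M X ω, (B ω, F.T ω))) B Z'
  have t3 : CH p (fun ω => (mb F w c M X ω, (B ω, F.T ω))) (fun ω => (B ω, Z' ω)) ≤
      CH p (fun ω => (Uni.dg X (fun ω => F.mx w c M ω 0) ω,
        Uni.dg X (fun ω => F.mx w c M ω 1) ω)) (fun ω => (B ω, Z' ω)) := by
    refine CH_mono_left h0 ?_
    intro ω ω' _ _ e
    have e1 := Prod.ext_iff.mp e
    have e2 := Prod.ext_iff.mp e1.2
    exact Prod.ext e1.1 (Prod.ext e2.1 (zd ω ω' e2.2).2)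
  unfold cb
  linarith

/-- The digits of the velocity. -/
theorem CH_vb {T : Type} (hp : IsLaw p) (Z : F.Ω → T) :
    CH p (vb F c M X) Z ≤ 2 * (X * Real.log 2 + Real.log 7) := by
  have h3 : (1 : ℝ) ≤ 2 ^ X := one_le_pow₀ (by norm_num)
  have g : ∀ i : Fin 2, CH p (Uni.dg X (fun ω => F.md c M ω i)) Z ≤
      X * Real.log 2 + Real.log 7 := by
    intro i
    have key := CH_near hp (X := X) (x := fun ω => F.md c M ω i) (W := Z) (C := 1 * 2 ^ X) (by
      intro ω ω' _ _ _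
      have a1 := Box.md_mem F c M ω i
      have a2 := Box.md_mem F c M ω' i
      show |(2 : ℝ) ^ X * F.md c M ω i - 2 ^ X * F.md c M ω' i| ≤ 1 * 2 ^ X
      rw [← mul_sub, abs_mul, abs_of_pos (by positivity : (0 : ℝ) < 2 ^ X), mul_comm]
      refine mul_le_mul_of_nonneg_right ?_ (by positivity)
      rw [abs_le]
      constructor <;> linarith [a1.1, a1.2, a2.1, a2.2])
    refine key.trans ?_
    have h4 : Real.log (2 * (1 * 2 ^ X) + 3) ≤ Real.log (2 ^ X * 7) :=
      Real.log_le_log (by positivity) (by linarith)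
    rw [Real.log_mul (by positivity) (by positivity), Real.log_pow] at h4
    exact h4
  have g2 := CH_two hp.nonneg _ _ Z (g 0) (g 1)
  linarith [show CH p (vb F c M X) Z = CH p (fun ω => (Uni.dg X (fun ω => F.md c M ω 0) ω,
    Uni.dg X (fun ω => F.md c M ω 1) ω)) Z from rfl]

/-- The dependence of the velocity and the position. -/
noncomputable def b0t (F : Fam 2 J) (p : F.Ω → ℝ) (w : ℕ) (c : Fin 2 → ℕ)
    (M : F.Ω → Fin 2 → Fin 2 → ℝ) (X : ℕ) : ℝ :=
  dp p (fun ω => (Uni.dg X (fun ω => F.md c M ω 0) ω, Uni.dg X (fun ω => F.md c M ω 1) ω))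
    (fun ω => (Uni.dg X (fun ω => F.mx w c M ω 0) ω, Uni.dg X (fun ω => F.mx w c M ω 1) ω))
    (fun ω => (F.blb w c M ω, F.T ω))

theorem b0t_nonneg (hp : IsLaw p) : 0 ≤ b0t F p w c M X := dp_nonneg hp.nonneg _ _ _

theorem b0t_eq : b0t F p w c M X = dp p (vb F c M X) (mb F w c M X)
    (fun ω => (F.blb w c M ω, F.T ω)) := rfl

/-- **(B0)** on a separated set of windows. -/
theorem b0_sep (hp : IsLaw p) {wb : ℕ} (hb : wb ≤ J) (S : Finset ℕ) (hS : ∀ w ∈ S, w ≤ wb)
    (hne : S.Nonempty) (hsep : ∀ x ∈ S, ∀ y ∈ S, x < y → x + X ≤ y) :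
    ∑ w ∈ S, b0t F p w c M X ≤ 2 * (X * Real.log 2 + Real.log 7) + cb * S.card := by
  obtain ⟨w, h1, h2, h3⟩ := H23.enum_asc X S hne hsep
  rw [← h3 (fun w => b0t F p w c M X)]
  obtain ⟨N, hN⟩ : ∃ N, N = vb F c M X := ⟨_, rfl⟩
  obtain ⟨V, hV⟩ : ∃ V : ℕ → F.Ω → ℤ × ℤ, V = fun j => mb F (w j) c M X := ⟨_, rfl⟩
  obtain ⟨b, hbe⟩ : ∃ b : ℕ → F.Ω → _, b = fun j ω => (F.blb (w j) c M ω, F.T ω) := ⟨_, rfl⟩
  have e0 : ∀ j, b0t F p (w j) c M X = dp p N (V j) (b j) := by
    intro j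
    rw [hN, hV, hbe, b0t_eq]
  have key := tele hp S.card (fun _ => N) V b (c₁ := cb) (c₂ := 0) cb_nonneg le_rfl
    (fun j hj => by
      rw [hV, hbe]
      exact b0_step hp (h2 j hj) ((hS _ (h1 (j + 1))).trans hb))
    (fun j _ => by
      refine (CH_eq_zero hp.nonneg ?_).le
      intro ω ω' _ _ e
      have e1 : N ω = N ω' := (Prod.ext_iff.mp e).1
      exact e1)
  have k2 : CH p N (b 0) ≤ 2 * (X * Real.log 2 + Real.log 7) := by
    rw [hN]
    exact CH_vb hp (b 0)
  have e1 : ∑ j ∈ Finset.range S.card, b0t F p (w j) c M X =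
    ∑ j ∈ Finset.range S.card, dp p N (V j) (b j) := Finset.sum_congr rfl fun j _ => e0 j
  show ∑ j ∈ Finset.range S.card, b0t F p (w j) c M X ≤ _
  rw [e1]
  have key' : ∑ j ∈ Finset.range S.card, dp p N (V j) (b j) ≤
    CH p N (b 0) + S.card * (cb + 0) := key
  linarith

/-- **(B0)** on an interval of windows. -/
theorem b0_sum (hp : IsLaw p) (hX : 0 < X) {wa wb : ℕ} (hb : wb ≤ J) :
    ∑ w ∈ Finset.Icc wa wb, b0t F p w c M X ≤
      X * (2 * (X * Real.log 2 + Real.log 7)) + cb * (Finset.Icc wa wb).card := by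
  have hl2 : 0 ≤ Real.log 2 := Real.log_nonneg (by norm_num)
  have hl7 : 0 ≤ Real.log 7 := Real.log_nonneg (by norm_num)
  refine H23.sum_class (fun w => b0t F p w c M X) (Finset.Icc wa wb) X hX (by positivity) ?_
  intro S' hS' hne hsep
  exact b0_sep hp hb S' (fun w hw => (Finset.mem_Icc.1 (hS' hw)).2) hne hsep

end main

/-- **(B0) on a rectangle.** -/
theorem b0_rect (ρ ι : ℝ) (hρ : 0 < ρ) (hι : 0 < ι) : ∃ (γ : ℝ) (X₀ : ℕ), 0 < γ ∧
    ∀ {J : ℕ} (F : Fam 2 J) (p : F.Ω → ℝ) (c : ℕ → Fin 2 → ℕ) (M : F.Ω → Fin 2 → Fin 2 → ℝ)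
      (wa wb X : ℕ) (Q : Finset ℕ), IsLaw p → wb ≤ J → X₀ ≤ X →
      (X : ℝ) ≤ γ * (Finset.Icc wa wb).card →
      ∃ B ⊆ Finset.Icc wa wb ×ˢ Q,
        (B.card : ℝ) ≤ ρ * ((Finset.Icc wa wb).card * Q.card) ∧
        ∀ w q, w ∈ Finset.Icc wa wb → q ∈ Q → (w, q) ∉ B →
          dp p (fun ω => (Uni.dg X (fun ω => F.md (c q) M ω 0) ω,
              Uni.dg X (fun ω => F.md (c q) M ω 1) ω))
            (fun ω => (Uni.dg X (fun ω => F.mx w (c q) M ω 0) ω,
              Uni.dg X (fun ω => F.mx w (c q) M ω 1) ω))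
            (fun ω => (F.blb w (c q) M ω, F.T ω)) ≤ ι * X := by
  classical
  have l2 : Real.log 2 ≤ 1 := by
    have := Real.log_le_sub_one_of_pos (show (0 : ℝ) < 2 by norm_num)
    linarith
  have l7 : Real.log 7 ≤ 6 := by
    have := Real.log_le_sub_one_of_pos (show (0 : ℝ) < 7 by norm_num)
    linarith
  obtain ⟨n₁, hn₁⟩ := exists_nat_ge (2 * cb / (ρ * ι))
  refine ⟨ρ * ι / 8, n₁ + 6, by positivity, ?_⟩
  intro J F p c M wa wb X Q hp hb hX hγ
  have hX6 : (6 : ℝ) ≤ X := by exact_mod_cast (by omega : 6 ≤ X)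
  have hX1 : (n₁ : ℝ) ≤ X := by exact_mod_cast (by omega : n₁ ≤ X)
  have hcb : 2 * cb ≤ ρ * ι * X := by
    have := (div_le_iff₀ (by positivity : (0 : ℝ) < ρ * ι)).1 (hn₁.trans hX1)
    linarith
  obtain ⟨B, hB⟩ : ∃ B, B = (Finset.Icc wa wb ×ˢ Q).filter
    (fun x => ¬ b0t F p x.1 (c x.2) M X ≤ ι * X) := ⟨_, rfl⟩
  refine ⟨B, by rw [hB]; exact Finset.filter_subset _ _, ?_, ?_⟩
  · have h1 : (B.card : ℝ) * (ι * X) ≤ ∑ x ∈ Finset.Icc wa wb ×ˢ Q, b0t F p x.1 (c x.2) M X := by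
      rw [← nsmul_eq_mul, ← Finset.sum_const]
      refine le_trans (Finset.sum_le_sum fun x hx => ?_)
        (Finset.sum_le_sum_of_subset_of_nonneg (s := B) (by
          rw [hB]; exact Finset.filter_subset _ _) fun x _ _ => b0t_nonneg hp)
      rw [hB] at hx
      exact (not_le.1 (Finset.mem_filter.1 hx).2).le
    have h2 : ∑ x ∈ Finset.Icc wa wb ×ˢ Q, b0t F p x.1 (c x.2) M X ≤
        Q.card * (X * (2 * (X * Real.log 2 + Real.log 7)) + cb * (Finset.Icc wa wb).card) := by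
      rw [Finset.sum_product_right]
      refine (Finset.sum_le_sum fun q _ => b0_sum (c := c q) (M := M) hp (by omega) hb).trans ?_
      rw [Finset.sum_const, nsmul_eq_mul]
    obtain ⟨W, hW⟩ : ∃ W : ℝ, W = (Finset.Icc wa wb).card := ⟨_, rfl⟩
    have hW0 : 0 ≤ W := by rw [hW]; positivity
    have hQ0 : (0 : ℝ) ≤ Q.card := Nat.cast_nonneg _
    rw [← hW] at h2 hγ ⊢
    have hX0 : (0 : ℝ) < X := by linarith
    have h3 : (X : ℝ) * (2 * (X * Real.log 2 + Real.log 7)) ≤ X * (4 * X) := by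
      refine mul_le_mul_of_nonneg_left ?_ hX0.le
      nlinarith
    have h4 : (X : ℝ) * (4 * X) ≤ X * (ρ * ι / 2 * W) := by
      refine mul_le_mul_of_nonneg_left ?_ hX0.le
      linarith
    have h5 : cb * W ≤ ρ * ι * X / 2 * W := mul_le_mul_of_nonneg_right (by linarith) hW0
    have h6 : (B.card : ℝ) * (ι * X) ≤ ρ * (W * Q.card) * (ι * X) := by
      calc (B.card : ℝ) * (ι * X) ≤ _ := h1.trans h2
        _ ≤ Q.card * (ρ * ι * X * W) := mul_le_mul_of_nonneg_left (by linarith) hQ0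
        _ = _ := by ring
    exact le_of_mul_le_mul_right h6 (by positivity)
  · intro w q hw hq hwq
    by_contra hcon
    refine hwq ?_
    rw [hB]
    exact Finset.mem_filter.2 ⟨Finset.mem_product.2 ⟨hw, hq⟩, hcon⟩

end Pool.KG
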