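import Pool.Agent.H73.KG.Stmts2
import Pool.Agent.H2.KL.ST1

/-!
# Project KG, module CVL: convolution with the standard Gaussian measure
-/

set_option autoImplicit false
set_option linter.unusedSectionVars false

open MeasureTheory Set Filter Topology
open scoped ContDiff

namespace Pool.Agent.H73.KG

open Pool.Agent.H84 Pool.Agent.H84.Sym Pool.Agent.H84.Sym.P2x Pool.Agent.H84.Sym.C29
open Pool.Agent.H19.KL

section

variable {E : Type} [NormedAddCommGroup E] [InnerProductSpace ℝ E]
    [FiniteDimensional ℝ E] [MeasurableSpace E] [BorelSpace E]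

private theorem cvl_li (e : E) : GC (li e) := by
  refine ⟨continuous_const.inner continuous_id, ?_⟩
  refine Gr.of_le (Gr.mul (Gr.nrm (H := E)) (Gr.of_bdd (H := E) (F := fun _ => ‖e‖) (A := ‖e‖)
    fun _ => by simp)) fun x => ?_
  rw [abs_of_nonneg (mul_nonneg (norm_nonneg x) (norm_nonneg e)), mul_comm]
  exact abs_real_inner_le_norm _ _

/-- the mean of a linear functional over the noise -/
private theorem cvl_av_li (e y : E) : av (fun _ => 0) 1 (li e) y = li e y := by
  have hg := gs_pos (E := E) (s := 1) one_pos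
  have hA := adm_zero (E := E) (s := 1) one_pos
  have i1 : Integrable (fun z : E => li e z * Real.exp (-(1 * ‖z‖ ^ 2 / 2))) := by
    have h1 := NI_int hA (cvl_li e) 0
    refine h1.congr (Filter.Eventually.of_forall fun z => ?_)
    simp only [pt, sub_zero, zero_add]
  have i2 : Integrable (fun z : E => li e y * Real.exp (-(1 * ‖z‖ ^ 2 / 2))) := by
    have h1 := NI_int hA (GC.const (li e y)) 0
    refine h1.congr (Filter.Eventually.of_forall fun z => ?_)
    simp only [pt, sub_zero, zero_add]
  have h0 : ∫ z : E, li e z * Real.exp (-(1 * ‖z‖ ^ 2 / 2)) = 0 := by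
    have h1 := integral_neg_eq_self (fun z : E => li e z * Real.exp (-(1 * ‖z‖ ^ 2 / 2))) volume
    have h2 : (fun z : E => li e (-z) * Real.exp (-(1 * ‖-z‖ ^ 2 / 2))) =
        fun z => -(li e z * Real.exp (-(1 * ‖z‖ ^ 2 / 2))) := by
      funext z
      simp only [li, inner_neg_right, norm_neg, neg_mul]
    rw [h2, integral_neg] at h1
    linarith
  unfold av
  rw [st1_one, st1_trans]
  have e1 : (fun z : E => li e (z + y) * Real.exp (-(1 * ‖z‖ ^ 2 / 2))) =
      fun z => li e z * Real.exp (-(1 * ‖z‖ ^ 2 / 2)) + li e y * Real.exp (-(1 * ‖z‖ ^ 2 / 2)) := by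
    funext z
    simp only [li, inner_add_right]
    ring
  rw [e1, integral_add i1 i2, h0, zero_add, integral_const_mul]
  unfold gs
  exact mul_div_cancel_right₀ _ hg.ne'

/-- multiplication by a linear functional, averaged over the noise -/
private theorem cvl_rec (hD : DAVStmt E) {F : E → ℝ} (hF : GC F) (w : E) (c : ℝ) (y : E) :
    av (fun _ => 0) 1 (fun x => F x * (li w x - c)) y =
      fderiv ℝ (av (fun _ => 0) 1 F) y w + av (fun _ => 0) 1 F y * (li w y - c) := by
  have hA := adm_zero (E := E) (s := 1) one_pos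
  have h1 := (hD (fun _ => 0) 1 hA F hF).2 y w
  have e0 : (fun x : E => (inner ℝ x w : ℝ)) = li w := by
    funext x
    exact real_inner_comm _ _
  have e1 : (fun x : E => F x * (inner ℝ x w : ℝ)) = fun x => F x * li w x := by
    funext x
    rw [← congrFun e0 x]
  rw [e0, e1, cvl_av_li] at h1
  have e2 : (fun x => F x * (li w x - c)) = fun x => F x * li w x - c * F x := by
    funext x; ring
  have g1 : GC (fun x => F x * li w x) := hF.mul (cvl_li w)
  have g2 : GC (fun x => c * F x) := (GC.const (H := E) c).mul hF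
  rw [e2, av_sub hA g1 g2, av_const_mul hA, h1]
  ring

private theorem cvl_av1 (u : E) (a : ℝ) (y : E) :
    av (fun _ => 0) 1 (fun x => li u x - a) y = li u y - a := by
  have hA := adm_zero (E := E) (s := 1) one_pos
  rw [av_sub hA (cvl_li u) (GC.const a), av_const hA, cvl_av_li]

private theorem cvl_fd (u : E) (a : ℝ) (y : E) :
    HasFDerivAt (fun x : E => li u x - a) (innerSL ℝ u) y := by
  have h1 : HasFDerivAt (fun x : E => (inner ℝ u x : ℝ)) (innerSL ℝ u) y :=
    (innerSL ℝ u).hasFDerivAt
  exact h1.sub_const a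

private theorem cvl_av2 (hD : DAVStmt E) (u v : E) (a b : ℝ) (y : E) :
    av (fun _ => 0) 1 (fun x => (li u x - a) * (li v x - b)) y =
      inner ℝ u v + (li u y - a) * (li v y - b) := by
  have g1 : GC (fun x : E => li u x - a) := (cvl_li u).sub (GC.const a)
  rw [cvl_rec hD g1, cvl_av1]
  have e : av (fun _ => 0) 1 (fun x : E => li u x - a) = fun y => li u y - a := by
    funext y
    exact cvl_av1 u a y
  rw [e, (cvl_fd u a y).fderiv]
  simp

private theorem cvl_av3 (hD : DAVStmt E) (u v w : E) (a b c : ℝ) (y : E) :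
    av (fun _ => 0) 1 (fun x => (li u x - a) * (li v x - b) * (li w x - c)) y =
      (li u y - a) * (li v y - b) * (li w y - c) + ((inner ℝ u v * (li w y - c) +
        inner ℝ u w * (li v y - b)) + inner ℝ v w * (li u y - a)) := by
  have g1 : GC (fun x : E => (li u x - a) * (li v x - b)) :=
    ((cvl_li u).sub (GC.const a)).mul ((cvl_li v).sub (GC.const b))
  rw [cvl_rec hD g1, cvl_av2 hD]
  have e : av (fun _ => 0) 1 (fun x : E => (li u x - a) * (li v x - b)) =
      fun y => inner ℝ u v + (li u y - a) * (li v y - b) := by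
    funext y
    exact cvl_av2 hD u v a b y
  have h1 := ((cvl_fd u a y).mul (cvl_fd v b y)).const_add (inner ℝ u v : ℝ)
  have h2 : fderiv ℝ (fun y => inner ℝ u v + (li u y - a) * (li v y - b)) y = _ := h1.fderiv
  rw [e, h2]
  simp only [add_apply, smul_apply, smul_eq_mul, innerSL_apply_apply]
  ring

private theorem cvl_mn0 {U : E → ℝ} {t C : ℝ} (hU : Pot U t C)
    (hp : IsProbabilityMeasure (mu U)) (u : E) :
    ∫ x, (li u x - mn U u) ∂(mu U) = 0 := by
  rw [integral_sub ((cvl_li u).integrable hU) (integrable_const _)]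
  simp [mn]

end

theorem cvl_core (E : Type) [NormedAddCommGroup E] [InnerProductSpace ℝ E]
    [FiniteDimensional ℝ E] [MeasurableSpace E] [BorelSpace E] (hD : DAVStmt E) (hH : HESStmt E)
    (hF : FUBStmt E) : CVLStmt E := by
  intro τ K hτ hτ1 hyp U hPP hcov θ hθ ι _ b
  obtain ⟨⟨C, hU⟩, hp⟩ := hPP
  obtain ⟨⟨C', hW⟩, _, hess⟩ := hH U τ C 1 hU one_pos
  have hA := adm_of_pot hU one_pos
  have fub := fun (F : E → ℝ) (hG : GC F) => hF U τ C 1 hU one_pos F hG
  have hpW : IsProbabilityMeasure (mu (WW U 1)) := (fub (fun _ => 0) (GC.const 0)).2.2 hp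
  have hW' : Pot (WW U 1) (τ / 2) C' := by
    refine ⟨hW.smooth, by linarith, fun x v => ?_, hW.grad⟩
    refine le_trans (mul_le_mul_of_nonneg_right ?_ (sq_nonneg _)) (hW.hess x v)
    rw [mul_one, div_le_div_iff₀ (by norm_num) (by linarith)]
    nlinarith
  -- means
  have hmn : ∀ u : E, mn (WW U 1) u = mn U u := by
    intro u
    unfold mn
    rw [(fub (li u) (cvl_li u)).2.1]
    congr 1
    funext x
    exact cvl_av_li u x
  -- covariances
  have hcv : ∀ w : E, cv (WW U 1) (li w) (li w) = cv U (li w) (li w) + ‖w‖ ^ 2 := by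
    intro w
    have h1 := (fub (fun x => (li w x - 0) * (li w x - 0))
      (((cvl_li w).sub (GC.const 0)).mul ((cvl_li w).sub (GC.const 0)))).2.1
    have h2 : (fun x => av (fun _ => 0) 1 (fun x => (li w x - 0) * (li w x - 0)) x) =
        fun x => li w x * li w x + ‖w‖ ^ 2 := by
      funext x
      rw [cvl_av2 hD, real_inner_self_eq_norm_sq, sub_zero]
      ring
    rw [h2] at h1
    simp only [sub_zero] at h1
    rw [integral_add (((cvl_li w).mul (cvl_li w)).integrable hU) (integrable_const _)] at h1
    simp only [integral_const, probReal_univ, smul_eq_mul, one_mul] at h1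
    unfold cv
    rw [h1]
    have h3 := hmn w
    unfold mn at h3
    rw [h3]
    ring
  -- third central moments
  have ht3 : ∀ u v w : E, t3 (WW U 1) u v w = t3 U u v w := by
    intro u v w
    have g1 : GC (fun x => (li u x - mn U u) * (li v x - mn U v) * (li w x - mn U w)) :=
      (((cvl_li u).sub (GC.const _)).mul ((cvl_li v).sub (GC.const _))).mul
        ((cvl_li w).sub (GC.const _))
    have h1 := (fub _ g1).2.1
    unfold t3
    rw [hmn, hmn, hmn, h1]
    have h2 : (fun x => av (fun _ => 0) 1
        (fun x => (li u x - mn U u) * (li v x - mn U v) * (li w x - mn U w)) x) =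
        fun x => (li u x - mn U u) * (li v x - mn U v) * (li w x - mn U w) +
          ((inner ℝ u v * (li w x - mn U w) + inner ℝ u w * (li v x - mn U v)) +
            inner ℝ v w * (li u x - mn U u)) := by
      funext x
      exact cvl_av3 hD u v w _ _ _ x
    have j1 := g1.integrable hU
    have j : ∀ e : E, Integrable (fun x => li e x - mn U e) (mu U) := fun e =>
      ((cvl_li e).sub (GC.const _)).integrable hU
    have k1 : Integrable (fun x => inner ℝ u v * (li w x - mn U w)) (mu U) := (j w).const_mul _
    have k2 : Integrable (fun x => inner ℝ u w * (li v x - mn U v)) (mu U) := (j v).const_mul _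
    have k3 : Integrable (fun x => inner ℝ v w * (li u x - mn U u)) (mu U) := (j u).const_mul _
    have k4 : Integrable (fun x => inner ℝ u v * (li w x - mn U w) +
        inner ℝ u w * (li v x - mn U v)) (mu U) := k1.add k2
    have k5 : Integrable (fun x => inner ℝ u v * (li w x - mn U w) +
        inner ℝ u w * (li v x - mn U v) + inner ℝ v w * (li u x - mn U u)) (mu U) := k4.add k3
    rw [h2, integral_add j1 k5, integral_add k4 k3, integral_add k1 k2,
      integral_const_mul, integral_const_mul, integral_const_mul, cvl_mn0 hU hp u,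
      cvl_mn0 hU hp v, cvl_mn0 hU hp w]
    ring
  have hBP : BP (WW U 1) (τ / 2) := by
    refine ⟨⟨⟨C', hW'⟩, hpW⟩, fun x v => ?_⟩
    rw [hess x v]
    have h0 : 0 ≤ av U 1 (fun x => (inner ℝ x v : ℝ) ^ 2) x -
        av U 1 (fun x => (inner ℝ x v : ℝ)) x ^ 2 := by
      have hpn := prob_np hA x
      obtain ⟨t', C'', hn⟩ := hA.pot x
      have gi : GC (fun x : E => (inner ℝ x v : ℝ)) := by
        have : (fun x : E => (inner ℝ x v : ℝ)) = li v := by
          funext x
          exact real_inner_comm _ _
        rw [this]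
        exact cvl_li v
      have := st1_jensen (np_pot hn) hpn gi
      rw [int_np hA, int_np hA (fun x => (inner ℝ x v : ℝ) ^ 2)] at this
      linarith
    linarith
  have hcov' : CovLe (WW U 1) 5 := by
    intro w
    rw [hcv w]
    have := hcov w
    nlinarith [sq_nonneg ‖w‖]
  have := hyp (WW U 1) hBP hcov' θ hθ ι b
  simp only [ht3] at this
  exact this

end Pool.Agent.H73.KG
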