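import Pool.Agent.H68.KG.CVL
import Pool.Agent.H14.KL.CONC
import Pool.Agent.H14.KL.PLM
import Pool.Agent.H26.KL.HES
import Pool.Agent.H27.KL.FUB
import Pool.Agent.H70.KL.DAV
import Pool.Agent.H73.KL.GRO
import Pool.Agent.H83.KL.VAR
import Pool.Agent.H87.KL.NCD

/-!
# Project KG, module CVL without hypotheses
-/

set_option autoImplicit false

open MeasureTheory Set Filter Topology
open scoped ContDiff

namespace Pool.Agent.H73.KG

open Pool.Agent.H84 Pool.Agent.H84.Sym Pool.Agent.H84.Sym.P2x Pool.Agent.H84.Sym.C29
open Pool.Agent.H19.KL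

theorem cvl_thm (E : Type) [NormedAddCommGroup E] [InnerProductSpace ℝ E]
    [FiniteDimensional ℝ E] [MeasurableSpace E] [BorelSpace E] : CVLStmt E := by
  have ncd := ncd_thm E
  have var := var_thm E
  have dav := dav_thm E ncd
  have hes := hes_thm E ncd var
  have con := con_thm E (plm_thm E)
  have gro := gro_thm E dav con
  have fub := fub_thm E ncd hes gro
  exact cvl_core E dav hes fub

end Pool.Agent.H73.KG
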