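import Pool.Agent.H78.KG.KsgC

/-!
# Full rows from one early block of active velocities

The loss is the proportion of the dead windows of the time plus an error which tends to zero: it
does not depend on the activity.
-/

set_option autoImplicit false

namespace Pool.KG

open Finset Real
open Pool.Agent.H49.Ent Pool.Agent.H32.Dense Pool.STK Pool.KAF Pool.OC Pool.OC.RS Pool.KGS

open Classical in
/-- **One early block of velocities.** -/
theorem w_early (A k' Ka : ℕ) (κ ca ε : ℝ) (hκ : 0 < κ) (hca : 0 < ca) (hε : 0 < ε) :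
    ∃ (δ : ℝ) (X₀ : ℕ), 0 < δ ∧ ∀ d : SD, d.OK A → X₀ ≤ d.X →
      mi d.P d.N (fun ω => d.V (d.L ω)) d.T ≤ δ * d.X →
      mi d.P d.T d.L (fun _ => ()) ≤ δ * d.X → ∀ (η : ℝ) (h : ℕ) (E : Set d.Om), h ≤ d.X →
      ∑ i ∈ Finset.range d.X, Pr (d.Qp i) {w | |d.th (d.T w.2) - d.th (d.T w.1)| <
          (2 : ℝ) ^ (-((i : ℤ) + k'))} ≤ η * d.X →
      (∀ ω ∈ E, 0 < d.P ω → ca * (κ * d.X) ≤ ∑ s ∈ Finset.range h, d.act Ka s ω) →
      (1 - ε - η - Pr d.P Eᶜ) * d.X * Real.log 2 - h * Real.log 2 ≤ CH d.P d.N d.T := by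
  have hl2 : 0 < Real.log 2 := Real.log_pos (by norm_num)
  obtain ⟨u, hu⟩ : ∃ u, u = min (1 / 2) (ε / 8) := ⟨_, rfl⟩
  have hu0 : 0 < u := by
    rw [hu]
    exact lt_min (by norm_num) (by positivity)
  have hu1 : u ≤ ε / 8 := by
    rw [hu]
    exact min_le_right _ _
  have hu2 : u ≤ 1 / 2 := by
    rw [hu]
    exact min_le_left _ _
  obtain ⟨e, he⟩ : ∃ e, e = min 1 (u * (ca * κ) * (ε / 8)) := ⟨_, rfl⟩
  have he0 : 0 < e := by
    rw [he]
    exact lt_min one_pos (by positivity)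
  have he1 : e ≤ 1 := by
    rw [he]
    exact min_le_left _ _
  have he2 : e ≤ u * (ca * κ) * (ε / 8) := by
    rw [he]
    exact min_le_right _ _
  obtain ⟨D, hD⟩ : ∃ D, D = 128 / e + 12 := ⟨_, rfl⟩
  have hD0 : 0 < D := by
    rw [hD]
    positivity
  obtain ⟨Kc, hKc⟩ := exists_nat_ge (D / (u * Real.log 2))
  have hKD : D ≤ u * (Kc * Real.log 2) := by
    rw [div_le_iff₀ (by positivity)] at hKc
    linarith only [hKc]
  have hK0 : (0 : ℝ) < Kc := by
    have h1 : 0 < D / (u * Real.log 2) := by positivity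
    linarith only [hKc, h1]
  obtain ⟨δ, r₀, hδ, hone⟩ := one_scale A k' Ka Kc e D he0 he1 hD.ge
  obtain ⟨X₀, hX₀⟩ := exists_nat_ge ((2 * (r₀ : ℝ) + 2) / (ε / 8))
  refine ⟨δ, X₀, hδ, fun d hd hX h1 h2 η h E hhX hTB hact => ?_⟩
  have hp := hd.law
  have hp0 := hp.nonneg
  have hXR : 2 * (r₀ : ℝ) + 2 ≤ ε / 8 * d.X := by
    rw [div_le_iff₀ (by positivity)] at hX₀
    have h3 : (X₀ : ℝ) ≤ d.X := by exact_mod_cast hX
    nlinarith only [hX₀, hε, h3]
  have hXpos : (0 : ℝ) < d.X := by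
    have : (0 : ℝ) ≤ r₀ := Nat.cast_nonneg _
    by_contra hcon
    have h3 : ε / 8 * (d.X : ℝ) ≤ 0 := mul_nonpos_of_nonneg_of_nonpos (by positivity) (not_lt.1 hcon)
    linarith only [hu0, hu2, hXR, h3]
  -- the rows and their weights
  obtain ⟨w, hw⟩ : ∃ w : ℕ → d.Om → ℝ, w = fun r ω =>
    if r₀ ≤ r ∧ r + r₀ ≤ d.X then wrow d.P d.N d.T d.X (d.X + 1 - r) Kc D ω else 0 := ⟨_, rfl⟩
  have hw0 : ∀ r ω, 0 ≤ w r ω := fun r ω => by
    rw [hw]
    show 0 ≤ (if r₀ ≤ r ∧ r + r₀ ≤ d.X then wrow d.P d.N d.T d.X (d.X + 1 - r) Kc D ω else 0)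
    split_ifs
    · exact wrow_nonneg _ _ _ _ _ _ _ _
    · exact le_rfl
  have hw1 : ∀ r ω, w r ω ≤ 1 := fun r ω => by
    rw [hw]
    show (if r₀ ≤ r ∧ r + r₀ ≤ d.X then wrow d.P d.N d.T d.X (d.X + 1 - r) Kc D ω else 0) ≤ 1
    split_ifs
    · exact wrow_le_one _ _ _ _ _ _ _ _
    · norm_num
  have hwX : ∀ r ω, d.X < r → w r ω = 0 := fun r ω hr => by
    rw [hw]
    show (if r₀ ≤ r ∧ r + r₀ ≤ d.X then wrow d.P d.N d.T d.X (d.X + 1 - r) Kc D ω else 0) = 0
    rw [if_neg (by omega)]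
  -- the sum over all the scales
  have h3 : ∑ i ∈ range d.X, ∑ s ∈ range d.X, ∑ ω, d.P ω *
      (w (s + i) ω * (d.act Ka s ω * (1 - d.dead k' i ω))) ≤ e * d.X * d.X := by
    rw [hw]
    refine (Finset.sum_le_sum fun i _ => hone d hd h1 h2 i).trans (le_of_eq ?_)
    rw [Finset.sum_const, nsmul_eq_mul, card_range]
    ring
  -- one sample
  obtain ⟨S, hS⟩ : ∃ S : d.Om → ℝ, S = fun ω => ∑ i ∈ range d.X, d.dead k' i ω := ⟨_, rfl⟩
  obtain ⟨j, hj⟩ : ∃ j : ℕ → d.Om → ℝ, j = fun r ω => if u ≤ w r ω then (1 : ℝ) else 0 := ⟨_, rfl⟩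
  have hj0 : ∀ r ω, 0 ≤ j r ω := fun r ω => by
    rw [hj]
    show 0 ≤ (if u ≤ w r ω then (1 : ℝ) else 0)
    split_ifs <;> norm_num
  have hj1 : ∀ r ω, j r ω ≤ 1 := fun r ω => by
    rw [hj]
    show (if u ≤ w r ω then (1 : ℝ) else 0) ≤ 1
    split_ifs <;> norm_num
  have hjw : ∀ r ω, u * j r ω ≤ w r ω := fun r ω => by
    rw [hj]
    show u * (if u ≤ w r ω then (1 : ℝ) else 0) ≤ w r ω
    split_ifs with c
    · rw [mul_one]
      exact c
    · rw [mul_zero]
      exact hw0 r ω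
  obtain ⟨Wt, hWt⟩ : ∃ Wt : d.Om → ℝ, Wt = fun ω => ∑ r ∈ Finset.Ico h d.X, j r ω := ⟨_, rfl⟩
  have h4 : ∀ ω, (if ω ∈ E then d.P ω else 0) * (ca * (κ * d.X) * (u * (Wt ω - S ω))) ≤
      ∑ i ∈ range d.X, ∑ s ∈ range d.X, d.P ω *
      (w (s + i) ω * (d.act Ka s ω * (1 - d.dead k' i ω))) := by
    intro ω
    rcases (hp0 ω).eq_or_lt with h0 | h0
    · rw [← h0]
      simp
    have hnn : ∀ i s, 0 ≤ d.P ω * (w (s + i) ω * (d.act Ka s ω * (1 - d.dead k' i ω))) :=
      fun i s => mul_nonneg h0.le (mul_nonneg (hw0 _ _) (mul_nonneg (act_nonneg hp0 _ _ _)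
        (sub_nonneg.mpr (dead_le_one hp _ _ h0))))
    by_cases c1 : ω ∈ E
    swap
    · rw [if_neg c1, zero_mul]
      exact Finset.sum_nonneg fun i _ => Finset.sum_nonneg fun s _ => hnn i s
    rw [if_pos c1]
    by_cases c2 : Wt ω - S ω ≤ 0
    · refine le_trans ?_ (Finset.sum_nonneg fun i _ => Finset.sum_nonneg fun s _ => hnn i s)
      exact mul_nonpos_of_nonneg_of_nonpos h0.le (mul_nonpos_of_nonneg_of_nonpos (by positivity)
        (mul_nonpos_of_nonneg_of_nonpos hu0.le c2))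
    have c2' : 0 ≤ u * (Wt ω - S ω) := mul_nonneg hu0.le (not_le.1 c2).le
    -- restrict to the early velocities
    have h5 : ∑ s ∈ range h, d.act Ka s ω * (u * (Wt ω - S ω)) ≤
        ∑ s ∈ range h, ∑ i ∈ range d.X, w (s + i) ω * (d.act Ka s ω * (1 - d.dead k' i ω)) := by
      refine Finset.sum_le_sum fun s hs => ?_
      rw [mem_range] at hs
      have e1 : ∑ i ∈ range d.X, w (s + i) ω * (d.act Ka s ω * (1 - d.dead k' i ω)) =
          d.act Ka s ω * (∑ i ∈ range d.X, w (s + i) ω * (1 - d.dead k' i ω)) := by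
        rw [Finset.mul_sum]
        exact Finset.sum_congr rfl fun i _ => by ring
      rw [e1]
      refine mul_le_mul_of_nonneg_left ?_ (act_nonneg hp0 _ _ _)
      have e2 : ∀ i ∈ range d.X, u * (j (s + i) ω - d.dead k' i ω) ≤
          w (s + i) ω * (1 - d.dead k' i ω) := by
        intro i _
        have b0 := dead_nonneg (d := d) hp0 k' i ω
        have b1 := dead_le_one (d := d) hp k' i h0
        have t1 := mul_le_mul_of_nonneg_right (hj1 (s + i) ω) b0
        have t2 := mul_le_mul_of_nonneg_right (hjw (s + i) ω) (sub_nonneg.mpr b1)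
        have t3 : u * (j (s + i) ω - d.dead k' i ω) ≤ u * (j (s + i) ω * (1 - d.dead k' i ω)) :=
          mul_le_mul_of_nonneg_left (by linarith only [t1]) hu0.le
        linarith only [t2, t3]
      have e3 := Finset.sum_le_sum e2
      rw [← Finset.mul_sum, Finset.sum_sub_distrib] at e3
      have e4 : Wt ω ≤ ∑ i ∈ range d.X, j (s + i) ω := by
        rw [hWt]
        show ∑ r ∈ Finset.Ico h d.X, j r ω ≤ ∑ i ∈ range d.X, j (s + i) ω
        have e5 : ∑ i ∈ range d.X, j (s + i) ω = ∑ r ∈ Finset.Ico s (s + d.X), j r ω := by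
          rw [Finset.sum_Ico_eq_sum_range, Nat.add_sub_cancel_left]
        rw [e5]
        refine Finset.sum_le_sum_of_subset_of_nonneg ?_ fun r _ _ => hj0 r ω
        intro r hr
        rw [Finset.mem_Ico] at hr ⊢
        omega
      have e6 : S ω = ∑ i ∈ range d.X, d.dead k' i ω := by rw [hS]
      refine le_trans (mul_le_mul_of_nonneg_left ?_ hu0.le) e3
      linarith only [e4, e6]
    have h6 : ∑ s ∈ range h, ∑ i ∈ range d.X, w (s + i) ω * (d.act Ka s ω * (1 - d.dead k' i ω)) ≤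
        ∑ i ∈ range d.X, ∑ s ∈ range d.X, w (s + i) ω * (d.act Ka s ω * (1 - d.dead k' i ω)) := by
      rw [Finset.sum_comm]
      refine Finset.sum_le_sum fun i _ => ?_
      refine Finset.sum_le_sum_of_subset_of_nonneg ?_ fun s _ _ => ?_
      · intro s hs
        rw [mem_range] at hs ⊢
        omega
      · exact mul_nonneg (hw0 _ _) (mul_nonneg (act_nonneg hp0 _ _ _)
          (sub_nonneg.mpr (dead_le_one hp _ _ h0)))
    rw [← Finset.sum_mul] at h5
    have h7 := mul_le_mul_of_nonneg_right (hact ω c1 h0) c2'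
    have h8 := mul_le_mul_of_nonneg_left (h7.trans (h5.trans h6)) h0.le
    refine h8.trans (le_of_eq ?_)
    rw [Finset.mul_sum]
    refine Finset.sum_congr rfl fun i _ => ?_
    rw [Finset.mul_sum]
  have h5 : u * (ca * κ) * d.X * ∑ ω, (if ω ∈ E then d.P ω else 0) * (Wt ω - S ω) ≤
      e * d.X * d.X := by
    refine le_trans ?_ h3
    have h6 := Finset.sum_le_sum fun ω (_ : ω ∈ univ) => h4 ω
    rw [Finset.mul_sum]
    refine le_trans (le_of_eq ?_) (h6.trans (le_of_eq ?_))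
    · exact Finset.sum_congr rfl fun ω _ => by ring
    · rw [Finset.sum_comm]
      refine Finset.sum_congr rfl fun i _ => ?_
      rw [Finset.sum_comm]
  have h6 : ∑ ω, (if ω ∈ E then d.P ω else 0) * (Wt ω - S ω) ≤ ε / 8 * d.X := by
    have hc : 0 < u * (ca * κ) * d.X := by positivity
    have h7 : u * (ca * κ) * d.X * ∑ ω, (if ω ∈ E then d.P ω else 0) * (Wt ω - S ω) ≤
        u * (ca * κ) * d.X * (ε / 8 * d.X) := by
      refine h5.trans ?_
      have h8 := mul_le_mul_of_nonneg_right he2 (mul_nonneg hXpos.le hXpos.le)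
      refine le_trans (le_of_eq ?_) (h8.trans (le_of_eq ?_)) <;> ring
    exact le_of_mul_le_mul_left h7 hc
  -- the mean number of the near pairs
  have h7 : ∑ ω, d.P ω * S ω ≤ η * d.X := by
    refine le_trans (le_of_eq ?_) hTB
    rw [hS]
    simp only [Finset.mul_sum]
    rw [Finset.sum_comm]
    exact Finset.sum_congr rfl fun i _ => sum_dead d k' i
  have hS0 : ∀ ω, 0 ≤ S ω := fun ω => by
    rw [hS]
    exact Finset.sum_nonneg fun i _ => dead_nonneg hp0 _ _ _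
  -- the mean number of the heavy rows
  have hWt0 : ∀ ω, Wt ω ≤ d.X := fun ω => by
    rw [hWt]
    show ∑ r ∈ Finset.Ico h d.X, j r ω ≤ d.X
    refine (Finset.sum_le_sum fun r _ => hj1 r ω).trans ?_
    rw [Finset.sum_const, Nat.card_Ico, nsmul_eq_mul, mul_one]
    exact_mod_cast Nat.sub_le _ _
  have h8 : ∑ ω, d.P ω * Wt ω ≤ (ε / 8 + η + Pr d.P Eᶜ) * d.X := by
    have h9 : ∀ ω, d.P ω * Wt ω ≤ (if ω ∈ E then d.P ω else 0) * (Wt ω - S ω) + d.P ω * S ω +
        (if ω ∈ Eᶜ then d.P ω else 0) * d.X := by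
      intro ω
      have t0 := mul_nonneg (hp0 ω) (hS0 ω)
      by_cases c1 : ω ∈ E
      · rw [if_pos c1, if_neg (fun h => h c1)]
        linarith only
      · rw [if_neg c1, if_pos (show ω ∈ Eᶜ from c1)]
        have t1 := mul_le_mul_of_nonneg_left (hWt0 ω) (hp0 ω)
        linarith only [t0, t1]
    have h10 := Finset.sum_le_sum fun ω (_ : ω ∈ univ) => h9 ω
    rw [Finset.sum_add_distrib, Finset.sum_add_distrib, ← Finset.sum_mul, ← Pool.KAF.Pr_eq] at h10
    linarith only [h6, h7, h10]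
  have h9 : ∑ r ∈ Finset.Ico (d.X - (d.X - h)) d.X,
      Pr d.P {ω | r ∈ RS.Jw d.P d.N d.T d.X 0 Kc D u ω} ≤
      (ε / 8 + η + Pr d.P Eᶜ) * d.X + 2 * r₀ := by
    have e1 : d.X - (d.X - h) = h := by omega
    rw [e1]
    have h10 : ∀ r ∈ Finset.Ico h d.X, Pr d.P {ω | r ∈ RS.Jw d.P d.N d.T d.X 0 Kc D u ω} ≤
        ∑ ω, d.P ω * j r ω + (if r < r₀ then 1 else 0) + (if d.X < r + r₀ then 1 else 0) := by
      intro r hr
      have hP1 := Pr_le_one hp {ω | r ∈ RS.Jw d.P d.N d.T d.X 0 Kc D u ω}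
      have hP2 : 0 ≤ ∑ ω, d.P ω * j r ω :=
        Finset.sum_nonneg fun ω _ => mul_nonneg (hp0 ω) (hj0 r ω)
      have i1 : (0 : ℝ) ≤ (if r < r₀ then 1 else 0) := by split_ifs <;> norm_num
      have i2 : (0 : ℝ) ≤ (if d.X < r + r₀ then 1 else 0) := by split_ifs <;> norm_num
      by_cases c1 : r₀ ≤ r ∧ r + r₀ ≤ d.X
      · have h11 : Pr d.P {ω | r ∈ RS.Jw d.P d.N d.T d.X 0 Kc D u ω} ≤ ∑ ω, d.P ω * j r ω := by
          rw [Pool.KAF.Pr_eq]
          refine Finset.sum_le_sum fun ω _ => ?_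
          by_cases c2 : ω ∈ {ω | r ∈ RS.Jw d.P d.N d.T d.X 0 Kc D u ω}
          · rw [if_pos c2]
            have c3 : u ≤ wrow d.P d.N d.T d.X (d.X + 0 + 1 - r) Kc D ω := c2.2
            rw [Nat.add_zero] at c3
            have c4 : j r ω = 1 := by
              rw [hj]
              show (if u ≤ w r ω then (1 : ℝ) else 0) = 1
              rw [if_pos]
              rw [hw]
              show u ≤ (if r₀ ≤ r ∧ r + r₀ ≤ d.X then
                wrow d.P d.N d.T d.X (d.X + 1 - r) Kc D ω else 0)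
              rw [if_pos c1]
              exact c3
            rw [c4, mul_one]
          · rw [if_neg c2]
            exact mul_nonneg (hp0 ω) (hj0 r ω)
        linarith only [i1, i2, h11]
      · have c2 : r < r₀ ∨ d.X < r + r₀ := by omega
        rcases c2 with c2 | c2
        · rw [if_pos c2]
          linarith only [hP1, hP2, i2]
        · rw [if_pos c2]
          linarith only [hP1, hP2, i1]
    refine (Finset.sum_le_sum h10).trans ?_
    rw [Finset.sum_add_distrib, Finset.sum_add_distrib]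
    have j1 : ∑ r ∈ Finset.Ico h d.X, ∑ ω, d.P ω * j r ω ≤ (ε / 8 + η + Pr d.P Eᶜ) * d.X := by
      refine le_trans (le_of_eq ?_) h8
      rw [Finset.sum_comm, hWt]
      refine Finset.sum_congr rfl fun ω _ => ?_
      rw [Finset.mul_sum]
    have j3 : ∑ r ∈ Finset.Ico h d.X, (if r < r₀ then (1 : ℝ) else 0) ≤ r₀ := by
      rw [← Finset.sum_filter, Finset.sum_const, nsmul_eq_mul, mul_one]
      have : ((Finset.Ico h d.X).filter (fun r => r < r₀)).card ≤ (Finset.range r₀).card :=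
        Finset.card_le_card fun r hr => by
          rw [Finset.mem_range]
          exact (Finset.mem_filter.mp hr).2
      rw [Finset.card_range] at this
      exact_mod_cast this
    have j4 : ∑ r ∈ Finset.Ico h d.X, (if d.X < r + r₀ then (1 : ℝ) else 0) ≤ r₀ := by
      rw [← Finset.sum_filter, Finset.sum_const, nsmul_eq_mul, mul_one]
      have : ((Finset.Ico h d.X).filter (fun r => d.X < r + r₀)).card ≤
          (Finset.Ico (d.X - r₀) d.X).card :=
        Finset.card_le_card fun r hr => by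
          have h8 := Finset.mem_filter.mp hr
          have h9 := Finset.mem_Ico.mp h8.1
          have h10 : d.X < r + r₀ := h8.2
          rw [Finset.mem_Ico]
          omega
      rw [Nat.card_Ico] at this
      have h11 : d.X - (d.X - r₀) ≤ r₀ := by omega
      exact_mod_cast this.trans h11
    linarith only [j1, j3, j4]
  -- few heavy rows
  have hP0 : 0 ≤ Pr d.P Eᶜ := Pr_nonneg' hp0 _
  have hη : 0 ≤ η * d.X := by
    refine le_trans ?_ hTB
    exact Finset.sum_nonneg fun i _ => Pr_nonneg' (fun w => dbl_nonneg hp0 w) _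
  have hDK : D ≤ Kc * Real.log 2 := hKD.trans (by
    have : 0 ≤ Kc * Real.log 2 := by positivity
    nlinarith only [hl2, hK0, hu0, hu2, hD0, hKD])
  have h10 := few_heavy hp d.N d.T d.X 0 Kc (d.X - h) D u (Nat.sub_le _ _) hu0.le hDK
  have hcast : ((d.X - h : ℕ) : ℝ) = (d.X : ℝ) - h := Nat.cast_sub hhX
  rw [hcast] at h10
  have hKl : 0 < Kc * Real.log 2 := by positivity
  have hh0 : (0 : ℝ) ≤ h := Nat.cast_nonneg _
  have hhX' : (h : ℝ) ≤ d.X := by exact_mod_cast hhX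
  have hCH := CH_nonneg hp0 d.N d.T
  -- the case of a small right side
  by_cases hneg : (1 - ε - η - Pr d.P Eᶜ) * d.X - h ≤ 0
  · have : ((1 - ε - η - Pr d.P Eᶜ) * d.X - h) * Real.log 2 ≤ 0 :=
      mul_nonpos_of_nonpos_of_nonneg hneg hl2.le
    linarith only [hCH, this]
  rw [not_le] at hneg
  have h11 : (1 - ε / 4 - η - Pr d.P Eᶜ) * d.X - h - 2 * r₀ ≤ ((d.X : ℝ) - h) * (1 - u) -
      ∑ r ∈ Finset.Ico (d.X - (d.X - h)) d.X,
        Pr d.P {ω | r ∈ RS.Jw d.P d.N d.T d.X 0 Kc D u ω} := by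
    have t1 : ((d.X : ℝ) - h) * u ≤ d.X * (ε / 8) :=
      mul_le_mul (by linarith only) hu1 hu0.le hXpos.le
    linarith only [h9, t1]
  have h12 : (1 - ε / 2 - η - Pr d.P Eᶜ) * d.X - h ≤ ((d.X : ℝ) - h) * (1 - u) -
      ∑ r ∈ Finset.Ico (d.X - (d.X - h)) d.X,
        Pr d.P {ω | r ∈ RS.Jw d.P d.N d.T d.X 0 Kc D u ω} := by linarith only [hu0, hu2, hXR, h11]
  have h13 : 0 ≤ (1 - ε / 2 - η - Pr d.P Eᶜ) * d.X - h := by
    have : 0 ≤ ε / 2 * (d.X : ℝ) := by positivity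
    linarith only [hu0, hu2, hXR, hneg]
  have h14 : (1 - u) * (Kc * Real.log 2) ≤ Kc * Real.log 2 - D := by linarith only [hKD]
  have h15 : (1 - u) * (Kc * Real.log 2) * ((1 - ε / 2 - η - Pr d.P Eᶜ) * d.X - h) ≤
      Kc * (CH d.P d.N d.T + 2 * Real.log 2) :=
    (mul_le_mul h14 h12 h13 (by linarith only [hDK])).trans h10
  have h16 : (1 - u) * Real.log 2 * ((1 - ε / 2 - η - Pr d.P Eᶜ) * d.X - h) ≤
      CH d.P d.N d.T + 2 * Real.log 2 := by
    have t1 : Kc * ((1 - u) * Real.log 2 * ((1 - ε / 2 - η - Pr d.P Eᶜ) * d.X - h)) ≤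
        Kc * (CH d.P d.N d.T + 2 * Real.log 2) := le_trans (le_of_eq (by ring)) h15
    exact le_of_mul_le_mul_left t1 hK0
  have h17 : u * ((1 - ε / 2 - η - Pr d.P Eᶜ) * d.X - h) ≤ ε / 8 * d.X := by
    have t1 : (1 - ε / 2 - η - Pr d.P Eᶜ) * d.X - h ≤ d.X := by
      have t2 : 0 ≤ ε / 2 * (d.X : ℝ) := by positivity
      have t3 : 0 ≤ Pr d.P Eᶜ * (d.X : ℝ) := by positivity
      linarith only [hu0, hu2, hXR, hη, t3]
    exact mul_le_mul hu1 t1 h13 (by positivity)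
  have h18 : (1 - ε - η - Pr d.P Eᶜ) * d.X - h ≤
      (1 - u) * ((1 - ε / 2 - η - Pr d.P Eᶜ) * d.X - h) - 2 := by
    have t0 : (0 : ℝ) ≤ r₀ := Nat.cast_nonneg _
    linarith only [hu0, hu2, hXR, h17]
  have h19 := mul_le_mul_of_nonneg_right h18 hl2.le
  linarith only [h16, h19]

end Pool.KG
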