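import Pool.Agent.H68.KG.Early
import Pool.Agent.H59.OC.OCB
import Pool.Agent.H83.OCG.Time2

/-!
# Full rows from one early block of velocities, in the mean over the context

`w_early_ent`: one context, the activity given as entropy on all large events. `w_ctx`: the mean
over the values of a context. The loss is the dead portion of the time.
-/

set_option autoImplicit false

namespace Pool.KG

open Finset Real
open Pool.Agent.H49.Ent Pool.Agent.H32.Dense Pool.STK Pool.KAF Pool.OC Pool.OC.RS Pool.KGS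

/-- **One early block of velocities, activity given as entropy.** -/
theorem w_early_ent (A k' : ℕ) (κ ca ε : ℝ) (hκ : 0 < κ) (hκ1 : κ ≤ 1) (hca : 0 < ca)
    (hε : 0 < ε) :
    ∃ (ι : ℝ) (X₀ : ℕ), 0 < ι ∧ ∀ d : SD, d.OK A → X₀ ≤ d.X →
      mi d.P d.N (fun ω => d.V (d.L ω)) d.T ≤ ι * d.X →
      mi d.P d.T d.L (fun _ => ()) ≤ ι * d.X → ∀ η : ℝ,
      ∑ i ∈ Finset.range d.X, Pr (d.Qp i) {w | |d.th (d.T w.2) - d.th (d.T w.1)| <
          (2 : ℝ) ^ (-((i : ℤ) + k'))} ≤ η * d.X →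
      (∀ E : Set d.Om, ε / 4 ≤ Pr d.P E → ca * ⌊κ * d.X⌋₊ * Real.log 2 ≤
          CH (cond d.P (fun ω => ω ∈ E) True) (fun ω => ⌊(2 : ℝ) ^ ⌊κ * d.X⌋₊ * d.omR (d.L ω)⌋)
            (fun ω => ⌊d.omR (d.L ω)⌋)) →
      (1 - ε - η) * d.X * Real.log 2 - ⌊κ * d.X⌋₊ * Real.log 2 ≤ CH d.P d.N d.T := by
  classical
  obtain ⟨K, h₀, hK1, hrun⟩ := Pool.OCM.RN20.runs ca hca 0
  obtain ⟨δ, X₀, hδ, hk⟩ := w_early A k' K κ (ca / 8) (ε / 2) hκ (by positivity) (by positivity)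
  obtain ⟨X₁, hX₁⟩ := exists_nat_ge ((h₀ + 2 : ℝ) / κ)
  refine ⟨δ, max (max X₀ X₁) 1, hδ, fun d hd hX h1 h2 η hTB hact => ?_⟩
  have hp := hd.law
  have hp0 := hp.nonneg
  have hXX : X₀ ≤ d.X := (le_max_left _ _).trans ((le_max_left _ _).trans hX)
  have hXX1 : X₁ ≤ d.X := (le_max_right _ _).trans ((le_max_left _ _).trans hX)
  have hX1 : 1 ≤ d.X := (le_max_right _ _).trans hX
  have hX0' : (0 : ℝ) < d.X := by exact_mod_cast hX1
  obtain ⟨h, hh⟩ : ∃ h, h = ⌊κ * d.X⌋₊ := ⟨_, rfl⟩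
  rw [← hh] at hact ⊢
  have hκX : (h₀ : ℝ) + 2 ≤ κ * d.X := by
    rw [div_le_iff₀ hκ] at hX₁
    have h3 : (X₁ : ℝ) ≤ d.X := by exact_mod_cast hXX1
    have h4 := mul_le_mul_of_nonneg_right h3 hκ.le
    linarith only [hX₁, h4]
  have hh1 : (h : ℝ) ≤ κ * d.X := by
    rw [hh]
    exact Nat.floor_le (by positivity)
  have hh2 : κ * d.X < h + 1 := by
    rw [hh]
    exact Nat.lt_floor_add_one _
  have hh3 : h₀ ≤ h := by
    have : (h₀ : ℝ) < h := by linarith only [hκX, hh2]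
    exact_mod_cast this.le
  have hh4 : κ * d.X / 2 ≤ h := by
    have : (0 : ℝ) ≤ h₀ := Nat.cast_nonneg _
    linarith only [hκX, hh2]
  have hhX : h ≤ d.X := by
    have h3 : (h : ℝ) ≤ d.X := hh1.trans (by nlinarith only [hκ1])
    exact_mod_cast h3
  -- the samples with few active digits
  obtain ⟨x, hx⟩ : ∃ x : d.Om → ℝ, x = fun ω => d.omR (d.L ω) := ⟨_, rfl⟩
  obtain ⟨B₁, hB₁⟩ : ∃ B₁ : Set d.Om, B₁ =
      Pool.OCM.RN20.few d.P x (fun _ => ()) (1 / 2) K 0 0 h (ca / 2) := ⟨_, rfl⟩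
  have hPB1 : Pr d.P B₁ ≤ ε / 4 := by
    by_contra hcon
    rw [not_le] at hcon
    have h3 := hrun d.Om Unit d.P x (fun _ => ()) (1 / 2) 0 h hp le_rfl hh3
      (by rw [← hB₁]; exact (show 0 < ε / 4 by positivity).trans hcon)
    have h4 := hact B₁ hcon.le
    rw [← hB₁] at h3
    have h5 : CH (cond d.P (fun ω => ω ∈ B₁) True) (Pool.OCM.RN20.dg x (0 + h))
        (fun ω => (Pool.OCM.RN20.dg x 0 ω, ())) =
        CH (cond d.P (fun ω => ω ∈ B₁) True) (fun ω => ⌊(2 : ℝ) ^ h * d.omR (d.L ω)⌋)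
            (fun ω => ⌊d.omR (d.L ω)⌋) := by
      refine CH_congr (cond_nonneg hp0 _ _) ?_ ?_ ?_ ?_
      · intro ω ω' _ _ hw
        have h6 := (Prod.ext_iff.mp hw).1
        simp only [Pool.OCM.RN20.dg, hx, zero_add] at h6
        exact h6
      · intro ω ω' _ _ hw
        have h6 := (Prod.ext_iff.mp hw).1
        simp only [Pool.OCM.RN20.dg, hx, zero_add]
        exact h6
      · intro ω ω' _ _ hw
        have h6 := (Prod.ext_iff.mp hw).1
        simp only [Pool.OCM.RN20.dg, hx, pow_zero, one_mul] at h6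
        exact h6
      · intro ω ω' _ _ hw
        refine Prod.ext ?_ rfl
        simp only [Pool.OCM.RN20.dg, hx, pow_zero, one_mul]
        exact hw
    rw [h5] at h3
    linarith only [h3, h4]
  have key := hk d hd hXX h1 h2 η h {ω | ω ∉ B₁} hhX hTB ?_
  · have h3 : Pr d.P {ω | ω ∉ B₁}ᶜ ≤ ε / 4 := by
      refine le_trans (le_of_eq ?_) hPB1
      congr 1
      ext ω
      simp
    have hl2 : 0 < Real.log 2 := Real.log_pos (by norm_num)
    have h5 : (0 : ℝ) ≤ d.X * Real.log 2 := by positivity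
    have h6 := mul_le_mul_of_nonneg_right h3 h5
    have h7 : 0 ≤ ε / 4 * (d.X * Real.log 2) := by positivity
    refine le_trans ?_ key
    linarith only [h6, h7]
  · intro ω hω hpos
    have hω1 : ω ∉ B₁ := hω
    -- many active digits
    have h3 : ca / 2 * h ≤ ∑ j ∈ Finset.Ico 0 (0 + h),
        (if j ∈ Pool.OCM.RN20.rns d.P x (fun _ => ()) (1 / 2) K 0 ω then (1 : ℝ) else 0) := by
      rw [← Pool.OCM.RN20.ncard_sum]
      by_contra hcon
      rw [hB₁] at hω1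
      exact hω1 (not_le.mp hcon)
    have h4 : ∀ j ∈ Finset.Ico 0 (0 + h),
        (if j ∈ Pool.OCM.RN20.rns d.P x (fun _ => ()) (1 / 2) K 0 ω then (1 : ℝ) else 0) ≤
          2 * d.act K j ω := by
      intro j hj
      rw [zero_add, Finset.mem_Ico] at hj
      have ha0 := act_nonneg (d := d) hp0 K j ω
      split_ifs with hc
      · have h5 : Pool.OCM.RN20.acf d.P x (fun _ => ()) (1 / 2) (j - 0) (K + 0) ω := hc 0 le_rfl
        unfold Pool.OCM.RN20.acf at h5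
        rw [Nat.sub_zero, Nat.add_zero] at h5
        have h6 : cond d.P (fun v => (Pool.OCM.RN20.dg x j v, ())) (Pool.OCM.RN20.dg x j ω, ()) =
            cond d.P (d.oc j) (d.oc j ω) := by
          refine cond_congr hp0 fun v _ => ?_
          have e1 : ∀ v, Pool.OCM.RN20.dg x j v = d.oc j v := fun v => by
            rw [← floor_eq_oc d (by omega) v, hx]
            rfl
          rw [e1, e1]
          simp
        rw [h6] at h5
        unfold SD.act
        rw [hx] at h5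
        linarith only [h5]
      · linarith only [ha0]
    have h5 := h3.trans (Finset.sum_le_sum h4)
    rw [← Finset.mul_sum, zero_add, Nat.Ico_zero_eq_range] at h5
    have h6 : ca / 4 * (κ * d.X / 2) ≤ ca / 4 * h :=
      mul_le_mul_of_nonneg_left hh4 (by positivity)
    linarith only [h5, h6]


/-! ### The union of the events of the contexts, upper bounds -/

section

variable {Ω S T β : Type} [Fintype Ω]

open Pool.KA Pool.K2S Pool.K2S.Uni

/-- If at many values of a context there is an event of positive probability on which a label has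
small entropy, then there is one event for all contexts together. -/
theorem union_event_lt {p : Ω → ℝ} (hp : IsLaw p) (b : Ω → β) (G : β → Prop)
    {ϖ γ : ℝ} (hϖ : 0 < ϖ) (hγ : 0 < γ) (h : ℝ) (X : Ω → S) (Y : Ω → T)
    (hG : γ ≤ Pe p (fun ω => G (b ω)))
    (hex : ∀ z, G z → 0 < law p b z → ∃ E : Ω → Prop,
      ϖ ≤ Pe (Pool.Agent.H49.Ent.cond p b z) E ∧
      CH (Pool.Agent.H49.Ent.cond (Pool.Agent.H49.Ent.cond p b z) E True) X Y < h) :
    ∃ A : Ω → Prop, ϖ * γ ≤ Pe p A ∧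
      CH (Pool.Agent.H49.Ent.cond p A True) X (fun ω => (Y ω, b ω)) < h := by
  classical
  have hex' : ∀ z, ∃ E : Ω → Prop, G z → 0 < law p b z →
      ϖ ≤ Pe (Pool.Agent.H49.Ent.cond p b z) E ∧
      CH (Pool.Agent.H49.Ent.cond (Pool.Agent.H49.Ent.cond p b z) E True) X Y < h := by
    intro z
    by_cases h1 : G z ∧ 0 < law p b z
    · obtain ⟨E, h2⟩ := hex z h1.1 h1.2
      exact ⟨E, fun _ _ => h2⟩
    · exact ⟨fun _ => True, fun h2 h3 => absurd ⟨h2, h3⟩ h1⟩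
  choose E' hE' using hex'
  obtain ⟨E, hE⟩ : ∃ E : β → Ω → Prop, E = fun z ω => (G z ∧ 0 < law p b z) ∧ E' z ω := ⟨_, rfl⟩
  obtain ⟨A, hA⟩ : ∃ A : Ω → Prop, A = fun ω => E (b ω) ω := ⟨_, rfl⟩
  have hEz : ∀ z, G z → 0 < law p b z → E z = E' z := by
    intro z h1 h2
    funext ω
    rw [hE]
    exact propext ⟨fun h => h.2, fun h => ⟨⟨h1, h2⟩, h⟩⟩
  have hPe : ∀ z, Pe (Pool.Agent.H49.Ent.cond p b z) A =
      Pe (Pool.Agent.H49.Ent.cond p b z) (E z) := by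
    intro z
    rw [Pe_eq, Pe_eq]
    refine Finset.sum_congr rfl fun ω _ => ?_
    by_cases h1 : b ω = z
    · rw [hA]
      simp only [h1]
    · have h2 : Pool.Agent.H49.Ent.cond p b z ω = 0 := by
        unfold Pool.Agent.H49.Ent.cond
        rw [if_neg h1]
      rw [h2]
      simp
  have hAp : ϖ * γ ≤ Pe p A := by
    have e1 := Pe_sum hp.nonneg b A
    have e2 := Pe_sum hp.nonneg b (fun ω => G (b ω))
    have h1 : ϖ * Pe p (fun ω => G (b ω)) ≤ Pe p A := by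
      rw [e1, e2, Finset.mul_sum]
      refine Finset.sum_le_sum fun z _ => ?_
      rw [hPe z]
      by_cases hz : 0 < law p b z
      · by_cases h1 : G z
        · have h2 := (hE' z h1 hz).1
          have h3 : Pe (Pool.Agent.H49.Ent.cond p b z) (fun ω => G (b ω)) ≤ 1 := by
            have h4 := Pe_mono (isLaw_cond' hp.nonneg b hz) (A := fun _ => True)
              (B := fun ω => G (b ω)) (fun _ _ => trivial)
            exact h4.trans (le_of_eq (Pe_univ (isLaw_cond' hp.nonneg b hz)))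
          rw [hEz z h1 hz]
          have h7 : law p b z * Pe (Pool.Agent.H49.Ent.cond p b z)
              (fun ω => G (b ω)) ≤ law p b z * 1 :=
            mul_le_mul_of_nonneg_left h3 hz.le
          calc ϖ * (law p b z * Pe (Pool.Agent.H49.Ent.cond p b z)
              (fun ω => G (b ω))) ≤ ϖ * (law p b z * 1) :=
                mul_le_mul_of_nonneg_left h7 hϖ.le
            _ = law p b z * ϖ := by ring
            _ ≤ _ := mul_le_mul_of_nonneg_left h2 hz.le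
        · have h2 : Pe (Pool.Agent.H49.Ent.cond p b z) (fun ω => G (b ω)) = 0 := by
            rw [Pe_eq]
            refine Finset.sum_eq_zero fun ω _ => ?_
            by_cases h3 : b ω = z
            · rw [if_neg]
              intro h4
              rw [h3] at h4
              exact h1 h4
            · have h4 : Pool.Agent.H49.Ent.cond p b z ω = 0 := by
                unfold Pool.Agent.H49.Ent.cond
                rw [if_neg h3]
              rw [h4]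
              simp
          rw [h2, mul_zero, mul_zero]
          exact mul_nonneg hz.le (Pe_nonneg (isLaw_cond' hp.nonneg b hz) _)
      · have h1 : law p b z = 0 := le_antisymm (not_lt.mp hz) (law_nonneg hp.nonneg b z)
        rw [h1]
        simp
    exact (mul_le_mul_of_nonneg_left hG hϖ.le).trans h1
  have hA0 : 0 < Pe p A := lt_of_lt_of_le (by positivity) hAp
  refine ⟨A, hAp, ?_⟩
  have hqA : IsLaw (Pool.Agent.H49.Ent.cond p A True) := isLaw_cond hp hA0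
  rw [Pool.KS3.MKC.CH_pair_eq_sum hqA.nonneg X Y b]
  have hone : ∑ z ∈ univ.image b, law (Pool.Agent.H49.Ent.cond p A True) b z = 1 := by
    rw [sum_law, hqA.sum_one]
  have hz0 : ∀ z, law (Pool.Agent.H49.Ent.cond p A True) b z ≠ 0 →
      0 < law p b z ∧ G z := by
    intro z hz
    have h1 : 0 < law (Pool.Agent.H49.Ent.cond p A True) b z :=
      lt_of_le_of_ne (law_nonneg hqA.nonneg b z) (Ne.symm hz)
    unfold law at h1
    obtain ⟨ω, -, hω⟩ := Finset.exists_lt_of_sum_lt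
      (s := univ) (f := fun _ : Ω => (0 : ℝ))
      (g := fun ω => if b ω = z then Pool.Agent.H49.Ent.cond p A True ω else 0)
      (by simpa using h1)
    by_cases h2 : b ω = z
    · rw [if_pos h2] at hω
      have h3 := (cond_pos_iff hp.nonneg A True ω).1 hω
      have h4 : A ω := of_eq_true h3.2
      rw [hA, hE] at h4
      simp only [h2] at h4
      exact ⟨h4.1.2, h4.1.1⟩
    · rw [if_neg h2] at hω
      exact absurd hω (lt_irrefl _)
  have hlt : ∀ z, law (Pool.Agent.H49.Ent.cond p A True) b z ≠ 0 →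
      CH (Pool.Agent.H49.Ent.cond (Pool.Agent.H49.Ent.cond p A True) b z) X Y < h := by
    intro z hz
    obtain ⟨h1, h2⟩ := hz0 z hz
    obtain ⟨h4, h5⟩ := hE' z h2 h1
    have h6 := hEz z h2 h1
    have h7 : 0 < Pe (Pool.Agent.H49.Ent.cond p b z) (E z) := by
      rw [h6]; exact lt_of_lt_of_le hϖ h4
    have h8 := (cond_union hp.nonneg b E h1 h7 (by rw [← hA]; exact hA0)).2
    rw [← hA, h6] at h8
    rw [h8]
    exact h5
  obtain ⟨z₁, hz₁, hz₁'⟩ : ∃ z ∈ univ.image b,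
      law (Pool.Agent.H49.Ent.cond p A True) b z ≠ 0 := by
    by_contra hcon
    push Not at hcon
    rw [Finset.sum_eq_zero hcon] at hone
    exact zero_ne_one hone
  calc _ < ∑ z ∈ univ.image b, law (Pool.Agent.H49.Ent.cond p A True) b z * h := by
        refine Finset.sum_lt_sum (fun z _ => ?_) ⟨z₁, hz₁, ?_⟩
        · by_cases hz : law (Pool.Agent.H49.Ent.cond p A True) b z = 0
          · rw [hz]
            simp
          · exact mul_le_mul_of_nonneg_left (hlt z hz).le (law_nonneg hqA.nonneg b z)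
        · exact mul_lt_mul_of_pos_left (hlt z₁ hz₁')
            (lt_of_le_of_ne (law_nonneg hqA.nonneg b z₁) (Ne.symm hz₁'))
    _ = h := by rw [← Finset.sum_mul, hone, one_mul]

end

/-! ### The mean over the contexts -/

section ctx

variable {Ω β Λ Θ : Type} [Fintype Ω]

open Pool.KA Pool.K2S Pool.K2S.Uni

/-- Lines `L`, times `T`, starting point `y`, velocity `om`, position `nu` in the context `b`. -/
structure WData (p : Ω → ℝ) (b : Ω → β) (L : Ω → Λ) (T : Ω → Θ) (y om th nu : Ω → ℝ) : Prop where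
  law : IsLaw p
  dy : Det p (fun ω => (b ω, L ω)) y
  dom : Det p (fun ω => (b ω, L ω)) om
  dth : Det p (fun ω => (b ω, T ω)) th
  hth : ∀ ω, 0 < p ω → 0 ≤ th ω ∧ th ω < 1
  hnu : ∀ ω, 0 < p ω → nu ω = y ω + th ω * om ω

theorem WData.cond {p : Ω → ℝ} {b : Ω → β} {L : Ω → Λ} {T : Ω → Θ} {y om th nu : Ω → ℝ}
    (h : WData p b L T y om th nu) {z : β} (hz : 0 < Pool.Agent.H49.Ent.law p b z) :
    WData (Pool.Agent.H49.Ent.cond p b z) (fun _ => ()) L T y om th nu := by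
  have h0 := h.law.nonneg
  have hp : ∀ ω, 0 < Pool.Agent.H49.Ent.cond p b z ω → 0 < p ω ∧ b ω = z := fun ω hω =>
    (cond_pos_iff h0 b z ω).1 hω
  have key : ∀ {τ : Type} {A : Ω → τ} {x : Ω → ℝ}, Det p (fun ω => (b ω, A ω)) x →
      Det (Pool.Agent.H49.Ent.cond p b z) (fun ω => ((), A ω)) x := by
    intro τ A x hx ω ω' a c e
    obtain ⟨a1, a2⟩ := hp ω a
    obtain ⟨c1, c2⟩ := hp ω' c
    exact hx ω ω' a1 c1 (Prod.ext (a2.trans c2.symm) (Prod.ext_iff.mp e).2)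
  exact ⟨Uni.isLaw_cond' h0 b hz, key h.dy, key h.dom, key h.dth,
    fun ω hω => h.hth ω (hp ω hω).1, fun ω hω => h.hnu ω (hp ω hω).1⟩

/-- The scalar data of one context. -/
noncomputable def mkS (q : Ω → ℝ) (L : Ω → Λ) (T : Ω → Θ) (fom : Λ → ℝ) (fth : Θ → ℝ)
    (nu : Ω → ℝ) (X : ℕ) : SD where
  Om := Ω
  Lam := Λ
  Tau := Θ
  Nu := ℤ
  P := q
  L := L
  T := T
  V := fun l => ⌊(2 : ℝ) ^ X * fom l⌋
  om := fun l => ⌊(2 : ℝ) ^ X * fom l⌋
  N := Uni.dg X nu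
  th := fth
  X := X

/-- One context. -/
theorem w_one {k' : ℕ} {κ ca ε ι π₀ : ℝ} {X₀ : ℕ} (hκ : 0 < κ) (hκ1 : κ ≤ 1)
    (hW : ∀ d : SD, d.OK 2 → X₀ ≤ d.X →
      mi d.P d.N (fun ω => d.V (d.L ω)) d.T ≤ ι * d.X →
      mi d.P d.T d.L (fun _ => ()) ≤ ι * d.X → ∀ η : ℝ,
      ∑ i ∈ Finset.range d.X, Pr (d.Qp i) {w | |d.th (d.T w.2) - d.th (d.T w.1)| <
          (2 : ℝ) ^ (-((i : ℤ) + k'))} ≤ η * d.X →
      (∀ E : Set d.Om, π₀ ≤ Pr d.P E → ca * ⌊κ * d.X⌋₊ * Real.log 2 ≤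
          CH (cond d.P (fun ω => ω ∈ E) True) (fun ω => ⌊(2 : ℝ) ^ ⌊κ * d.X⌋₊ * d.omR (d.L ω)⌋)
            (fun ω => ⌊d.omR (d.L ω)⌋)) →
      (1 - ε - η) * d.X * Real.log 2 - ⌊κ * d.X⌋₊ * Real.log 2 ≤ CH d.P d.N d.T)
    {q : Ω → ℝ} {L : Ω → Λ} {T : Ω → Θ} {y om th nu : Ω → ℝ}
    (hd : WData q (fun _ => ()) L T y om th nu) {X : ℕ} (hX : X₀ ≤ X)
    (h1 : Pool.KVA.MI q T L (fun _ => ()) ≤ ι * X)
    (h2 : CH q (Uni.dg X nu) T - CH q (Uni.dg X nu) (fun ω => (Uni.dg X om ω, T ω)) ≤ ι * X)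
    (η : ℝ) (h3 : ∑ i ∈ range X, OCG.nr q L th k' i ≤ η * X)
    (h4 : ∀ E : Ω → Prop, π₀ ≤ Pe q E → ca * ⌊κ * X⌋₊ * Real.log 2 ≤
      CH (Pool.Agent.H49.Ent.cond q E True) (Uni.dg ⌊κ * X⌋₊ om) (fun ω => ⌊om ω⌋)) :
    (1 - ε - η) * X * Real.log 2 - ⌊κ * X⌋₊ * Real.log 2 ≤ CH q (Uni.dg X nu) T := by
  classical
  have hq := hd.law
  have h0 := hq.nonneg
  have det : ∀ {x : Ω → ℝ}, Det q (fun ω => ((), L ω)) x → Det q L x := fun h ω ω' a b e =>
    h ω ω' a b (Prod.ext rfl e)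
  have detT : ∀ {x : Ω → ℝ}, Det q (fun ω => ((), T ω)) x → Det q T x := fun h ω ω' a b e =>
    h ω ω' a b (Prod.ext rfl e)
  have ddy := det hd.dy
  have ddom := det hd.dom
  obtain ⟨fom, hfom⟩ := exists_fun ddom
  obtain ⟨fth, hfth⟩ := exists_fun (detT hd.dth)
  have h2X : (0 : ℝ) < 2 ^ X := by positivity
  obtain ⟨d, hdd⟩ : ∃ d, d = mkS q L T fom fth nu X := ⟨_, rfl⟩
  have hhX : ⌊κ * X⌋₊ ≤ X := by
    have h5 : ((⌊κ * X⌋₊ : ℕ) : ℝ) ≤ X :=
      (Nat.floor_le (by positivity)).trans (by nlinarith only [hκ1, (Nat.cast_nonneg X : (0 : ℝ) ≤ X)])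
    exact_mod_cast h5
  have hok : (mkS q L T fom fth nu X).OK 2 := by
    refine ⟨hq, ?_, ?_, ?_⟩
    · intro ω ω' a b e
      have e1 : L ω = L ω' := (Prod.ext_iff.mp e).1
      have e2 : T ω = T ω' := (Prod.ext_iff.mp e).2
      show ⌊(2 : ℝ) ^ X * nu ω⌋ = ⌊(2 : ℝ) ^ X * nu ω'⌋
      rw [hd.hnu ω a, hd.hnu ω' b, ddy ω ω' a b e1, ddom ω ω' a b e1, hfth ω a, hfth ω' b, e2]
    · intro ω ω' _ _ e
      exact e
    · intro ω ω' a b e
      have e1 : L ω = L ω' := e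
      show |((⌊(2 : ℝ) ^ X * nu ω'⌋ : ℝ) - ⌊(2 : ℝ) ^ X * nu ω⌋) -
        (fth (T ω') - fth (T ω)) * ⌊(2 : ℝ) ^ X * fom (L ω)⌋| ≤ 2 ^ 2
      rw [← hfth ω a, ← hfth ω' b, ← hfom ω a]
      have c1 := hd.hnu ω a
      have c2 := hd.hnu ω' b
      have d1 : y ω' = y ω := (ddy ω ω' a b e1).symm
      have d2 : om ω' = om ω := (ddom ω ω' a b e1).symm
      rw [d1, d2] at c2
      obtain ⟨t1, t1'⟩ := hd.hth ω a
      obtain ⟨t2, t2'⟩ := hd.hth ω' b
      have n1 := Int.floor_le ((2 : ℝ) ^ X * nu ω)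
      have n1' := Int.lt_floor_add_one ((2 : ℝ) ^ X * nu ω)
      have n2 := Int.floor_le ((2 : ℝ) ^ X * nu ω')
      have n2' := Int.lt_floor_add_one ((2 : ℝ) ^ X * nu ω')
      have n3 := Int.floor_le ((2 : ℝ) ^ X * om ω)
      have n3' := Int.lt_floor_add_one ((2 : ℝ) ^ X * om ω)
      have k1 : (2 : ℝ) ^ X * nu ω' - 2 ^ X * nu ω = (th ω' - th ω) * (2 ^ X * om ω) := by
        rw [c1, c2]
        ring
      have k2 : |(th ω' - th ω) * ((2 : ℝ) ^ X * om ω - ⌊(2 : ℝ) ^ X * om ω⌋)| ≤ 1 * 1 := by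
        refine Uni.abs_mul_le ?_ ?_
        · rw [abs_le]
          constructor <;> linarith
        · rw [abs_le]
          constructor <;> linarith
      have k3 := abs_le.mp k2
      rw [abs_le]
      constructor <;> nlinarith [k3.1, k3.2]
  refine hW (mkS q L T fom fth nu X) hok hX ?_ h1 η ?_ ?_
  · -- the position and the velocity
    show Pool.KVA.MI q (Uni.dg X nu) (fun ω => ⌊(2 : ℝ) ^ X * fom (L ω)⌋) T ≤ ι * X
    have k1 := CH_chain h0 (Uni.dg X nu) (fun ω => ⌊(2 : ℝ) ^ X * fom (L ω)⌋) T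
    have k2 : CH q (Uni.dg X nu) (fun ω => (⌊(2 : ℝ) ^ X * fom (L ω)⌋, T ω)) =
        CH q (Uni.dg X nu) (fun ω => (Uni.dg X om ω, T ω)) := by
      refine CH_eq_of h0 (fun _ _ => rfl) fun ω hω => ?_
      rw [← hfom ω hω]
      rfl
    unfold Pool.KVA.MI
    rw [k1, k2]
    linarith
  · -- the time
    refine le_trans (le_of_eq ?_) h3
    refine Finset.sum_congr rfl fun i _ => ?_
    have e1 := OCG.nr_congr h0 L (θ := fun ω => fth (T ω)) (θ' := th)
      (fun ω hω => (hfth ω hω).symm) k' i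
    rw [← e1]
    rfl
  · -- the velocities
    intro E hE
    refine (h4 (fun ω => ω ∈ E) hE).trans (le_of_eq ?_)
    have hE0 : ∀ ω, 0 ≤ Pool.Agent.H49.Ent.cond q (fun ω => ω ∈ E) True ω := cond_nonneg h0 _ _
    have hsup : ∀ ω, 0 < Pool.Agent.H49.Ent.cond q (fun ω => ω ∈ E) True ω → 0 < q ω :=
      fun ω hω => ((cond_pos_iff h0 _ _ ω).1 hω).1
    have fl : ∀ j ≤ X, ∀ ω, 0 < q ω →
        ⌊(2 : ℝ) ^ j * (mkS q L T fom fth nu X).omR (L ω)⌋ = ⌊(2 : ℝ) ^ j * om ω⌋ := by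
      intro j hj ω hω
      have e1 := floor_eq_oc (mkS q L T fom fth nu X) (j := j) hj ω
      refine e1.trans ?_
      show ⌊(2 : ℝ) ^ X * fom (L ω)⌋ / ((2 ^ (X - j) : ℕ) : ℤ) = ⌊(2 : ℝ) ^ j * om ω⌋
      rw [← hfom ω hω]
      push_cast
      exact floor_row hj (om ω)
    refine CH_eq_of hE0 (fun ω hω => ?_) (fun ω hω => ?_)
    · exact (fl _ hhX ω (hsup ω hω)).symm
    · have e1 := fl 0 (Nat.zero_le _) ω (hsup ω hω)
      rw [pow_zero, one_mul, one_mul] at e1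
      exact e1.symm

open Classical in
/-- **One early block of velocities, in the mean over the contexts.** -/
theorem w_ctx (κ ca ε : ℝ) (hκ : 0 < κ) (hκ1 : κ ≤ 1) (hca : 0 < ca) (hε : 0 < ε) :
    ∃ ϖ : ℝ, 0 < ϖ ∧ ∀ k' : ℕ, ∃ (ι : ℝ) (X₀ : ℕ), 0 < ι ∧
    ∀ (Ω β Λ Θ : Type) [Fintype Ω] (p : Ω → ℝ) (b : Ω → β) (L : Ω → Λ) (T : Ω → Θ)
      (y om th nu : Ω → ℝ) (X : ℕ), WData p b L T y om th nu → X₀ ≤ X →
      Pool.KVA.MI p T L b ≤ ι * X →
      CH p (Uni.dg X nu) (fun ω => (b ω, T ω)) -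
        CH p (Uni.dg X nu) (fun ω => (Uni.dg X om ω, (b ω, T ω))) ≤ ι * X →
      ∀ η : ℝ, ∑ i ∈ range X, OCG.nr p (fun ω => (L ω, b ω)) th k' i ≤ η * X →
      (∀ E : Ω → Prop, ϖ ≤ Pe p E → ca * ⌊κ * X⌋₊ * Real.log 2 ≤
        CH (Pool.Agent.H49.Ent.cond p E True) (Uni.dg ⌊κ * X⌋₊ om) (fun ω => (⌊om ω⌋, b ω))) →
      (1 - ε - η) * X * Real.log 2 - ⌊κ * X⌋₊ * Real.log 2 ≤
        CH p (Uni.dg X nu) (fun ω => (b ω, T ω)) := by
  have hl2 : 0 < Real.log 2 := Real.log_pos (by norm_num)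
  refine ⟨ε / 2 / 4 * (ε / 8), by positivity, fun k' => ?_⟩
  obtain ⟨ι₀, X₁, hι₀, hW⟩ := w_early_ent 2 k' κ ca (ε / 2) hκ hκ1 hca (by positivity)
  refine ⟨ι₀ * (ε / 8), max X₁ 1, by positivity, ?_⟩
  intro Ω β Λ Θ _ p b L T y om th nu X hd hX h1 h2 η h3 h4
  have hXX : X₁ ≤ X := (le_max_left _ _).trans hX
  have hX1 : 1 ≤ X := (le_max_right _ _).trans hX
  have hXpos : (0 : ℝ) < X := by exact_mod_cast hX1
  have hp := hd.law
  have h0 := hp.nonneg
  -- the laws of the contexts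
  obtain ⟨cd, hcd⟩ : ∃ cd : β → Ω → ℝ, cd = fun z => Pool.Agent.H49.Ent.cond p b z := ⟨_, rfl⟩
  have hcl : ∀ ω, 0 < p ω → IsLaw (cd (b ω)) := fun ω hω => by
    rw [hcd]; exact Uni.isLaw_cond' h0 b (law_pos h0 b hω)
  obtain ⟨F1, hF1⟩ : ∃ F1 : β → ℝ, F1 = fun z => Pool.KVA.MI (cd z) T L (fun _ => ()) :=
    ⟨_, rfl⟩
  obtain ⟨F2, hF2⟩ : ∃ F2 : β → ℝ, F2 = fun z => ∑ i ∈ range X, OCG.nr (cd z) L th k' i :=
    ⟨_, rfl⟩
  obtain ⟨F3, hF3⟩ : ∃ F3 : β → ℝ, F3 = fun z => CH (cd z) (Uni.dg X nu) T -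
    CH (cd z) (Uni.dg X nu) (fun ω => (Uni.dg X om ω, T ω)) := ⟨_, rfl⟩
  obtain ⟨AF, hAF⟩ : ∃ AF : β → Prop, AF = fun z => ∃ E : Ω → Prop, ε / 2 / 4 ≤ Pe (cd z) E ∧
    CH (Pool.Agent.H49.Ent.cond (cd z) E True) (Uni.dg ⌊κ * X⌋₊ om) (fun ω => ⌊om ω⌋) <
      ca * ⌊κ * X⌋₊ * Real.log 2 := ⟨_, rfl⟩
  -- the means
  have m1 : Ex p (fun ω => F1 (b ω)) ≤ ι₀ * (ε / 8) * X := by
    rw [hF1, hcd]
    exact (le_of_eq (Uni.Ex_MI h0 b T L)).trans h1
  have m2 : Ex p (fun ω => F2 (b ω)) ≤ η * X := by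
    rw [hF2, hcd]
    refine le_trans (le_of_eq ?_) h3
    have e1 : Ex p (fun ω => ∑ i ∈ range X,
        OCG.nr (Pool.Agent.H49.Ent.cond p b (b ω)) L th k' i) =
        ∑ i ∈ range X, Ex p (fun ω => OCG.nr (Pool.Agent.H49.Ent.cond p b (b ω)) L th k' i) := by
      unfold Ex
      rw [Finset.sum_comm]
      refine Finset.sum_congr rfl fun ω _ => ?_
      rw [Finset.mul_sum]
    rw [e1]
    refine Finset.sum_congr rfl fun i _ => ?_
    unfold OCG.nr
    rw [Uni.Ex_Pr_dbl h0 (OCG.kp L th i) b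
      (fun _ => {w | |th w.2 - th w.1| < (2 : ℝ) ^ (-((i : ℤ) + k'))})]
    rw [OCG.dbl_congr (κ := fun ω => (OCG.kp L th i ω, b ω))
      (κ' := OCG.kp (fun ω => (L ω, b ω)) th i)]
    · rfl
    · intro ω ω'
      unfold OCG.kp
      simp only [Prod.mk.injEq]
      tauto
  have m3 : Ex p (fun ω => F3 (b ω)) ≤ ι₀ * (ε / 8) * X := by
    rw [hF3, hcd]
    refine le_trans (le_of_eq ?_) h2
    show Ex p (fun ω => CH (Pool.Agent.H49.Ent.cond p b (b ω)) (Uni.dg X nu) T -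
      CH (Pool.Agent.H49.Ent.cond p b (b ω)) (Uni.dg X nu)
        (fun ω => (Uni.dg X om ω, T ω))) = _
    rw [Ex_sub, Uni.Ex_swap h0, Uni.Ex_swap' h0 b (Uni.dg X nu) (Uni.dg X om) T]
  -- the signs
  have n1 : ∀ ω, 0 < p ω → 0 ≤ F1 (b ω) := fun ω hω => by
    rw [hF1]
    have := CH_subadd (hcl ω hω).nonneg T L (fun _ => ())
    show 0 ≤ CH (cd (b ω)) T (fun _ => ()) + CH (cd (b ω)) L (fun _ => ()) -
      CH (cd (b ω)) (fun v => (T v, L v)) (fun _ => ())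
    linarith only [this]
  have n2 : ∀ ω, 0 < p ω → 0 ≤ F2 (b ω) := fun ω hω => by
    rw [hF2]
    exact Finset.sum_nonneg fun i _ => OCG.nr_nonneg (hcl ω hω).nonneg L th k' i
  have n3 : ∀ ω, 0 < p ω → 0 ≤ F3 (b ω) := fun ω hω => by
    rw [hF3]
    have : CH (cd (b ω)) (Uni.dg X nu) (fun v => (Uni.dg X om v, T v)) ≤
        CH (cd (b ω)) (Uni.dg X nu) T :=
      CH_mono_cond (hcl ω hω).nonneg fun _ _ _ _ e => (Prod.ext_iff.mp e).2
    show 0 ≤ CH (cd (b ω)) (Uni.dg X nu) T - CH (cd (b ω)) (Uni.dg X nu)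
      (fun v => (Uni.dg X om v, T v))
    linarith only [this]
  -- the bad contexts
  obtain ⟨Bd, hBd⟩ : ∃ Bd : β → Prop, Bd = fun z => ι₀ * X < F1 z ∨ (ι₀ * X < F3 z ∨ AF z) :=
    ⟨_, rfl⟩
  have hBdm : Pe p (fun ω => Bd (b ω)) ≤ 3 * (ε / 8) := by
    have p1 : Pe p (fun ω => ι₀ * X < F1 (b ω)) ≤ ε / 8 := by
      refine (Uni.Pe_markov hp (fun ω => F1 (b ω)) n1 (by positivity)).trans ?_
      rw [div_le_iff₀ (by positivity)]
      linarith only [m1]
    have p3 : Pe p (fun ω => ι₀ * X < F3 (b ω)) ≤ ε / 8 := by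
      refine (Uni.Pe_markov hp (fun ω => F3 (b ω)) n3 (by positivity)).trans ?_
      rw [div_le_iff₀ (by positivity)]
      linarith only [m3]
    have pA : Pe p (fun ω => AF (b ω)) ≤ ε / 8 := by
      by_contra hcon
      rw [not_le] at hcon
      obtain ⟨A, hA1, hA2⟩ := union_event_lt hp b AF (by positivity : 0 < ε / 2 / 4)
        (by positivity : 0 < ε / 8) (ca * ⌊κ * X⌋₊ * Real.log 2) (Uni.dg ⌊κ * X⌋₊ om)
        (fun ω => ⌊om ω⌋) hcon.le (fun z hz _ => by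
          rw [hAF, hcd] at hz
          exact hz)
      have := h4 A hA1
      linarith only [hA2, this]
    have k1 := Uni.Pe_or_le h0 (fun ω => ι₀ * X < F1 (b ω))
      (fun ω => ι₀ * X < F3 (b ω) ∨ AF (b ω))
    have k2 := Uni.Pe_or_le h0 (fun ω => ι₀ * X < F3 (b ω)) (fun ω => AF (b ω))
    rw [hBd]
    show Pe p (fun ω => ι₀ * X < F1 (b ω) ∨ (ι₀ * X < F3 (b ω) ∨ AF (b ω))) ≤ 3 * (ε / 8)
    linarith only [p1, p3, pA, k1, k2]
  -- one context
  have hone : ∀ ω, 0 < p ω → (1 - ε / 2) * X * Real.log 2 - ⌊κ * X⌋₊ * Real.log 2 -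
      F2 (b ω) * Real.log 2 - (if Bd (b ω) then 1 else 0) * (X * Real.log 2) ≤
      CH (Pool.Agent.H49.Ent.cond p b (b ω)) (Uni.dg X nu) T := by
    intro ω hω
    have hlz := law_pos h0 b hω
    have hXl : 0 ≤ (X : ℝ) * Real.log 2 := by positivity
    have hhl : 0 ≤ (⌊κ * X⌋₊ : ℝ) * Real.log 2 := by positivity
    have hF2l : 0 ≤ F2 (b ω) * Real.log 2 := mul_nonneg (n2 ω hω) hl2.le
    by_cases hb : Bd (b ω)
    · rw [if_pos hb]
      have := CH_nonneg (Uni.isLaw_cond' h0 b hlz).nonneg (Uni.dg X nu) T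
      have hε' : 0 ≤ ε / 2 * (X * Real.log 2) := by positivity
      linarith only [hhl, hF2l, this, hε']
    · rw [if_neg hb]
      rw [hBd] at hb
      push Not at hb
      obtain ⟨g1, g3, gA⟩ := hb
      rw [hF1, hcd] at g1
      rw [hF3, hcd] at g3
      rw [hAF, hcd] at gA
      have key := w_one hκ hκ1 hW (WData.cond hd hlz) hXX g1 g3 (F2 (b ω) / X)
        (by
          rw [div_mul_cancel₀ _ hXpos.ne', hF2, hcd])
        (fun E hE => by
          by_contra hcon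
          exact gA ⟨E, hE, not_le.mp hcon⟩)
      have e1 : (1 - ε / 2 - F2 (b ω) / X) * X * Real.log 2 =
          (1 - ε / 2) * X * Real.log 2 - F2 (b ω) * Real.log 2 := by
        field_simp
      rw [e1] at key
      linarith only [key]
  have hmean := Ex_mono h0 hone
  rw [Uni.Ex_swap h0] at hmean
  have e2 : Ex p (fun ω => (1 - ε / 2) * X * Real.log 2 - ⌊κ * X⌋₊ * Real.log 2 -
      F2 (b ω) * Real.log 2 - (if Bd (b ω) then 1 else 0) * (X * Real.log 2)) =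
      (1 - ε / 2) * X * Real.log 2 - ⌊κ * X⌋₊ * Real.log 2 -
        Ex p (fun ω => F2 (b ω)) * Real.log 2 -
        Pe p (fun ω => Bd (b ω)) * (X * Real.log 2) := by
    rw [Ex_sub, Ex_sub, Ex_const hp.sum_one]
    have e3 : Ex p (fun ω => F2 (b ω) * Real.log 2) = Ex p (fun ω => F2 (b ω)) * Real.log 2 := by
      unfold Ex
      rw [Finset.sum_mul]
      exact Finset.sum_congr rfl fun ω _ => by ring
    have e4 : Ex p (fun ω => (if Bd (b ω) then (1 : ℝ) else 0) * (X * Real.log 2)) =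
        Pe p (fun ω => Bd (b ω)) * (X * Real.log 2) := by
      rw [Pe_eq]
      unfold Ex
      rw [Finset.sum_mul]
      refine Finset.sum_congr rfl fun ω _ => ?_
      show p ω * ((if Bd (b ω) then (1 : ℝ) else 0) * (X * Real.log 2)) =
        (if Bd (b ω) then p ω else 0) * (X * Real.log 2)
      by_cases hb : Bd (b ω)
      · rw [if_pos hb, if_pos hb]
        ring
      · rw [if_neg hb, if_neg hb]
        ring
    rw [e3, e4]
  rw [e2] at hmean
  have k1 : Ex p (fun ω => F2 (b ω)) * Real.log 2 ≤ η * X * Real.log 2 :=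
    mul_le_mul_of_nonneg_right m2 hl2.le
  have k2 : Pe p (fun ω => Bd (b ω)) * (X * Real.log 2) ≤ 3 * (ε / 8) * (X * Real.log 2) :=
    mul_le_mul_of_nonneg_right hBdm (by positivity)
  have k3 : 0 ≤ ε / 8 * (X * Real.log 2) := by positivity
  linarith only [hmean, k1, k2, k3]

/-- If the velocity is in `[0, 1)` its integer part is not needed in the context. -/
theorem floor_ctx {S : Type} {q : Ω → ℝ} (hq : ∀ ω, 0 ≤ q ω) {om : Ω → ℝ}
    (hom : ∀ ω, 0 < q ω → 0 ≤ om ω ∧ om ω < 1) (X : Ω → S) (b : Ω → β) :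
    CH q X (fun ω => (⌊om ω⌋, b ω)) = CH q X b := by
  have hz : ∀ ω, 0 < q ω → ⌊om ω⌋ = 0 := fun ω hω => by
    rw [Int.floor_eq_zero_iff]
    exact hom ω hω
  refine CH_congr hq ?_ ?_ ?_ ?_
  · intro ω ω' _ _ e
    exact (Prod.ext_iff.mp e).1
  · intro ω ω' _ _ e
    exact (Prod.ext_iff.mp e).1
  · intro ω ω' _ _ e
    exact (Prod.ext_iff.mp e).2
  · intro ω ω' a c e
    exact Prod.ext ((hz ω a).trans (hz ω' c).symm) e

end ctx

end Pool.KG
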