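import Pool.Agent.H86.OC.ROKJ
import Pool.Agent.H6.OC.J1R

/-!
# Few heavy rows: the position is full
-/

set_option autoImplicit false

namespace Pool.KG

open Finset Real
open Pool.Agent.H49.Ent Pool.Agent.H32.Dense Pool.STK Pool.KAF Pool.KAL Pool.KX Pool.KAL.TI Pool.OC

variable {Ω θ : Type} [Fintype Ω]

theorem one_shift {p : Ω → ℝ} (hp : IsLaw p) (N : Ω → ℤ) (T : Ω → θ) (K κ : ℕ) (D : ℝ)
:
    (K * Real.log 2 - D) * (1 - Pr p {ω | rowH p N κ K T ω ≤ K * Real.log 2 - D}) ≤
      CH p (rwn N κ) (fun ω => (rwn N (κ + K) ω, T ω)) := by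
  classical
  rw [← CDF.Ex_H hp.nonneg]
  have h1 : ∀ ω, (K * Real.log 2 - D) * (p ω -
      (if ω ∈ {ω | rowH p N κ K T ω ≤ K * Real.log 2 - D} then p ω else 0)) ≤
      p ω * H (cond p (fun ω => (rwn N (κ + K) ω, T ω)) (rwn N (κ + K) ω, T ω)) (rwn N κ) := by
    intro ω
    have hω0 := hp.nonneg ω
    have e1 : H (cond p (fun ω => (rwn N (κ + K) ω, T ω)) (rwn N (κ + K) ω, T ω)) (rwn N κ) =
        rowH p N κ K T ω := rfl
    rw [e1]
    by_cases h : ω ∈ {ω | rowH p N κ K T ω ≤ K * Real.log 2 - D}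
    · rw [if_pos h, sub_self, mul_zero]
      rcases hω0.eq_or_lt with h2 | h2
      · rw [← h2, zero_mul]
      · refine mul_nonneg hω0 ?_
        have hq := isLaw_cond hp (fun ω => (rwn N (κ + K) ω, T ω)) h2
        exact H_nonneg hq.nonneg hq.sum_one _
    · rw [if_neg h, sub_zero, mul_comm]
      have h3 : K * Real.log 2 - D < rowH p N κ K T ω := not_le.1 h
      exact mul_le_mul_of_nonneg_left h3.le hω0
  have h2 := Finset.sum_le_sum fun ω (_ : ω ∈ univ) => h1 ω
  rw [← Finset.mul_sum, Finset.sum_sub_distrib, hp.sum_one, sum_indicator] at h2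
  exact h2

open Classical in
/-- **Few heavy rows.** -/
theorem few_heavy {p : Ω → ℝ} (hp : IsLaw p) (N : Ω → ℤ) (T : Ω → θ) (X k K n : ℕ) (D u : ℝ)
    (hn : n ≤ X) (hu : 0 ≤ u) (hD : D ≤ K * Real.log 2) :
    (K * Real.log 2 - D) * (n * (1 - u) -
      ∑ r ∈ Finset.Ico (X - n) X, Pr p {ω | r ∈ RS.Jw p N T X k K D u ω}) ≤
      K * (CH p N T + 2 * Real.log 2) := by
  have hp0 := hp.nonneg
  have hl2 : 0 < Real.log 2 := Real.log_pos (by norm_num)
  have hKD : 0 ≤ K * Real.log 2 - D := by linarith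
  -- one offset
  have hone : ∀ v : ℕ, (K * Real.log 2 - D) * ((n : ℝ) - ∑ j ∈ range n,
      Pr p {ω | rowH p (fun w => N w + (v : ℤ)) (k + 2 + j) K T ω ≤ K * Real.log 2 - D}) ≤
      K * (CH p N T + 2 * Real.log 2) := by
    intro v
    have h1 := Finset.sum_le_sum fun j (_ : j ∈ range n) =>
      one_shift hp (fun w => N w + (v : ℤ)) T K (k + 2 + j) D
    have h2 := sum_CH_win hp0 (fun w => N w + (v : ℤ)) T (k + 2) n K
    have h3 := CH_shift hp N T (v : ℤ) (k + 2) (k + 2 + n + K)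
    have h4 : CH p (rwn N (k + 2)) (fun ω => (rwn N (k + 2 + n + K) ω, T ω)) ≤ CH p N T := by
      have h5 : CH p (rwn N (k + 2)) (fun ω => (rwn N (k + 2 + n + K) ω, T ω)) ≤
          CH p (rwn N (k + 2)) T :=
        CH_mono_cond hp0 fun ω ω' _ _ hw => (Prod.ext_iff.mp hw).2
      refine h5.trans (CH_mono_left hp0 ?_)
      intro ω ω' _ _ hw
      have h6 : N ω = N ω' := (Prod.ext_iff.mp hw).1
      unfold rwn
      rw [h6]
    rw [← Finset.mul_sum, Finset.sum_sub_distrib, sum_const, card_range, nsmul_eq_mul, mul_one] at h1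
    refine h1.trans (h2.trans (mul_le_mul_of_nonneg_left ?_ (Nat.cast_nonneg K)))
    linarith
  -- the average over the offsets
  have hX0 : (0 : ℝ) < 2 ^ X := by positivity
  have hsum := Finset.sum_le_sum fun v (_ : v ∈ range (2 ^ X)) => hone v
  rw [sum_const, card_range, nsmul_eq_mul, ← Finset.mul_sum, Finset.sum_sub_distrib, sum_const,
    card_range, nsmul_eq_mul] at hsum
  have h5 : ∑ v ∈ range (2 ^ X), ∑ j ∈ range n,
      Pr p {ω | rowH p (fun w => N w + (v : ℤ)) (k + 2 + j) K T ω ≤ K * Real.log 2 - D} ≤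
      2 ^ X * (n * u + ∑ r ∈ Finset.Ico (X - n) X, Pr p {ω | r ∈ RS.Jw p N T X k K D u ω}) := by
    rw [Finset.sum_comm]
    have h6 : ∀ j ∈ range n, ∑ v ∈ range (2 ^ X),
        Pr p {ω | rowH p (fun w => N w + (v : ℤ)) (k + 2 + j) K T ω ≤ K * Real.log 2 - D} ≤
        2 ^ X * (u + Pr p {ω | (X - 1 - j) ∈ RS.Jw p N T X k K D u ω}) := by
      intro j hj
      have hj' := mem_range.1 hj
      have e1 : ∑ v ∈ range (2 ^ X),
          Pr p {ω | rowH p (fun w => N w + (v : ℤ)) (k + 2 + j) K T ω ≤ K * Real.log 2 - D} =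
          2 ^ X * ∑ ω, p ω * wrow p N T X (k + 2 + j) K D ω := by
        have e2 : ∀ ω, p ω * wrow p N T X (k + 2 + j) K D ω = (∑ v ∈ range (2 ^ X),
            if ω ∈ {ω | rowH p (fun w => N w + (v : ℤ)) (k + 2 + j) K T ω ≤ K * Real.log 2 - D}
              then p ω else 0) / 2 ^ X := by
          intro ω
          unfold wrow
          rw [← mul_div_assoc, Finset.mul_sum]
          congr 1
          refine Finset.sum_congr rfl fun v _ => ?_
          simp only [Set.mem_ofPred_eq]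
          split_ifs <;> ring
        rw [Finset.sum_congr rfl fun ω _ => e2 ω, ← Finset.sum_div, mul_div_cancel₀ _ hX0.ne',
          Finset.sum_comm]
        refine Finset.sum_congr rfl fun v _ => ?_
        rw [sum_indicator]
      rw [e1]
      refine mul_le_mul_of_nonneg_left ?_ hX0.le
      have e3 : ∀ ω, p ω * wrow p N T X (k + 2 + j) K D ω ≤ p ω * u +
          (if ω ∈ {ω | (X - 1 - j) ∈ RS.Jw p N T X k K D u ω} then p ω else 0) := by
        intro ω
        have e4 : X + k + 1 - (X - 1 - j) = k + 2 + j := by omega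
        have e5 : wrow p N T X (k + 2 + j) K D ω ≤ 1 := by
          rw [wrow_eq]; exact wtG_le_one ..
        by_cases h : ω ∈ {ω | (X - 1 - j) ∈ RS.Jw p N T X k K D u ω}
        · rw [if_pos h]
          have h7 := mul_le_mul_of_nonneg_left e5 (hp0 ω)
          have h8 : 0 ≤ p ω * u := mul_nonneg (hp0 ω) hu
          linarith
        · rw [if_neg h, add_zero]
          refine mul_le_mul_of_nonneg_left ?_ (hp0 ω)
          by_contra hcon
          refine h ⟨by omega, ?_⟩
          rw [e4]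
          exact (not_le.1 hcon).le
      refine (Finset.sum_le_sum fun ω _ => e3 ω).trans ?_
      rw [Finset.sum_add_distrib, ← Finset.sum_mul, hp.sum_one, one_mul, sum_indicator]
    refine (Finset.sum_le_sum h6).trans (le_of_eq ?_)
    rw [← Finset.mul_sum, Finset.sum_add_distrib, sum_const, card_range, nsmul_eq_mul]
    congr 2
    rw [Finset.sum_Ico_eq_sum_range, ← Finset.sum_range_reflect, show X - (X - n) = n by omega]
    refine Finset.sum_congr rfl fun j hj => ?_
    have hj' := mem_range.1 hj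
    rw [show X - 1 - (n - 1 - j) = X - n + j by omega]
  push_cast at hsum
  have h7 : 2 ^ X * (n * (1 - u) - ∑ r ∈ Finset.Ico (X - n) X,
      Pr p {ω | r ∈ RS.Jw p N T X k K D u ω}) ≤ 2 ^ X * (n : ℝ) - ∑ v ∈ range (2 ^ X), ∑ j ∈ range n,
      Pr p {ω | rowH p (fun w => N w + (v : ℤ)) (k + 2 + j) K T ω ≤ K * Real.log 2 - D} := by
    linarith
  have h8 := mul_le_mul_of_nonneg_left h7 hKD
  have h9 : 2 ^ X * ((K * Real.log 2 - D) * (n * (1 - u) -
      ∑ r ∈ Finset.Ico (X - n) X, Pr p {ω | r ∈ RS.Jw p N T X k K D u ω})) ≤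
      2 ^ X * (K * (CH p N T + 2 * Real.log 2)) := by
    refine le_trans (le_of_eq ?_) (h8.trans hsum)
    ring
  exact le_of_mul_le_mul_left h9 hX0

end Pool.KG
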