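import Pool.Agent.H68.KG.Plvk
import Pool.Agent.H46.S6.DpwB
import Pool.Agent.H8.DPL.Lay
import Pool.Agent.H86.OC.RASa

/-!
# Flat contexts: a sample and a reference

Tools for the law `dbl p sl` of a sample and a reference on the same line: near samples given the
reference (`nr_pair`), and the slopes of the references of a typical point (`ref_spread`).
-/

set_option autoImplicit false

namespace Pool.KG

open Finset Real
open Pool.Agent.H49.Ent Pool.Agent.H32.Dense Pool.STK Pool.KA Pool.PRM Pool.KVA Pool.M5 Pool.K2S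

section pair

variable {Ω Λ S T : Type} [Fintype Ω] {p : Ω → ℝ}

/-- The law of the first copy given its label and the second copy. -/
theorem cond_pair (hp : ∀ ω, 0 ≤ p ω) {sl : Ω → Λ} {κ : Ω → S}
    (hκ : ∀ ω ω', κ ω = κ ω' → sl ω = sl ω') {x : Ω × Ω} (hx : 0 < dbl p sl x) (A : Set Ω) :
    Pool.KAF.Pr (Pool.Agent.H49.Ent.cond (dbl p sl) (fun x => (κ x.1, x.2)) (κ x.1, x.2))
      {x' | x'.1 ∈ A} = Pool.KAF.Pr (Pool.Agent.H49.Ent.cond p κ (κ x.1)) A := by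
  classical
  have hq := dbl_nonneg (b := sl) hp
  have p1 : 0 < p x.1 := (dbl_fst hp).pos hq hx
  have p2 : 0 < p x.2 := (dbl_snd hp).pos hq hx
  have hs : sl x.1 = sl x.2 := dbl_eq hp hx
  obtain ⟨l, hl⟩ : ∃ l, l = law p sl (sl x.1) := ⟨_, rfl⟩
  have hl0 : 0 < l := by rw [hl]; exact law_pos hp sl p1
  obtain ⟨m, hm⟩ : ∃ m, m = law p κ (κ x.1) := ⟨_, rfl⟩
  have hm0 : 0 < m := by rw [hm]; exact law_pos hp κ p1
  -- the law of pairs on the class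
  have e1 : ∀ ω', κ ω' = κ x.1 → dbl p sl (ω', x.2) = p ω' * (p x.2 / l) := by
    intro ω' h
    have h1 : sl ω' = sl x.1 := hκ _ _ h
    unfold dbl glue
    rw [if_pos (h1.trans hs), h1, ← hl]
    ring
  have e2 : law (dbl p sl) (fun x => (κ x.1, x.2)) (κ x.1, x.2) = m * (p x.2 / l) := by
    unfold law
    rw [Fintype.sum_prod_type, hm]
    unfold law
    rw [Finset.sum_mul]
    refine Finset.sum_congr rfl fun ω' _ => ?_
    rw [Finset.sum_eq_single x.2]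
    · by_cases h : κ ω' = κ x.1
      · have hh : ((κ ω', x.2) : S × Ω) = (κ x.1, x.2) := by rw [h]
        rw [if_pos hh, if_pos h, e1 ω' h]
      · rw [if_neg (fun h' => h (Prod.ext_iff.mp h').1), if_neg h, zero_mul]
    · intro v _ hv
      rw [if_neg (fun h' => hv (Prod.ext_iff.mp h').2)]
    · intro h
      exact absurd (Finset.mem_univ _) h
  have hr : 0 < p x.2 / l := div_pos p2 hl0
  rw [Pool.KAF.Pr_eq, Pool.KAF.Pr_eq, Fintype.sum_prod_type]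
  refine Finset.sum_congr rfl fun ω' _ => ?_
  rw [Finset.sum_eq_single x.2]
  · unfold Pool.Agent.H49.Ent.cond
    rw [e2, ← hm]
    by_cases hA : ω' ∈ A
    · rw [if_pos (show ((ω', x.2) : Ω × Ω) ∈ {x' : Ω × Ω | x'.1 ∈ A} from hA), if_pos hA]
      by_cases h : κ ω' = κ x.1
      · have hh : ((κ ω', x.2) : S × Ω) = (κ x.1, x.2) := by rw [h]
        rw [if_pos hh, if_pos h, e1 ω' h]
        field_simp
      · rw [if_neg (fun h' => h (Prod.ext_iff.mp h').1), if_neg h]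
    · rw [if_neg (show ¬ ((ω', x.2) : Ω × Ω) ∈ {x' : Ω × Ω | x'.1 ∈ A} from hA), if_neg hA]
  · intro v _ hv
    unfold Pool.Agent.H49.Ent.cond
    rw [if_neg (fun h' => hv (Prod.ext_iff.mp h').2)]
    split_ifs <;> rfl
  · intro h
    exact absurd (Finset.mem_univ _) h

/-- **Near samples given the reference.** -/
theorem nr_pair (hp : ∀ ω, 0 ≤ p ω) (sl : Ω → Λ) (θ : Ω → ℝ) (k' i : ℕ) :
    OCG.nr (dbl p sl) (fun x => (sl x.1, x.2)) (fun x => θ x.1) k' i = OCG.nr p sl θ k' i := by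
  classical
  have hq := dbl_nonneg (b := sl) hp
  unfold OCG.nr
  rw [Pool.M5T.Pr_dbl, Pool.M5T.Pr_dbl]
  have e1 : Ex (dbl p sl) (fun x => Pool.KAF.Pr (Pool.Agent.H49.Ent.cond (dbl p sl)
      (OCG.kp (fun x => (sl x.1, x.2)) (fun x => θ x.1) i)
      (OCG.kp (fun x => (sl x.1, x.2)) (fun x => θ x.1) i x))
      {x' | (x, x') ∈ {w : (Ω × Ω) × (Ω × Ω) | |θ w.2.1 - θ w.1.1| <
        (2 : ℝ) ^ (-((i : ℤ) + k'))}}) =
      Ex (dbl p sl) (fun x => (fun ω => Pool.KAF.Pr (Pool.Agent.H49.Ent.cond p (OCG.kp sl θ i)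
        (OCG.kp sl θ i ω)) {ω' | (ω, ω') ∈ {w : Ω × Ω | |θ w.2 - θ w.1| <
          (2 : ℝ) ^ (-((i : ℤ) + k'))}}) x.1) := by
    unfold Ex
    refine Finset.sum_congr rfl fun x _ => ?_
    rcases (hq x).eq_or_lt with h0 | h0
    · rw [← h0]
      simp
    congr 1
    have h1 := cond_pair (S := Λ × ℤ) hp (κ := OCG.kp sl θ i) (sl := sl)
      (fun ω ω' h => (Prod.ext_iff.mp h).1) h0
      {ω' | |θ ω' - θ x.1| < (2 : ℝ) ^ (-((i : ℤ) + k'))}
    have h2 : Pool.Agent.H49.Ent.cond (dbl p sl)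
        (OCG.kp (fun x => (sl x.1, x.2)) (fun x => θ x.1) i)
        (OCG.kp (fun x => (sl x.1, x.2)) (fun x => θ x.1) i x) =
        Pool.Agent.H49.Ent.cond (dbl p sl) (fun x => (OCG.kp sl θ i x.1, x.2))
          (OCG.kp sl θ i x.1, x.2) := by
      refine Pool.OC.RS.cond_congr hq fun v _ => ?_
      unfold OCG.kp OCG.tl
      simp only [Prod.mk.injEq]
      tauto
    exact (congrArg (fun q => Pool.KAF.Pr q
      {x' | (x, x') ∈ {w : (Ω × Ω) × (Ω × Ω) | |θ w.2.1 - θ w.1.1| <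
        (2 : ℝ) ^ (-((i : ℤ) + k'))}}) h2).trans h1
  refine e1.trans ?_
  exact (dbl_fst (b := sl) hp).ex (fun ω => Pool.KAF.Pr (Pool.Agent.H49.Ent.cond p (OCG.kp sl θ i)
        (OCG.kp sl θ i ω)) {ω' | (ω, ω') ∈ {w : Ω × Ω | |θ w.2 - θ w.1| <
          (2 : ℝ) ^ (-((i : ℤ) + k'))}})

/-- Jensen. -/
theorem Ex_sq {q : Ω → ℝ} (hq : IsLaw q) (f : Ω → ℝ) : (Ex q f) ^ 2 ≤ Ex q (fun ω => f ω ^ 2) := by
  obtain ⟨m, hm⟩ : ∃ m, m = Ex q f := ⟨_, rfl⟩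
  have h1 : 0 ≤ Ex q (fun ω => (f ω - m) ^ 2) :=
    Finset.sum_nonneg fun ω _ => mul_nonneg (hq.nonneg ω) (sq_nonneg _)
  have h2 : Ex q (fun ω => (f ω - m) ^ 2) = Ex q (fun ω => f ω ^ 2) - 2 * m * Ex q f + m ^ 2 := by
    unfold Ex
    have e1 : ∀ ω, q ω * (f ω - m) ^ 2 = q ω * f ω ^ 2 - 2 * m * (q ω * f ω) + m ^ 2 * q ω :=
      fun ω => by ring
    rw [Finset.sum_congr rfl fun ω _ => e1 ω, Finset.sum_add_distrib, Finset.sum_sub_distrib,
      ← Finset.mul_sum, ← Finset.mul_sum, hq.sum_one]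
    ring
  rw [h2, ← hm] at h1
  rw [← hm]
  nlinarith

/-- The law of two copies, one after the other. -/
theorem dbl_cond (p : Ω → ℝ) (sl : Ω → Λ) (ω ω' : Ω) :
    dbl p sl (ω, ω') = p ω * Pool.Agent.H49.Ent.cond p sl (sl ω) ω' := by
  unfold Pool.Agent.H32.Dense.dbl glue Pool.Agent.H49.Ent.cond
  by_cases h : sl ω = sl ω'
  · rw [if_pos h, if_pos h.symm]
    ring
  · rw [if_neg h, if_neg (fun h' => h h'.symm)]
    ring

/-- An event of the second copy given a label of the first copy. -/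
theorem Pr_snd (hp : ∀ ω, 0 ≤ p ω) (sl : Ω → Λ) (ζ : Ω → S) (z : S) (A : Set Ω) :
    Pool.KAF.Pr (Pool.Agent.H49.Ent.cond (dbl p sl) (fun x => ζ x.1) z) {x' | x'.2 ∈ A} =
      Ex (Pool.Agent.H49.Ent.cond p ζ z)
        (fun ω => Pool.KAF.Pr (Pool.Agent.H49.Ent.cond p sl (sl ω)) A) := by
  classical
  have e1 : law (dbl p sl) (fun x => ζ x.1) z = law p ζ z := (dbl_fst hp).law ζ z
  rw [Pool.KAF.Pr_eq, Fintype.sum_prod_type]
  unfold Ex
  refine Finset.sum_congr rfl fun ω _ => ?_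
  show _ = Pool.Agent.H49.Ent.cond p ζ z ω *
    Pool.KAF.Pr (Pool.Agent.H49.Ent.cond p sl (sl ω)) A
  rw [Pool.KAF.Pr_eq, Finset.mul_sum]
  refine Finset.sum_congr rfl fun ω' _ => ?_
  have e2 : Pool.Agent.H49.Ent.cond (dbl p sl) (fun x => ζ x.1) z (ω, ω') =
      Pool.Agent.H49.Ent.cond p ζ z ω * Pool.Agent.H49.Ent.cond p sl (sl ω) ω' := by
    have e3 : Pool.Agent.H49.Ent.cond (dbl p sl) (fun x => ζ x.1) z (ω, ω') =
        if ζ ω = z then dbl p sl (ω, ω') / law (dbl p sl) (fun x => ζ x.1) z else 0 := rfl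
    have e4 : Pool.Agent.H49.Ent.cond p ζ z ω = if ζ ω = z then p ω / law p ζ z else 0 := rfl
    rw [e3, e1, dbl_cond, e4]
    split_ifs
    · ring
    · ring
  by_cases hA : ω' ∈ A
  · rw [if_pos (show ((ω, ω') : Ω × Ω) ∈ {x' : Ω × Ω | x'.2 ∈ A} from hA), if_pos hA, e2]
  · rw [if_neg (show ¬ ((ω, ω') : Ω × Ω) ∈ {x' : Ω × Ω | x'.2 ∈ A} from hA), if_neg hA, mul_zero]

/-- **The slopes of the references of a typical point are spread.** -/
theorem ref_spread (hp : IsLaw p) (sl : Ω → Λ) (ζ : Ω → S) (s : Ω → ℝ) {K δ Δ ε₁ ε₂ : ℝ}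
    (hK : 0 ≤ K) (hsb : ∀ ω, 0 < p ω → |s ω| ≤ K) (hδ0 : 0 < δ) (hδ : δ ≤ 1 / 2)
    (hΔ : 2 * ((2 * K + 2) * δ) ≤ Δ) (hε₁ : 0 < ε₁)
    (hTH : Pool.KAF.Pr (dbl p sl) {x | |s x.1 - s x.2| < Δ} ≤ ε₂) (h : ε₂ ≤ ε₁ ^ 3) :
    Pool.KAF.Pr (dbl p sl) {x | ∃ n₀ n₁ : ℝ, (|n₀| ≤ 1 ∧ |n₁| ≤ 1 ∧ (|n₀| = 1 ∨ |n₁| = 1)) ∧
      ε₁ < Pool.KAF.Pr (Pool.Agent.H49.Ent.cond (dbl p sl) (fun x => ζ x.1) (ζ x.1))
        {x' | |n₀ + n₁ * s x'.2| < δ}} ≤ ε₁ := by
  classical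
  have hp0 := hp.nonneg
  have hq := dbl_nonneg (b := sl) hp0
  by_contra hcon
  rw [not_le] at hcon
  obtain ⟨δ', hδ'⟩ : ∃ δ', δ' = (2 * K + 2) * δ := ⟨_, rfl⟩
  rw [← hδ'] at hΔ
  -- bad values
  obtain ⟨B, hB⟩ : ∃ B : S → Prop, B = fun z => ∃ c : ℝ, ε₁ <
      Pool.KAF.Pr (Pool.Agent.H49.Ent.cond (dbl p sl) (fun x => ζ x.1) z)
        {x' | x'.2 ∈ {ω' | |s ω' - c| < δ'}} := ⟨_, rfl⟩
  have hbad : ∀ x, x ∈ {x : Ω × Ω | ∃ n₀ n₁ : ℝ,
      (|n₀| ≤ 1 ∧ |n₁| ≤ 1 ∧ (|n₀| = 1 ∨ |n₁| = 1)) ∧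
      ε₁ < Pool.KAF.Pr (Pool.Agent.H49.Ent.cond (dbl p sl) (fun x => ζ x.1) (ζ x.1))
        {x' | |n₀ + n₁ * s x'.2| < δ}} → B (ζ x.1) := by
    rintro x ⟨n₀, n₁, ⟨h1, h2, h3⟩, h4⟩
    have hc0 : ∀ v, 0 ≤ Pool.Agent.H49.Ent.cond (dbl p sl) (fun x => ζ x.1) (ζ x.1) v :=
      cond_nonneg hq _ _
    -- a sample in the set
    have h5 : ∃ v, 0 < Pool.Agent.H49.Ent.cond (dbl p sl) (fun x => ζ x.1) (ζ x.1) v ∧
        |n₀ + n₁ * s v.2| < δ := by
      by_contra hne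
      push Not at hne
      have : Pool.KAF.Pr (Pool.Agent.H49.Ent.cond (dbl p sl) (fun x => ζ x.1) (ζ x.1))
          {x' | |n₀ + n₁ * s x'.2| < δ} = 0 := by
        rw [Pool.KAF.Pr_eq]
        refine Finset.sum_eq_zero fun v _ => ?_
        rcases (hc0 v).eq_or_lt with h6 | h6
        · rw [← h6]
          simp
        · rw [if_neg (show ¬ v ∈ {x' : Ω × Ω | |n₀ + n₁ * s x'.2| < δ} from
            not_lt.mpr (hne v h6))]
      linarith
    obtain ⟨v, hv, hv'⟩ := h5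
    have hpv : 0 < p v.2 := (dbl_snd hp0).pos hq
      ((cond_pos_iff hq (fun x : Ω × Ω => ζ x.1) (ζ x.1) v).1 hv).1
    have hs := hsb _ hpv
    have hn1 : 1 ≤ (2 * K + 2) * |n₁| := by
      by_contra hlt
      rw [not_le] at hlt
      have g1 : |n₁ * s v.2| ≤ |n₁| * K := by
        rw [abs_mul]
        exact mul_le_mul_of_nonneg_left hs (abs_nonneg _)
      have g2 : |n₁| < 1 / 2 := by nlinarith [abs_nonneg n₁]
      have g3 : |n₀| ≤ |n₀ + n₁ * s v.2| + |n₁ * s v.2| := by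
        have := abs_add_le (n₀ + n₁ * s v.2) (-(n₁ * s v.2))
        rw [abs_neg] at this
        have e : n₀ + n₁ * s v.2 + -(n₁ * s v.2) = n₀ := by ring
        rw [e] at this
        exact this
      have g4 : |n₁| * K < 1 / 2 := by nlinarith [abs_nonneg n₁]
      rcases h3 with h3 | h3
      · linarith
      · linarith
    have hn1' : 0 < |n₁| := by
      by_contra h6
      have : |n₁| = 0 := le_antisymm (not_lt.mp h6) (abs_nonneg _)
      rw [this] at hn1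
      linarith
    have hn1'' : n₁ ≠ 0 := abs_pos.mp hn1'
    rw [hB]
    refine ⟨-n₀ / n₁, h4.trans_le ?_⟩
    refine OCG.Pr_mono' hc0 fun w _ hw => ?_
    have hw' : |n₀ + n₁ * s w.2| < δ := hw
    show |s w.2 - -n₀ / n₁| < δ'
    have e1 : s w.2 - -n₀ / n₁ = (n₀ + n₁ * s w.2) / n₁ := by
      field_simp
      ring
    rw [e1, abs_div, div_lt_iff₀ hn1', hδ']
    calc |n₀ + n₁ * s w.2| < δ := hw'
      _ = δ * 1 := (mul_one _).symm
      _ ≤ δ * ((2 * K + 2) * |n₁|) := mul_le_mul_of_nonneg_left hn1 hδ0.le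
      _ = _ := by ring
  -- the centre
  have hch : ∀ z, ∃ c : ℝ, B z → ε₁ < Ex (Pool.Agent.H49.Ent.cond p ζ z)
      (fun ω => Pool.KAF.Pr (Pool.Agent.H49.Ent.cond p sl (sl ω)) {ω' | |s ω' - c| < δ'}) := by
    intro z
    by_cases hz : B z
    · have hz' := hz
      rw [hB] at hz'
      obtain ⟨c, hc⟩ := hz'
      refine ⟨c, fun _ => ?_⟩
      rw [Pr_snd hp0 sl ζ z {ω' | |s ω' - c| < δ'}] at hc
      exact hc
    · exact ⟨0, fun h' => absurd h' hz⟩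
  choose c hc using hch
  obtain ⟨f, hf⟩ : ∃ f : S → Ω → ℝ, f = fun z ω =>
    Pool.KAF.Pr (Pool.Agent.H49.Ent.cond p sl (sl ω)) {ω' | |s ω' - c z| < δ'} := ⟨_, rfl⟩
  -- mass of the bad values
  have hmass : ε₁ < Pool.KAF.Pr p {ω | B (ζ ω)} := by
    refine hcon.trans_le ?_
    have e1 : Pool.KAF.Pr p {ω | B (ζ ω)} = Pool.KAF.Pr (dbl p sl) {x | B (ζ x.1)} :=
      ((dbl_fst (b := sl) hp0).law (fun ω => B (ζ ω)) True).symm
    rw [e1]
    exact OCG.Pr_mono' hq fun x _ hx => hbad x hx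
  -- the lower bound
  have h1 : ε₁ ^ 2 * Pool.KAF.Pr p {ω | B (ζ ω)} ≤
      Ex p (fun ω => Ex (Pool.Agent.H49.Ent.cond p ζ (ζ ω))
        (fun v => (if B (ζ v) then f (ζ v) v ^ 2 else 0))) := by
    rw [Pool.KAF.Pr_eq, Finset.mul_sum]
    unfold Ex
    refine Finset.sum_le_sum fun ω _ => ?_
    rcases (hp0 ω).eq_or_lt with h0 | h0
    · rw [← h0]
      simp
    have hl : IsLaw (Pool.Agent.H49.Ent.cond p ζ (ζ ω)) :=
      Uni.isLaw_cond' hp0 ζ (law_pos hp0 ζ h0)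
    by_cases hb : B (ζ ω)
    · rw [if_pos (show ω ∈ {ω | B (ζ ω)} from hb), mul_comm]
      refine mul_le_mul_of_nonneg_left ?_ h0.le
      have g1 := hc (ζ ω) hb
      have g2 := Ex_sq hl (f (ζ ω))
      have g3 : ε₁ < Ex (Pool.Agent.H49.Ent.cond p ζ (ζ ω)) (f (ζ ω)) := by
        rw [hf]
        exact g1
      have g4 : ε₁ ^ 2 ≤ Ex (Pool.Agent.H49.Ent.cond p ζ (ζ ω)) (fun v => f (ζ ω) v ^ 2) := by
        refine le_trans ?_ g2
        exact pow_le_pow_left₀ hε₁.le g3.le 2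
      refine g4.trans (le_of_eq ?_)
      unfold Ex
      refine Finset.sum_congr rfl fun v _ => ?_
      rcases (hl.nonneg v).eq_or_lt with h2 | h2
      · rw [← h2]
        simp
      · have h3 : ζ v = ζ ω := ((cond_pos_iff hp0 ζ (ζ ω) v).1 h2).2
        show _ * f (ζ ω) v ^ 2 = _ * (if B (ζ v) then f (ζ v) v ^ 2 else 0)
        rw [h3, if_pos hb]
    · rw [if_neg (show ¬ ω ∈ {ω | B (ζ ω)} from hb), mul_zero]
      refine mul_nonneg h0.le (Finset.sum_nonneg fun v _ => mul_nonneg (hl.nonneg v) ?_)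
      show 0 ≤ (if B (ζ v) then f (ζ v) v ^ 2 else 0)
      split_ifs
      · exact sq_nonneg _
      · exact le_rfl
  -- the upper bound
  have h2 : Ex p (fun ω => Ex (Pool.Agent.H49.Ent.cond p ζ (ζ ω))
        (fun v => (if B (ζ v) then f (ζ v) v ^ 2 else 0))) ≤ ε₂ := by
    have t1 := Pool.OC.RS.tower hp0 ζ (fun v => (if B (ζ v) then f (ζ v) v ^ 2 else 0))
    have t2 : Ex p (fun ω => Ex (Pool.Agent.H49.Ent.cond p ζ (ζ ω))
        (fun v => (if B (ζ v) then f (ζ v) v ^ 2 else 0))) =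
        ∑ ω, p ω * (if B (ζ ω) then f (ζ ω) ω ^ 2 else 0) := by
      rw [← t1]
      rfl
    rw [t2]
    obtain ⟨g, hg⟩ : ∃ g : Ω → ℝ, g = fun ω =>
      Pool.KAF.Pr (Pool.Agent.H49.Ent.cond p sl (sl ω)) {ω' | |s ω - s ω'| < Δ} := ⟨_, rfl⟩
    have t3 : ∑ ω, p ω * (if B (ζ ω) then f (ζ ω) ω ^ 2 else 0) ≤
        ∑ ω, p ω * ∑ v, Pool.Agent.H49.Ent.cond p sl (sl ω) v * g v := by
      refine Finset.sum_le_sum fun ω _ => ?_
      rcases (hp0 ω).eq_or_lt with h0 | h0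
      · rw [← h0]
        simp
      refine mul_le_mul_of_nonneg_left ?_ h0.le
      have hl : IsLaw (Pool.Agent.H49.Ent.cond p sl (sl ω)) :=
        Uni.isLaw_cond' hp0 sl (law_pos hp0 sl h0)
      have hg0 : ∀ v, 0 ≤ g v := fun v => by
        rw [hg]
        exact OCG.Pr_nonneg' (cond_nonneg hp0 _ _) _
      have hnn : 0 ≤ ∑ v, Pool.Agent.H49.Ent.cond p sl (sl ω) v * g v :=
        Finset.sum_nonneg fun v _ => mul_nonneg (hl.nonneg v) (hg0 v)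
      by_cases hb : B (ζ ω)
      swap
      · rw [if_neg hb]
        exact hnn
      rw [if_pos hb, sq]
      have g1 : f (ζ ω) ω * f (ζ ω) ω = ∑ v, (if v ∈ {ω' | |s ω' - c (ζ ω)| < δ'} then
          Pool.Agent.H49.Ent.cond p sl (sl ω) v else 0) * f (ζ ω) ω := by
        rw [← Finset.sum_mul, ← Pool.KAF.Pr_eq]
        congr 1
        rw [hf]
      rw [g1]
      refine Finset.sum_le_sum fun v _ => ?_
      rcases (hl.nonneg v).eq_or_lt with h3 | h3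
      · rw [← h3]
        simp
      by_cases hv : v ∈ {ω' | |s ω' - c (ζ ω)| < δ'}
      · rw [if_pos hv]
        refine mul_le_mul_of_nonneg_left ?_ h3.le
        have h4 : sl v = sl ω := ((cond_pos_iff hp0 sl (sl ω) v).1 h3).2
        rw [hf, hg]
        show Pool.KAF.Pr (Pool.Agent.H49.Ent.cond p sl (sl ω)) {ω' | |s ω' - c (ζ ω)| < δ'} ≤
          Pool.KAF.Pr (Pool.Agent.H49.Ent.cond p sl (sl v)) {ω' | |s v - s ω'| < Δ}
        rw [h4]
        refine OCG.Pr_mono' hl.nonneg fun w _ hw => ?_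
        have hw' : |s w - c (ζ ω)| < δ' := hw
        have hv' : |s v - c (ζ ω)| < δ' := hv
        show |s v - s w| < Δ
        refine lt_of_lt_of_le ?_ hΔ
        rw [abs_lt] at hw' hv' ⊢
        constructor <;> linarith [hw'.1, hw'.2, hv'.1, hv'.2]
      · rw [if_neg hv, zero_mul]
        exact mul_nonneg h3.le (hg0 v)
    refine t3.trans ?_
    rw [Pool.OC.RS.tower hp0 sl g]
    refine le_trans (le_of_eq ?_) hTH
    rw [Pool.M5T.Pr_dbl, hg]
    rfl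
  have h3 : ε₁ ^ 3 < ε₁ ^ 2 * Pool.KAF.Pr p {ω | B (ζ ω)} := by
    have : ε₁ ^ 3 = ε₁ ^ 2 * ε₁ := by ring
    rw [this]
    exact mul_lt_mul_of_pos_left hmass (by positivity)
  linarith

end pair

end Pool.KG
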