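import Pool.Agent.H68.KG.FltV

/-!
# Flat contexts in any dimension, on families of lines

`fltm`: the flat step for the coordinates `s 0, …, s c'` of a context of a family `F : Fam m J` in
which all slopes of these coordinates are zero. The own frame is `e (s 0) + ∑ S i • e (s (i + 1))`.
-/

set_option autoImplicit false

namespace Pool.KG

open Finset Real
open Pool.Agent.H49.Ent Pool.Agent.H32.Dense Pool.STK Pool.KA Pool.KSAT Pool.K2S
open Pool.S6U Pool.OCG Pool.PLV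

section near

variable {Ω T : Type} [Fintype Ω] {p : Ω → ℝ}

/-- Digits of vectors which are near. -/
theorem CH_nearw (hp : IsLaw p) {n X : ℕ} {x : Ω → Fin n → ℝ} {W : Ω → T} {C : ℝ}
    (h : ∀ ω ω', 0 < p ω → 0 < p ω' → W ω = W ω' →
      ∀ i, |(2 : ℝ) ^ X * x ω i - (2 : ℝ) ^ X * x ω' i| ≤ C) :
    CH p (dgv X x) W ≤ n * Real.log (2 * C + 3) := by
  have key := Plk.CH_vec_const (m := n) hp (dgv X x) W (c := C + 1) (by
    intro ω ω' hω hω' e i
    exact Plk.floor_sub_lt (h ω ω' hω hω' e i))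
  refine key.trans (le_of_eq ?_)
  congr 2
  ring

theorem dgv_near {n X : ℕ} {x : Ω → Fin n → ℝ} {ω ω' : Ω} (h : dgv X x ω = dgv X x ω')
    (i : Fin n) : |(2 : ℝ) ^ X * x ω i - (2 : ℝ) ^ X * x ω' i| ≤ 1 :=
  Plk.abs_sub_lt_of_floor (congrFun h i)

end near

/-! ### The statement -/

section defs

variable {m J c' : ℕ}

/-- The position in the frame, selected coordinates. -/
noncomputable def mxs (F : Fam m J) (w : ℕ) (c : Fin m → ℕ) (M : F.Ω → Fin m → Fin m → ℝ)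
    {n : ℕ} (s : Fin n → Fin m) (ω : F.Ω) (i : Fin n) : ℝ := F.mx w c M ω (s i)

/-- The velocity in the frame, selected coordinates. -/
noncomputable def mds (F : Fam m J) (c : Fin m → ℕ) (M : F.Ω → Fin m → Fin m → ℝ)
    {n : ℕ} (s : Fin n → Fin m) (ω : F.Ω) (i : Fin n) : ℝ := F.md c M ω (s i)

/-- The rows across the own frame. -/
noncomputable def nus (F : Fam m J) (w : ℕ) (c : Fin m → ℕ) (M : F.Ω → Fin m → Fin m → ℝ)
    (s : Fin (c' + 1) → Fin m) (S : F.Ω → Fin c' → ℝ) (ω : F.Ω) (i : Fin c') : ℝ :=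
  F.mx w c M ω (s i.succ) - S ω i * F.mx w c M ω (s 0)

/-- The data at a flat context. -/
structure FmDat (F : Fam m J) (p : F.Ω → ℝ) (w : ℕ) (c : Fin m → ℕ)
    (M : F.Ω → Fin m → Fin m → ℝ) (s : Fin (c' + 1) → Fin m) (S : F.Ω → Fin c' → ℝ) {Γ P : Type}
    (G : F.Ω → Γ) (Pt : F.Ω → P) (X : ℕ) (K : ℝ) : Prop where
  law : IsLaw p
  dM : Det p (slam F w) M
  dS : Det p (fun ω => (F.blb w c M ω, G ω)) S
  hS : ∀ ω, 0 < p ω → ∀ i, |S ω i| ≤ K
  dP : Det p (fun ω => (Pt ω, F.blb w c M ω)) (fun ω => (G ω, F.T ω))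
  str : ∃ (u : F.Ω → ℝ) (v W : F.Ω → Fin c' → ℝ),
    Det p (fun ω => (Pt ω, F.blb w c M ω)) (fun ω => (u ω, (v ω, W ω))) ∧
    ∀ ω, 0 < p ω → |F.mx w c M ω (s 0) - u ω| * 2 ^ X ≤ K ∧
      (∀ i, |F.mx w c M ω (s i.succ) - v ω i| * 2 ^ X ≤ K) ∧
      ∀ i, |F.md c M ω (s i.succ) - S ω i * F.md c M ω (s 0) - W ω i| * 2 ^ X ≤ K

/-- The hypotheses at a flat context. -/
structure FmHyp (F : Fam m J) (p : F.Ω → ℝ) (w : ℕ) (c : Fin m → ℕ)
    (M : F.Ω → Fin m → Fin m → ℝ) (s : Fin (c' + 1) → Fin m) (S : F.Ω → Fin c' → ℝ) {Γ P : Type}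
    (G : F.Ω → Γ) (Pt : F.Ω → P) (X k' : ℕ) (x₁ κ ϖ ι ε₂ ca η : ℝ) : Prop where
  /-- the times of two samples of one line, the own frame of the second one, and the line -/
  tm : dp (dbl p (slam F w)) (fun x => (F.T x.1, (G x.2, F.T x.2))) (fun x => F.lbr w c M X x.1)
    (fun x => F.blb w c M x.1) ≤ ι * X
  /-- the velocity and the position -/
  b0 : dp p (dgv X (mds F c M s)) (dgv X (mxs F w c M s)) (fun ω => (F.blb w c M ω, F.T ω)) ≤
    ι * X
  tim : ∑ i ∈ Finset.range X, nr p (slam F w) (F.wt w) k' i ≤ η * X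
  act : ∀ E : F.Ω → Prop, ϖ ≤ Pe p E → ca * ⌊κ * X⌋₊ * Real.log 2 ≤
    CH (Pool.Agent.H49.Ent.cond p E True) (Uni.dg ⌊κ * X⌋₊ (fun ω => F.md c M ω (s 0)))
      (fun ω => (Pt ω, F.blb w c M ω))
  th : NStrE p (slam F w) S ((2 : ℝ) ^ (-(x₁ * X))) ε₂

/-- The conclusion at a flat context. -/
structure FmCc (F : Fam m J) (p : F.Ω → ℝ) (w : ℕ) (c : Fin m → ℕ)
    (M : F.Ω → Fin m → Fin m → ℝ) (s : Fin (c' + 1) → Fin m) (S : F.Ω → Fin c' → ℝ) {Γ : Type}
    (G : F.Ω → Γ) (X : ℕ) (ε : ℝ) : Prop where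
  /-- the position is full -/
  po : ((c' + 1) - ε) * X * Real.log 2 ≤
    CH p (dgv X (mxs F w c M s)) (fun ω => (F.blb w c M ω, F.T ω))
  /-- also if the velocity and the own frame are given -/
  pv : ((c' + 1) - ε) * X * Real.log 2 ≤
    CH p (dgv X (mxs F w c M s)) (fun ω => (dgv X (mds F c M s) ω, cdn F w c M G ω))
  /-- the rows across the own frame are full given the data along the own frame -/
  nu : (c' - ε) * X * Real.log 2 ≤ CH p (dgv X (nus F w c M s S))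
    (fun ω => ((Uni.dg X (fun ω => F.mu w (fun i => c i + w) M ω (s 0)) ω,
      dgv X (mds F c M s) ω), cdn F w c M G ω))
  /-- the rows and the position along the own frame -/
  pr : ((c' + 1) - ε) * X * Real.log 2 ≤
    CH p (fun ω => (dgv X (nus F w c M s S) ω, Uni.dg X (fun ω => F.mx w c M ω (s 0)) ω))
      (fun ω => (dgv X (mds F c M s) ω, cdn F w c M G ω))

end defs

section main

variable {m J c' : ℕ} {F : Fam m J} {p : F.Ω → ℝ} {w : ℕ} {c : Fin m → ℕ}
  {M : F.Ω → Fin m → Fin m → ℝ} {s : Fin (c' + 1) → Fin m} {S : F.Ω → Fin c' → ℝ} {Γ P : Type}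
  {G : F.Ω → Γ} {Pt : F.Ω → P} {X : ℕ} {K : ℝ}

/-- The position of the rounded line. -/
noncomputable def rym (F : Fam m J) (w : ℕ) (c : Fin m → ℕ) (M : F.Ω → Fin m → Fin m → ℝ) (X : ℕ)
    (i : Fin m) (ω : F.Ω) : ℝ := rmu F w c M X 0 i ω + F.wt w ω * rmd F c M X 0 i ω

theorem rmu_near' (i : Fin m) (ω : F.Ω) :
    |rmu F w c M X 0 i ω - F.mu w (fun i => c i + w) M ω i| ≤ 1 / 2 ^ X := by
  have h := rd_near (X := X) (r := 0) (Nat.zero_le _) (F.mu w (fun i => c i + w) M ω i)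
  have h1 := Box.mu_mem F w (fun i => c i + w) M ω i
  rw [pow_zero, one_mul, Nat.sub_zero, Int.fract_eq_self.2 h1] at h
  exact h

theorem rmd_near' (i : Fin m) (ω : F.Ω) :
    |rmd F c M X 0 i ω - F.md c M ω i| ≤ 1 / 2 ^ X := by
  have h := rd_near (X := X) (r := 0) (Nat.zero_le _) (F.md c M ω i)
  have h1 := Box.md_mem F c M ω i
  rw [pow_zero, one_mul, Nat.sub_zero, Int.fract_eq_self.2 h1] at h
  exact h

theorem rym_near (i : Fin m) (ω : F.Ω) :
    |rym F w c M X i ω - F.mx w c M ω i| ≤ 2 / 2 ^ X := by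
  have h1 := rmu_near' (F := F) (w := w) (c := c) (M := M) (X := X) i ω
  have h2 := rmd_near' (F := F) (c := c) (M := M) (X := X) i ω
  have t0 := Lab.wt_mem F w ω
  have e : rym F w c M X i ω - F.mx w c M ω i =
      (rmu F w c M X 0 i ω - F.mu w (fun i => c i + w) M ω i) +
      F.wt w ω * (rmd F c M X 0 i ω - F.md c M ω i) := by
    unfold rym Fam.mx
    ring
  have h3 : |F.wt w ω * (rmd F c M X 0 i ω - F.md c M ω i)| ≤ 1 / 2 ^ X := by
    rw [abs_mul, abs_of_nonneg t0.1]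
    have := mul_le_mul t0.2.le h2 (abs_nonneg _) zero_le_one
    linarith
  rw [e]
  refine (abs_add_le _ _).trans ?_
  have e2 : (2 : ℝ) / 2 ^ X = 1 / 2 ^ X + 1 / 2 ^ X := by ring
  rw [e2]
  exact add_le_add h1 h3

theorem rym_near' (i : Fin m) (ω : F.Ω) :
    |(2 : ℝ) ^ X * rym F w c M X i ω - 2 ^ X * F.mx w c M ω i| ≤ 2 := by
  have h := rym_near (F := F) (w := w) (c := c) (M := M) (X := X) i ω
  rw [← mul_sub, abs_mul, abs_of_pos (by positivity : (0 : ℝ) < 2 ^ X)]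
  calc (2 : ℝ) ^ X * |rym F w c M X i ω - F.mx w c M ω i| ≤ 2 ^ X * (2 / 2 ^ X) :=
        mul_le_mul_of_nonneg_left h (by positivity)
    _ = 2 := by field_simp

/-- The block of the position of the rounded line. -/
noncomputable def rbm (F : Fam m J) (w : ℕ) (c : Fin m → ℕ) (M : F.Ω → Fin m → Fin m → ℝ) (X : ℕ)
    (s : Fin (c' + 1) → Fin m) : F.Ω → ℤ × (Fin c' → ℤ) :=
  blk X (rym F w c M X (s 0)) (fun ω i => rym F w c M X (s i.succ) ω)

/-- The block of the velocity of the rounded line. -/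
noncomputable def rvm (F : Fam m J) (c : Fin m → ℕ) (M : F.Ω → Fin m → Fin m → ℝ) (X : ℕ)
    (s : Fin (c' + 1) → Fin m) : F.Ω → ℤ × (Fin c' → ℤ) :=
  blk X (rmd F c M X 0 (s 0)) (fun ω i => rmd F c M X 0 (s i.succ) ω)

theorem rbm_ext {ω ω' : F.Ω} : rbm F w c M X s ω = rbm F w c M X s ω' ↔
    ∀ i, Uni.dg X (rym F w c M X (s i)) ω = Uni.dg X (rym F w c M X (s i)) ω' := by
  constructor
  · intro h i
    have h1 := Prod.ext_iff.mp h
    refine Fin.cases ?_ (fun j => ?_) i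
    · exact h1.1
    · exact congrFun h1.2 j
  · intro h
    exact Prod.ext (h 0) (funext fun j => h j.succ)

theorem rvm_ext {ω ω' : F.Ω} : rvm F c M X s ω = rvm F c M X s ω' ↔
    dgv X (mds F c M s) ω = dgv X (mds F c M s) ω' := by
  have e : ∀ i ω, Uni.dg X (rmd F c M X 0 (s i)) ω = dgv X (mds F c M s) ω i := by
    intro i ω
    rw [dg_rmd (by omega)]
    rfl
  constructor
  · intro h
    have h1 := Prod.ext_iff.mp h
    funext i
    rw [← e, ← e]
    refine Fin.cases ?_ (fun j => ?_) i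
    · exact h1.1
    · exact congrFun h1.2 j
  · intro h
    refine Prod.ext ?_ (funext fun j => ?_)
    · show Uni.dg X (rmd F c M X 0 (s 0)) ω = Uni.dg X (rmd F c M X 0 (s 0)) ω'
      rw [e, e, h]
    · show Uni.dg X (rmd F c M X 0 (s j.succ)) ω = Uni.dg X (rmd F c M X 0 (s j.succ)) ω'
      rw [e, e, h]

/-- The block of the rounded line from the block. -/
theorem CH_rbm {T : Type} (hp : IsLaw p) (Z : F.Ω → T) :
    CH p (rbm F w c M X s) (fun ω => (dgv X (mxs F w c M s) ω, Z ω)) ≤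
      (c' + 1) * Real.log 13 := by
  have key := CH_nearw hp (X := X) (x := fun ω (i : Fin (c' + 1)) => rym F w c M X (s i) ω)
    (W := fun ω => (dgv X (mxs F w c M s) ω, Z ω)) (C := 5) (by
      intro ω ω' _ _ e i
      have e1 : |(2 : ℝ) ^ X * F.mx w c M ω (s i) - 2 ^ X * F.mx w c M ω' (s i)| ≤ 1 :=
        dgv_near (Prod.ext_iff.mp e).1 i
      have a1 := rym_near' (F := F) (w := w) (c := c) (M := M) (X := X) (s i) ω
      have a2 := rym_near' (F := F) (w := w) (c := c) (M := M) (X := X) (s i) ω'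
      rw [abs_le] at e1 a1 a2 ⊢
      constructor <;> linarith [e1.1, e1.2, a1.1, a1.2, a2.1, a2.2])
  have h2 : CH p (rbm F w c M X s) (fun ω => (dgv X (mxs F w c M s) ω, Z ω)) ≤
      CH p (dgv X (fun ω (i : Fin (c' + 1)) => rym F w c M X (s i) ω))
        (fun ω => (dgv X (mxs F w c M s) ω, Z ω)) := by
    refine CH_mono_left hp.nonneg ?_
    intro ω ω' _ _ e
    exact rbm_ext.2 fun i => congrFun (Prod.ext_iff.mp e).1 i
  refine (h2.trans key).trans (le_of_eq ?_)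
  push_cast
  norm_num

/-- The block from the block of the rounded line. -/
theorem CH_mxs {T : Type} (hp : IsLaw p) (Z : F.Ω → T) :
    CH p (dgv X (mxs F w c M s)) (fun ω => (rbm F w c M X s ω, Z ω)) ≤
      (c' + 1) * Real.log 13 := by
  have key := CH_nearw hp (X := X) (x := mxs F w c M s)
    (W := fun ω => (rbm F w c M X s ω, Z ω)) (C := 5) (by
      intro ω ω' _ _ e i
      have e1 := dg_near (rbm_ext.1 (Prod.ext_iff.mp e).1 i)
      have a1 := rym_near' (F := F) (w := w) (c := c) (M := M) (X := X) (s i) ω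
      have a2 := rym_near' (F := F) (w := w) (c := c) (M := M) (X := X) (s i) ω'
      show |(2 : ℝ) ^ X * F.mx w c M ω (s i) - 2 ^ X * F.mx w c M ω' (s i)| ≤ 5
      rw [abs_le] at e1 a1 a2 ⊢
      constructor <;> linarith [e1.1, e1.2, a1.1, a1.2, a2.1, a2.2])
  refine key.trans (le_of_eq ?_)
  push_cast
  norm_num

/-- Lines in the same window. -/
theorem slam_eqm (hd : FmDat F p w c M s S G Pt X K) {ω ω' : F.Ω} (h1 : 0 < p ω) (h2 : 0 < p ω')
    (e : slam F w ω = slam F w ω') : F.blb w c M ω = F.blb w c M ω' ∧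
      F.lbr w c M X ω = F.lbr w c M X ω' := by
  have hM : M ω = M ω' := hd.dM ω ω' h1 h2 e
  have hl : F.l ω = F.l ω' := (Prod.ext_iff.mp e).1
  have h3 := Prod.ext_iff.mp (Prod.ext_iff.mp e).2
  have hZ : F.Z ω = F.Z ω' := h3.1
  have hT : F.T1 w ω = F.T1 w ω' := h3.2
  have k := Box.label_det F (g := w) (k := fun i => c i + w) (c := c) hl hT hM hZ
  have k' := Box.label_det F (g := w) (k := fun i => c i + X + w) (c := fun i => c i + X) hl hT
    hM hZ
  exact ⟨k.1, k'.1⟩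

/-- The pure data. -/
theorem toFVD (hd : FmDat F p w c M s S G Pt X K) (hK : 0 ≤ K) :
    FVDat c' (2 * K + 2) p (F.blb w c M) (F.lbr w c M X) G (slam F w) F.T Pt
      (rmu F w c M X 0 (s 0)) (rmd F c M X 0 (s 0)) (fun ω i => rmu F w c M X 0 (s i.succ) ω)
      (fun ω i => rmd F c M X 0 (s i.succ) ω) (F.wt w) S (rym F w c M X (s 0))
      (fun ω i => rym F w c M X (s i.succ) ω) X := by
  have dmu : ∀ i, Det p (fun ω => (F.blb w c M ω, F.lbr w c M X ω)) (rmu F w c M X 0 i) :=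
    fun i ω ω' _ _ e => by
      have h := (lbr_dig le_rfl (Prod.ext_iff.mp e).2 i).1
      unfold rmu S6U.rd
      rw [h]
  have dmd : ∀ i, Det p (fun ω => (F.blb w c M ω, F.lbr w c M X ω)) (rmd F c M X 0 i) :=
    fun i ω ω' _ _ e => by
      have h := (lbr_dig le_rfl (Prod.ext_iff.mp e).2 i).2
      unfold rmd S6U.rd
      rw [h]
  obtain ⟨u, v, W, hu, eu⟩ := hd.str
  refine ⟨hd.law, fun ω ω' h1 h2 e => (slam_eqm hd h1 h2 e).1,
    fun ω ω' h1 h2 e => (slam_eqm hd h1 h2 e).2, dmu (s 0), dmd (s 0), ?_, ?_, ?_, hd.dS, hd.dP,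
    fun ω _ => rd_mem _ _ _, fun ω _ => Lab.wt_mem F w ω, ?_, ?_, ⟨fun _ => 0, ?_, ?_⟩,
    ⟨fun _ _ => 0, ?_, ?_⟩, u, v, W, hu, ?_⟩
  · intro ω ω' a a' e
    funext i
    exact dmu _ ω ω' a a' e
  · intro ω ω' a a' e
    funext i
    exact dmd _ ω ω' a a' e
  · intro ω ω' _ _ e
    exact wt_det (Prod.ext_iff.mp e).2
  · intro ω h i
    have := hd.hS ω h i
    linarith
  · intro ω _
    have a1 : 0 ≤ rmu F w c M X 0 (s 0) ω ∧ rmu F w c M X 0 (s 0) ω < 1 := rd_mem _ _ _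
    have a2 : 0 ≤ rmd F c M X 0 (s 0) ω ∧ rmd F c M X 0 (s 0) ω < 1 := rd_mem _ _ _
    have t0 := Lab.wt_mem F w ω
    unfold rym
    have k1 : 0 ≤ F.wt w ω * rmd F c M X 0 (s 0) ω ∧ F.wt w ω * rmd F c M X 0 (s 0) ω ≤ 1 :=
      ⟨mul_nonneg t0.1 a2.1, mul_le_one₀ t0.2.le a2.1 a2.2.le⟩
    rw [abs_le]
    constructor <;> linarith [a1.1, a1.2, k1.1, k1.2]
  · intro _ _ _ _ _
    rfl
  · intro ω _
    simp only [rym, add_zero]
  · intro _ _ _ _ _
    rfl
  · intro ω _ i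
    simp only [rym, add_zero]
  · intro ω h
    have hu := eu ω h
    have h2 : (0 : ℝ) < 2 ^ X := by positivity
    have key : ∀ i (t : ℝ), |F.mx w c M ω i - t| * 2 ^ X ≤ K →
        |rym F w c M X i ω - t| * 2 ^ X ≤ 2 * K + 2 := by
      intro i t ht
      have k1 := rym_near (F := F) (w := w) (c := c) (M := M) (X := X) i ω
      have k2 : |rym F w c M X i ω - F.mx w c M ω i| * 2 ^ X ≤ 2 := by
        rw [← le_div_iff₀ h2]
        exact k1
      have k3 : |rym F w c M X i ω - t| ≤ |rym F w c M X i ω - F.mx w c M ω i| +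
          |F.mx w c M ω i - t| := by
        have := abs_add_le (rym F w c M X i ω - F.mx w c M ω i) (F.mx w c M ω i - t)
        rwa [sub_add_sub_cancel] at this
      have k4 := mul_le_mul_of_nonneg_right k3 h2.le
      rw [add_mul] at k4
      linarith
    refine ⟨key (s 0) _ hu.1, fun i => key (s i.succ) _ (hu.2.1 i), fun i => ?_⟩
    show |rmd F c M X 0 (s i.succ) ω - S ω i * rmd F c M X 0 (s 0) ω - W ω i| * 2 ^ X ≤
      2 * K + 2
    have k1 := rmd_near' (F := F) (c := c) (M := M) (X := X) (s 0) ω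
    have k2 := rmd_near' (F := F) (c := c) (M := M) (X := X) (s i.succ) ω
    have k0 := hd.hS ω h i
    have e : rmd F c M X 0 (s i.succ) ω - S ω i * rmd F c M X 0 (s 0) ω - W ω i =
        (rmd F c M X 0 (s i.succ) ω - F.md c M ω (s i.succ)) +
        -(S ω i * (rmd F c M X 0 (s 0) ω - F.md c M ω (s 0))) +
        (F.md c M ω (s i.succ) - S ω i * F.md c M ω (s 0) - W ω i) := by ring
    have k3 : |-(S ω i * (rmd F c M X 0 (s 0) ω - F.md c M ω (s 0)))| ≤ K * (1 / 2 ^ X) := by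
      rw [abs_neg, abs_mul]
      exact mul_le_mul k0 k1 (abs_nonneg _) hK
    have k4 : |rmd F c M X 0 (s i.succ) ω - S ω i * rmd F c M X 0 (s 0) ω - W ω i| ≤
        1 / 2 ^ X + K * (1 / 2 ^ X) +
        |F.md c M ω (s i.succ) - S ω i * F.md c M ω (s 0) - W ω i| := by
      rw [e]
      refine (abs_add_le _ _).trans ?_
      have := abs_add_le (rmd F c M X 0 (s i.succ) ω - F.md c M ω (s i.succ))
        (-(S ω i * (rmd F c M X 0 (s 0) ω - F.md c M ω (s 0))))
      linarith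
    have k5 := mul_le_mul_of_nonneg_right k4 h2.le
    have k6 : (1 / 2 ^ X + K * (1 / 2 ^ X) +
        |F.md c M ω (s i.succ) - S ω i * F.md c M ω (s 0) - W ω i|) * 2 ^ X =
        1 + K + |F.md c M ω (s i.succ) - S ω i * F.md c M ω (s 0) - W ω i| * 2 ^ X := by
      field_simp
    rw [k6] at k5
    have := hu.2.2 i
    linarith

/-- The pure hypotheses. -/
theorem toFVH (hd : FmDat F p w c M s S G Pt X K) {k' : ℕ} {x₁ κ ϖ ι ι' ε₂ ca η : ℝ}
    (hh : FmHyp F p w c M s S G Pt X k' x₁ κ ϖ ι ε₂ ca η) (hκ1 : κ ≤ 1) (hι : ι ≤ ι')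
    (hι' : ι * X + (c' + 1) * Real.log 13 ≤ ι' * X) :
    FVHyp c' p (F.blb w c M) (F.lbr w c M X) G (slam F w) F.T Pt (rmd F c M X 0 (s 0))
      (fun ω i => rmd F c M X 0 (s i.succ) ω) (F.wt w) S (rym F w c M X (s 0))
      (fun ω i => rym F w c M X (s i.succ) ω) X k' x₁ κ ϖ ι' ε₂ ca η := by
  have hp := hd.law.nonneg
  have hX0 : (0 : ℝ) ≤ X := Nat.cast_nonneg X
  refine ⟨hh.tm.trans (mul_le_mul_of_nonneg_right hι hX0), ?_, hh.tim, ?_, hh.th⟩
  · have h1 : dp p (rvm F c M X s) (rbm F w c M X s) (fun ω => (F.blb w c M ω, F.T ω)) ≤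
        dp p (dgv X (mds F c M s)) (rbm F w c M X s) (fun ω => (F.blb w c M ω, F.T ω)) := by
      refine dp_mono hp ?_ (fun _ _ _ _ e => (Prod.ext_iff.mp e).1)
      intro ω ω' _ _ e
      exact rvm_ext.2 (Prod.ext_iff.mp e).1
    have h2 := dp_le_add hp (N := rbm F w c M X s) (N' := dgv X (mxs F w c M s))
      (V := dgv X (mds F c M s)) (b := fun ω => (F.blb w c M ω, F.T ω))
      (CH_rbm (w := w) (c := c) (M := M) (X := X) (s := s) hd.law
        (fun ω => (F.blb w c M ω, F.T ω)))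
    rw [dp_symm hp (rbm F w c M X s), dp_symm hp (dgv X (mxs F w c M s))] at h2
    have h3 := hh.b0
    show dp p (rvm F c M X s) (rbm F w c M X s) (fun ω => (F.blb w c M ω, F.T ω)) ≤ ι' * X
    linarith
  · intro E hE
    have hk : ⌊κ * (X : ℝ)⌋₊ ≤ X := by
      refine Nat.floor_le_of_le ?_
      have := mul_le_mul_of_nonneg_right hκ1 hX0
      linarith
    have h1 := hh.act E hE
    have e : Uni.dg ⌊κ * (X : ℝ)⌋₊ (fun ω => F.md c M ω (s 0)) =
        Uni.dg ⌊κ * (X : ℝ)⌋₊ (rmd F c M X 0 (s 0)) := by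
      rw [dg_rmd (by omega)]
      rfl
    rw [e] at h1
    exact h1

/-- The digits of the position. -/
theorem CH_mxm {T : Type} (hp : IsLaw p) (i : Fin m) (Z : F.Ω → T) :
    CH p (Uni.dg X (fun ω => F.mx w c M ω i)) Z ≤ X * Real.log 2 + Real.log 7 := by
  have h3 : (1 : ℝ) ≤ 2 ^ X := one_le_pow₀ (by norm_num)
  have key := CH_near hp (X := X) (x := fun ω => F.mx w c M ω i) (W := Z) (C := 2 * 2 ^ X) (by
      intro ω ω' _ _ _
      have a : ∀ ω, 0 ≤ F.mx w c M ω i ∧ F.mx w c M ω i ≤ 2 := by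
        intro ω
        have a1 := Box.mu_mem F w (fun i => c i + w) M ω i
        have a2 := Box.md_mem F c M ω i
        have t0 := Lab.wt_mem F w ω
        unfold Fam.mx
        have k1 : 0 ≤ F.wt w ω * F.md c M ω i ∧ F.wt w ω * F.md c M ω i ≤ 1 :=
          ⟨mul_nonneg t0.1 a2.1, mul_le_one₀ t0.2.le a2.1 a2.2.le⟩
        constructor <;> linarith [a1.1, a1.2, k1.1, k1.2]
      have a1 := a ω
      have a2 := a ω'
      show |(2 : ℝ) ^ X * F.mx w c M ω i - 2 ^ X * F.mx w c M ω' i| ≤ 2 * 2 ^ X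
      rw [← mul_sub, abs_mul, abs_of_pos (by positivity : (0 : ℝ) < 2 ^ X), mul_comm]
      refine mul_le_mul_of_nonneg_right ?_ (by positivity)
      rw [abs_le]
      constructor <;> linarith [a1.1, a1.2, a2.1, a2.2])
  refine key.trans ?_
  have h4 : Real.log (2 * (2 * 2 ^ X) + 3) ≤ Real.log (2 ^ X * 7) :=
    Real.log_le_log (by positivity) (by linarith)
  rw [Real.log_mul (by positivity) (by positivity), Real.log_pow] at h4
  exact h4

/-- The position at the beginning from the position at the time and the velocity. -/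
theorem CH_mum {T : Type} (hp : IsLaw p) (i : Fin m) {Z : F.Ω → T} (hT : Det p Z F.T) :
    CH p (Uni.dg X (fun ω => F.mu w (fun i => c i + w) M ω i))
      (fun ω => (Uni.dg X (fun ω => F.mx w c M ω i) ω, (Uni.dg X (fun ω => F.md c M ω i) ω,
        Z ω))) ≤ Real.log 7 := by
  have key := CH_near hp (X := X) (x := fun ω => F.mu w (fun i => c i + w) M ω i)
    (W := fun ω => (Uni.dg X (fun ω => F.mx w c M ω i) ω, (Uni.dg X (fun ω => F.md c M ω i) ω,
        Z ω))) (C := 2) (by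
      intro ω ω' hω hω' e
      have e0 := Prod.ext_iff.mp e
      have e1 := dg_near (X := X) (x := fun ω => F.mx w c M ω i) (ω := ω) (ω' := ω') e0.1
      have e00 := Prod.ext_iff.mp e0.2
      have e4 := dg_near (X := X) (x := fun ω => F.md c M ω i) (ω := ω) (ω' := ω') e00.1
      have e5 : F.wt w ω = F.wt w ω' := wt_det (hT ω ω' hω hω' e00.2)
      have t0 := Lab.wt_mem F w ω
      have e : (2 : ℝ) ^ X * F.mu w (fun i => c i + w) M ω i -
          2 ^ X * F.mu w (fun i => c i + w) M ω' i =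
          (2 ^ X * F.mx w c M ω i - 2 ^ X * F.mx w c M ω' i) +
          -(F.wt w ω * (2 ^ X * F.md c M ω i - 2 ^ X * F.md c M ω' i)) := by
        unfold Fam.mx
        rw [← e5]
        ring
      show |(2 : ℝ) ^ X * F.mu w (fun i => c i + w) M ω i -
          2 ^ X * F.mu w (fun i => c i + w) M ω' i| ≤ 2
      rw [e]
      have k6 : |-(F.wt w ω * (2 ^ X * F.md c M ω i - 2 ^ X * F.md c M ω' i))| ≤ 1 * 1 := by
        rw [abs_neg, abs_mul, abs_of_nonneg t0.1]
        exact mul_le_mul t0.2.le e4 (abs_nonneg _) (by norm_num)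
      refine (abs_add_le _ _).trans ?_
      linarith)
  refine key.trans (le_of_eq ?_)
  norm_num

/-- The other coordinates from the rows and the first coordinate. -/
theorem CH_rowm {T : Type} (hp : IsLaw p) (hK : 0 ≤ K)
    (hS4 : ∀ ω, 0 < p ω → ∀ i, |S ω i| ≤ K) {Z : F.Ω → T} (hS : Det p Z S) :
    CH p (dgv X (mxs F w c M (fun i : Fin c' => s i.succ)))
      (fun ω => ((dgv X (nus F w c M s S) ω, Uni.dg X (fun ω => F.mx w c M ω (s 0)) ω), Z ω)) ≤
      c' * Real.log (2 * K + 5) := by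
  have key := CH_nearw hp (X := X) (x := mxs F w c M (fun i : Fin c' => s i.succ))
    (W := fun ω => ((dgv X (nus F w c M s S) ω, Uni.dg X (fun ω => F.mx w c M ω (s 0)) ω), Z ω))
    (C := K + 1) (by
      intro ω ω' hω hω' e i
      have e0 := Prod.ext_iff.mp e
      have e1 : |(2 : ℝ) ^ X * nus F w c M s S ω i - 2 ^ X * nus F w c M s S ω' i| ≤ 1 :=
        dgv_near (Prod.ext_iff.mp e0.1).1 i
      have e2 := dg_near (X := X) (x := fun ω => F.mx w c M ω (s 0)) (ω := ω) (ω' := ω')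
        (Prod.ext_iff.mp e0.1).2
      have e3 : S ω = S ω' := hS ω ω' hω hω' e0.2
      have k4 := hS4 ω hω i
      have e : (2 : ℝ) ^ X * F.mx w c M ω (s i.succ) - 2 ^ X * F.mx w c M ω' (s i.succ) =
          (2 ^ X * nus F w c M s S ω i - 2 ^ X * nus F w c M s S ω' i) +
          S ω i * (2 ^ X * F.mx w c M ω (s 0) - 2 ^ X * F.mx w c M ω' (s 0)) := by
        unfold nus
        rw [← e3]
        ring
      show |(2 : ℝ) ^ X * F.mx w c M ω (s i.succ) - 2 ^ X * F.mx w c M ω' (s i.succ)| ≤ K + 1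
      rw [e]
      have k5 : |S ω i * (2 ^ X * F.mx w c M ω (s 0) - 2 ^ X * F.mx w c M ω' (s 0))| ≤ K * 1 := by
        rw [abs_mul]
        exact mul_le_mul k4 e2 (abs_nonneg _) hK
      refine (abs_add_le _ _).trans ?_
      linarith)
  refine key.trans (le_of_eq ?_)
  congr 2
  ring

/-- The other coordinates from the rows and the line data. -/
theorem CH_rowm' {T : Type} (hp : IsLaw p) (hK : 0 ≤ K)
    (hS4 : ∀ ω, 0 < p ω → ∀ i, |S ω i| ≤ K) {Z : F.Ω → T} (hS : Det p Z S) (hT : Det p Z F.T) :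
    CH p (dgv X (mxs F w c M (fun i : Fin c' => s i.succ)))
      (fun ω => (dgv X (nus F w c M s S) ω,
        ((Uni.dg X (fun ω => F.mu w (fun i => c i + w) M ω (s 0)) ω, dgv X (mds F c M s) ω),
          Z ω))) ≤ c' * Real.log (4 * K + 5) := by
  have key := CH_nearw hp (X := X) (x := mxs F w c M (fun i : Fin c' => s i.succ))
    (W := fun ω => (dgv X (nus F w c M s S) ω,
        ((Uni.dg X (fun ω => F.mu w (fun i => c i + w) M ω (s 0)) ω, dgv X (mds F c M s) ω),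
          Z ω)))
    (C := 2 * K + 1) (by
      intro ω ω' hω hω' e i
      have e0 := Prod.ext_iff.mp e
      have e1 : |(2 : ℝ) ^ X * nus F w c M s S ω i - 2 ^ X * nus F w c M s S ω' i| ≤ 1 :=
        dgv_near e0.1 i
      have e00 := Prod.ext_iff.mp e0.2
      have e01 := Prod.ext_iff.mp e00.1
      have e2 := dg_near (X := X) (x := fun ω => F.mu w (fun i => c i + w) M ω (s 0)) (ω := ω)
        (ω' := ω') e01.1
      have e4 : |(2 : ℝ) ^ X * F.md c M ω (s 0) - 2 ^ X * F.md c M ω' (s 0)| ≤ 1 :=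
        dgv_near e01.2 0
      have e3 : S ω = S ω' := hS ω ω' hω hω' e00.2
      have e5 : F.wt w ω = F.wt w ω' := wt_det (hT ω ω' hω hω' e00.2)
      have k4 := hS4 ω hω i
      have t0 := Lab.wt_mem F w ω
      have e : (2 : ℝ) ^ X * F.mx w c M ω (s i.succ) - 2 ^ X * F.mx w c M ω' (s i.succ) =
          (2 ^ X * nus F w c M s S ω i - 2 ^ X * nus F w c M s S ω' i) +
          S ω i * ((2 ^ X * F.mu w (fun i => c i + w) M ω (s 0) -
            2 ^ X * F.mu w (fun i => c i + w) M ω' (s 0)) +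
            F.wt w ω * (2 ^ X * F.md c M ω (s 0) - 2 ^ X * F.md c M ω' (s 0))) := by
        unfold nus
        rw [← e3]
        unfold Fam.mx
        rw [← e5]
        ring
      show |(2 : ℝ) ^ X * F.mx w c M ω (s i.succ) - 2 ^ X * F.mx w c M ω' (s i.succ)| ≤
        2 * K + 1
      rw [e]
      have k6 : |F.wt w ω * (2 ^ X * F.md c M ω (s 0) - 2 ^ X * F.md c M ω' (s 0))| ≤ 1 * 1 := by
        rw [abs_mul, abs_of_nonneg t0.1]
        exact mul_le_mul t0.2.le e4 (abs_nonneg _) (by norm_num)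
      have k5 : |S ω i * ((2 ^ X * F.mu w (fun i => c i + w) M ω (s 0) -
            2 ^ X * F.mu w (fun i => c i + w) M ω' (s 0)) +
            F.wt w ω * (2 ^ X * F.md c M ω (s 0) - 2 ^ X * F.md c M ω' (s 0)))| ≤ K * 2 := by
        rw [abs_mul]
        refine mul_le_mul k4 ?_ (abs_nonneg _) hK
        refine (abs_add_le _ _).trans ?_
        linarith
      refine (abs_add_le _ _).trans ?_
      linarith)
  refine key.trans (le_of_eq ?_)
  congr 2
  ring

/-- The conclusion from the entropy of the block. -/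
theorem toFmCc (hd : FmDat F p w c M s S G Pt X K) (hK : 0 ≤ K) {a ε C : ℝ}
    (hC : C = (c' + 1) * Real.log 13 + 2 * Real.log 7 + c' * Real.log (4 * K + 5))
    (h1 : ((c' + 1) - a) * X * Real.log 2 ≤
      CH p (rbm F w c M X s) (fun ω => (F.blb w c M ω, F.T ω)))
    (h2 : ((c' + 1) - a) * X * Real.log 2 ≤
      CH p (rbm F w c M X s) (fun ω => (rvm F c M X s ω, (G ω, (F.blb w c M ω, F.T ω)))))
    (hX : a * X * Real.log 2 + 2 * C ≤ ε * X * Real.log 2) :
    FmCc F p w c M s S G X ε := by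
  have hl := hd.law
  have hp := hl.nonneg
  have hX0 : (0 : ℝ) ≤ X := Nat.cast_nonneg X
  have l13 : 0 ≤ Real.log 13 := Real.log_nonneg (by norm_num)
  have l7 : 0 ≤ Real.log 7 := Real.log_nonneg (by norm_num)
  have lK : 0 ≤ Real.log (4 * K + 5) := Real.log_nonneg (by linarith)
  have lK' : Real.log (2 * K + 5) ≤ Real.log (4 * K + 5) :=
    Real.log_le_log (by linarith) (by linarith)
  have hc0 : (0 : ℝ) ≤ c' := Nat.cast_nonneg c'
  have w1 : 0 ≤ (c' + 1) * Real.log 13 := mul_nonneg (by linarith) l13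
  have w2 : 0 ≤ c' * Real.log (4 * K + 5) := mul_nonneg hc0 lK
  have w3 : c' * Real.log (2 * K + 5) ≤ c' * Real.log (4 * K + 5) :=
    mul_le_mul_of_nonneg_left lK' hc0
  obtain ⟨mb, hmb⟩ : ∃ mb : F.Ω → Fin (c' + 1) → ℤ, mb = dgv X (mxs F w c M s) := ⟨_, rfl⟩
  obtain ⟨vb, hvb⟩ : ∃ vb : F.Ω → Fin (c' + 1) → ℤ, vb = dgv X (mds F c M s) := ⟨_, rfl⟩
  obtain ⟨mx0, hmx0⟩ : ∃ m, m = Uni.dg X (fun ω => F.mx w c M ω (s 0)) := ⟨_, rfl⟩
  obtain ⟨rs, hrs⟩ : ∃ rs : F.Ω → Fin c' → ℤ,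
    rs = dgv X (mxs F w c M (fun i : Fin c' => s i.succ)) := ⟨_, rfl⟩
  obtain ⟨tn, htn⟩ : ∃ tn : F.Ω → Fin c' → ℤ, tn = dgv X (nus F w c M s S) := ⟨_, rfl⟩
  obtain ⟨C', hC'⟩ : ∃ C' : F.Ω → _, C' = cdn F w c M G := ⟨_, rfl⟩
  obtain ⟨m0, hm0⟩ : ∃ m, m = Uni.dg X (fun ω => F.mu w (fun i => c i + w) M ω (s 0)) :=
    ⟨_, rfl⟩
  have dS : Det p C' S := by
    rw [hC']
    intro ω ω' a a' e
    have e1 := Prod.ext_iff.mp e
    exact hd.dS ω ω' a a' (Prod.ext e1.1 (Prod.ext_iff.mp e1.2).1)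
  have dT : Det p C' F.T := by
    rw [hC']
    intro ω ω' _ _ e
    exact (Prod.ext_iff.mp (Prod.ext_iff.mp e).2).2
  -- splitting of the block
  have emb : ∀ {ω ω'}, mb ω = mb ω' ↔ mx0 ω = mx0 ω' ∧ rs ω = rs ω' := by
    intro ω ω'
    rw [hmb, hmx0, hrs]
    constructor
    · intro h
      exact ⟨congrFun h 0, funext fun i => congrFun h i.succ⟩
    · rintro ⟨g1, g2⟩
      funext i
      refine Fin.cases ?_ (fun j => ?_) i
      · exact g1
      · exact congrFun g2 j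
  -- the velocity and the own frame in the condition
  have h2' : ((c' + 1) - a) * X * Real.log 2 ≤
      CH p (rbm F w c M X s) (fun ω => (vb ω, C' ω)) := by
    refine h2.trans (le_of_eq ?_)
    refine CH_congr hp (fun _ _ _ _ h => (Prod.ext_iff.mp h).1)
      (fun _ _ _ _ h => (Prod.ext_iff.mp h).1) ?_ ?_
    · intro ω ω' _ _ e
      have e1 := Prod.ext_iff.mp e
      have e2 := Prod.ext_iff.mp e1.2
      have e3 := Prod.ext_iff.mp e2.2
      have e5 : vb ω = vb ω' := by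
        rw [hvb]
        exact rvm_ext.1 e1.1
      have e6 : C' ω = C' ω' := by
        rw [hC']
        exact Prod.ext e3.1 (Prod.ext e2.1 e3.2)
      exact Prod.ext e5 e6
    · intro ω ω' _ _ e
      have e1 := Prod.ext_iff.mp e
      have e2 : C' ω = C' ω' := e1.2
      rw [hC'] at e2
      have e3 := Prod.ext_iff.mp e2
      have e4 := Prod.ext_iff.mp e3.2
      have e5 : vb ω = vb ω' := e1.1
      rw [hvb] at e5
      exact Prod.ext (rvm_ext.2 e5) (Prod.ext e4.1 (Prod.ext e3.1 e4.2))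
  have b3 : ((c' + 1) - a) * X * Real.log 2 - (c' + 1) * Real.log 13 ≤
      CH p mb (fun ω => (vb ω, C' ω)) := by
    have g1 := CH_le_add hp (rbm F w c M X s) mb (fun ω => (vb ω, C' ω))
    have g2 := CH_rbm (w := w) (c := c) (M := M) (X := X) (s := s) hl (fun ω => (vb ω, C' ω))
    rw [hmb] at g1 ⊢
    linarith
  have eX : ∀ A : ℝ, (A - ε) * X * Real.log 2 =
      (A - a) * X * Real.log 2 + a * X * Real.log 2 - ε * X * Real.log 2 := fun A => by ring
  refine ⟨?_, ?_, ?_, ?_⟩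
  · -- po
    have g1 := CH_le_add hp (rbm F w c M X s) mb (fun ω => (F.blb w c M ω, F.T ω))
    have g2 := CH_rbm (w := w) (c := c) (M := M) (X := X) (s := s) hl
      (fun ω => (F.blb w c M ω, F.T ω))
    rw [hmb] at g1
    rw [eX]
    linarith
  · -- pv
    rw [← hmb, ← hvb, ← hC', eX]
    linarith
  · -- nu
    rw [← htn, ← hC', ← hvb, ← hm0]
    obtain ⟨W, hW⟩ : ∃ W, W = fun ω => (mx0 ω, (vb ω, C' ω)) := ⟨_, rfl⟩
    obtain ⟨V, hV⟩ : ∃ V, V = fun ω => ((m0 ω, vb ω), C' ω) := ⟨_, rfl⟩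
    have n1 : CH p rs V ≤ CH p tn V + c' * Real.log (4 * K + 5) := by
      have g1 := CH_le_add hp rs tn V
      have g2 : CH p rs (fun ω => (tn ω, V ω)) ≤ c' * Real.log (4 * K + 5) := by
        rw [hrs, htn, hV, hm0, hvb]
        exact CH_rowm' hl hK hd.hS dS dT
      linarith
    have n2 : CH p rs (fun ω => (m0 ω, W ω)) ≤ CH p rs V := by
      refine CH_mono_cond hp ?_
      rw [hW, hV]
      intro ω ω' _ _ e
      have e1 := Prod.ext_iff.mp e
      have e2 := Prod.ext_iff.mp e1.2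
      have e3 := Prod.ext_iff.mp e2.2
      exact Prod.ext (Prod.ext e1.1 e3.1) e3.2
    have n3 : CH p rs W ≤ CH p rs (fun ω => (m0 ω, W ω)) + Real.log 7 := by
      have g1 := CH_le_add hp rs m0 W
      have g2 : CH p m0 W ≤ Real.log 7 := by
        have g3 := CH_mum (w := w) (c := c) (M := M) (X := X) hl (s 0)
          (Z := fun ω => (vb ω, C' ω)) (fun ω ω' a a' e => dT ω ω' a a' (Prod.ext_iff.mp e).2)
        rw [hm0]
        refine le_trans (CH_mono_cond hp ?_) g3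
        rw [hW, hmx0]
        intro ω ω' _ _ e
        have e1 := Prod.ext_iff.mp e
        have e2 := Prod.ext_iff.mp e1.2
        have e3 : vb ω = vb ω' := e2.1
        have e4 : Uni.dg X (fun ω => F.md c M ω (s 0)) ω =
            Uni.dg X (fun ω => F.md c M ω (s 0)) ω' := by
          rw [hvb] at e3
          exact congrFun e3 0
        exact Prod.ext e1.1 (Prod.ext e4 e1.2)
      linarith
    have n4 : CH p mb (fun ω => (vb ω, C' ω)) ≤ CH p rs W + (X * Real.log 2 + Real.log 7) := by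
      have g1 := CH_le_add hp mb mx0 (fun ω => (vb ω, C' ω))
      have g2 : CH p mx0 (fun ω => (vb ω, C' ω)) ≤ X * Real.log 2 + Real.log 7 := by
        rw [hmx0]
        exact CH_mxm hl _ _
      have g3 : CH p mb (fun ω => (mx0 ω, (vb ω, C' ω))) ≤ CH p rs W := by
        rw [hW]
        refine CH_mono_left hp ?_
        intro ω ω' _ _ e
        have e1 := Prod.ext_iff.mp e
        have e2 := Prod.ext_iff.mp e1.2
        exact emb.2 ⟨e2.1, e1.1⟩
      linarith
    have n5 : CH p tn (fun ω => ((m0 ω, vb ω), C' ω)) = CH p tn V := by rw [hV]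
    rw [n5, eX]
    have : (c' - a) * X * Real.log 2 = ((c' + 1) - a) * X * Real.log 2 - X * Real.log 2 := by
      ring
    linarith
  · -- pr
    rw [← htn, ← hmx0, ← hC', ← hvb, eX]
    have g1 := CH_le_add hp mb (fun ω => (tn ω, mx0 ω)) (fun ω => (vb ω, C' ω))
    have g2 : CH p mb (fun ω => ((tn ω, mx0 ω), (vb ω, C' ω))) ≤ c' * Real.log (2 * K + 5) := by
      have g3 : CH p mb (fun ω => ((tn ω, mx0 ω), (vb ω, C' ω))) ≤
          CH p rs (fun ω => ((tn ω, mx0 ω), (vb ω, C' ω))) := by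
        refine CH_mono_left hp ?_
        intro ω ω' _ _ e
        have e1 := Prod.ext_iff.mp e
        exact emb.2 ⟨(Prod.ext_iff.mp (Prod.ext_iff.mp e1.2).1).2, e1.1⟩
      refine g3.trans ?_
      rw [hrs, htn, hmx0]
      exact CH_rowm hl hK hd.hS (fun ω ω' a a' e => dS ω ω' a a' (Prod.ext_iff.mp e).2)
    linarith

end main

/-- **The flat step at one context, every dimension.** -/
theorem fltm (c' : ℕ) (ε ca κ K : ℝ) (hε : 0 < ε) (hca : 0 < ca) (hκ : 0 < κ) (hκ1 : κ ≤ 1)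
    (hK : 0 ≤ K) :
    ∃ x₁ ϖ ε₂ : ℝ, 0 < x₁ ∧ 0 < ϖ ∧ 0 < ε₂ ∧ ∀ k' : ℕ, ∃ (ι : ℝ) (X₀ : ℕ), 0 < ι ∧
    ∀ (m J : ℕ) (F : Fam m J) (p : F.Ω → ℝ) (w : ℕ) (c : Fin m → ℕ)
      (M : F.Ω → Fin m → Fin m → ℝ) (s : Fin (c' + 1) → Fin m) (S : F.Ω → Fin c' → ℝ)
      (Γ P : Type) (G : F.Ω → Γ) (Pt : F.Ω → P) (X : ℕ) (η : ℝ), X₀ ≤ X →
      FmDat F p w c M s S G Pt X K → FmHyp F p w c M s S G Pt X k' x₁ κ ϖ ι ε₂ ca η →
      FmCc F p w c M s S G X (ε + (c' + 1) * (κ + 3 * η)) := by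
  have l2 : 0 < Real.log 2 := Real.log_pos (by norm_num)
  have l13 : 0 ≤ Real.log 13 := Real.log_nonneg (by norm_num)
  have l7 : 0 ≤ Real.log 7 := Real.log_nonneg (by norm_num)
  have lK : 0 ≤ Real.log (4 * K + 5) := Real.log_nonneg (by linarith)
  have hc0 : (0 : ℝ) ≤ c' := Nat.cast_nonneg c'
  have hc1 : (0 : ℝ) < c' + 1 := by linarith
  obtain ⟨e, he⟩ : ∃ e : ℝ, e = ε / (4 * (c' + 1)) := ⟨_, rfl⟩
  have he0 : 0 < e := by
    rw [he]
    positivity
  have he1 : (c' + 1) * e = ε / 4 := by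
    rw [he]
    field_simp
  have he2 : e ≤ ε / 4 := by
    rw [← he1]
    nlinarith
  obtain ⟨x₁, ϖ, ε₂, hx₁, hϖ, hε₂, hf⟩ := fltv c' e ca κ (2 * K + 2) he0 hca hκ hκ1
    (by linarith)
  refine ⟨x₁, ϖ, ε₂, hx₁, hϖ, hε₂, fun k' => ?_⟩
  obtain ⟨ι', n₀, hι', hf⟩ := hf k'
  obtain ⟨C, hC⟩ : ∃ C, C = (c' + 1) * Real.log 13 + 2 * Real.log 7 +
    c' * Real.log (4 * K + 5) := ⟨_, rfl⟩
  have w1 : 0 ≤ (c' + 1) * Real.log 13 := mul_nonneg hc1.le l13
  have w2 : 0 ≤ c' * Real.log (4 * K + 5) := mul_nonneg hc0 lK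
  obtain ⟨n₁, hn₁⟩ := exists_nat_ge (2 * ((c' + 1) * Real.log 13) / ι')
  obtain ⟨n₂, hn₂⟩ := exists_nat_ge (4 * C / (ε * Real.log 2))
  refine ⟨ι' / 2, n₀ + n₁ + n₂, by positivity, ?_⟩
  intro m J F p w c M s S Γ P G Pt X η hX hd hh
  have hX0 : (0 : ℝ) ≤ X := Nat.cast_nonneg X
  have hX1 : (n₁ : ℝ) ≤ X := by exact_mod_cast (by omega : n₁ ≤ X)
  have hX2 : (n₂ : ℝ) ≤ X := by exact_mod_cast (by omega : n₂ ≤ X)
  have k1 : 2 * ((c' + 1) * Real.log 13) ≤ ι' * X := by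
    have := (div_le_iff₀ hι').1 (hn₁.trans hX1)
    linarith
  have k2 : 4 * C ≤ ε * X * Real.log 2 := by
    have := (div_le_iff₀ (by positivity : (0 : ℝ) < ε * Real.log 2)).1 (hn₂.trans hX2)
    linarith
  obtain ⟨r1, r2⟩ := hf F.Ω _ _ _ _ _ _ p _ _ _ _ _ _ _ _ _ _ _ _ _ _ X η (toFVD hd hK)
    (by omega) (toFVH hd hh hκ1 (by linarith) (by linarith))
  refine toFmCc hd hK (a := ε / 2 + (c' + 1) * (κ + 3 * η)) hC ?_ ?_ ?_
  · refine le_trans ?_ r1
    have e1 : (c' + 1) * ((1 - e - κ - 3 * η) * X * Real.log 2) =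
      (c' + 1 - (c' + 1) * e - (c' + 1) * (κ + 3 * η)) * X * Real.log 2 := by ring
    rw [e1, he1]
    have h4 : 0 ≤ ε * X * Real.log 2 := by positivity
    have e2 : (c' + 1 - ε / 4 - (c' + 1) * (κ + 3 * η)) * X * Real.log 2 =
      ((c' + 1) - (ε / 2 + (c' + 1) * (κ + 3 * η))) * X * Real.log 2 +
        1 / 4 * (ε * X * Real.log 2) := by ring
    rw [e2]
    linarith
  · refine le_trans ?_ r2
    have e1 : (c' + 1) * ((1 - e - κ - 3 * η) * X * Real.log 2) =
      (c' + 1 - (c' + 1) * e - (c' + 1) * (κ + 3 * η)) * X * Real.log 2 := by ring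
    rw [e1, he1]
    have h4 : 0 ≤ ε * X * Real.log 2 := by positivity
    have h5 : e * X * Real.log 2 ≤ ε / 4 * X * Real.log 2 :=
      mul_le_mul_of_nonneg_right (mul_le_mul_of_nonneg_right he2 hX0) l2.le
    have e2 : (c' + 1 - ε / 4 - (c' + 1) * (κ + 3 * η)) * X * Real.log 2 =
      ((c' + 1) - (ε / 2 + (c' + 1) * (κ + 3 * η))) * X * Real.log 2 +
        ε / 4 * X * Real.log 2 := by ring
    rw [e2]
    linarith
  · have e1 : (ε + (c' + 1) * (κ + 3 * η)) * X * Real.log 2 =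
      (ε / 2 + (c' + 1) * (κ + 3 * η)) * X * Real.log 2 + 1 / 2 * (ε * X * Real.log 2) := by
      ring
    rw [e1]
    linarith

end Pool.KG
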