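import Pool.Agent.H68.KG.Flt

/-!
# Flat contexts in any dimension: the pure form

`fltv`: the flat step (all slopes zero) for a block of `c + 1` coordinates in one context, general
time laws. The own frame is `e + S i`, the references of a typical line are not in a strip.
-/

set_option autoImplicit false

namespace Pool.KG

open Finset Real
open Pool.Agent.H49.Ent Pool.Agent.H32.Dense Pool.STK Pool.KA Pool.PRM Pool.KVA Pool.M5 Pool.K2S
open Pool.S6U Pool.PLV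

section strip

variable {Ω Λ S' : Type} [Fintype Ω] {c : ℕ}

/-- **The frames of a typical line are not in a strip**, all strips of positive mass. -/
def NStrE (p : Ω → ℝ) (sl : Ω → Λ) (S : Ω → Fin c → ℝ) (δ ε : ℝ) : Prop :=
  Pe p (fun ω => ∃ n : Fin (c + 1) → ℝ, (∀ i, |n i| ≤ 1) ∧ (∃ i, |n i| = 1) ∧
    ε < Pe (Pool.Agent.H49.Ent.cond p sl (sl ω))
      (fun ρ => |n 0 + ∑ i : Fin c, n i.succ * S ρ i| < δ)) ≤ ε

theorem Pr_Pe {Ω : Type} [Fintype Ω] (p : Ω → ℝ) (A : Ω → Prop) :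
    Pool.KAF.Pr p {ω | A ω} = Pe p A := by
  classical
  rw [Pool.KAF.Pr_eq, Pe_eq]
  refine Finset.sum_congr rfl fun ω _ => ?_
  simp only [Set.mem_ofPred_eq]

theorem scond_le {ζ : Type} {p : Ω → ℝ} (_hp : ∀ ω, 0 ≤ p ω) (Z : Ω → ζ) (s : ζ) :
    ∑ ω, Pool.Agent.H49.Ent.cond p Z s ω ≤ 1 := by
  by_cases h : law p Z s = 0
  · have : ∀ ω, Pool.Agent.H49.Ent.cond p Z s ω = 0 := by
      intro ω
      unfold Pool.Agent.H49.Ent.cond
      rw [h, div_zero, ite_self]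
    simp [this]
  · exact (sum_cond p Z h).le

/-- **The references of a typical point are not in a strip.** -/
theorem ref_strip {p : Ω → ℝ} (hp : IsLaw p) (sl : Ω → Λ) (ζ : Ω → S') (s : Ω → Fin c → ℝ)
    {δ ε₁ ε₂ : ℝ} (hε₁ : 0 < ε₁) (h1 : ε₂ ≤ ε₁ / 2) (h2 : ε₂ ≤ ε₁ ^ 2 / 2)
    (h : NStrE p sl s δ ε₂) :
    Pool.KAF.Pr (dbl p sl) {x | ∃ n : Fin (c + 1) → ℝ, (∀ i, |n i| ≤ 1) ∧ (∃ i, |n i| = 1) ∧
      ε₁ < Pool.KAF.Pr (Pool.Agent.H49.Ent.cond (dbl p sl) (fun x => ζ x.1) (ζ x.1))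
        {x' | |n 0 + ∑ i, n i.succ * s x'.2 i| < δ}} ≤ ε₁ := by
  classical
  have hp0 := hp.nonneg
  have hq := dbl_nonneg (b := sl) hp0
  obtain ⟨Bad, hBad⟩ : ∃ Bad : Ω → Prop, Bad = fun ω => ∃ n : Fin (c + 1) → ℝ,
    (∀ i, |n i| ≤ 1) ∧ (∃ i, |n i| = 1) ∧
    ε₂ < Pe (Pool.Agent.H49.Ent.cond p sl (sl ω))
      (fun ρ => |n 0 + ∑ i : Fin c, n i.succ * s ρ i| < δ) := ⟨_, rfl⟩
  have hB : Pe p Bad ≤ ε₂ := by
    rw [hBad]
    exact h
  -- bad values
  obtain ⟨B, hBe⟩ : ∃ B : S' → Prop, B = fun z => ε₁ / 2 <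
      Pe (Pool.Agent.H49.Ent.cond p ζ z) Bad := ⟨_, rfl⟩
  have hbad : ∀ x, 0 < dbl p sl x → x ∈ {x : Ω × Ω | ∃ n : Fin (c + 1) → ℝ, (∀ i, |n i| ≤ 1) ∧
      (∃ i, |n i| = 1) ∧
      ε₁ < Pool.KAF.Pr (Pool.Agent.H49.Ent.cond (dbl p sl) (fun x => ζ x.1) (ζ x.1))
        {x' | |n 0 + ∑ i, n i.succ * s x'.2 i| < δ}} → B (ζ x.1) := by
    rintro x hx ⟨n, h3, h4, h5⟩
    have hx1 : 0 < p x.1 := (dbl_fst hp0).pos hq hx
    have h5 : ε₁ < Pool.KAF.Pr (Pool.Agent.H49.Ent.cond (dbl p sl) (fun x => ζ x.1) (ζ x.1))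
        {x' | x'.2 ∈ {ω' | |n 0 + ∑ i, n i.succ * s ω' i| < δ}} := h5
    rw [Pr_snd hp0 sl ζ (ζ x.1) {ω' | |n 0 + ∑ i, n i.succ * s ω' i| < δ}] at h5
    have hl : IsLaw (Pool.Agent.H49.Ent.cond p ζ (ζ x.1)) :=
      Uni.isLaw_cond' hp0 ζ (law_pos hp0 ζ hx1)
    have h6 : Ex (Pool.Agent.H49.Ent.cond p ζ (ζ x.1))
        (fun ω => Pool.KAF.Pr (Pool.Agent.H49.Ent.cond p sl (sl ω))
          {ω' | |n 0 + ∑ i, n i.succ * s ω' i| < δ}) ≤
        ε₂ + Pe (Pool.Agent.H49.Ent.cond p ζ (ζ x.1)) Bad := by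
      have e1 : ε₂ + Pe (Pool.Agent.H49.Ent.cond p ζ (ζ x.1)) Bad =
          ∑ ω, (Pool.Agent.H49.Ent.cond p ζ (ζ x.1) ω * ε₂ +
            (if Bad ω then Pool.Agent.H49.Ent.cond p ζ (ζ x.1) ω else 0)) := by
        rw [Finset.sum_add_distrib, ← Finset.sum_mul, hl.sum_one, one_mul, Pe_eq]
      rw [e1]
      unfold Ex
      refine Finset.sum_le_sum fun ω _ => ?_
      have hc := hl.nonneg ω
      by_cases hb : Bad ω
      · rw [if_pos hb]
        have e2 : Pool.KAF.Pr (Pool.Agent.H49.Ent.cond p sl (sl ω))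
          {ω' | |n 0 + ∑ i, n i.succ * s ω' i| < δ} ≤ 1 := by
          rw [Pr_Pe (Pool.Agent.H49.Ent.cond p sl (sl ω))
            (fun ω' => |n 0 + ∑ i, n i.succ * s ω' i| < δ), Pe_eq]
          refine le_trans (Finset.sum_le_sum fun ρ _ => ?_) (scond_le hp0 sl (sl ω))
          split_ifs
          · exact le_rfl
          · exact cond_nonneg hp0 _ _ _
        have e4 : 0 ≤ ε₂ := by
          refine le_trans ?_ hB
          rw [Pe_eq]
          exact Finset.sum_nonneg fun ω _ => by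
            split_ifs
            · exact hp0 ω
            · exact le_rfl
        have e3 := mul_le_mul_of_nonneg_left e2 hc
        have e5 : 0 ≤ Pool.Agent.H49.Ent.cond p ζ (ζ x.1) ω * ε₂ := mul_nonneg hc e4
        linarith
      · rw [if_neg hb, add_zero]
        refine mul_le_mul_of_nonneg_left ?_ hc
        show Pool.KAF.Pr (Pool.Agent.H49.Ent.cond p sl (sl ω))
          {ω' | |n 0 + ∑ i, n i.succ * s ω' i| < δ} ≤ ε₂
        by_contra hcon
        rw [not_le, Pr_Pe (Pool.Agent.H49.Ent.cond p sl (sl ω))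
            (fun ω' => |n 0 + ∑ i, n i.succ * s ω' i| < δ)] at hcon
        rw [hBad] at hb
        exact hb ⟨n, h3, h4, hcon⟩
    rw [hBe]
    show ε₁ / 2 < Pe (Pool.Agent.H49.Ent.cond p ζ (ζ x.1)) Bad
    linarith
  -- mass
  have hm : Pool.KAF.Pr (dbl p sl) {x | B (ζ x.1)} ≤ ε₁ := by
    have e1 : Pool.KAF.Pr (dbl p sl) {x | B (ζ x.1)} = Pe p (fun ω => B (ζ ω)) := by
      rw [Pr_Pe (dbl p sl) (fun x => B (ζ x.1))]
      exact (dbl_fst (b := sl) hp0).law (fun ω => B (ζ ω)) True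
    rw [e1]
    have e2 := Pool.OC.RS.tower hp0 ζ (fun ω => if Bad ω then 1 else 0)
    have e3 : ∑ ω, p ω * (if Bad ω then (1 : ℝ) else 0) = Pe p Bad := by
      rw [Pe_eq]
      refine Finset.sum_congr rfl fun ω _ => ?_
      split_ifs <;> ring
    have e4 : ε₁ / 2 * Pe p (fun ω => B (ζ ω)) ≤ Pe p Bad := by
      rw [← e3, ← e2, Pe_eq, Finset.mul_sum]
      refine Finset.sum_le_sum fun ω _ => ?_
      rcases (hp0 ω).eq_or_lt with h0 | h0
      · rw [← h0]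
        simp
      have hnn : 0 ≤ ∑ v, Pool.Agent.H49.Ent.cond p ζ (ζ ω) v * (if Bad v then (1 : ℝ) else 0) :=
        Finset.sum_nonneg fun v _ => mul_nonneg (cond_nonneg hp0 _ _ _) (by split_ifs <;> norm_num)
      by_cases hb : B (ζ ω)
      · rw [if_pos hb, mul_comm]
        refine mul_le_mul_of_nonneg_left ?_ h0.le
        rw [hBe] at hb
        have hb' : ε₁ / 2 < Pe (Pool.Agent.H49.Ent.cond p ζ (ζ ω)) Bad := hb
        refine hb'.le.trans (le_of_eq ?_)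
        rw [Pe_eq]
        refine Finset.sum_congr rfl fun v _ => ?_
        split_ifs <;> ring
      · rw [if_neg hb, mul_zero]
        exact mul_nonneg h0.le hnn
    have e5 : ε₁ / 2 * Pe p (fun ω => B (ζ ω)) ≤ ε₁ / 2 * ε₁ := by
      refine e4.trans (hB.trans (h2.trans (le_of_eq ?_)))
      ring
    exact le_of_mul_le_mul_left e5 (by positivity)
  refine le_trans ?_ hm
  rw [Pool.KAF.Pr_eq, Pool.KAF.Pr_eq]
  refine Finset.sum_le_sum fun x _ => ?_
  rcases (hq x).eq_or_lt with h0 | h0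
  · rw [← h0]
    simp
  by_cases hx : x ∈ {x : Ω × Ω | ∃ n : Fin (c + 1) → ℝ, (∀ i, |n i| ≤ 1) ∧
      (∃ i, |n i| = 1) ∧
      ε₁ < Pool.KAF.Pr (Pool.Agent.H49.Ent.cond (dbl p sl) (fun x => ζ x.1) (ζ x.1))
        {x' | |n 0 + ∑ i, n i.succ * s x'.2 i| < δ}}
  · rw [if_pos hx, if_pos (show x ∈ {x : Ω × Ω | B (ζ x.1)} from hbad x h0 hx)]
  · rw [if_neg hx]
    split_ifs
    · exact h0.le
    · exact le_rfl

end strip

/-! ### The data -/

/-- The data of the flat step. `sl` is the line, `b` the context, `L` the line up to `X` more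
digits, `Y` the exact point, `G` the own frame. -/
structure FVDat {Ω β Λ' γ Λ Θ υ : Type} [Fintype Ω] (c : ℕ) (K : ℝ) (p : Ω → ℝ) (b : Ω → β)
    (L : Ω → Λ') (G : Ω → γ) (sl : Ω → Λ) (T : Ω → Θ) (Y : Ω → υ) (y0 om : Ω → ℝ)
    (z0 be : Ω → Fin c → ℝ) (th : Ω → ℝ) (S : Ω → Fin c → ℝ) (y : Ω → ℝ) (z : Ω → Fin c → ℝ)
    (X : ℕ) : Prop where
  law : IsLaw p
  db : Det p sl b
  dL : Det p sl L
  dy0 : Det p (fun ω => (b ω, L ω)) y0
  dom : Det p (fun ω => (b ω, L ω)) om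
  dz0 : Det p (fun ω => (b ω, L ω)) z0
  dbe : Det p (fun ω => (b ω, L ω)) be
  dth : Det p (fun ω => (b ω, T ω)) th
  dS : Det p (fun ω => (b ω, G ω)) S
  dP : Det p (fun ω => (Y ω, b ω)) (fun ω => (G ω, T ω))
  hom : ∀ ω, 0 < p ω → 0 ≤ om ω ∧ om ω < 1
  hth : ∀ ω, 0 < p ω → 0 ≤ th ω ∧ th ω < 1
  hS : ∀ ω, 0 < p ω → ∀ i, |S ω i| ≤ K
  hyb : ∀ ω, 0 < p ω → |y ω| ≤ K
  hy : ∃ k : Ω → ℝ, Det p (fun ω => (b ω, T ω)) k ∧
    ∀ ω, 0 < p ω → y ω = y0 ω + th ω * om ω + k ω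
  hz : ∃ k : Ω → Fin c → ℝ, Det p (fun ω => (b ω, T ω)) k ∧
    ∀ ω, 0 < p ω → ∀ i, z ω i = z0 ω i + th ω * be ω i + k ω i
  hY : ∃ (u : Ω → ℝ) (v W : Ω → Fin c → ℝ),
    Det p (fun ω => (Y ω, b ω)) (fun ω => (u ω, (v ω, W ω))) ∧
    ∀ ω, 0 < p ω → |y0 ω + th ω * om ω - u ω| * 2 ^ X ≤ K ∧
      (∀ i, |z0 ω i + th ω * be ω i - v ω i| * 2 ^ X ≤ K) ∧
      ∀ i, |be ω i - S ω i * om ω - W ω i| * 2 ^ X ≤ K

/-- The hypotheses of the flat step. -/
structure FVHyp {Ω β Λ' γ Λ Θ υ : Type} [Fintype Ω] (c : ℕ) (p : Ω → ℝ) (b : Ω → β)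
    (L : Ω → Λ') (G : Ω → γ) (sl : Ω → Λ) (T : Ω → Θ) (Y : Ω → υ) (om : Ω → ℝ)
    (be : Ω → Fin c → ℝ) (th : Ω → ℝ) (S : Ω → Fin c → ℝ) (y : Ω → ℝ) (z : Ω → Fin c → ℝ)
    (X k' : ℕ) (x₁ κ ϖ ι ε₂ ca η : ℝ) : Prop where
  /-- the times of two samples of one line, the own frame of the second one, and the line -/
  tm : dp (dbl p sl) (fun x => (T x.1, (G x.2, T x.2))) (fun x => L x.1) (fun x => b x.1) ≤ ι * X
  /-- the velocity and the position -/
  b0 : dp p (blk X om be) (blk X y z) (fun ω => (b ω, T ω)) ≤ ι * X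
  tim : ∑ i ∈ Finset.range X, OCG.nr p sl th k' i ≤ η * X
  act : ∀ E : Ω → Prop, ϖ ≤ Pe p E → ca * ⌊κ * X⌋₊ * Real.log 2 ≤
    CH (Pool.Agent.H49.Ent.cond p E True) (Uni.dg ⌊κ * X⌋₊ om) (fun ω => (Y ω, b ω))
  th : NStrE p sl S ((2 : ℝ) ^ (-(x₁ * X))) ε₂

section data

variable {Ω β Λ' γ Λ Θ υ : Type} [Fintype Ω] {c : ℕ} {K : ℝ} {p : Ω → ℝ} {b : Ω → β}
    {L : Ω → Λ'} {G : Ω → γ} {sl : Ω → Λ} {T : Ω → Θ} {Y : Ω → υ} {y0 om : Ω → ℝ}
    {z0 be : Ω → Fin c → ℝ} {th : Ω → ℝ} {S : Ω → Fin c → ℝ} {y : Ω → ℝ} {z : Ω → Fin c → ℝ}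
    {X : ℕ}

/-- The data of a sample and a reference. -/
theorem toPVDv (hd : FVDat c K p b L G sl T Y y0 om z0 be th S y z X) :
    PVData c K (dbl p sl) (fun x => b x.1) (fun _ => ()) (fun x => L x.1) (fun x => T x.1)
      (fun x => (G x.2, T x.2)) (fun x => Y x.2) (fun x => y0 x.1) (fun x => om x.1)
      (fun x => z0 x.1) (fun x => be x.1) (fun x => th x.1) (fun x => th x.2) (fun x => S x.2)
      (fun x => y x.1) (fun x => z x.1) X := by
  have hp := hd.law.nonneg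
  have hq := dbl_nonneg (b := sl) hp
  have P1 : ∀ {x}, 0 < dbl p sl x → 0 < p x.1 := fun h => (dbl_fst hp).pos hq h
  have P2 : ∀ {x}, 0 < dbl p sl x → 0 < p x.2 := fun h => (dbl_snd hp).pos hq h
  have hlaw : IsLaw (dbl p sl) := ⟨hq, by rw [(dbl_fst hp).sum]; exact hd.law.sum_one⟩
  have B : ∀ {x}, 0 < dbl p sl x → b x.1 = b x.2 := fun h =>
    hd.db _ _ (P1 h) (P2 h) (dbl_eq hp h)
  have L' : ∀ {x}, 0 < dbl p sl x → L x.1 = L x.2 := fun h =>
    hd.dL _ _ (P1 h) (P2 h) (dbl_eq hp h)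
  have L1 : ∀ {α : Type} {f : Ω → α}, Det p (fun ω => (b ω, L ω)) f →
      Det (dbl p sl) (fun x => ((b x.1, ()), L x.1)) (fun x => f x.1) := by
    intro α f h x x' a a' e
    have e1 := Prod.ext_iff.mp e
    exact h _ _ (P1 a) (P1 a') (Prod.ext (Prod.ext_iff.mp e1.1).1 e1.2)
  have T1 : ∀ {α : Type} {f : Ω → α}, Det p (fun ω => (b ω, T ω)) f →
      Det (dbl p sl) (fun x => ((b x.1, ()), T x.1)) (fun x => f x.1) := by
    intro α f h x x' a a' e
    have e1 := Prod.ext_iff.mp e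
    exact h _ _ (P1 a) (P1 a') (Prod.ext (Prod.ext_iff.mp e1.1).1 e1.2)
  have T2 : ∀ {α : Type} {f : Ω → α}, Det p (fun ω => (b ω, T ω)) f →
      Det (dbl p sl) (fun x => ((b x.1, ()), (G x.2, T x.2))) (fun x => f x.2) := by
    intro α f h x x' a a' e
    have e1 := Prod.ext_iff.mp e
    have e2 : b x.1 = b x'.1 := (Prod.ext_iff.mp e1.1).1
    refine h _ _ (P2 a) (P2 a') (Prod.ext ?_ (Prod.ext_iff.mp e1.2).2)
    show b x.2 = b x'.2
    rw [← B a, ← B a', e2]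
  have G2 : ∀ {α : Type} {f : Ω → α}, Det p (fun ω => (b ω, G ω)) f →
      Det (dbl p sl) (fun x => ((b x.1, ()), (G x.2, T x.2))) (fun x => f x.2) := by
    intro α f h x x' a a' e
    have e1 := Prod.ext_iff.mp e
    have e2 : b x.1 = b x'.1 := (Prod.ext_iff.mp e1.1).1
    refine h _ _ (P2 a) (P2 a') (Prod.ext ?_ (Prod.ext_iff.mp e1.2).1)
    show b x.2 = b x'.2
    rw [← B a, ← B a', e2]
  obtain ⟨ky, hky, eky⟩ := hd.hy
  obtain ⟨kz, hkz, ekz⟩ := hd.hz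
  obtain ⟨u, v, W, hu, eu⟩ := hd.hY
  refine ⟨hlaw, L1 hd.dy0, L1 hd.dom, L1 hd.dz0, L1 hd.dbe, T1 hd.dth, T2 hd.dth, G2 hd.dS,
    fun x h => hd.hom _ (P1 h), fun x h => hd.hth _ (P1 h), ?_, fun x h => hd.hS _ (P2 h),
    fun x h => hd.hyb _ (P1 h), ⟨fun x => ky x.1, T1 hky, fun x h => eky _ (P1 h)⟩,
    ⟨fun x => kz x.1, T1 hkz, fun x h => ekz _ (P1 h)⟩,
    fun x => u x.2, fun x => v x.2, fun x => W x.2, ?_, ?_⟩
  · intro x h
    have := hd.hth _ (P2 h)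
    rw [abs_of_nonneg this.1]
    exact this.2.le
  · intro x x' a a' e
    have e1 := Prod.ext_iff.mp e
    have e2 : b x.1 = b x'.1 := (Prod.ext_iff.mp (Prod.ext_iff.mp e1.2).2).1
    refine hu x.2 x'.2 (P2 a) (P2 a') (Prod.ext e1.1 ?_)
    show b x.2 = b x'.2
    rw [← B a, ← B a', e2]
  · intro x h
    have e : (fun ω => (b ω, L ω)) x.1 = (fun ω => (b ω, L ω)) x.2 := Prod.ext (B h) (L' h)
    have h1 := hd.dy0 _ _ (P1 h) (P2 h) e
    have h2 := hd.dom _ _ (P1 h) (P2 h) e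
    have h3 := hd.dz0 _ _ (P1 h) (P2 h) e
    have h4 := hd.dbe _ _ (P1 h) (P2 h) e
    have := eu x.2 (P2 h)
    show |y0 x.1 + th x.2 * om x.1 - u x.2| * 2 ^ X ≤ K ∧
      (∀ i, |z0 x.1 i + th x.2 * be x.1 i - v x.2 i| * 2 ^ X ≤ K) ∧
      ∀ i, |be x.1 i - S x.2 i * om x.1 - W x.2 i| * 2 ^ X ≤ K
    rw [h1, h2, h3, h4]
    exact this

/-- Functions of the first copy. -/
theorem dpv_fst {S₁ S₂ U : Type} (hp : ∀ ω, 0 ≤ p ω) (sl : Ω → Λ) (f : Ω → S₁)
    (g : Ω → S₂) (h : Ω → U) :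
    dp (dbl p sl) (fun x => f x.1) (fun x => g x.1) (fun x => h x.1) = dp p f g h := by
  unfold dp
  have e1 := (dbl_fst (b := sl) hp).CH f h
  have e2 := (dbl_fst (b := sl) hp).CH f (fun ω => (g ω, h ω))
  rw [e1, e2]

/-- Functions of the second copy. -/
theorem dpv_snd {S₁ S₂ U : Type} (hp : ∀ ω, 0 ≤ p ω) (sl : Ω → Λ) (f : Ω → S₁)
    (g : Ω → S₂) (h : Ω → U) :
    dp (dbl p sl) (fun x => f x.2) (fun x => g x.2) (fun x => h x.2) = dp p f g h := by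
  unfold dp
  have e1 := (dbl_snd (b := sl) hp).CH f h
  have e2 := (dbl_snd (b := sl) hp).CH f (fun ω => (g ω, h ω))
  rw [e1, e2]

section tm

variable {k' : ℕ} {x₁ κ ϖ ι ε₂ ca η : ℝ}

/-- The time of the sample. -/
theorem vtm_T (hd : FVDat c K p b L G sl T Y y0 om z0 be th S y z X)
    (hh : FVHyp c p b L G sl T Y om be th S y z X k' x₁ κ ϖ ι ε₂ ca η) :
    dp (dbl p sl) (fun x => T x.1) (fun x => L x.1) (fun x => ((G x.2, T x.2), b x.1)) ≤
      ι * X := by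
  have hq := dbl_nonneg (b := sl) hd.law.nonneg
  have h1 := dp_add hq (fun x => T x.1) (fun x => (G x.2, T x.2)) (fun x => L x.1)
    (fun x => b x.1)
  have h2 := dp_nonneg hq (fun x => (G x.2, T x.2)) (fun x => L x.1) (fun x => b x.1)
  have := hh.tm
  linarith

/-- The reference. -/
theorem vtm_R (hd : FVDat c K p b L G sl T Y y0 om z0 be th S y z X)
    (hh : FVHyp c p b L G sl T Y om be th S y z X k' x₁ κ ϖ ι ε₂ ca η) :
    dp (dbl p sl) (fun x => (G x.2, T x.2)) (fun x => L x.1) (fun x => (T x.1, b x.1)) ≤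
      ι * X := by
  have hq := dbl_nonneg (b := sl) hd.law.nonneg
  have h1 := dp_add hq (fun x => (G x.2, T x.2)) (fun x => T x.1) (fun x => L x.1)
    (fun x => b x.1)
  have h2 := dp_nonneg hq (fun x => T x.1) (fun x => L x.1) (fun x => b x.1)
  have h3 : dp (dbl p sl) (fun x => ((G x.2, T x.2), T x.1)) (fun x => L x.1)
      (fun x => b x.1) ≤ dp (dbl p sl) (fun x => (T x.1, (G x.2, T x.2))) (fun x => L x.1)
      (fun x => b x.1) := by
    refine dp_mono hq ?_ (fun _ _ _ _ e => (Prod.ext_iff.mp e).1)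
    intro x x' _ _ e
    have e1 := Prod.ext_iff.mp (Prod.ext_iff.mp e).1
    exact Prod.ext e1.2 e1.1
  have := hh.tm
  linarith

/-- The own frame. -/
theorem vtm_G (hd : FVDat c K p b L G sl T Y y0 om z0 be th S y z X)
    (hh : FVHyp c p b L G sl T Y om be th S y z X k' x₁ κ ϖ ι ε₂ ca η) :
    dp p L G (fun ω => (b ω, T ω)) ≤ ι * X := by
  have hp := hd.law.nonneg
  have hq := dbl_nonneg (b := sl) hp
  have P1 : ∀ {x}, 0 < dbl p sl x → 0 < p x.1 := fun h => (dbl_fst hp).pos hq h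
  have P2 : ∀ {x}, 0 < dbl p sl x → 0 < p x.2 := fun h => (dbl_snd hp).pos hq h
  have B : ∀ x, 0 < dbl p sl x → b x.1 = b x.2 := fun x h =>
    hd.db _ _ (P1 h) (P2 h) (dbl_eq hp h)
  have L' : ∀ x, 0 < dbl p sl x → L x.1 = L x.2 := fun x h =>
    hd.dL _ _ (P1 h) (P2 h) (dbl_eq hp h)
  have h1 := dp_add hq (fun x => T x.1) (fun x => (G x.2, T x.2)) (fun x => L x.1)
    (fun x => b x.1)
  have h2 := dp_nonneg hq (fun x => T x.1) (fun x => L x.1) (fun x => ((G x.2, T x.2), b x.1))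
  have h3 := hh.tm
  have h4 : dp (dbl p sl) (fun x => (G x.2, T x.2)) (fun x => L x.1)
      (fun x => b x.1) = dp (dbl p sl) (fun x => (G x.2, T x.2))
      (fun x => L x.2) (fun x => b x.2) := by
    refine le_antisymm ?_ ?_
    · rw [dp_congr_cond hq (b := fun x : Ω × Ω => b x.1) (b' := fun x : Ω × Ω => b x.2)]
      · refine dp_mono hq (fun _ _ _ _ e => (Prod.ext_iff.mp e).1) ?_
        intro x x' a a' h
        have h1 : L x.2 = L x'.2 := (Prod.ext_iff.mp h).1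
        show L x.1 = L x'.1
        rw [L' x a, L' x' a', h1]
      · intro x x' a a' h
        have h1 : b x.1 = b x'.1 := h
        show b x.2 = b x'.2
        rw [← B x a, ← B x' a', h1]
      · intro x x' a a' h
        have h1 : b x.2 = b x'.2 := h
        show b x.1 = b x'.1
        rw [B x a, B x' a', h1]
    · rw [dp_congr_cond hq (b := fun x : Ω × Ω => b x.2) (b' := fun x : Ω × Ω => b x.1)]
      · refine dp_mono hq (fun _ _ _ _ e => (Prod.ext_iff.mp e).1) ?_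
        intro x x' a a' h
        have h1 : L x.1 = L x'.1 := (Prod.ext_iff.mp h).1
        show L x.2 = L x'.2
        rw [← L' x a, ← L' x' a', h1]
      · intro x x' a a' h
        have h1 : b x.2 = b x'.2 := h
        show b x.1 = b x'.1
        rw [B x a, B x' a', h1]
      · intro x x' a a' h
        have h1 : b x.1 = b x'.1 := h
        show b x.2 = b x'.2
        rw [← B x a, ← B x' a', h1]
  have h5 := dpv_snd hp sl (fun ω => (G ω, T ω)) L b
  have h6 := dp_add hp G T L b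
  have h7 := dp_nonneg hp T L b
  have h8 := dp_congr_cond hp (N := L) (V := G)
    (b := fun ω => (b ω, T ω)) (b' := fun ω => (T ω, b ω))
    (fun _ _ _ _ e => Prod.ext (Prod.ext_iff.mp e).2 (Prod.ext_iff.mp e).1)
    (fun _ _ _ _ e => Prod.ext (Prod.ext_iff.mp e).2 (Prod.ext_iff.mp e).1)
  rw [h8, dp_symm hp]
  rw [h4, h5] at h1
  linarith

/-- The block is a function of the line and the time. -/
theorem vdet_blk (hd : FVDat c K p b L G sl T Y y0 om z0 be th S y z X) :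
    Det p (fun ω => (L ω, (b ω, T ω))) (fun ω => (blk X om be ω, blk X y z ω)) := by
  obtain ⟨ky, hky, eky⟩ := hd.hy
  obtain ⟨kz, hkz, ekz⟩ := hd.hz
  intro ω ω' a a' e
  have e1 := Prod.ext_iff.mp e
  have e2 : b ω = b ω' := (Prod.ext_iff.mp e1.2).1
  have e3 : (fun ω => (b ω, L ω)) ω = (fun ω => (b ω, L ω)) ω' := Prod.ext e2 e1.1
  have h1 := hd.dy0 _ _ a a' e3
  have h2 := hd.dom _ _ a a' e3
  have h3 := hd.dz0 _ _ a a' e3
  have h4 := hd.dbe _ _ a a' e3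
  have h5 := hd.dth _ _ a a' e1.2
  have h6 := hky _ _ a a' e1.2
  have h7 := hkz _ _ a a' e1.2
  have h8 : y ω = y ω' := by rw [eky _ a, eky _ a', h1, h2, h5, h6]
  have h9 : z ω = z ω' := by
    funext i
    rw [ekz _ a, ekz _ a', h3, h4, h5, h7]
  show (blk X om be ω, blk X y z ω) = (blk X om be ω', blk X y z ω')
  unfold blk dgv Uni.dg
  rw [h2, h4, h8, h9]

end tm

/-- The line and the reference given the block. -/
theorem dpv_blk (hd : FVDat c K p b L G sl T Y y0 om z0 be th S y z X) {k' : ℕ}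
    {x₁ κ ϖ ι ε₂ ca η : ℝ} (hh : FVHyp c p b L G sl T Y om be th S y z X k' x₁ κ ϖ ι ε₂ ca η) :
    dp (dbl p sl) (fun x => blk X y z x.1) (fun x => (blk X om be x.1, (G x.2, T x.2)))
      (fun x => (b x.1, T x.1)) ≤ 2 * (ι * X) := by
  have hp := hd.law.nonneg
  have hq := dbl_nonneg (b := sl) hp
  have P1 : ∀ {x}, 0 < dbl p sl x → 0 < p x.1 := fun h => (dbl_fst hp).pos hq h
  obtain ⟨N, hN⟩ : ∃ N : Ω × Ω → ℤ × (Fin c → ℤ), N = fun x => blk X y z x.1 := ⟨_, rfl⟩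
  obtain ⟨V, hV⟩ : ∃ V : Ω × Ω → ℤ × (Fin c → ℤ), V = fun x => blk X om be x.1 := ⟨_, rfl⟩
  obtain ⟨R, hR⟩ : ∃ R : Ω × Ω → γ × Θ, R = fun x => (G x.2, T x.2) := ⟨_, rfl⟩
  obtain ⟨b', hb⟩ : ∃ b', b' = fun x : Ω × Ω => (b x.1, T x.1) := ⟨_, rfl⟩
  have e0 : (fun x : Ω × Ω => (blk X om be x.1, (G x.2, T x.2))) = fun x => (V x, R x) := by
    rw [hV, hR]
  rw [← hN, e0, ← hb]
  have h1 : dp (dbl p sl) N (fun x => (V x, R x)) b' ≤
      dp (dbl p sl) N (fun x => (R x, V x)) b' := by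
    refine dp_mono hq (fun _ _ _ _ e => (Prod.ext_iff.mp e).1) ?_
    intro x x' _ _ e
    have e1 := Prod.ext_iff.mp (Prod.ext_iff.mp e).1
    exact Prod.ext e1.2 e1.1
  have h2 := dp_add_right hq N R V b'
  -- the velocity
  have h3 : dp (dbl p sl) N V b' ≤ ι * X := by
    have g1 : dp (dbl p sl) N V b' = dp p (blk X y z) (blk X om be)
        (fun ω => (b ω, T ω)) := by
      rw [hN, hV, hb]
      exact dpv_fst hp sl (blk X y z) (blk X om be) (fun ω => (b ω, T ω))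
    rw [g1, dp_symm hp]
    exact hh.b0
  -- the reference
  have h4 : dp (dbl p sl) N R (fun x => (V x, b' x)) ≤ ι * X := by
    have g1 := dp_add hq N V R b'
    have g2 := dp_nonneg hq V R b'
    have g3 : dp (dbl p sl) (fun x => (N x, V x)) R b' ≤
        dp (dbl p sl) (fun x => L x.1) R b' := by
      refine dp_mono hq ?_ (fun _ _ _ _ e => (Prod.ext_iff.mp e).1)
      intro x x' a a' e
      have e1 : L x.1 = L x'.1 := (Prod.ext_iff.mp e).1
      have e2 : b' x = b' x' := (Prod.ext_iff.mp e).2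
      rw [hb] at e2
      have e3 : (b x.1, T x.1) = (b x'.1, T x'.1) := e2
      have e4 := vdet_blk hd x.1 x'.1 (P1 a) (P1 a') (Prod.ext e1 e3)
      have e5 := Prod.ext_iff.mp e4
      rw [hN, hV]
      exact Prod.ext e5.2 e5.1
    have g4 : dp (dbl p sl) (fun x => L x.1) R b' =
        dp (dbl p sl) R (fun x => L x.1) (fun x => (T x.1, b x.1)) := by
      rw [dp_symm hq, hb]
      exact dp_congr_cond hq
        (fun _ _ _ _ e => Prod.ext (Prod.ext_iff.mp e).2 (Prod.ext_iff.mp e).1)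
        (fun _ _ _ _ e => Prod.ext (Prod.ext_iff.mp e).2 (Prod.ext_iff.mp e).1)
    have g5 := vtm_R hd hh
    rw [← hR] at g5
    linarith
  linarith

/-- The hypotheses for a sample and a reference. -/
theorem toPKHv (hd : FVDat c K p b L G sl T Y y0 om z0 be th S y z X) {k' : ℕ}
    {x₁ κ ϖ ι ε₂ ca η : ℝ} (hh : FVHyp c p b L G sl T Y om be th S y z X k' x₁ κ ϖ ι ε₂ ca η)
    {ϖ' ι' ε₁ : ℝ} (hca : 0 < ca) (hϖ' : 0 < ϖ')
    (hL : ∀ (Ω S T : Type) [Fintype Ω] (p q : Ω → ℝ) (x : Ω → S) (v : Ω → T) (h : ℝ), IsLaw p →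
      IsLaw q → (∀ ω, q ω ≤ 1 / ϖ' * p ω) → 0 ≤ h →
      (∀ A : Ω → Prop, ϖ ≤ Pe p A → h ≤ CH (Pool.Agent.H49.Ent.cond p A True) x v) →
      (1 - 1 / 2) * h ≤ CH q x v)
    (hι : 0 ≤ ι) (hι' : 2 * ι ≤ ι') (hε₁ : 0 < ε₁)
    (hε : ε₂ ≤ ε₁ / 2) (hε' : ε₂ ≤ ε₁ ^ 2 / 2) :
    PKHyp c (dbl p sl) (fun x => b x.1) (fun _ => ()) (fun x => L x.1) (fun x => T x.1)
      (fun x => (G x.2, T x.2)) (fun x => Y x.2) (fun x => om x.1) (fun x => be x.1)
      (fun x => th x.1) (fun x => S x.2) (fun x => y x.1) (fun x => z x.1) X k' x₁ κ ϖ' ι' ε₁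
      (ca / 2) (3 * η) := by
  classical
  have hp := hd.law.nonneg
  have hq := dbl_nonneg (b := sl) hp
  have hlaw : IsLaw (dbl p sl) := ⟨hq, by rw [(dbl_fst hp).sum]; exact hd.law.sum_one⟩
  have P1 : ∀ {x}, 0 < dbl p sl x → 0 < p x.1 := fun h => (dbl_fst hp).pos hq h
  have P2 : ∀ {x}, 0 < dbl p sl x → 0 < p x.2 := fun h => (dbl_snd hp).pos hq h
  have hX0 : (0 : ℝ) ≤ X := Nat.cast_nonneg X
  have hιX : 0 ≤ ι * X := mul_nonneg hι hX0
  have hιX' : 2 * (ι * X) ≤ ι' * X := by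
    have := mul_le_mul_of_nonneg_right hι' hX0
    linarith
  refine ⟨?_, ?_, ?_, ?_, ?_, ?_⟩
  · -- the time
    rw [MI_eq_dp hq]
    have h1 := vtm_T hd hh
    have h2 := dp_congr_cond hq (N := fun x : Ω × Ω => T x.1)
      (V := fun x : Ω × Ω => L x.1)
      (b := fun x => ((G x.2, T x.2), b x.1))
      (b' := fun x => ((G x.2, T x.2), (b x.1, ())))
      (fun _ _ _ _ e => Prod.ext (Prod.ext_iff.mp e).1 (Prod.ext (Prod.ext_iff.mp e).2 rfl))
      (fun _ _ _ _ e => Prod.ext (Prod.ext_iff.mp e).1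
        (Prod.ext_iff.mp (Prod.ext_iff.mp e).2).1)
    rw [← h2]
    linarith
  · -- near samples
    have h1 : ∀ i ∈ range X, OCG.nr (dbl p sl) (fun x => (L x.1,
        ((G x.2, T x.2), (b x.1, ())))) (fun x => th x.1) k' i ≤
        3 * OCG.nr p sl th k' i := by
      intro i _
      rw [← nr_pair hp sl th k' i]
      refine OCG.nr_coarse hlaw ?_ _ _ _
      intro x x' a a' e
      have e1 := Prod.ext_iff.mp e
      have e2 := hd.dL _ _ (P1 a) (P1 a') e1.1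
      have e4 := hd.db _ _ (P1 a) (P1 a') e1.1
      have e3 : x.2 = x'.2 := e1.2
      show (L x.1, ((G x.2, T x.2), (b x.1, ()))) = (L x'.1, ((G x'.2, T x'.2), (b x'.1, ())))
      rw [e2, e3, e4]
    refine (Finset.sum_le_sum h1).trans ?_
    rw [← Finset.mul_sum]
    have := hh.tim
    linarith
  · -- the velocity and the reference
    rw [MI_eq_dp hq]
    have h1 := dpv_blk hd hh
    refine le_trans (le_of_eq ?_) (h1.trans hιX')
    exact dp_congr_cond hq (N := fun x : Ω × Ω => blk X y z x.1)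
      (V := fun x : Ω × Ω => (blk X om be x.1, (G x.2, T x.2)))
      (b := fun x => ((b x.1, ()), T x.1)) (b' := fun x => (b x.1, T x.1))
      (fun _ _ _ _ e => Prod.ext (Prod.ext_iff.mp (Prod.ext_iff.mp e).1).1
        (Prod.ext_iff.mp e).2)
      (fun _ _ _ _ e => Prod.ext (Prod.ext (Prod.ext_iff.mp e).1 rfl) (Prod.ext_iff.mp e).2)
  · -- the activity
    intro A hA
    have hA0 : 0 < Pe (dbl p sl) A := hϖ'.trans_le hA
    obtain ⟨q, hqe⟩ : ∃ q, q = Pool.Agent.H49.Ent.cond (dbl p sl) A True := ⟨_, rfl⟩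
    rw [← hqe]
    have hql : IsLaw q := hqe ▸ isLaw_cond hlaw hA0
    have hqp : ∀ {x}, 0 < q x → 0 < dbl p sl x := by
      intro x hx
      rw [hqe] at hx
      exact ((cond_pos_iff hlaw.nonneg A True x).1 hx).1
    have B : ∀ {x}, 0 < q x → b x.1 = b x.2 := fun h =>
      hd.db _ _ (P1 (hqp h)) (P2 (hqp h)) (dbl_eq hp (hqp h))
    have O : ∀ {x}, 0 < q x → om x.1 = om x.2 := fun h =>
      hd.dom _ _ (P1 (hqp h)) (P2 (hqp h)) (Prod.ext (B h)
        (hd.dL _ _ (P1 (hqp h)) (P2 (hqp h)) (dbl_eq hp (hqp h))))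
    obtain ⟨k, hk⟩ : ∃ k, k = ⌊κ * (X : ℝ)⌋₊ := ⟨_, rfl⟩
    rw [← hk]
    have D : ∀ {x}, 0 < q x → Uni.dg k (fun x : Ω × Ω => om x.1) x = Uni.dg k om x.2 := by
      intro x hx
      show ⌊(2 : ℝ) ^ k * om x.1⌋ = ⌊(2 : ℝ) ^ k * om x.2⌋
      rw [O hx]
    have e1 : CH q (Uni.dg k (fun x => om x.1))
        (fun x => (Y x.2, ((G x.2, T x.2), (b x.1, ())))) =
        CH q (fun x => Uni.dg k om x.2) (fun x => (Y x.2, b x.2)) := by
      refine CH_congr hql.nonneg ?_ ?_ ?_ ?_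
      · intro x x' a a' e
        have e1 := (Prod.ext_iff.mp e).1
        show Uni.dg k om x.2 = Uni.dg k om x'.2
        rw [← D a, ← D a']
        exact e1
      · intro x x' a a' e
        have e1 : Uni.dg k om x.2 = Uni.dg k om x'.2 := (Prod.ext_iff.mp e).1
        rw [D a, D a', e1]
      · intro x x' a a' e
        have e1 := Prod.ext_iff.mp e
        have e2 : b x.1 = b x'.1 := (Prod.ext_iff.mp (Prod.ext_iff.mp e1.2).2).1
        refine Prod.ext e1.1 ?_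
        show b x.2 = b x'.2
        rw [← B a, ← B a', e2]
      · intro x x' a a' e
        have e1 := Prod.ext_iff.mp e
        have e2 := hd.dP _ _ (P2 (hqp a)) (P2 (hqp a')) e
        refine Prod.ext e1.1 (Prod.ext e2 (Prod.ext ?_ rfl))
        show b x.1 = b x'.1
        rw [B a, B a']
        exact e1.2
    rw [e1, (push_marg q Prod.snd).CH (Uni.dg k om) (fun ω => (Y ω, b ω))]
    have h3 := hL Ω ℤ _ p (push q Prod.snd) (Uni.dg k om)
      (fun ω => (Y ω, b ω)) (ca * k * Real.log 2) hd.law (push_law hql _)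
      (fun ω => by
        rw [hqe]
        exact push_le hlaw (dbl_snd hp) hϖ' hA ω)
      (mul_nonneg (mul_nonneg hca.le (Nat.cast_nonneg _)) (Real.log_nonneg (by norm_num)))
      (fun A' hA' => hk ▸ hh.act A' hA')
    linarith
  · -- the references are not in a strip
    exact ref_strip hd.law sl (fun ω => ((b ω, T ω), blk X y z ω)) S hε₁ hε hε' hh.th
  · -- nothing hidden
    refine (Pool.PRM.MI_le_CH hq _ _ _).trans ?_
    have h1 : CH (dbl p sl) (fun _ => ()) (fun x => (b x.1, T x.1)) ≤ 0 := by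
      refine (CH_eq_zero hq ?_).le
      intro _ _ _ _ _
      rfl
    linarith

end data

/-- **The flat step, pure form.** All slopes are zero, `c + 1` coordinates, general time laws: the
block of the position is full given the context and the time, and also if the velocity and the own
frame are given. -/
theorem fltv (c : ℕ) (ε ca κ K : ℝ) (hε : 0 < ε) (hca : 0 < ca) (hκ : 0 < κ) (hκ1 : κ ≤ 1)
    (hK : 0 ≤ K) :
    ∃ x₁ ϖ ε₂ : ℝ, 0 < x₁ ∧ 0 < ϖ ∧ 0 < ε₂ ∧ ∀ k' : ℕ, ∃ (ι : ℝ) (X₀ : ℕ), 0 < ι ∧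
    ∀ (Ω β Λ' γ Λ Θ υ : Type) [Fintype Ω] (p : Ω → ℝ) (b : Ω → β) (L : Ω → Λ') (G : Ω → γ)
      (sl : Ω → Λ) (T : Ω → Θ) (Y : Ω → υ) (y0 om : Ω → ℝ) (z0 be : Ω → Fin c → ℝ) (th : Ω → ℝ)
      (S : Ω → Fin c → ℝ) (y : Ω → ℝ) (z : Ω → Fin c → ℝ) (X : ℕ) (η : ℝ),
      FVDat c K p b L G sl T Y y0 om z0 be th S y z X → X₀ ≤ X →
      FVHyp c p b L G sl T Y om be th S y z X k' x₁ κ ϖ ι ε₂ ca η →
      (c + 1) * ((1 - ε - κ - 3 * η) * X * Real.log 2) ≤ CH p (blk X y z) (fun ω => (b ω, T ω)) ∧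
      (c + 1) * ((1 - ε - κ - 3 * η) * X * Real.log 2) - ε * X * Real.log 2 ≤
        CH p (blk X y z) (fun ω => (blk X om be ω, (G ω, (b ω, T ω)))) := by
  have l2 : 0 < Real.log 2 := Real.log_pos (by norm_num)
  obtain ⟨x₀, ϖ', ε₁, hx₀, hϖ', hε₁, hpl⟩ := plvk c ε (ca / 2) κ K hε (by positivity) hκ hκ1 hK
  obtain ⟨ϖ, hϖ, hL⟩ := Pool.DPL.layl_thm (1 / ϖ') (1 / 2) (by positivity) (by norm_num)
  refine ⟨x₀, ϖ, min (ε₁ / 2) (ε₁ ^ 2 / 2), hx₀, hϖ, lt_min (by positivity) (by positivity),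
    fun k' => ?_⟩
  obtain ⟨ι', n₀, hι', hpl⟩ := hpl k'
  obtain ⟨ι, hι⟩ : ∃ ι, ι = min (ι' / 2) (ε * Real.log 2 / 2) := ⟨_, rfl⟩
  have hι0 : 0 < ι := by
    rw [hι]
    exact lt_min (by positivity) (by positivity)
  have hι1 : 2 * ι ≤ ι' := by
    have : ι ≤ ι' / 2 := by
      rw [hι]
      exact min_le_left _ _
    linarith
  have hι2 : 2 * ι ≤ ε * Real.log 2 := by
    have : ι ≤ ε * Real.log 2 / 2 := by
      rw [hι]
      exact min_le_right _ _
    linarith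
  refine ⟨ι, n₀, hι0, ?_⟩
  intro Ω β Λ' γ Λ Θ υ _ p b L G sl T Y y0 om z0 be th S y z X η hd hX hh
  have hX0 : (0 : ℝ) ≤ X := Nat.cast_nonneg X
  have hp := hd.law.nonneg
  have key := hpl (Ω × Ω) _ _ _ _ _ _ (dbl p sl) _ _ _ _ _ _ _ _ _ _ _ _ _ _ _ X
    (3 * η) (toPVDv hd) hX (toPKHv hd hh hca hϖ' hL hι0.le hι1 hε₁ (min_le_left _ _)
      (min_le_right _ _))
  have e1 : CH (dbl p sl) (blk X (fun x => y x.1) (fun x => z x.1)) (fun x => (b x.1, T x.1)) =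
      CH p (blk X y z) (fun ω => (b ω, T ω)) :=
    (dbl_fst (b := sl) hp).CH (blk X y z) (fun ω => (b ω, T ω))
  rw [e1] at key
  refine ⟨key, ?_⟩
  -- the velocity and the own frame in the condition
  have g1 := dp_add_right hp (blk X y z) G (blk X om be) (fun ω => (b ω, T ω))
  have g2 : dp p (blk X y z) (blk X om be) (fun ω => (b ω, T ω)) ≤ ι * X := by
    rw [dp_symm hp]
    exact hh.b0
  have g3 : dp p (blk X y z) G (fun ω => (blk X om be ω, (b ω, T ω))) ≤ ι * X := by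
    have f1 := dp_add hp (blk X y z) (blk X om be) G (fun ω => (b ω, T ω))
    have f2 := dp_nonneg hp (blk X om be) G (fun ω => (b ω, T ω))
    have f3 : dp p (fun ω => (blk X y z ω, blk X om be ω)) G (fun ω => (b ω, T ω)) ≤
        dp p L G (fun ω => (b ω, T ω)) := by
      refine dp_mono hp ?_ (fun _ _ _ _ e => (Prod.ext_iff.mp e).1)
      intro ω ω' a a' e
      have e4 := vdet_blk hd ω ω' a a' e
      have e5 := Prod.ext_iff.mp e4
      exact Prod.ext e5.2 e5.1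
    have f4 := vtm_G hd hh
    linarith
  have g4 : dp p (blk X y z) (fun ω => (G ω, blk X om be ω)) (fun ω => (b ω, T ω)) =
      CH p (blk X y z) (fun ω => (b ω, T ω)) -
        CH p (blk X y z) (fun ω => ((G ω, blk X om be ω), (b ω, T ω))) := rfl
  have g5 : CH p (blk X y z) (fun ω => ((G ω, blk X om be ω), (b ω, T ω))) =
      CH p (blk X y z) (fun ω => (blk X om be ω, (G ω, (b ω, T ω)))) := by
    refine CH_congr hp (fun _ _ _ _ h => (Prod.ext_iff.mp h).1)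
      (fun _ _ _ _ h => (Prod.ext_iff.mp h).1) ?_ ?_
    · intro ω ω' _ _ e
      have e1 := Prod.ext_iff.mp e
      have e2 := Prod.ext_iff.mp e1.1
      exact Prod.ext e2.2 (Prod.ext e2.1 e1.2)
    · intro ω ω' _ _ e
      have e1 := Prod.ext_iff.mp e
      have e2 := Prod.ext_iff.mp e1.2
      exact Prod.ext (Prod.ext e2.1 e1.1) e2.2
  rw [g5] at g4
  have g6 : 2 * (ι * X) ≤ ε * X * Real.log 2 := by
    have := mul_le_mul_of_nonneg_right hι2 hX0
    linarith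
  linarith

end Pool.KG
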