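import Pool.Agent.H68.KG.EarlyB
import Pool.Agent.H46.S6.Pvg

/-!
# Theorem PLV for general time laws

`plvk`: theorem PLV (helper46) with time laws which are live in most windows (the mean number of
near pairs of samples of one line), from lemma W in the mean over the contexts (`w_ctx`). The
activity of the velocity is only used for one early block.
-/

set_option autoImplicit false

namespace Pool.KG

open Finset Real
open Pool.Agent.H49.Ent Pool.Agent.H32.Dense Pool.STK Pool.KA Pool.PRM Pool.KVA Pool.M5 Pool.K2S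
open Pool.PLV (PVData prj Cst Cst_nonneg b1 dgv blk act_ref ind_ref CH_prj MI_congr GD plv_auxg
  CH_nearv)

section offset

variable {Ω S T : Type} [Fintype Ω]

/-- Two copies of a sample only depend on the classes of the label on the support. -/
theorem dbl_supp {p : Ω → ℝ} (hp : ∀ ω, 0 ≤ p ω) {κ : Ω → S} {κ' : Ω → T}
    (h : ∀ ω ω', 0 < p ω → 0 < p ω' → (κ ω = κ ω' ↔ κ' ω = κ' ω')) : dbl p κ = dbl p κ' := by
  classical
  funext w
  unfold dbl glue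
  rcases (hp w.1).eq_or_lt with h1 | h1
  · rw [← h1]
    simp
  rcases (hp w.2).eq_or_lt with h2 | h2
  · rw [← h2]
    simp
  have hl : law p κ (κ w.1) = law p κ' (κ' w.1) := by
    unfold law
    refine Finset.sum_congr rfl fun v _ => ?_
    rcases (hp v).eq_or_lt with h3 | h3
    · rw [← h3]
      simp
    · have h4 := h v w.1 h3 h1
      by_cases h5 : κ v = κ w.1
      · rw [if_pos h5, if_pos (h4.1 h5)]
      · rw [if_neg h5, if_neg (fun h6 => h5 (h4.2 h6))]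
  have h3 := h w.1 w.2 h1 h2
  by_cases h4 : κ w.1 = κ w.2
  · rw [if_pos h4, if_pos (h3.1 h4), hl]
  · rw [if_neg h4, if_neg (fun h5 => h4 (h3.2 h5))]

/-- Near samples only depend on the classes of the line on the support. -/
theorem nr_supp {p : Ω → ℝ} (hp : ∀ ω, 0 ≤ p ω) {κ : Ω → S} {κ' : Ω → T} (θ : Ω → ℝ)
    (h : ∀ ω ω', 0 < p ω → 0 < p ω' → (κ ω = κ ω' ↔ κ' ω = κ' ω')) (k' i : ℕ) :
    OCG.nr p κ θ k' i = OCG.nr p κ' θ k' i := by
  unfold OCG.nr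
  rw [dbl_supp hp (κ := OCG.kp κ θ i) (κ' := OCG.kp κ' θ i)]
  intro ω ω' a b
  have := h ω ω' a b
  unfold OCG.kp
  simp only [Prod.mk.injEq]
  tauto

end offset

/-- **One early block of velocities, in the mean over the contexts**, with an offset. -/
theorem w_ctxS (κ ca ε : ℝ) (hκ : 0 < κ) (hκ1 : κ ≤ 1) (hca : 0 < ca) (hε : 0 < ε) :
    ∃ ϖ : ℝ, 0 < ϖ ∧ ∀ k' : ℕ, ∃ (ι : ℝ) (X₀ : ℕ), 0 < ι ∧
    ∀ (Ω β Λ Θ : Type) [Fintype Ω] (p : Ω → ℝ) (b : Ω → β) (L : Ω → Λ) (T : Ω → Θ)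
      (y om th k nu : Ω → ℝ) (X : ℕ), IsLaw p → Det p (fun ω => (b ω, L ω)) y →
      Det p (fun ω => (b ω, L ω)) om → Det p (fun ω => (b ω, T ω)) th →
      (∀ ω, 0 < p ω → 0 ≤ th ω ∧ th ω < 1) → Det p (fun ω => (b ω, T ω)) k →
      (∀ ω, 0 < p ω → nu ω = y ω + th ω * om ω + k ω) → X₀ ≤ X →
      Pool.KVA.MI p T L b ≤ ι * X →
      CH p (Uni.dg X nu) (fun ω => (b ω, T ω)) -
        CH p (Uni.dg X nu) (fun ω => (Uni.dg X om ω, (b ω, T ω))) ≤ ι * X →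
      ∀ η : ℝ, ∑ i ∈ range X, OCG.nr p (fun ω => (L ω, b ω)) th k' i ≤ η * X →
      (∀ E : Ω → Prop, ϖ ≤ Pe p E → ca * ⌊κ * X⌋₊ * Real.log 2 ≤
        CH (Pool.Agent.H49.Ent.cond p E True) (Uni.dg ⌊κ * X⌋₊ om) (fun ω => (⌊om ω⌋, b ω))) →
      (1 - ε - η) * X * Real.log 2 - ⌊κ * X⌋₊ * Real.log 2 ≤
        CH p (Uni.dg X nu) (fun ω => (b ω, T ω)) := by
  have hl2 : 0 < Real.log 2 := Real.log_pos (by norm_num)
  obtain ⟨l5, hl5e⟩ : ∃ l5, l5 = Real.log (2 * 2 + 1) := ⟨_, rfl⟩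
  have hl5 : 0 < l5 := by rw [hl5e]; exact Real.log_pos (by norm_num)
  obtain ⟨ϖ, hϖ, hW⟩ := w_ctx κ ca (ε / 2) hκ hκ1 hca (by positivity)
  refine ⟨ϖ, hϖ, fun k' => ?_⟩
  obtain ⟨ι, X₁, hι, hW⟩ := hW k'
  obtain ⟨X₂, hX₂⟩ := exists_nat_ge (2 * l5 / ι)
  obtain ⟨X₃, hX₃⟩ := exists_nat_ge (2 * l5 / (ε * Real.log 2))
  refine ⟨ι / 2, X₁ + X₂ + X₃, by positivity, ?_⟩
  intro Ω β Λ Θ _ p b L T y om th k nu X hp hy hom hth hth1 hk hnu hX h1 h2 η h3 h4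
  have h0 := hp.nonneg
  have hXr : (0 : ℝ) ≤ X := Nat.cast_nonneg X
  have b1 : l5 ≤ ι / 2 * X := by
    have h5 : (2 * l5 / ι : ℝ) ≤ X :=
      hX₂.trans (by exact_mod_cast (by omega : X₂ ≤ X))
    rw [div_le_iff₀ hι] at h5
    linarith
  have b2 : l5 ≤ ε / 2 * X * Real.log 2 := by
    have h5 : (2 * l5 / (ε * Real.log 2) : ℝ) ≤ X :=
      hX₃.trans (by exact_mod_cast (by omega : X₃ ≤ X))
    rw [div_le_iff₀ (by positivity)] at h5
    linarith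
  obtain ⟨nu', hnu'⟩ : ∃ nu' : Ω → ℝ, nu' = fun ω => nu ω - k ω := ⟨_, rfl⟩
  have fa : ∀ x : ℝ, |(⌊x⌋ : ℝ) - x| ≤ 1 := fun x => by
    rw [abs_le]
    have := Int.floor_le x
    have := Int.lt_floor_add_one x
    constructor <;> linarith
  have near : ∀ ω, |(Uni.dg X nu' ω : ℝ) - ((Uni.dg X nu ω : ℝ) - 2 ^ X * k ω)| ≤ 2 := by
    intro ω
    have e1 := fa ((2 : ℝ) ^ X * nu' ω)
    have e2 := fa ((2 : ℝ) ^ X * nu ω)
    have e3 : (2 : ℝ) ^ X * nu' ω = 2 ^ X * nu ω - 2 ^ X * k ω := by rw [hnu']; ring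
    show |(⌊(2 : ℝ) ^ X * nu' ω⌋ : ℝ) - ((⌊(2 : ℝ) ^ X * nu ω⌋ : ℝ) - 2 ^ X * k ω)| ≤ 2
    rw [e3] at e1 ⊢
    rw [abs_le] at e1 e2 ⊢
    constructor <;> linarith
  -- the two positions
  have c1 : ∀ {τ : Type} (Z : Ω → τ), Det p Z k →
      CH p (Uni.dg X nu') (fun ω => (Uni.dg X nu ω, Z ω)) ≤ l5 := by
    intro τ Z hZ
    rw [hl5e]
    refine Sel.CH_near hp _ _ (fun ω => (Uni.dg X nu ω : ℝ) - 2 ^ X * k ω) ?_ (by norm_num)
      (fun ω _ => near ω)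
    intro ω ω' a b e
    have e1 := Prod.ext_iff.mp e
    have e2 : Uni.dg X nu ω = Uni.dg X nu ω' := e1.1
    have e3 := hZ ω ω' a b e1.2
    show (Uni.dg X nu ω : ℝ) - 2 ^ X * k ω = (Uni.dg X nu ω' : ℝ) - 2 ^ X * k ω'
    rw [e2, e3]
  have c2 : ∀ {τ : Type} (Z : Ω → τ), Det p Z k →
      CH p (Uni.dg X nu) (fun ω => (Uni.dg X nu' ω, Z ω)) ≤ l5 := by
    intro τ Z hZ
    rw [hl5e]
    refine Sel.CH_near hp _ _ (fun ω => (Uni.dg X nu' ω : ℝ) + 2 ^ X * k ω) ?_ (by norm_num)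
      (fun ω _ => ?_)
    · intro ω ω' a b e
      have e1 := Prod.ext_iff.mp e
      have e2 : Uni.dg X nu' ω = Uni.dg X nu' ω' := e1.1
      have e3 := hZ ω ω' a b e1.2
      show (Uni.dg X nu' ω : ℝ) + 2 ^ X * k ω = (Uni.dg X nu' ω' : ℝ) + 2 ^ X * k ω'
      rw [e2, e3]
    · have := near ω
      rw [abs_le] at this ⊢
      constructor <;> linarith
  have hw : WData p b L T y om th nu' := by
    refine ⟨hp, hy, hom, hth, hth1, fun ω hω => ?_⟩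
    rw [hnu']
    show nu ω - k ω = y ω + th ω * om ω
    rw [hnu ω hω]
    ring
  have hMI : CH p (Uni.dg X nu') (fun ω => (b ω, T ω)) -
      CH p (Uni.dg X nu') (fun ω => (Uni.dg X om ω, (b ω, T ω))) ≤ ι * X := by
    have e1 := CH_le_add h0 (Uni.dg X nu') (Uni.dg X nu) (fun ω => (b ω, T ω))
    have e2 := c1 (fun ω => (b ω, T ω)) hk
    have e3 := CH_le_add h0 (Uni.dg X nu) (Uni.dg X nu') (fun ω => (Uni.dg X om ω, (b ω, T ω)))
    have e4 := c2 (fun ω => (Uni.dg X om ω, (b ω, T ω))) (fun ω ω' a c e =>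
      hk ω ω' a c (Prod.ext_iff.mp e).2)
    -- mutual informations
    have m1 := MI_le_add' h0 (Uni.dg X nu') (Uni.dg X nu) (Uni.dg X om) (fun ω => (b ω, T ω))
    rw [MI_eq h0, MI_eq h0] at m1
    linarith
  have key := hW Ω β Λ Θ p b L T y om th nu' X hw (by omega)
    (h1.trans (mul_le_mul_of_nonneg_right (by linarith) hXr)) hMI η h3 h4
  have e1 := CH_le_add h0 (Uni.dg X nu') (Uni.dg X nu) (fun ω => (b ω, T ω))
  have e2 := c1 (fun ω => (b ω, T ω)) hk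
  linarith

/-! ### Theorem PLV -/

section plv

variable {Ω β γ Λ Θ ρ υ : Type} [Fintype Ω] {c : ℕ} {K : ℝ} {p : Ω → ℝ} {vis : Ω → β}
    {lam : Ω → γ} {L : Ω → Λ} {T : Ω → Θ} {R : Ω → ρ} {Y : Ω → υ} {y0 om : Ω → ℝ}
    {z0 be : Ω → Fin c → ℝ} {th th' : Ω → ℝ} {S : Ω → Fin c → ℝ} {y : Ω → ℝ} {z : Ω → Fin c → ℝ}
    {X : ℕ}

/-- The hypotheses of theorem PLV, general time laws. `L` is the line, `R` the reference. -/
structure PKHyp {Ω β γ Λ Θ ρ υ : Type} [Fintype Ω] (c : ℕ) (p : Ω → ℝ) (vis : Ω → β)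
    (lam : Ω → γ) (L : Ω → Λ) (T : Ω → Θ) (R : Ω → ρ) (Y : Ω → υ) (om : Ω → ℝ)
    (be : Ω → Fin c → ℝ) (th : Ω → ℝ) (S : Ω → Fin c → ℝ) (y : Ω → ℝ) (z : Ω → Fin c → ℝ)
    (X k' : ℕ) (x₀ κ ϖ ι ε₁ ca η : ℝ) : Prop where
  h1 : Pool.KVA.MI p T L (fun ω => (R ω, (vis ω, lam ω))) ≤ ι * X
  h1' : ∑ i ∈ range X, OCG.nr p (fun ω => (L ω, (R ω, (vis ω, lam ω)))) th k' i ≤ η * X
  h2 : Pool.KVA.MI p (blk X y z) (fun ω => ((Uni.dg X om ω, dgv X be ω), R ω))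
    (fun ω => ((vis ω, lam ω), T ω)) ≤ ι * X
  h4 : ∀ A : Ω → Prop, ϖ ≤ Pe p A → ca * ⌊κ * X⌋₊ * Real.log 2 ≤
    CH (Pool.Agent.H49.Ent.cond p A True) (Uni.dg ⌊κ * X⌋₊ om)
      (fun ω => (Y ω, (R ω, (vis ω, lam ω))))
  h6 : Pool.KAF.Pr p {ω | ∃ n : Fin (c + 1) → ℝ, (∀ i, |n i| ≤ 1) ∧ (∃ i, |n i| = 1) ∧
    ε₁ < Pool.KAF.Pr (Pool.Agent.H49.Ent.cond p (fun ω => ((vis ω, T ω), blk X y z ω))
        ((vis ω, T ω), blk X y z ω))
      {ω' | |n 0 + ∑ i, n i.succ * S ω' i| < (2 : ℝ) ^ (-(x₀ * X))}} ≤ ε₁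
  h7 : Pool.KVA.MI p (blk X y z) lam (fun ω => (vis ω, T ω)) ≤ ι * X

/-- Lemma W with its constants. -/
def WCC (κ ca ε ϖ : ℝ) (k' : ℕ) (ι : ℝ) (X₀ : ℕ) : Prop :=
    ∀ (Ω β Λ Θ : Type) [Fintype Ω] (p : Ω → ℝ) (b : Ω → β) (L : Ω → Λ) (T : Ω → Θ)
      (y om th k nu : Ω → ℝ) (X : ℕ), IsLaw p → Det p (fun ω => (b ω, L ω)) y →
      Det p (fun ω => (b ω, L ω)) om → Det p (fun ω => (b ω, T ω)) th →
      (∀ ω, 0 < p ω → 0 ≤ th ω ∧ th ω < 1) → Det p (fun ω => (b ω, T ω)) k →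
      (∀ ω, 0 < p ω → nu ω = y ω + th ω * om ω + k ω) → X₀ ≤ X →
      Pool.KVA.MI p T L b ≤ ι * X →
      CH p (Uni.dg X nu) (fun ω => (b ω, T ω)) -
        CH p (Uni.dg X nu) (fun ω => (Uni.dg X om ω, (b ω, T ω))) ≤ ι * X →
      ∀ η : ℝ, ∑ i ∈ range X, OCG.nr p (fun ω => (L ω, b ω)) th k' i ≤ η * X →
      (∀ E : Ω → Prop, ϖ ≤ Pe p E → ca * ⌊κ * X⌋₊ * Real.log 2 ≤
        CH (Pool.Agent.H49.Ent.cond p E True) (Uni.dg ⌊κ * X⌋₊ om) (fun ω => (⌊om ω⌋, b ω))) →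
      (1 - ε - η) * X * Real.log 2 - ⌊κ * X⌋₊ * Real.log 2 ≤
        CH p (Uni.dg X nu) (fun ω => (b ω, T ω))

/-- **The block is full along the frame of a reference.** -/
theorem one_refK (hK : 0 ≤ K) {ε ca κ ϖ ι ι' x₀ ε₁ η : ℝ} {k' n₀ : ℕ} (hκ : 0 < κ) (hκ1 : κ ≤ 1)
    (hW : WCC κ (ca / 2) ε ϖ k' ι n₀) (hϖ : 0 < ϖ)
    (hd : PVData c K p vis lam L T R Y y0 om z0 be th th' S y z X)
    (hp : PKHyp c p vis lam L T R Y om be th S y z X k' x₀ κ ϖ ι' ε₁ ca η) (hX : n₀ ≤ X)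
    (hι : ι' ≤ ι) (hι2 : ι' * X + 3 * Cst c K ≤ ι * X)
    (hη : 3 * Cst c K ≤ ca / 2 * ⌊κ * X⌋₊ * Real.log 2) :
    (1 - ε - η) * X * Real.log 2 - ⌊κ * X⌋₊ * Real.log 2 - Cst c K ≤
      CH p (Uni.dg X y) (fun ω => (prj X y z S ω, ((vis ω, T ω), (lam ω, R ω)))) := by
  have h0 := hd.law.nonneg
  have hX0 : (0 : ℝ) ≤ X := Nat.cast_nonneg X
  have l2 : (0 : ℝ) ≤ Real.log 2 := Real.log_nonneg (by norm_num)
  have hC := Cst_nonneg c hK
  obtain ⟨k, hk, ek⟩ := hd.hy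
  have hhX : ⌊κ * X⌋₊ ≤ X := by
    have h5 : ((⌊κ * X⌋₊ : ℕ) : ℝ) ≤ X := (Nat.floor_le (by positivity)).trans (by nlinarith)
    exact_mod_cast h5
  -- the variables of the line and of the reference determine the context
  have dS : ∀ ω ω', 0 < p ω → 0 < p ω' → (L ω, (R ω, (vis ω, lam ω))) =
      (L ω', (R ω', (vis ω', lam ω'))) →
      b1 X vis lam R y0 om z0 be S ω = b1 X vis lam R y0 om z0 be S ω' := by
    intro ω ω' a b e
    simp only [Prod.mk.injEq] at e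
    obtain ⟨e1, e2, e3, e4⟩ := e
    have f1 := hd.dS ω ω' a b (by simp only [e2, e3, e4])
    have f2 := hd.dy0 ω ω' a b (by simp only [e1, e3, e4])
    have f3 := hd.dom ω ω' a b (by simp only [e1, e3, e4])
    have f4 := hd.dz0 ω ω' a b (by simp only [e1, e3, e4])
    have f5 := hd.dbe ω ω' a b (by simp only [e1, e3, e4])
    unfold b1 dgv
    simp only [e2, e3, e4, f1, f2, f3, f4, f5]
  have H1 : MI p T L (b1 X vis lam R y0 om z0 be S) ≤ ι * X := by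
    have e1 := MI_chain_right h0 T (fun ω => (dgv X (fun ω i => z0 ω i - S ω i * y0 ω) ω,
      dgv X (fun ω i => be ω i - S ω i * om ω) ω)) L (fun ω => (R ω, (vis ω, lam ω)))
    have e2 := MI_nonneg h0 T (fun ω => (dgv X (fun ω i => z0 ω i - S ω i * y0 ω) ω,
      dgv X (fun ω i => be ω i - S ω i * om ω) ω)) (fun ω => (R ω, (vis ω, lam ω)))
    have e3 : MI p T (fun ω => ((dgv X (fun ω i => z0 ω i - S ω i * y0 ω) ω,
        dgv X (fun ω i => be ω i - S ω i * om ω) ω), L ω)) (fun ω => (R ω, (vis ω, lam ω))) =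
        MI p T L (fun ω => (R ω, (vis ω, lam ω))) := by
      refine MI_congr h0 T ?_ ?_ (fun _ _ _ _ h => h) (fun _ _ _ _ h => h)
      · intro ω ω' _ _ h
        simp only [Prod.mk.injEq] at h ⊢
        tauto
      · intro ω ω' a b h
        have h2 := dS ω ω' a b h
        unfold b1 at h2
        simp only [Prod.mk.injEq] at h h2 ⊢
        tauto
    have e4 : MI p T L (fun ω => ((dgv X (fun ω i => z0 ω i - S ω i * y0 ω) ω,
        dgv X (fun ω i => be ω i - S ω i * om ω) ω), (R ω, (vis ω, lam ω)))) =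
        MI p T L (b1 X vis lam R y0 om z0 be S) := by
      refine MI_congr h0 T ?_ ?_ ?_ ?_ <;>
      · intro ω ω' _ _ h
        unfold b1 at *
        simp only [Prod.mk.injEq] at h ⊢
        tauto
    have e5 := hp.h1
    have e6 : ι' * X ≤ ι * X := mul_le_mul_of_nonneg_right hι hX0
    linarith
  have H1' : ∑ i ∈ range X, OCG.nr p (fun ω => (L ω, b1 X vis lam R y0 om z0 be S ω)) th k' i ≤
      η * X := by
    refine le_trans (le_of_eq ?_) hp.h1'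
    refine Finset.sum_congr rfl fun i _ => nr_supp h0 th (fun ω ω' a b => ?_) k' i
    constructor
    · intro h
      unfold b1 at h
      simp only [Prod.mk.injEq] at h ⊢
      tauto
    · intro h
      exact Prod.ext (Prod.ext_iff.mp h).1 (dS ω ω' a b h)
  have H2 := ind_ref hd hK hp.h2
  have H4 : ∀ A : Ω → Prop, ϖ ≤ Pe p A →
      ca / 2 * ⌊κ * X⌋₊ * Real.log 2 ≤ CH (Pool.Agent.H49.Ent.cond p A True)
        (Uni.dg ⌊κ * X⌋₊ om) (fun ω => (⌊om ω⌋, b1 X vis lam R y0 om z0 be S ω)) := by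
    intro A hA
    have hAp : 0 < Pe p A := hϖ.trans_le hA
    have hq0 : ∀ ω, 0 ≤ Pool.Agent.H49.Ent.cond p A True ω := cond_nonneg h0 _ _
    have hsup : ∀ ω, 0 < Pool.Agent.H49.Ent.cond p A True ω → 0 < p ω := fun ω hω =>
      ((cond_pos_iff h0 A True ω).1 hω).1
    have hz : ∀ ω, 0 < Pool.Agent.H49.Ent.cond p A True ω → Uni.dg 0 om ω = 0 := fun ω hω => by
      show ⌊(2 : ℝ) ^ 0 * om ω⌋ = 0
      rw [pow_zero, one_mul, Int.floor_eq_zero_iff]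
      exact hd.hom ω (hsup ω hω)
    have hY : CH (Pool.Agent.H49.Ent.cond p A True) (Uni.dg ⌊κ * X⌋₊ om)
        (fun ω => (Y ω, (R ω, (vis ω, lam ω)))) =
        CH (Pool.Agent.H49.Ent.cond p A True) (Uni.dg (0 + ⌊κ * X⌋₊) om)
        (fun ω => (Uni.dg 0 om ω, (Y ω, (R ω, (vis ω, lam ω))))) := by
      rw [Nat.zero_add]
      refine CH_congr hq0 ?_ ?_ ?_ ?_
      · intro ω ω' _ _ e
        exact (Prod.ext_iff.mp e).1
      · intro ω ω' _ _ e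
        exact (Prod.ext_iff.mp e).1
      · intro ω ω' a b e
        exact Prod.ext ((hz ω a).trans (hz ω' b).symm) e
      · intro ω ω' _ _ e
        exact (Prod.ext_iff.mp e).2
    have e1 := hp.h4 A hA
    rw [hY] at e1
    have e2 := act_ref hK hd (by omega) hAp e1
    rw [Nat.zero_add] at e2
    have e3 : CH (Pool.Agent.H49.Ent.cond p A True) (Uni.dg ⌊κ * X⌋₊ om)
        (fun ω => (Uni.dg 0 om ω, (Uni.dg 0 y0 ω, b1 X vis lam R y0 om z0 be S ω))) ≤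
        CH (Pool.Agent.H49.Ent.cond p A True) (Uni.dg ⌊κ * X⌋₊ om)
        (fun ω => (⌊om ω⌋, b1 X vis lam R y0 om z0 be S ω)) := by
      refine CH_mono_cond hq0 ?_
      intro ω ω' _ _ e
      have f1 := Prod.ext_iff.mp e
      have f2 : Uni.dg 0 om ω = Uni.dg 0 om ω' := f1.1
      unfold Uni.dg at f2
      rw [pow_zero, one_mul, one_mul] at f2
      exact Prod.ext f2 (Prod.ext_iff.mp f1.2).2
    have e4 : ca * ⌊κ * X⌋₊ * Real.log 2 =
      ca / 2 * ⌊κ * X⌋₊ * Real.log 2 + ca / 2 * ⌊κ * X⌋₊ * Real.log 2 := by ring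
    linarith
  have H := hW Ω _ Λ Θ p (b1 X vis lam R y0 om z0 be S) L T y0 om th k y X hd.law
    (fun ω ω' a b e => by
      unfold b1 at e
      simp only [Prod.mk.injEq] at e
      exact hd.dy0 ω ω' a b (by simp only [Prod.mk.injEq]; tauto))
    (fun ω ω' a b e => by
      unfold b1 at e
      simp only [Prod.mk.injEq] at e
      exact hd.dom ω ω' a b (by simp only [Prod.mk.injEq]; tauto))
    (fun ω ω' a b e => by
      unfold b1 at e
      simp only [Prod.mk.injEq] at e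
      exact hd.dth ω ω' a b (by simp only [Prod.mk.injEq]; tauto))
    hd.hth
    (fun ω ω' a b e => by
      unfold b1 at e
      simp only [Prod.mk.injEq] at e
      exact hk ω ω' a b (by simp only [Prod.mk.injEq]; tauto))
    ek hX H1 (H2.trans hι2) η H1' H4
  -- the transversal coordinates
  have e1 := CH_prj hd hK
  have e2 := CH_le_add h0 (Uni.dg X y) (prj X y z S)
    (fun ω => (b1 X vis lam R y0 om z0 be S ω, T ω))
  have e3 : CH p (Uni.dg X y) (fun ω => (prj X y z S ω,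
      (b1 X vis lam R y0 om z0 be S ω, T ω))) ≤
      CH p (Uni.dg X y) (fun ω => (prj X y z S ω, ((vis ω, T ω), (lam ω, R ω)))) := by
    refine CH_mono_cond h0 ?_
    intro ω ω' _ _ h
    unfold b1 at h
    simp only [Prod.mk.injEq] at h ⊢
    tauto
  linarith

/-- **Theorem PLV, general time laws.** The loss is `κ` (the early block) and the proportion `η` of
the dead windows. -/
theorem plvk (c : ℕ) (ε ca κ K : ℝ) (hε : 0 < ε) (hca : 0 < ca) (hκ : 0 < κ) (hκ1 : κ ≤ 1)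
    (hK : 0 ≤ K) :
    ∃ (x₀ ϖ ε₁ : ℝ), 0 < x₀ ∧ 0 < ϖ ∧ 0 < ε₁ ∧ ∀ k' : ℕ, ∃ (ι : ℝ) (n₀ : ℕ), 0 < ι ∧
    ∀ (Ω β γ Λ Θ ρ υ : Type) [Fintype Ω] (p : Ω → ℝ) (vis : Ω → β) (lam : Ω → γ) (L : Ω → Λ)
      (T : Ω → Θ) (R : Ω → ρ) (Y : Ω → υ) (y0 om : Ω → ℝ) (z0 be : Ω → Fin c → ℝ)
      (th th' : Ω → ℝ) (S : Ω → Fin c → ℝ) (y : Ω → ℝ) (z : Ω → Fin c → ℝ) (X : ℕ) (η : ℝ),
      PVData c K p vis lam L T R Y y0 om z0 be th th' S y z X → n₀ ≤ X →
      PKHyp c p vis lam L T R Y om be th S y z X k' x₀ κ ϖ ι ε₁ ca η →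
      (c + 1) * ((1 - ε - κ - η) * X * Real.log 2) ≤ CH p (blk X y z) (fun ω => (vis ω, T ω)) := by
  have l2 : 0 < Real.log 2 := Real.log_pos (by norm_num)
  obtain ⟨e, he⟩ : ∃ e : ℝ, e = ε / 8 := ⟨_, rfl⟩
  have he0 : 0 < e := by
    rw [he]
    positivity
  obtain ⟨ϖ, hϖ, hw⟩ := w_ctxS κ (ca / 2) e hκ hκ1 (by positivity) he0
  refine ⟨e, ϖ, e / 2, he0, hϖ, by positivity, fun k' => ?_⟩
  obtain ⟨ι, n₁, hι, hw⟩ := hw k'
  obtain ⟨C1, hC1⟩ : ∃ C1 : ℝ, C1 = (c + 1) * Real.log (4 * (c + 2) + 1) +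
    Real.log (2 * c + 3) := ⟨_, rfl⟩
  obtain ⟨ι', hι'⟩ : ∃ ι' : ℝ, ι' = min (ι / 2) (e * Real.log 2 / (2 * c + 2)) := ⟨_, rfl⟩
  have hι'0 : 0 < ι' := by
    rw [hι']
    exact lt_min (by positivity) (by positivity)
  have hι'1 : ι' ≤ ι / 2 := by rw [hι']; exact min_le_left _ _
  have hι'2 : c * (2 * ι') ≤ e * Real.log 2 := by
    have h1 : ι' ≤ e * Real.log 2 / (2 * c + 2) := by rw [hι']; exact min_le_right _ _
    rw [le_div_iff₀ (by positivity)] at h1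
    nlinarith
  have hC := Cst_nonneg c hK
  have lK : 0 ≤ Real.log (4 * (K + 1) + 1) := Real.log_nonneg (by linarith)
  obtain ⟨X₁, hX₁⟩ := exists_nat_ge (6 * Cst c K / ι)
  obtain ⟨X₂, hX₂⟩ := exists_nat_ge ((6 * Cst c K / (ca * Real.log 2) + 1) / κ)
  obtain ⟨X₃, hX₃⟩ := exists_nat_ge ((Cst c K + C1 + e * Real.log (4 * (K + 1) + 1)) /
    (e * Real.log 2))
  refine ⟨ι', n₁ + X₁ + X₂ + X₃, hι'0, ?_⟩
  intro Ω β γ Λ Θ ρ υ _ p vis lam L T R Y y0 om z0 be th th' S y z X η hd hX hp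
  have hXr : (0 : ℝ) ≤ X := Nat.cast_nonneg X
  have h0 := hd.law.nonneg
  have b1 : 3 * Cst c K ≤ ι / 2 * X := by
    have h1 : (6 * Cst c K / ι : ℝ) ≤ X := hX₁.trans (by exact_mod_cast (by omega : X₁ ≤ X))
    rw [div_le_iff₀ hι] at h1
    linarith
  have b2 : 3 * Cst c K ≤ ca / 2 * ⌊κ * X⌋₊ * Real.log 2 := by
    have h1 : ((6 * Cst c K / (ca * Real.log 2) + 1) / κ : ℝ) ≤ X :=
      hX₂.trans (by exact_mod_cast (by omega : X₂ ≤ X))
    rw [div_le_iff₀ hκ] at h1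
    have h2 : (κ : ℝ) * X < ⌊κ * X⌋₊ + 1 := Nat.lt_floor_add_one _
    have h3 : 6 * Cst c K / (ca * Real.log 2) ≤ ⌊κ * X⌋₊ := by linarith
    rw [div_le_iff₀ (by positivity)] at h3
    linarith
  have b3 : Cst c K + C1 + e * Real.log (4 * (K + 1) + 1) ≤ e * Real.log 2 * X := by
    have h1 : ((Cst c K + C1 + e * Real.log (4 * (K + 1) + 1)) / (e * Real.log 2) : ℝ) ≤ X :=
      hX₃.trans (by exact_mod_cast (by omega : X₃ ≤ X))
    rw [div_le_iff₀ (by positivity)] at h1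
    linarith
  have h1 := one_refK hK hκ hκ1 hw hϖ hd hp (by omega) (by linarith : ι' ≤ ι)
    (by
      have h2 : ι' * X ≤ ι / 2 * X := mul_le_mul_of_nonneg_right hι'1 hXr
      linarith) b2
  have hMI : MI p (blk X y z) (fun ω => (lam ω, R ω)) (fun ω => (vis ω, T ω)) ≤ 2 * (ι' * X) := by
    have e1 := MI_chain_right h0 (blk X y z) lam R (fun ω => (vis ω, T ω))
    have e2 := hp.h7
    have e3 := MI_chain_right h0 (blk X y z) R (fun ω => (Uni.dg X om ω, dgv X be ω))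
      (fun ω => ((vis ω, lam ω), T ω))
    have e4 := MI_nonneg h0 (blk X y z) (fun ω => (Uni.dg X om ω, dgv X be ω))
      (fun ω => (R ω, ((vis ω, lam ω), T ω)))
    have e5 : MI p (blk X y z) (fun ω => (R ω, (Uni.dg X om ω, dgv X be ω)))
        (fun ω => ((vis ω, lam ω), T ω)) =
        MI p (blk X y z) (fun ω => ((Uni.dg X om ω, dgv X be ω), R ω))
        (fun ω => ((vis ω, lam ω), T ω)) := by
      refine MI_congr h0 _ ?_ ?_ (fun _ _ _ _ h => h) (fun _ _ _ _ h => h) <;>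
      · intro ω ω' _ _ h
        simp only [Prod.mk.injEq] at h ⊢
        tauto
    have e6 : MI p (blk X y z) R (fun ω => (lam ω, (vis ω, T ω))) =
        MI p (blk X y z) R (fun ω => ((vis ω, lam ω), T ω)) := by
      refine MI_congr h0 _ ?_ ?_ ?_ ?_ <;>
      · intro ω ω' _ _ h
        simp only [Prod.mk.injEq] at h ⊢
        tauto
    have e7 := hp.h2
    linarith
  have hgd : GD K p vis lam R S y := ⟨hd.law, hd.dS, hd.hyb⟩
  have h2 := plv_auxg hK hgd hMI hp.h6 he0.le (by positivity : 0 ≤ e / 2) h1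
  refine le_trans ?_ h2
  have hm : (0 : ℝ) ≤ c + 1 := by positivity
  refine mul_le_mul_of_nonneg_left ?_ hm
  have h3 : c * (2 * (ι' * X)) ≤ e * Real.log 2 * X := by
    have := mul_le_mul_of_nonneg_right hι'2 hXr
    linarith
  have h4 : (⌊κ * X⌋₊ : ℝ) * Real.log 2 ≤ κ * X * Real.log 2 :=
    mul_le_mul_of_nonneg_right (Nat.floor_le (by positivity)) l2.le
  have h6 : 0 ≤ e * Real.log 2 * X := by positivity
  have h5 : ε = 8 * e := by rw [he]; ring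
  rw [h5]
  linarith

end plv

end Pool.KG
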