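import Pool.Agent.H68.KG.FltM

/-!
# Natural fullness from the fullness along the own frame

`sfv` (pure): let `y` be the position along the own frame of a sample, `nu = z - S y` the rows across
the own frame and `ka = be - S om` the velocity across it. If `y` is full given `nu`, `ka`, `om`, the
context, the time and the own frame, then the whole position is full given the context and the time:
for the other samples of the line the fibres of the projection along the frame of a reference are full.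
No hypothesis on the slopes.
-/

set_option autoImplicit false

namespace Pool.KG

open Finset Real
open Pool.Agent.H49.Ent Pool.Agent.H32.Dense Pool.STK Pool.KA Pool.PRM Pool.KVA Pool.M5 Pool.K2S
open Pool.S6U Pool.PLV

section frame

variable {Ω S' T' : Type} [Fintype Ω] {c : ℕ} {K : ℝ} {p : Ω → ℝ}

/-- **Full along the frame of a reference.** `y1`, `nu`, `ka` are the data at the reference, `y`, `z`
the position of the sample, `tau` the difference of the times. -/
theorem sf_frame (hp : IsLaw p) (hK : 0 ≤ K) {X : ℕ} {Z : Ω → T'} {y1 om tau y : Ω → ℝ}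
    {nu ka z S : Ω → Fin c → ℝ} (dtau : Det p Z tau) (dS : Det p Z S)
    (htau : ∀ ω, 0 < p ω → |tau ω| ≤ 1) (hS : ∀ ω, 0 < p ω → ∀ i, |S ω i| ≤ K)
    (hy : ∃ k : Ω → ℝ, Det p Z k ∧ ∀ ω, 0 < p ω → y ω = y1 ω + tau ω * om ω + k ω)
    (hz : ∃ k : Ω → Fin c → ℝ, Det p Z k ∧
      ∀ ω, 0 < p ω → ∀ i, z ω i - S ω i * y ω = nu ω i + tau ω * ka ω i + k ω i) :
    CH p (Uni.dg X y1) (fun ω => ((dgv X nu ω, dgv X ka ω), (Uni.dg X om ω, Z ω))) -
      (Real.log 7 + c * Real.log (4 * K + 11)) ≤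
      CH p (Uni.dg X y) (fun ω => (prj X y z S ω, Z ω)) := by
  have h0 := hp.nonneg
  obtain ⟨k, hk, ek⟩ := hy
  obtain ⟨l, hl, el⟩ := hz
  have h2 : (0 : ℝ) < 2 ^ X := by positivity
  -- the data
  obtain ⟨W, hW⟩ : ∃ W, W = fun ω => ((dgv X nu ω, dgv X ka ω), (Uni.dg X om ω, Z ω)) := ⟨_, rfl⟩
  obtain ⟨Y1, hY1⟩ : ∃ Y1, Y1 = Uni.dg X y1 := ⟨_, rfl⟩
  obtain ⟨Y, hY⟩ : ∃ Y, Y = Uni.dg X y := ⟨_, rfl⟩
  obtain ⟨P, hP⟩ : ∃ P, P = prj X y z S := ⟨_, rfl⟩
  rw [← hW, ← hY1, ← hY, ← hP]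
  -- the first coordinate at the reference
  have a1 : CH p Y1 (fun ω => (Y ω, W ω)) ≤ Real.log 7 := by
    have key := Pool.KG.CH_near hp (X := X) (x := y1) (W := fun ω => (Y ω, W ω)) (C := 2) (by
      intro ω ω' a a' e
      have e0 := Prod.ext_iff.mp e
      have e1 : Uni.dg X y ω = Uni.dg X y ω' := by
        have := e0.1
        rw [hY] at this
        exact this
      have e2 : W ω = W ω' := e0.2
      rw [hW] at e2
      have e3 := Prod.ext_iff.mp (Prod.ext_iff.mp e2).2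
      have e4 : Uni.dg X om ω = Uni.dg X om ω' := e3.1
      have d1 := dg_near e1
      have d2 := dg_near e4
      have d3 := dtau ω ω' a a' e3.2
      have d4 := hk ω ω' a a' e3.2
      have d5 := htau ω a
      have e : (2 : ℝ) ^ X * y1 ω - 2 ^ X * y1 ω' = (2 ^ X * y ω - 2 ^ X * y ω') +
          -(tau ω * (2 ^ X * om ω - 2 ^ X * om ω')) := by
        rw [ek ω a, ek ω' a', ← d3, ← d4]
        ring
      rw [e]
      have k6 : |-(tau ω * (2 ^ X * om ω - 2 ^ X * om ω'))| ≤ 1 * 1 := by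
        rw [abs_neg, abs_mul]
        exact mul_le_mul d5 d2 (abs_nonneg _) (by norm_num)
      refine (abs_add_le _ _).trans ?_
      linarith)
    rw [hY1]
    refine key.trans (le_of_eq ?_)
    norm_num
  -- the projection
  have a2 : CH p P W ≤ c * Real.log (4 * K + 11) := by
    have key := Plk.CH_vec_const (m := c) hp P W (c := 2 * K + 5) (by
      intro ω ω' a a' e i
      rw [hW] at e
      have e0 := Prod.ext_iff.mp e
      have e1 := Prod.ext_iff.mp e0.1
      have e3 := Prod.ext_iff.mp e0.2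
      have d1 : |(2 : ℝ) ^ X * nu ω i - 2 ^ X * nu ω' i| ≤ 1 := dgv_near e1.1 i
      have d2 : |(2 : ℝ) ^ X * ka ω i - 2 ^ X * ka ω' i| ≤ 1 := dgv_near e1.2 i
      have d3 := dtau ω ω' a a' e3.2
      have d4 := congrFun (hl ω ω' a a' e3.2) i
      have d5 := htau ω a
      have d6 := dS ω ω' a a' e3.2
      -- the projection of one sample
      have one : ∀ ω, 0 < p ω → |((dgv X z ω i : ℝ) - S ω i * (Uni.dg X y ω : ℝ)) -
          2 ^ X * (z ω i - S ω i * y ω)| ≤ K + 1 := by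
        intro ω a
        have f1 := Int.floor_le ((2 : ℝ) ^ X * z ω i)
        have f2 := Int.lt_floor_add_one ((2 : ℝ) ^ X * z ω i)
        have f3 := Int.floor_le ((2 : ℝ) ^ X * y ω)
        have f4 := Int.lt_floor_add_one ((2 : ℝ) ^ X * y ω)
        have g1 : |(dgv X z ω i : ℝ) - 2 ^ X * z ω i| ≤ 1 := by
          rw [abs_le]
          constructor
          · show -1 ≤ (⌊(2 : ℝ) ^ X * z ω i⌋ : ℝ) - 2 ^ X * z ω i
            linarith
          · show (⌊(2 : ℝ) ^ X * z ω i⌋ : ℝ) - 2 ^ X * z ω i ≤ 1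
            linarith
        have g2 : |(Uni.dg X y ω : ℝ) - 2 ^ X * y ω| ≤ 1 := by
          rw [abs_le]
          constructor
          · show -1 ≤ (⌊(2 : ℝ) ^ X * y ω⌋ : ℝ) - 2 ^ X * y ω
            linarith
          · show (⌊(2 : ℝ) ^ X * y ω⌋ : ℝ) - 2 ^ X * y ω ≤ 1
            linarith
        have g3 : |S ω i * ((Uni.dg X y ω : ℝ) - 2 ^ X * y ω)| ≤ K * 1 := by
          rw [abs_mul]
          exact mul_le_mul (hS ω a i) g2 (abs_nonneg _) hK
        have g4 : ((dgv X z ω i : ℝ) - S ω i * (Uni.dg X y ω : ℝ)) -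
          2 ^ X * (z ω i - S ω i * y ω) = ((dgv X z ω i : ℝ) - 2 ^ X * z ω i) +
            -(S ω i * ((Uni.dg X y ω : ℝ) - 2 ^ X * y ω)) := by ring
        rw [g4]
        refine (abs_add_le _ _).trans ?_
        rw [abs_neg]
        linarith
      have o1 := one ω a
      have o2 := one ω' a'
      have k1 : |(2 : ℝ) ^ X * (z ω i - S ω i * y ω) - 2 ^ X * (z ω' i - S ω' i * y ω')| ≤ 2 := by
        have e : (2 : ℝ) ^ X * (z ω i - S ω i * y ω) - 2 ^ X * (z ω' i - S ω' i * y ω') =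
            (2 ^ X * nu ω i - 2 ^ X * nu ω' i) + tau ω * (2 ^ X * ka ω i - 2 ^ X * ka ω' i) := by
          rw [el ω a, el ω' a', ← d3, ← d4]
          ring
        rw [e]
        have k6 : |tau ω * (2 ^ X * ka ω i - 2 ^ X * ka ω' i)| ≤ 1 * 1 := by
          rw [abs_mul]
          exact mul_le_mul d5 d2 (abs_nonneg _) (by norm_num)
        refine (abs_add_le _ _).trans ?_
        linarith
      have k2 : |((dgv X z ω i : ℝ) - S ω i * (Uni.dg X y ω : ℝ)) -
          ((dgv X z ω' i : ℝ) - S ω' i * (Uni.dg X y ω' : ℝ))| ≤ 2 * K + 4 := by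
        rw [abs_le] at o1 o2 k1 ⊢
        constructor <;> linarith [o1.1, o1.2, o2.1, o2.2, k1.1, k1.2]
      have k3 := Plk.floor_sub_lt k2
      rw [hP]
      refine le_trans (le_of_eq ?_) (k3.trans (le_of_eq (by ring)))
      rfl)
    refine key.trans (le_of_eq ?_)
    congr 2
    ring
  -- the chain
  have b1 := CH_le_add h0 Y1 Y W
  have b2 := CH_le_add h0 Y P W
  have b3 : CH p Y (fun ω => (P ω, W ω)) ≤ CH p Y (fun ω => (P ω, Z ω)) := by
    refine CH_mono_cond h0 ?_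
    rw [hW]
    intro ω ω' _ _ e
    have e1 := Prod.ext_iff.mp e
    have e2 := Prod.ext_iff.mp (Prod.ext_iff.mp e1.2).2
    exact Prod.ext e1.1 e2.2
  linarith

end frame

/-! ### The theorem -/

/-- The data. `sl` is the line, `b` the context, `L` the line up to `X` more digits, `G` the own
frame. -/
structure SVDat {Ω β Λ' γ Λ Θ : Type} [Fintype Ω] (c : ℕ) (K : ℝ) (p : Ω → ℝ) (b : Ω → β)
    (L : Ω → Λ') (G : Ω → γ) (sl : Ω → Λ) (T : Ω → Θ) (y0 om : Ω → ℝ)
    (z0 be : Ω → Fin c → ℝ) (th : Ω → ℝ) (S : Ω → Fin c → ℝ) (y : Ω → ℝ) (z : Ω → Fin c → ℝ) :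
    Prop where
  law : IsLaw p
  db : Det p sl b
  dL : Det p sl L
  dy0 : Det p (fun ω => (b ω, L ω)) y0
  dom : Det p (fun ω => (b ω, L ω)) om
  dz0 : Det p (fun ω => (b ω, L ω)) z0
  dbe : Det p (fun ω => (b ω, L ω)) be
  dth : Det p (fun ω => (b ω, T ω)) th
  dS : Det p (fun ω => (b ω, G ω)) S
  hth : ∀ ω, 0 < p ω → 0 ≤ th ω ∧ th ω < 1
  hS : ∀ ω, 0 < p ω → ∀ i, |S ω i| ≤ K
  hyb : ∀ ω, 0 < p ω → |y ω| ≤ K
  hy : ∃ k : Ω → ℝ, Det p (fun ω => (b ω, T ω)) k ∧
    ∀ ω, 0 < p ω → y ω = y0 ω + th ω * om ω + k ω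
  hz : ∃ k : Ω → Fin c → ℝ, Det p (fun ω => (b ω, T ω)) k ∧
    ∀ ω, 0 < p ω → ∀ i, z ω i = z0 ω i + th ω * be ω i + k ω i

/-- **Natural fullness from the fullness along the own frame**, pure form. -/
theorem sfv (c : ℕ) (ε K : ℝ) (hε : 0 < ε) (hK : 0 ≤ K) :
    ∃ (x₁ ε₂ ι : ℝ) (X₀ : ℕ), 0 < x₁ ∧ 0 < ε₂ ∧ 0 < ι ∧
    ∀ (Ω β Λ' γ Λ Θ : Type) [Fintype Ω] (p : Ω → ℝ) (b : Ω → β) (L : Ω → Λ') (G : Ω → γ)
      (sl : Ω → Λ) (T : Ω → Θ) (y0 om : Ω → ℝ) (z0 be : Ω → Fin c → ℝ) (th : Ω → ℝ)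
      (S : Ω → Fin c → ℝ) (y : Ω → ℝ) (z : Ω → Fin c → ℝ) (X : ℕ) (a : ℝ),
      SVDat c K p b L G sl T y0 om z0 be th S y z → X₀ ≤ X →
      dp (dbl p sl) (fun x => (T x.1, (G x.2, T x.2))) (fun x => L x.1) (fun x => b x.1) ≤
        ι * X →
      NStrE p sl S ((2 : ℝ) ^ (-(x₁ * X))) ε₂ →
      a ≤ CH p (Uni.dg X y) (fun ω => ((dgv X (fun ω i => z ω i - S ω i * y ω) ω,
        dgv X (fun ω i => be ω i - S ω i * om ω) ω), (Uni.dg X om ω, (G ω, (b ω, T ω))))) →
      (c + 1) * (a - ε * X * Real.log 2) ≤ CH p (blk X y z) (fun ω => (b ω, T ω)) := by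
  have l2 : 0 < Real.log 2 := Real.log_pos (by norm_num)
  have hc0 : (0 : ℝ) ≤ c := Nat.cast_nonneg c
  obtain ⟨e, he⟩ : ∃ e : ℝ, e = ε / 8 := ⟨_, rfl⟩
  have he0 : 0 < e := by
    rw [he]
    positivity
  obtain ⟨ι, hι⟩ : ∃ ι : ℝ, ι = e * Real.log 2 / (c + 1) := ⟨_, rfl⟩
  have hι0 : 0 < ι := by
    rw [hι]
    positivity
  have hι1 : (c + 1) * ι = e * Real.log 2 := by
    rw [hι]
    field_simp
  obtain ⟨C, hC⟩ : ∃ C : ℝ, C = Real.log 7 + c * Real.log (4 * K + 11) +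
    (c + 1) * Real.log (4 * (c + 2) + 1) + Real.log (2 * c + 3) +
    2 * e * Real.log (4 * (K + 1) + 1) := ⟨_, rfl⟩
  obtain ⟨X₁, hX₁⟩ := exists_nat_ge (C / (e * Real.log 2))
  refine ⟨e, min (e / 2) (e ^ 2 / 2), ι, X₁, he0, lt_min (by positivity) (by positivity), hι0, ?_⟩
  intro Ω β Λ' γ Λ Θ _ p b L G sl T y0 om z0 be th S y z X a hd hX htm hstr ha
  have hX0 : (0 : ℝ) ≤ X := Nat.cast_nonneg X
  have hp := hd.law.nonneg
  have hq := dbl_nonneg (b := sl) hp
  have P1 : ∀ {x}, 0 < dbl p sl x → 0 < p x.1 := fun h => (dbl_fst hp).pos hq h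
  have P2 : ∀ {x}, 0 < dbl p sl x → 0 < p x.2 := fun h => (dbl_snd hp).pos hq h
  have hlaw : IsLaw (dbl p sl) := ⟨hq, by rw [(dbl_fst hp).sum]; exact hd.law.sum_one⟩
  have B : ∀ {x}, 0 < dbl p sl x → b x.1 = b x.2 := fun h =>
    hd.db _ _ (P1 h) (P2 h) (dbl_eq hp h)
  have L' : ∀ {x}, 0 < dbl p sl x → L x.1 = L x.2 := fun h =>
    hd.dL _ _ (P1 h) (P2 h) (dbl_eq hp h)
  have bC : C ≤ e * Real.log 2 * X := by
    have h1 : (C / (e * Real.log 2) : ℝ) ≤ X := hX₁.trans (by exact_mod_cast hX)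
    rw [div_le_iff₀ (by positivity)] at h1
    linarith
  -- the frame of the reference
  have T2 : ∀ {α : Type} {f : Ω → α}, Det p (fun ω => (b ω, T ω)) f →
      Det (dbl p sl) (fun x => ((b x.1, T x.1), ((), (G x.2, T x.2)))) (fun x => f x.2) := by
    intro α f h x x' a a' e
    have e1 := Prod.ext_iff.mp e
    have e2 : b x.1 = b x'.1 := (Prod.ext_iff.mp e1.1).1
    have e3 : T x.2 = T x'.2 := (Prod.ext_iff.mp (Prod.ext_iff.mp e1.2).2).2
    refine h _ _ (P2 a) (P2 a') (Prod.ext ?_ e3)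
    show b x.2 = b x'.2
    rw [← B a, ← B a', e2]
  have T1 : ∀ {α : Type} {f : Ω → α}, Det p (fun ω => (b ω, T ω)) f →
      Det (dbl p sl) (fun x => ((b x.1, T x.1), ((), (G x.2, T x.2)))) (fun x => f x.1) := by
    intro α f h x x' a a' e
    exact h _ _ (P1 a) (P1 a') (Prod.ext_iff.mp e).1
  have G2 : ∀ {α : Type} {f : Ω → α}, Det p (fun ω => (b ω, G ω)) f →
      Det (dbl p sl) (fun x => ((b x.1, T x.1), ((), (G x.2, T x.2)))) (fun x => f x.2) := by
    intro α f h x x' a a' e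
    have e1 := Prod.ext_iff.mp e
    have e2 : b x.1 = b x'.1 := (Prod.ext_iff.mp e1.1).1
    have e3 : G x.2 = G x'.2 := (Prod.ext_iff.mp (Prod.ext_iff.mp e1.2).2).1
    refine h _ _ (P2 a) (P2 a') (Prod.ext ?_ e3)
    show b x.2 = b x'.2
    rw [← B a, ← B a', e2]
  obtain ⟨ky, hky, eky⟩ := hd.hy
  obtain ⟨kz, hkz, ekz⟩ := hd.hz
  have eq : ∀ {x}, 0 < dbl p sl x → y0 x.1 = y0 x.2 ∧ om x.1 = om x.2 ∧ z0 x.1 = z0 x.2 ∧
      be x.1 = be x.2 := by
    intro x h
    have e : (fun ω => (b ω, L ω)) x.1 = (fun ω => (b ω, L ω)) x.2 := Prod.ext (B h) (L' h)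
    exact ⟨hd.dy0 _ _ (P1 h) (P2 h) e, hd.dom _ _ (P1 h) (P2 h) e, hd.dz0 _ _ (P1 h) (P2 h) e,
      hd.dbe _ _ (P1 h) (P2 h) e⟩
  have fr := sf_frame (p := dbl p sl) hlaw hK (X := X)
    (Z := fun x : Ω × Ω => ((b x.1, T x.1), ((), (G x.2, T x.2))))
    (y1 := fun x => y x.2) (om := fun x => om x.2) (tau := fun x => th x.1 - th x.2)
    (y := fun x => y x.1) (nu := fun x i => z x.2 i - S x.2 i * y x.2)
    (ka := fun x i => be x.2 i - S x.2 i * om x.2) (z := fun x => z x.1) (S := fun x => S x.2)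
    (by
      intro x x' a a' e
      have e1 : th x.1 = th x'.1 := T1 hd.dth x x' a a' e
      have e2 : th x.2 = th x'.2 := T2 hd.dth x x' a a' e
      show th x.1 - th x.2 = th x'.1 - th x'.2
      rw [e1, e2])
    (G2 hd.dS)
    (by
      intro x h
      have h1 := hd.hth _ (P1 h)
      have h2 := hd.hth _ (P2 h)
      rw [abs_le]
      constructor <;> linarith [h1.1, h1.2, h2.1, h2.2])
    (fun x h => hd.hS _ (P2 h))
    ⟨fun x => ky x.1 - ky x.2, by
      intro x x' a a' e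
      have e1 : ky x.1 = ky x'.1 := T1 hky x x' a a' e
      have e2 : ky x.2 = ky x'.2 := T2 hky x x' a a' e
      show ky x.1 - ky x.2 = ky x'.1 - ky x'.2
      rw [e1, e2], by
      intro x h
      obtain ⟨q1, q2, q3, q4⟩ := eq h
      show y x.1 = y x.2 + (th x.1 - th x.2) * om x.2 + (ky x.1 - ky x.2)
      rw [eky _ (P1 h), eky _ (P2 h), q1, q2]
      ring⟩
    ⟨fun x i => kz x.1 i - kz x.2 i - S x.2 i * (ky x.1 - ky x.2), by
      intro x x' a a' e
      have e1 : ky x.1 = ky x'.1 := T1 hky x x' a a' e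
      have e2 : ky x.2 = ky x'.2 := T2 hky x x' a a' e
      have e3 : kz x.1 = kz x'.1 := T1 hkz x x' a a' e
      have e4 : kz x.2 = kz x'.2 := T2 hkz x x' a a' e
      have e5 : S x.2 = S x'.2 := G2 hd.dS x x' a a' e
      funext i
      show kz x.1 i - kz x.2 i - S x.2 i * (ky x.1 - ky x.2) =
        kz x'.1 i - kz x'.2 i - S x'.2 i * (ky x'.1 - ky x'.2)
      rw [e1, e2, e3, e4, e5], by
      intro x h i
      obtain ⟨q1, q2, q3, q4⟩ := eq h
      show z x.1 i - S x.2 i * y x.1 = z x.2 i - S x.2 i * y x.2 + (th x.1 - th x.2) *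
        (be x.2 i - S x.2 i * om x.2) + (kz x.1 i - kz x.2 i - S x.2 i * (ky x.1 - ky x.2))
      rw [eky _ (P1 h), eky _ (P2 h), ekz _ (P1 h), ekz _ (P2 h), q1, q2, q3, q4]
      ring⟩
  -- the fullness along the own frame of the reference given the time of the sample
  obtain ⟨N, hN⟩ : ∃ N : Ω → ℤ, N = Uni.dg X y := ⟨_, rfl⟩
  obtain ⟨V, hV⟩ : ∃ V, V = fun ω => ((dgv X (fun ω i => z ω i - S ω i * y ω) ω,
    dgv X (fun ω i => be ω i - S ω i * om ω) ω), Uni.dg X om ω) := ⟨_, rfl⟩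
  have f1 : a ≤ CH (dbl p sl) (fun x => N x.2) (fun x => (V x.2, (G x.2, (b x.2, T x.2)))) := by
    have g1 : CH (dbl p sl) (fun x => N x.2) (fun x => (V x.2, (G x.2, (b x.2, T x.2)))) =
        CH p N (fun ω => (V ω, (G ω, (b ω, T ω)))) :=
      (dbl_snd (b := sl) hp).CH N (fun ω => (V ω, (G ω, (b ω, T ω))))
    rw [g1]
    refine ha.trans (le_of_eq ?_)
    rw [hN, hV]
    refine CH_congr hp (fun _ _ _ _ h => (Prod.ext_iff.mp h).1)
      (fun _ _ _ _ h => (Prod.ext_iff.mp h).1) ?_ ?_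
    · intro ω ω' _ _ e
      simp only [Prod.mk.injEq] at e ⊢
      tauto
    · intro ω ω' _ _ e
      simp only [Prod.mk.injEq] at e ⊢
      tauto
  obtain ⟨c0, hc0e⟩ : ∃ c0, c0 = fun x : Ω × Ω => ((G x.2, T x.2), b x.1) := ⟨_, rfl⟩
  have f2 : CH (dbl p sl) (fun x => N x.2) (fun x => (V x.2, (G x.2, (b x.2, T x.2)))) =
      CH (dbl p sl) (fun x => N x.2) (fun x => (V x.2, c0 x)) := by
    rw [hc0e]
    refine CH_congr hq (fun _ _ _ _ h => (Prod.ext_iff.mp h).1)
      (fun _ _ _ _ h => (Prod.ext_iff.mp h).1) ?_ ?_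
    · intro x x' a a' e
      have h1 := B a
      have h2 := B a'
      simp only [Prod.mk.injEq] at e ⊢
      rw [h1, h2]
      tauto
    · intro x x' a a' e
      have h1 := B a
      have h2 := B a'
      simp only [Prod.mk.injEq] at e ⊢
      rw [h1, h2] at e
      tauto
  -- the position and the velocity at the reference are functions of the line
  have dL2 : ∀ x x', 0 < dbl p sl x → 0 < dbl p sl x' → L x.1 = L x'.1 → c0 x = c0 x' →
      N x.2 = N x'.2 ∧ V x.2 = V x'.2 := by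
    intro x x' a a' e1 e2
    rw [hc0e] at e2
    have e3 := Prod.ext_iff.mp e2
    have e4 := Prod.ext_iff.mp e3.1
    have e5 : b x.2 = b x'.2 := by
      rw [← B a, ← B a']
      exact e3.2
    have e6 : L x.2 = L x'.2 := by
      rw [← L' a, ← L' a', e1]
    have e7 : (fun ω => (b ω, L ω)) x.2 = (fun ω => (b ω, L ω)) x'.2 := Prod.ext e5 e6
    have e8 : (fun ω => (b ω, T ω)) x.2 = (fun ω => (b ω, T ω)) x'.2 := Prod.ext e5 e4.2
    have k1 := hd.dy0 _ _ (P2 a) (P2 a') e7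
    have k2 := hd.dom _ _ (P2 a) (P2 a') e7
    have k3 := hd.dz0 _ _ (P2 a) (P2 a') e7
    have k4 := hd.dbe _ _ (P2 a) (P2 a') e7
    have k5 := hd.dth _ _ (P2 a) (P2 a') e8
    have k6 := hky _ _ (P2 a) (P2 a') e8
    have k7 := hkz _ _ (P2 a) (P2 a') e8
    have k8 := hd.dS _ _ (P2 a) (P2 a')
      (show (fun ω => (b ω, G ω)) x.2 = (fun ω => (b ω, G ω)) x'.2 from Prod.ext e5 e4.1)
    have k9 : y x.2 = y x'.2 := by rw [eky _ (P2 a), eky _ (P2 a'), k1, k2, k5, k6]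
    have k10 : z x.2 = z x'.2 := by
      funext i
      rw [ekz _ (P2 a), ekz _ (P2 a'), k3, k4, k5, k7]
    rw [hN, hV]
    unfold Uni.dg dgv
    simp only [k9, k10, k8, k4, k2, and_self]
  -- the time of the sample
  have f3 : dp (dbl p sl) (fun x => N x.2) (fun x => T x.1) (fun x => (V x.2, c0 x)) ≤ ι * X := by
    have g1 := dp_add hq (fun x => N x.2) (fun x => V x.2) (fun x => T x.1) c0
    have g2 := dp_nonneg hq (fun x => V x.2) (fun x => T x.1) c0
    have g3 : dp (dbl p sl) (fun x => (N x.2, V x.2)) (fun x => T x.1) c0 ≤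
        dp (dbl p sl) (fun x => L x.1) (fun x => T x.1) c0 := by
      refine dp_mono hq ?_ (fun _ _ _ _ e => (Prod.ext_iff.mp e).1)
      intro x x' a a' e
      have e1 := Prod.ext_iff.mp e
      have e2 := dL2 x x' a a' e1.1 e1.2
      exact Prod.ext e2.1 e2.2
    have g4 := dp_add hq (fun x => T x.1) (fun x => (G x.2, T x.2)) (fun x => L x.1)
      (fun x => b x.1)
    have g5 := dp_nonneg hq (fun x => (G x.2, T x.2)) (fun x => L x.1) (fun x => b x.1)
    have g6 : dp (dbl p sl) (fun x => L x.1) (fun x => T x.1) c0 =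
        dp (dbl p sl) (fun x => T x.1) (fun x => L x.1)
          (fun x => ((G x.2, T x.2), b x.1)) := by
      rw [dp_symm hq, hc0e]
    linarith
  have f4 : CH (dbl p sl) (fun x => N x.2) (fun x => (V x.2, c0 x)) - ι * X ≤
      CH (dbl p sl) (Uni.dg X (fun x : Ω × Ω => y x.2))
        (fun x => ((dgv X (fun x : Ω × Ω => fun i => z x.2 i - S x.2 i * y x.2) x,
          dgv X (fun x : Ω × Ω => fun i => be x.2 i - S x.2 i * om x.2) x),
          (Uni.dg X (fun x : Ω × Ω => om x.2) x, ((b x.1, T x.1), ((), (G x.2, T x.2)))))) := by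
    have g1 : dp (dbl p sl) (fun x => N x.2) (fun x => T x.1) (fun x => (V x.2, c0 x)) =
      CH (dbl p sl) (fun x => N x.2) (fun x => (V x.2, c0 x)) -
        CH (dbl p sl) (fun x => N x.2) (fun x => (T x.1, (V x.2, c0 x))) := rfl
    have g2 : CH (dbl p sl) (fun x => N x.2) (fun x => (T x.1, (V x.2, c0 x))) ≤
      CH (dbl p sl) (Uni.dg X (fun x : Ω × Ω => y x.2))
        (fun x => ((dgv X (fun x : Ω × Ω => fun i => z x.2 i - S x.2 i * y x.2) x,
          dgv X (fun x : Ω × Ω => fun i => be x.2 i - S x.2 i * om x.2) x),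
          (Uni.dg X (fun x : Ω × Ω => om x.2) x, ((b x.1, T x.1), ((), (G x.2, T x.2)))))) := by
      rw [hN]
      refine CH_mono_cond hq ?_
      intro x x' a a' e
      rw [hV, hc0e] at e
      simp only [Prod.mk.injEq] at e
      obtain ⟨e1, ⟨⟨e2, e3⟩, e4⟩, ⟨e5, e6⟩, e7⟩ := e
      exact Prod.ext (Prod.ext e2 e3) (Prod.ext e4 (Prod.ext (Prod.ext e7 e1)
        (Prod.ext rfl (Prod.ext e5 e6))))
    linarith
  -- the reference and the position
  have hMI : MI (dbl p sl) (blk X (fun x => y x.1) (fun x => z x.1))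
      (fun x => ((), (G x.2, T x.2))) (fun x => (b x.1, T x.1)) ≤ ι * X := by
    rw [MI_eq_dp hq]
    have g1 : dp (dbl p sl) (blk X (fun x => y x.1) (fun x => z x.1))
        (fun x => ((), (G x.2, T x.2))) (fun x => (b x.1, T x.1)) ≤
        dp (dbl p sl) (fun x => L x.1) (fun x => (G x.2, T x.2)) (fun x => (b x.1, T x.1)) := by
      refine dp_mono hq ?_ ?_
      · intro x x' a a' e
        have e1 := Prod.ext_iff.mp e
        have e2 := Prod.ext_iff.mp e1.2
        have e5 : b x.1 = b x'.1 := e2.1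
        have e6 : L x.1 = L x'.1 := e1.1
        have e7 : (fun ω => (b ω, L ω)) x.1 = (fun ω => (b ω, L ω)) x'.1 := Prod.ext e5 e6
        have e8 : (fun ω => (b ω, T ω)) x.1 = (fun ω => (b ω, T ω)) x'.1 := Prod.ext e5 e2.2
        have k1 := hd.dy0 _ _ (P1 a) (P1 a') e7
        have k2 := hd.dom _ _ (P1 a) (P1 a') e7
        have k3 := hd.dz0 _ _ (P1 a) (P1 a') e7
        have k4 := hd.dbe _ _ (P1 a) (P1 a') e7
        have k5 := hd.dth _ _ (P1 a) (P1 a') e8
        have k6 := hky _ _ (P1 a) (P1 a') e8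
        have k7 := hkz _ _ (P1 a) (P1 a') e8
        have k9 : y x.1 = y x'.1 := by rw [eky _ (P1 a), eky _ (P1 a'), k1, k2, k5, k6]
        have k10 : z x.1 = z x'.1 := by
          funext i
          rw [ekz _ (P1 a), ekz _ (P1 a'), k3, k4, k5, k7]
        unfold blk Uni.dg dgv
        simp only [k9, k10]
      · intro x x' _ _ e
        exact Prod.ext rfl (Prod.ext_iff.mp e).1
    have g2 := dp_add hq (fun x => (G x.2, T x.2)) (fun x => T x.1) (fun x => L x.1)
      (fun x => b x.1)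
    have g3 := dp_nonneg hq (fun x => T x.1) (fun x => L x.1) (fun x => b x.1)
    have g4 : dp (dbl p sl) (fun x => ((G x.2, T x.2), T x.1)) (fun x => L x.1)
        (fun x => b x.1) ≤ dp (dbl p sl) (fun x => (T x.1, (G x.2, T x.2))) (fun x => L x.1)
        (fun x => b x.1) := by
      refine dp_mono hq ?_ (fun _ _ _ _ e => (Prod.ext_iff.mp e).1)
      intro x x' _ _ e
      have e1 := Prod.ext_iff.mp (Prod.ext_iff.mp e).1
      exact Prod.ext e1.2 e1.1
    have g5 : dp (dbl p sl) (fun x => L x.1) (fun x => (G x.2, T x.2))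
        (fun x => (b x.1, T x.1)) = dp (dbl p sl) (fun x => (G x.2, T x.2)) (fun x => L x.1)
        (fun x => (T x.1, b x.1)) := by
      rw [dp_symm hq]
      exact dp_congr_cond hq
        (fun _ _ _ _ e => Prod.ext (Prod.ext_iff.mp e).2 (Prod.ext_iff.mp e).1)
        (fun _ _ _ _ e => Prod.ext (Prod.ext_iff.mp e).2 (Prod.ext_iff.mp e).1)
    linarith
  -- the references are not in a strip
  have h6 := ref_strip hd.law sl (fun ω => ((b ω, T ω), blk X y z ω)) S he0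
    (min_le_left _ _) (min_le_right _ _) hstr
  have hgd : GD K (dbl p sl) (fun x => b x.1) (fun _ => ()) (fun x => (G x.2, T x.2))
      (fun x => S x.2) (fun x => y x.1) := by
    refine ⟨hlaw, ?_, fun x h => hd.hyb _ (P1 h)⟩
    intro x x' a a' e
    have e1 := Prod.ext_iff.mp e
    have e2 : b x.1 = b x'.1 := (Prod.ext_iff.mp e1.1).1
    have e3 : G x.2 = G x'.2 := (Prod.ext_iff.mp e1.2).1
    refine hd.dS _ _ (P2 a) (P2 a') (Prod.ext ?_ e3)
    show b x.2 = b x'.2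
    rw [← B a, ← B a', e2]
  have key := plv_auxg hK (x₀ := e) (ε₁ := e) (T := fun x : Ω × Ω => T x.1)
    (z := fun x : Ω × Ω => z x.1) (X := X) hgd hMI h6 he0.le he0.le
    (a := a - ι * X - (Real.log 7 + c * Real.log (4 * K + 11))) (by linarith)
  have e1 : CH (dbl p sl) (blk X (fun x => y x.1) (fun x => z x.1)) (fun x => (b x.1, T x.1)) =
      CH p (blk X y z) (fun ω => (b ω, T ω)) :=
    (dbl_fst (b := sl) hp).CH (blk X y z) (fun ω => (b ω, T ω))
  rw [e1] at key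
  refine le_trans ?_ key
  refine mul_le_mul_of_nonneg_left ?_ (by linarith)
  have h7 : (c + 1) * ι * X = e * Real.log 2 * X := by rw [hι1]
  have h8 : ε = 8 * e := by rw [he]; ring
  have h9 : 0 ≤ e * Real.log 2 * X := by positivity
  rw [h8]
  linarith

end Pool.KG
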